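import Pool.Agent.L0h89.FK.Tools

/-! # A: the part where the rest is large -/

set_option autoImplicit false

open MeasureTheory Set Filter Topology
open scoped ENNReal RealInnerProductSpace

namespace Pool.Agent.L0h89.FK.A

/-- the integral over the jump size -/
lemma jump_int (s : ℝ) (hs : 0 < s) (hs1 : s < 1) (c : ℝ) (hc : 0 < c) :
    ∫⁻ r, ENNReal.ofReal (r / (c + r) * r ^ (-((1 - s) / 2))) ∂(lev s) ≤
      ENNReal.ofReal (kap s * (2 / (1 - s) + 2 / (1 + s)) * c ^ (-((1 + s) / 2))) := by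
  have hk := kap_pos hs hs1
  have h1s : 0 < 1 - s := by linarith
  have h2s : 0 < 1 + s := by linarith
  rw [lintegral_lev, ← Ioc_union_Ioi_eq_Ioi hc.le]
  refine (lintegral_union_le _ _ _).trans ?_
  have e1 : ∀ r : ℝ, 0 < r → r ^ (-1 - s) * (r / (c + r) * r ^ (-((1 - s) / 2))) =
      r ^ (-((1 + s) / 2)) / (c + r) := by
    intro r hr
    have : r ^ (-1 - s) * r * r ^ (-((1 - s) / 2)) = r ^ (-((1 + s) / 2)) := by
      nth_rewrite 2 [← Real.rpow_one r]
      rw [← Real.rpow_add hr, ← Real.rpow_add hr]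
      congr 1
      ring
    rw [← this]
    have : c + r ≠ 0 := by positivity
    field_simp
  have b1 : ∫⁻ r in Ioc 0 c, ENNReal.ofReal (kap s * r ^ (-1 - s)) *
      ENNReal.ofReal (r / (c + r) * r ^ (-((1 - s) / 2))) ≤
      ENNReal.ofReal (kap s * (2 / (1 - s)) * c ^ (-((1 + s) / 2))) := by
    calc _ ≤ ∫⁻ r in Ioc 0 c, ENNReal.ofReal (kap s * c⁻¹) * ENNReal.ofReal (r ^ (-((1 + s) / 2))) := by
          apply setLIntegral_mono (by fun_prop)
          intro r hr
          have hr0 : 0 < r := hr.1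
          rw [← ENNReal.ofReal_mul (by positivity), ← ENNReal.ofReal_mul (by positivity)]
          apply ENNReal.ofReal_le_ofReal
          rw [mul_assoc, e1 r hr0, mul_assoc]
          apply mul_le_mul_of_nonneg_left _ hk.le
          rw [div_eq_inv_mul]
          apply mul_le_mul_of_nonneg_right _ (by positivity)
          apply inv_anti₀ hc
          linarith
      _ = ENNReal.ofReal (kap s * (2 / (1 - s)) * c ^ (-((1 + s) / 2))) := by
          rw [lintegral_const_mul _ (by fun_prop), lintegral_Ioc_rpow _ _ (by linarith) hc.le,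
            ← ENNReal.ofReal_mul (by positivity)]
          congr 1
          have e2 : -((1 + s) / 2) + 1 = (1 - s) / 2 := by ring
          have e3 : c ^ ((1 - s) / 2) = c * c ^ (-((1 + s) / 2)) := by
            nth_rewrite 2 [← Real.rpow_one c]
            rw [← Real.rpow_add hc]
            congr 1
            ring
          rw [e2, e3]
          field_simp
  have b2 : ∫⁻ r in Ioi c, ENNReal.ofReal (kap s * r ^ (-1 - s)) *
      ENNReal.ofReal (r / (c + r) * r ^ (-((1 - s) / 2))) ≤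
      ENNReal.ofReal (kap s * (2 / (1 + s)) * c ^ (-((1 + s) / 2))) := by
    calc _ ≤ ∫⁻ r in Ioi c, ENNReal.ofReal (kap s) * ENNReal.ofReal (r ^ (-((1 + s) / 2) - 1)) := by
          apply setLIntegral_mono (by fun_prop)
          intro r hr
          have hr0 : 0 < r := hc.trans hr
          rw [← ENNReal.ofReal_mul (by positivity), ← ENNReal.ofReal_mul (by positivity)]
          apply ENNReal.ofReal_le_ofReal
          rw [mul_assoc, e1 r hr0]
          apply mul_le_mul_of_nonneg_left _ hk.le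
          rw [Real.rpow_sub_one hr0.ne']
          apply div_le_div_of_nonneg_left (by positivity) hr0
          linarith
      _ = ENNReal.ofReal (kap s * (2 / (1 + s)) * c ^ (-((1 + s) / 2))) := by
          rw [lintegral_const_mul _ (by fun_prop), lintegral_Ioi_rpow _ _ (by linarith) hc,
            ← ENNReal.ofReal_mul hk.le]
          congr 1
          have e2 : -((1 + s) / 2) - 1 + 1 = -((1 + s) / 2) := by ring
          rw [e2, neg_div_neg_eq]
          field_simp
  refine (add_le_add b1 b2).trans ?_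
  rw [← ENNReal.ofReal_add (by positivity) (by positivity)]
  apply ENNReal.ofReal_le_ofReal
  apply le_of_eq
  ring

/-- the integral over `τ` -/
lemma tau_int (s : ℝ) (hs : 0 < s) (hs1 : s < 1) (t : ℝ) (ht : 0 < t) (β : ℝ)
    (hβ0 : 0 ≤ β) (hβt : β ≤ t) :
    ∫⁻ τ in Icc (0 : ℝ) t, ENNReal.ofReal (|τ - β| ^ (-(1 - s))) ≤
      ENNReal.ofReal (2 * t ^ s / s) := by
  set F : ℝ → ℝ≥0∞ := (Ioc (0 : ℝ) t).indicator (fun y => ENNReal.ofReal (y ^ (-(1 - s)))) with hF
  have hFm : Measurable F := Measurable.indicator (by fun_prop) measurableSet_Ioc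
  have hFint : ∫⁻ y, F y = ENNReal.ofReal (t ^ s / s) := by
    rw [hF, lintegral_indicator measurableSet_Ioc, lintegral_Ioc_rpow _ _ (by linarith) ht.le]
    congr 2
    · congr 1; ring
    · ring
  calc ∫⁻ τ in Icc (0 : ℝ) t, ENNReal.ofReal (|τ - β| ^ (-(1 - s)))
      ≤ ∫⁻ τ in Icc (0 : ℝ) t, (F (τ - β) + F (β - τ)) := by
        apply setLIntegral_mono (by fun_prop)
        intro τ hτ
        rcases lt_trichotomy τ β with h | h | h
        · have h1 : |τ - β| = β - τ := by rw [abs_of_neg (by linarith)]; ring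
          rw [h1, hF]
          have h2 : β - τ ∈ Ioc (0 : ℝ) t := ⟨by linarith, by linarith [hτ.1]⟩
          rw [indicator_of_mem h2]
          exact le_add_self
        · rw [h, sub_self, abs_zero, Real.zero_rpow (by linarith), ENNReal.ofReal_zero]
          exact zero_le
        · have h1 : |τ - β| = τ - β := abs_of_pos (by linarith)
          rw [h1, hF]
          have h2 : τ - β ∈ Ioc (0 : ℝ) t := ⟨by linarith, by linarith [hτ.2]⟩
          rw [indicator_of_mem h2]
          exact le_self_add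
    _ ≤ ∫⁻ τ, (F (τ - β) + F (β - τ)) := setLIntegral_le_lintegral _ _
    _ = ENNReal.ofReal (t ^ s / s) + ENNReal.ofReal (t ^ s / s) := by
        rw [lintegral_add_left (by fun_prop), lintegral_sub_right_eq_self F β,
          lintegral_sub_left_eq_self F β, hFint]
    _ = ENNReal.ofReal (2 * t ^ s / s) := by
        rw [← ENNReal.ofReal_add (by positivity) (by positivity)]
        congr 1
        ring

/-- the bound for `gr` -/
lemma gr_bound {s t : ℝ} (hs1 : s < 1) (ht : 0 < t) (d : ℕ) (hd1 : 1 ≤ d) (hs : 0 < s) (C : ℝ)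
    (hC : ∀ x : ℝ, 0 < x → Real.exp (-x) ≤ C * x ^ (-(((d : ℝ) - 1 + s) / 2)))
    (hC0 : 0 < C) (M : Mat) (hM : M ∈ cone t)
    (hd : 0 < det M) (R : ℝ) (hR : 0 < R) (τ₀ r τ : ℝ) (hr : 0 < r)
    (hne : τ ≠ M.2.1 / M.2.2) :
    gr d (M + J (r, τ)) R τ₀ 0 ≤
      C * 4 ^ (((d : ℝ) - 1 + s) / 2) * R ^ (-((d : ℝ) - 1 + s)) *
        th M ^ (-(((d : ℝ) - 1 + s) / 2)) * M.2.2 ^ (-((1 - s) / 2)) * r ^ (-((1 - s) / 2)) *
        |τ - M.2.1 / M.2.2| ^ (-(1 - s)) := by
  have hc := c_pos ht hM hd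
  have hQ := Q_pos ht hM hd τ
  have hth := th_pos ht hM hd
  set k := ((d : ℝ) - 1 + s) / 2 with hk
  have hd1' : (1 : ℝ) ≤ d := by exact_mod_cast hd1
  have hk0 : 0 < k := by rw [hk]; linarith
  set β := M.2.1 / M.2.2 with hβ
  have hyne : τ - β ≠ 0 := sub_ne_zero.2 hne
  have hypos : 0 < |τ - β| := abs_pos.2 hyne
  set D := det (M + J (r, τ)) with hD
  have hDe : D = (M.2.2 + r) * th M + r * M.2.2 * (τ - β) ^ 2 := by
    rw [hD, det_add_J]
    have h1 : det M = M.2.2 * th M := by unfold th; field_simp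
    have h2 : Q τ M = th M + M.2.2 * (τ - β) ^ 2 := by
      have := c_mul_Q τ M
      have h3 : M.2.2 * (th M + M.2.2 * (τ - β) ^ 2) = (M.2.2 * τ - M.2.1) ^ 2 + det M := by
        rw [h1, hβ]; field_simp; ring
      have h4 : M.2.2 * Q τ M = M.2.2 * (th M + M.2.2 * (τ - β) ^ 2) := by rw [this, h3]
      exact mul_left_cancel₀ hc.ne' h4
    rw [h2, h1]; ring
  have hsum : 0 < M.2.2 + r := by positivity
  have hDpos : 0 < D := by rw [hDe]; positivity
  have hD1 : (M.2.2 + r) * th M ≤ D := by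
    rw [hDe]
    have : 0 ≤ r * M.2.2 * (τ - β) ^ 2 := by positivity
    linarith
  have hD2 : r * M.2.2 * |τ - β| ^ 2 ≤ D := by
    rw [hDe, sq_abs]
    have : 0 ≤ (M.2.2 + r) * th M := by positivity
    linarith
  have hcr : (M + J (r, τ)).2.2 = M.2.2 + r := rfl
  have hid := c_mul_Q τ₀ (M + J (r, τ))
  rw [hcr, ← hD] at hid
  have hexp : R ^ 2 / (4 * (M.2.2 + r)) ≤ R ^ 2 * Q τ₀ (M + J (r, τ)) / (4 * D) := by
    rw [div_le_div_iff₀ (by positivity) (by positivity)]
    have h1 : D ≤ (M.2.2 + r) * Q τ₀ (M + J (r, τ)) := by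
      rw [hid]
      nlinarith [sq_nonneg ((M.2.2 + r) * τ₀ - (M + J (r, τ)).2.1)]
    nlinarith [sq_nonneg R]
  have hx : 0 < R ^ 2 / (4 * (M.2.2 + r)) := by positivity
  have h1 : (4 * Real.pi) ^ (-(d : ℝ)) ≤ 1 := by
    apply Real.rpow_le_one_of_one_le_of_nonpos
    · have := Real.pi_gt_three; linarith
    · linarith
  have h2 : D ^ (-((d : ℝ) / 2)) ≤ ((M.2.2 + r) * th M) ^ (-k) *
      (r * M.2.2 * |τ - β| ^ 2) ^ (-((1 - s) / 2)) := by
    have e : -((d : ℝ) / 2) = -k + -((1 - s) / 2) := by rw [hk]; ring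
    rw [e, Real.rpow_add hDpos]
    apply mul_le_mul
    · exact Real.rpow_le_rpow_of_nonpos (by positivity) hD1 (by linarith)
    · exact Real.rpow_le_rpow_of_nonpos (by positivity) hD2 (by linarith)
    · positivity
    · positivity
  have h3 : Real.exp (-(R ^ 2 * Q τ₀ (M + J (r, τ)) / (4 * D))) ≤
      C * (R ^ 2 / (4 * (M.2.2 + r))) ^ (-k) :=
    (Real.exp_le_exp.2 (neg_le_neg hexp)).trans (hC _ hx)
  unfold gr
  rw [← hD]
  have e1 : (M + J (r, τ)).2.2 * (0 : ℝ) ^ 2 + R ^ 2 * Q τ₀ (M + J (r, τ)) =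
      R ^ 2 * Q τ₀ (M + J (r, τ)) := by ring
  rw [e1]
  calc (4 * Real.pi) ^ (-(d : ℝ)) * D ^ (-((d : ℝ) / 2)) *
        Real.exp (-(R ^ 2 * Q τ₀ (M + J (r, τ)) / (4 * D)))
      ≤ 1 * (((M.2.2 + r) * th M) ^ (-k) * (r * M.2.2 * |τ - β| ^ 2) ^ (-((1 - s) / 2))) *
          (C * (R ^ 2 / (4 * (M.2.2 + r))) ^ (-k)) := by
        apply mul_le_mul _ h3 (Real.exp_pos _).le (by positivity)
        exact mul_le_mul h1 h2 (by positivity) (by norm_num)
    _ = _ := by
        rw [Real.mul_rpow hsum.le hth.le, Real.mul_rpow (by positivity) (by positivity),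
          Real.mul_rpow hr.le hc.le, Real.div_rpow (by positivity) (by positivity),
          Real.mul_rpow (by norm_num) hsum.le]
        have e2 : (|τ - β| ^ 2) ^ (-((1 - s) / 2)) = |τ - β| ^ (-(1 - s)) := by
          rw [← Real.rpow_natCast, ← Real.rpow_mul hypos.le]
          congr 1
          push_cast
          ring
        have e3 : (R ^ 2) ^ (-k) = R ^ (-((d : ℝ) - 1 + s)) := by
          rw [← Real.rpow_natCast, ← Real.rpow_mul hR.le]
          congr 1
          rw [hk]
          push_cast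
          ring
        have e4 : (4 : ℝ) ^ (-k) = (4 ^ k)⁻¹ := Real.rpow_neg (by norm_num) k
        rw [e2, e3, e4]
        have h5 : (M.2.2 + r) ^ (-k) ≠ 0 := by positivity
        field_simp

theorem main (hN1 : StmtN1) (hN2 : StmtN2) : StmtA := by
  intro s t P hs hs1 ht hP d hd1
  have hd1' : (1 : ℝ) ≤ d := by exact_mod_cast hd1
  obtain ⟨hpos, -⟩ := hN1 s t P hs hs1 ht hP
  set k := ((d : ℝ) - 1 + s) / 2 with hk
  have hk0 : 0 < k := by rw [hk]; linarith
  obtain ⟨C, hC0, hC⟩ := exp_le_rpow k hk0.le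
  have hmom := hN2 s t P hs hs1 ht hP k (3 * s / 4) hk0.le (by linarith) (by linarith)
  set m : ℝ≥0∞ := ∫⁻ M, ENNReal.ofReal (M.2.2 ^ (3 * s / 4) * th M ^ (-k)) ∂P with hm
  have hkap := kap_pos hs hs1
  have h1s : 0 < 1 - s := by linarith
  set C1 : ℝ := C * 4 ^ k * (kap s * (2 / (1 - s) + 2 / (1 + s))) * (2 * t ^ s / s) with hC1
  have hC1pos : 0 < C1 := by positivity
  -- the inner bound
  have inner : ∀ M : Mat, M ∈ cone t → 0 < M.2.2 → 0 < det M → ∀ R : ℝ, 0 < R → ∀ τ₀ : ℝ,
      ∫⁻ p, ENNReal.ofReal (p.1 / (M.2.2 + p.1) * gr d (M + J p) R τ₀ 0) ∂(rho s t) ≤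
      ENNReal.ofReal (C1 * R ^ (-((d : ℝ) - 1 + s)) * (th M ^ (-k) * M.2.2⁻¹)) := by
    intro M hM hc hdet R hR τ₀
    have hth := th_pos ht hM hdet
    have hβ0 : 0 ≤ M.2.1 / M.2.2 := div_nonneg hM.1 hc.le
    have hβt : M.2.1 / M.2.2 ≤ t := by
      rw [div_le_iff₀ hc]; exact hM.2.1
    have hnull : ∀ᵐ p ∂(rho s t), p.2 ≠ M.2.1 / M.2.2 ∧ 0 < p.1 := by
      have h1 : ∀ᵐ p ∂(rho s t), p.2 ≠ M.2.1 / M.2.2 := by
        have : ∀ᵐ τ ∂(volume.restrict (Icc 0 t)), τ ≠ M.2.1 / M.2.2 := by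
          apply ae_restrict_of_ae
          rw [ae_iff]
          have : {τ : ℝ | ¬ τ ≠ M.2.1 / M.2.2} = {M.2.1 / M.2.2} := by ext; simp
          rw [this]
          exact measure_singleton _
        exact Measure.quasiMeasurePreserving_snd.ae this
      have h2 : ∀ᵐ p ∂(rho s t), 0 < p.1 := by
        have : ∀ᵐ r ∂(lev s), 0 < r := by
          unfold lev
          apply (withDensity_absolutelyContinuous _ _).ae_le
          exact ae_restrict_mem measurableSet_Ioi
        exact Measure.quasiMeasurePreserving_fst.ae this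
      filter_upwards [h1, h2] with p hp1 hp2 using ⟨hp1, hp2⟩
    set pre : ℝ := C * 4 ^ k * R ^ (-((d : ℝ) - 1 + s)) * th M ^ (-k) * M.2.2 ^ (-((1 - s) / 2))
      with hpre
    have hpre0 : 0 ≤ pre := by positivity
    calc ∫⁻ p, ENNReal.ofReal (p.1 / (M.2.2 + p.1) * gr d (M + J p) R τ₀ 0) ∂(rho s t)
        ≤ ∫⁻ p, ENNReal.ofReal pre *
            (ENNReal.ofReal (p.1 / (M.2.2 + p.1) * p.1 ^ (-((1 - s) / 2))) *
              ENNReal.ofReal (|p.2 - M.2.1 / M.2.2| ^ (-(1 - s)))) ∂(rho s t) := by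
          apply lintegral_mono_ae
          filter_upwards [hnull] with p hp
          obtain ⟨r, τ⟩ := p
          obtain ⟨hne, hr⟩ := hp
          simp only at hne hr ⊢
          have hb := gr_bound hs1 ht d hd1 hs C hC hC0 M hM hdet R hR τ₀ r τ hr hne
          rw [← ENNReal.ofReal_mul (by positivity), ← ENNReal.ofReal_mul hpre0]
          apply ENNReal.ofReal_le_ofReal
          calc r / (M.2.2 + r) * gr d (M + J (r, τ)) R τ₀ 0
              ≤ r / (M.2.2 + r) * (C * 4 ^ (((d : ℝ) - 1 + s) / 2) * R ^ (-((d : ℝ) - 1 + s)) *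
                th M ^ (-(((d : ℝ) - 1 + s) / 2)) * M.2.2 ^ (-((1 - s) / 2)) *
                r ^ (-((1 - s) / 2)) * |τ - M.2.1 / M.2.2| ^ (-(1 - s))) :=
                mul_le_mul_of_nonneg_left hb (by positivity)
            _ = _ := by rw [hpre, hk]; ring
      _ = ENNReal.ofReal pre * ((∫⁻ r, ENNReal.ofReal (r / (M.2.2 + r) *
            r ^ (-((1 - s) / 2))) ∂(lev s)) *
            ∫⁻ τ in Icc (0 : ℝ) t, ENNReal.ofReal (|τ - M.2.1 / M.2.2| ^ (-(1 - s)))) := by
          rw [lintegral_const_mul' _ _ ENNReal.ofReal_ne_top]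
          congr 1
          unfold rho
          have h1 : Measurable (fun r : ℝ => ENNReal.ofReal (r / (M.2.2 + r) *
            r ^ (-((1 - s) / 2)))) := by fun_prop
          have h2 : Measurable (fun τ : ℝ => ENNReal.ofReal
            (|τ - M.2.1 / M.2.2| ^ (-(1 - s)))) := by fun_prop
          exact lintegral_prod_mul h1.aemeasurable h2.aemeasurable
      _ ≤ ENNReal.ofReal pre * (ENNReal.ofReal (kap s * (2 / (1 - s) + 2 / (1 + s)) *
            M.2.2 ^ (-((1 + s) / 2))) * ENNReal.ofReal (2 * t ^ s / s)) := by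
          gcongr
          · exact jump_int s hs hs1 M.2.2 hc
          · exact tau_int s hs hs1 t ht _ hβ0 hβt
      _ = _ := by
          rw [← ENNReal.ofReal_mul (by positivity), ← ENNReal.ofReal_mul hpre0]
          congr 1
          have e : M.2.2 ^ (-((1 - s) / 2)) * M.2.2 ^ (-((1 + s) / 2)) = M.2.2⁻¹ := by
            rw [← Real.rpow_add hc, ← Real.rpow_neg_one]
            congr 1
            ring
          rw [hpre, hC1, ← e]
          ring
  -- the bound for the expression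
  have hbound : ∀ R : ℝ, 1 ≤ R → ∀ τ₀ : ℝ, ENNReal.ofReal (R ^ (d + 1 + 2 * s)) *
      ∫⁻ M, ∫⁻ p, (if R ^ (2 - s / 4) < M.2.2 then
        ENNReal.ofReal (p.1 / (M.2.2 + p.1) * gr d (M + J p) R τ₀ 0) else 0) ∂(rho s t) ∂P ≤
      ENNReal.ofReal (C1 * R ^ (-(s / 16))) * m := by
    intro R hR τ₀
    have hR0 : 0 < R := by linarith
    set T := R ^ (2 - s / 4) with hT
    have hTpos : 0 < T := by positivity
    have h1 : ∫⁻ M, ∫⁻ p, (if T < M.2.2 then
        ENNReal.ofReal (p.1 / (M.2.2 + p.1) * gr d (M + J p) R τ₀ 0) else 0) ∂(rho s t) ∂P ≤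
        ENNReal.ofReal (C1 * R ^ (-((d : ℝ) - 1 + s)) * T ^ (-(1 + 3 * s / 4))) * m := by
      rw [hm, ← lintegral_const_mul' _ _ ENNReal.ofReal_ne_top]
      apply lintegral_mono_ae
      filter_upwards [hpos, hP.supp] with M hMpos hM
      by_cases hTM : T < M.2.2
      · simp only [if_pos hTM]
        refine (inner M hM hMpos.1 hMpos.2 R hR0 τ₀).trans ?_
        rw [← ENNReal.ofReal_mul (by positivity)]
        apply ENNReal.ofReal_le_ofReal
        have hth := th_pos ht hM hMpos.2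
        have e : M.2.2⁻¹ ≤ T ^ (-(1 + 3 * s / 4)) * M.2.2 ^ (3 * s / 4) := by
          have e1 : M.2.2⁻¹ = M.2.2 ^ (-(1 + 3 * s / 4)) * M.2.2 ^ (3 * s / 4) := by
            rw [← Real.rpow_add hMpos.1, ← Real.rpow_neg_one]
            congr 1
            ring
          rw [e1]
          apply mul_le_mul_of_nonneg_right _ (Real.rpow_nonneg hMpos.1.le _)
          exact Real.rpow_le_rpow_of_nonpos hTpos hTM.le (by linarith)
        calc C1 * R ^ (-((d : ℝ) - 1 + s)) * (th M ^ (-k) * M.2.2⁻¹)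
            ≤ C1 * R ^ (-((d : ℝ) - 1 + s)) *
                (th M ^ (-k) * (T ^ (-(1 + 3 * s / 4)) * M.2.2 ^ (3 * s / 4))) := by
              apply mul_le_mul_of_nonneg_left _ (by positivity)
              exact mul_le_mul_of_nonneg_left e (by positivity)
          _ = _ := by ring
      · simp only [if_neg hTM, lintegral_zero]
        exact zero_le
    calc _ ≤ ENNReal.ofReal (R ^ (d + 1 + 2 * s)) *
          (ENNReal.ofReal (C1 * R ^ (-((d : ℝ) - 1 + s)) * T ^ (-(1 + 3 * s / 4))) * m) := by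
          gcongr
      _ = ENNReal.ofReal (C1 * (R ^ (d + 1 + 2 * s) * R ^ (-((d : ℝ) - 1 + s)) *
            T ^ (-(1 + 3 * s / 4)))) * m := by
          rw [← mul_assoc, ← ENNReal.ofReal_mul (by positivity)]
          congr 2
          ring
      _ ≤ ENNReal.ofReal (C1 * R ^ (-(s / 16))) * m := by
          gcongr
          rw [hT, ← Real.rpow_mul hR0.le, ← Real.rpow_add hR0, ← Real.rpow_add hR0]
          apply Real.rpow_le_rpow_of_exponent_le hR
          nlinarith
  have hlim : Tendsto (fun q : ℝ × ℝ => ENNReal.ofReal (C1 * q.1 ^ (-(s / 16))) * m)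
      (atTop ×ˢ ⊤) (𝓝 0) := by
    have h1 : Tendsto (fun R : ℝ => ENNReal.ofReal (C1 * R ^ (-(s / 16)))) atTop (𝓝 0) := by
      rw [← ENNReal.ofReal_zero]
      apply ENNReal.tendsto_ofReal
      have := (tendsto_rpow_neg_atTop (y := s / 16) (by positivity)).const_mul C1
      rwa [mul_zero] at this
    have h2 : Tendsto (fun R : ℝ => ENNReal.ofReal (C1 * R ^ (-(s / 16))) * m) atTop (𝓝 0) := by
      have := ENNReal.Tendsto.mul_const h1 (b := m) (Or.inr hmom.ne)
      rwa [zero_mul] at this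
    exact h2.comp tendsto_fst
  refine tendsto_of_tendsto_of_tendsto_of_le_of_le' tendsto_const_nhds hlim
    (Filter.Eventually.of_forall fun _ => zero_le) ?_
  have hev : ∀ᶠ q : ℝ × ℝ in atTop ×ˢ (⊤ : Filter ℝ), 1 ≤ q.1 :=
    tendsto_fst.eventually (eventually_ge_atTop 1)
  filter_upwards [hev] with q hq
  exact hbound q.1 hq q.2

end Pool.Agent.L0h89.FK.A
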