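import Pool.Agent.L0h89.FK.Tools
import Pool.Agent.L0h88.FK.LV

/-! # B: both the rest and the jump are small -/

set_option autoImplicit false

open MeasureTheory Set Filter Topology
open scoped ENNReal RealInnerProductSpace

namespace Pool.Agent.L0h89.FK.B

/-- pointwise bound -/
lemma pt {t : ℝ} (ht : 0 < t) (d : ℕ) {M : Mat} (hM : M ∈ cone t) (hd : 0 < det M) {R T r τ : ℝ}
    (τ₀ : ℝ) (hT : 0 < T) (hc : M.2.2 ≤ T) (hr : 0 < r) (hrT : r ≤ T) (hτ : τ ∈ Icc 0 t) :
    r / (M.2.2 + r) * gr d (M + J (r, τ)) R τ₀ 0 ≤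
      (4 * Real.pi) ^ (-(d : ℝ)) * t ^ ((d : ℝ) + 2) * Real.exp (-(R ^ 2 / (8 * T))) * r *
        th M ^ (-((d : ℝ) + 1)) := by
  have hcp := c_pos ht hM hd
  have hth := th_pos ht hM hd
  have hthc := th_le ht hM hd
  have hJ : J (r, τ) ∈ cone t := J_mem_cone hr.le hτ.1 hτ.2
  have hQ := Q_pos ht hM hd τ
  have hN : M + J (r, τ) ∈ cone t := add_mem_cone ht hM hJ
  have hdN : det M ≤ det (M + J (r, τ)) := by
    rw [det_add_J]
    have : 0 ≤ r * Q τ M := by positivity
    linarith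
  have hdN0 : 0 < det (M + J (r, τ)) := lt_of_lt_of_le hd hdN
  -- the exponent
  have hcN : (M + J (r, τ)).2.2 = M.2.2 + r := rfl
  have hex : R ^ 2 / (8 * T) ≤
      ((M + J (r, τ)).2.2 * 0 ^ 2 + R ^ 2 * Q τ₀ (M + J (r, τ))) / (4 * det (M + J (r, τ))) := by
    have h1 := c_mul_Q τ₀ (M + J (r, τ))
    rw [hcN] at h1
    have h2 : det (M + J (r, τ)) ≤ (M.2.2 + r) * Q τ₀ (M + J (r, τ)) := by
      rw [h1]
      nlinarith [sq_nonneg ((M.2.2 + r) * τ₀ - (M + J (r, τ)).2.1)]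
    have hQ0 : 0 < Q τ₀ (M + J (r, τ)) := Q_pos ht hN hdN0 τ₀
    have h3 : (M.2.2 + r) * Q τ₀ (M + J (r, τ)) ≤ 2 * T * Q τ₀ (M + J (r, τ)) :=
      mul_le_mul_of_nonneg_right (by linarith) hQ0.le
    rw [div_le_div_iff₀ (by positivity) (by positivity)]
    have h4 : det (M + J (r, τ)) ≤ 2 * T * Q τ₀ (M + J (r, τ)) := h2.trans h3
    have h5 : R ^ 2 * det (M + J (r, τ)) ≤ R ^ 2 * (2 * T * Q τ₀ (M + J (r, τ))) :=
      mul_le_mul_of_nonneg_left h4 (sq_nonneg R)
    nlinarith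
  have hexp : Real.exp (-(((M + J (r, τ)).2.2 * 0 ^ 2 + R ^ 2 * Q τ₀ (M + J (r, τ))) /
      (4 * det (M + J (r, τ))))) ≤ Real.exp (-(R ^ 2 / (8 * T))) :=
    Real.exp_le_exp.2 (neg_le_neg hex)
  -- the determinant
  have hth2 : th M ^ 2 / t ^ 2 ≤ det (M + J (r, τ)) := by
    refine le_trans ?_ hdN
    have e : det M = M.2.2 * th M := by
      unfold th
      field_simp
    rw [e, div_le_iff₀ (by positivity)]
    nlinarith
  have hdet : det (M + J (r, τ)) ^ (-((d : ℝ) / 2)) ≤ t ^ (d : ℝ) * th M ^ (-(d : ℝ)) := by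
    calc det (M + J (r, τ)) ^ (-((d : ℝ) / 2)) ≤ (th M ^ 2 / t ^ 2) ^ (-((d : ℝ) / 2)) :=
          Real.rpow_le_rpow_of_nonpos (by positivity) hth2 (by
            have : (0 : ℝ) ≤ d := Nat.cast_nonneg d
            linarith)
      _ = t ^ (d : ℝ) * th M ^ (-(d : ℝ)) := by
          rw [Real.div_rpow (by positivity) (by positivity), ← Real.rpow_natCast (th M) 2,
            ← Real.rpow_natCast t 2, ← Real.rpow_mul hth.le, ← Real.rpow_mul ht.le]
          have e1 : ((2 : ℕ) : ℝ) * (-((d : ℝ) / 2)) = -(d : ℝ) := by push_cast; ring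
          rw [e1, Real.rpow_neg ht.le, div_inv_eq_mul, mul_comm]
  -- the weight
  have hw : r / (M.2.2 + r) ≤ r * t ^ 2 * (th M)⁻¹ := by
    rw [div_le_iff₀ (by positivity)]
    have h6 : 1 ≤ t ^ 2 * (th M)⁻¹ * (M.2.2 + r) := by
      have h7 : (th M)⁻¹ * th M = 1 := inv_mul_cancel₀ hth.ne'
      have h8 : 0 < (th M)⁻¹ := inv_pos.2 hth
      calc (1 : ℝ) = (th M)⁻¹ * th M := h7.symm
        _ ≤ (th M)⁻¹ * (t ^ 2 * M.2.2) := mul_le_mul_of_nonneg_left hthc h8.le
        _ ≤ (th M)⁻¹ * (t ^ 2 * (M.2.2 + r)) := by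
            apply mul_le_mul_of_nonneg_left _ h8.le
            apply mul_le_mul_of_nonneg_left _ (by positivity)
            linarith
        _ = _ := by ring
    calc r = r * 1 := (mul_one r).symm
      _ ≤ r * (t ^ 2 * (th M)⁻¹ * (M.2.2 + r)) := mul_le_mul_of_nonneg_left h6 hr.le
      _ = _ := by ring
  have hgr : gr d (M + J (r, τ)) R τ₀ 0 ≤ (4 * Real.pi) ^ (-(d : ℝ)) *
      (t ^ (d : ℝ) * th M ^ (-(d : ℝ))) * Real.exp (-(R ^ 2 / (8 * T))) := by
    unfold gr
    apply mul_le_mul _ hexp (Real.exp_pos _).le (by positivity)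
    exact mul_le_mul_of_nonneg_left hdet (by positivity)
  calc r / (M.2.2 + r) * gr d (M + J (r, τ)) R τ₀ 0 ≤
        (r * t ^ 2 * (th M)⁻¹) * ((4 * Real.pi) ^ (-(d : ℝ)) *
          (t ^ (d : ℝ) * th M ^ (-(d : ℝ))) * Real.exp (-(R ^ 2 / (8 * T)))) :=
        mul_le_mul hw hgr (gr_nonneg hN d R τ₀ 0) (by positivity)
    _ = _ := by
        have e1 : t ^ ((d : ℝ) + 2) = t ^ (d : ℝ) * t ^ 2 := by
          rw [Real.rpow_add ht, Real.rpow_two]
        have e2 : th M ^ (-((d : ℝ) + 1)) = th M ^ (-(d : ℝ)) * (th M)⁻¹ := by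
          rw [← Real.rpow_neg_one, ← Real.rpow_add hth]
          congr 1
          ring
        rw [e1, e2]
        ring

/-- the integral of the small jumps -/
lemma small {s t T : ℝ} (h1 : s < 1) (hT : 0 < T) (hk : 0 ≤ kap s) :
    ∫⁻ p, (if p.1 ≤ T then ENNReal.ofReal p.1 else 0) ∂(rho s t) ≤
      ENNReal.ofReal (kap s * (T ^ (1 - s) / (1 - s)) * t) := by
  unfold rho
  have hm : Measurable (fun r : ℝ => if r ≤ T then ENNReal.ofReal r else 0) :=
    Measurable.ite measurableSet_Iic ENNReal.measurable_ofReal measurable_const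
  have e : ∫⁻ p, (if p.1 ≤ T then ENNReal.ofReal p.1 else 0)
      ∂((lev s).prod ((volume : Measure ℝ).restrict (Icc 0 t))) =
      (∫⁻ r, (if r ≤ T then ENNReal.ofReal r else 0) ∂(lev s)) * ENNReal.ofReal t := by
    have hm2 : Measurable (fun p : ℝ × ℝ => if p.1 ≤ T then ENNReal.ofReal p.1 else 0) :=
      hm.comp measurable_fst
    rw [lintegral_prod _ hm2.aemeasurable]
    simp only [lintegral_const, Measure.restrict_apply MeasurableSet.univ, univ_inter,
      Real.volume_Icc, sub_zero]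
    rw [lintegral_mul_const _ hm]
  rw [e]
  have e2 : ∫⁻ r, (if r ≤ T then ENNReal.ofReal r else 0) ∂(lev s) ≤
      ENNReal.ofReal (kap s * (T ^ (1 - s) / (1 - s))) := by
    rw [lintegral_lev]
    have e3 : ∫⁻ r in Ioi (0 : ℝ), ENNReal.ofReal (kap s * r ^ (-1 - s)) *
        (if r ≤ T then ENNReal.ofReal r else 0) =
        ∫⁻ r in Ioi (0 : ℝ), indicator (Ioc 0 T) (fun r =>
          ENNReal.ofReal (kap s) * ENNReal.ofReal (r ^ (-s))) r := by
      apply setLIntegral_congr_fun measurableSet_Ioi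
      intro r hr
      have hr' : 0 < r := hr
      simp only
      by_cases h : r ≤ T
      · have : r ∈ Ioc 0 T := ⟨hr', h⟩
        rw [if_pos h, indicator_of_mem this, ← ENNReal.ofReal_mul (by positivity),
          ← ENNReal.ofReal_mul hk]
        congr 1
        rw [mul_assoc, ← Real.rpow_add_one hr'.ne']
        congr 2
        ring
      · have : r ∉ Ioc 0 T := fun hcon => h hcon.2
        rw [if_neg h, indicator_of_notMem this, mul_zero]
    rw [e3]
    calc _ ≤ ∫⁻ r, indicator (Ioc 0 T) (fun r =>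
          ENNReal.ofReal (kap s) * ENNReal.ofReal (r ^ (-s))) r :=
          setLIntegral_le_lintegral _ _
      _ = _ := by
          rw [lintegral_indicator measurableSet_Ioc, lintegral_const_mul' _ _ ENNReal.ofReal_ne_top,
            lintegral_Ioc_rpow _ _ (by linarith) hT.le, ← ENNReal.ofReal_mul hk]
          congr 3
          · ring_nf
          · ring
  calc _ ≤ ENNReal.ofReal (kap s * (T ^ (1 - s) / (1 - s))) * ENNReal.ofReal t :=
        mul_le_mul_left e2 _
    _ = _ := by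
        rw [← ENNReal.ofReal_mul]
        have : 0 < 1 - s := by linarith
        positivity

theorem main (hN1 : StmtN1) (hN2 : StmtN2) : StmtB := by
  intro s t P hs hs1 ht hP d hd1
  obtain ⟨hpos, -⟩ := hN1 s t P hs hs1 ht hP
  have hmom := hN2 s t P hs hs1 ht hP ((d : ℝ) + 1) 0 (by positivity) le_rfl hs
  set m : ℝ≥0∞ := ∫⁻ M, ENNReal.ofReal (M.2.2 ^ (0 : ℝ) * th M ^ (-((d : ℝ) + 1))) ∂P with hm
  have hk := kap_pos hs hs1
  have h1s : 0 < 1 - s := by linarith
  set A : ℝ := (4 * Real.pi) ^ (-(d : ℝ)) * t ^ ((d : ℝ) + 2) with hA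
  have hA0 : 0 ≤ A := by positivity
  -- the bound
  have key : ∀ q : ℝ × ℝ, 1 ≤ q.1 → ENNReal.ofReal (q.1 ^ ((d : ℝ) + 1 + 2 * s)) *
      ∫⁻ M, ∫⁻ p, (if M.2.2 ≤ q.1 ^ (2 - s / 4) ∧ p.1 ≤ q.1 ^ (2 - s / 4) then
        ENNReal.ofReal (p.1 / (M.2.2 + p.1) * gr d (M + J p) q.1 q.2 0) else 0) ∂(rho s t) ∂P ≤
      ENNReal.ofReal (A * (kap s / (1 - s) * t) *
        (q.1 ^ ((d : ℝ) + 1 + 2 * s + (2 - s / 4) * (1 - s)) *
          Real.exp (-(1 / 8) * q.1 ^ (s / 4)))) * m := by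
    intro q hq
    set R := q.1 with hR
    have hR0 : 0 < R := by linarith
    set T := R ^ (2 - s / 4) with hT
    have hT0 : 0 < T := by positivity
    have hin : ∀ᵐ M ∂P, ∫⁻ p, (if M.2.2 ≤ T ∧ p.1 ≤ T then
        ENNReal.ofReal (p.1 / (M.2.2 + p.1) * gr d (M + J p) R q.2 0) else 0) ∂(rho s t) ≤
        ENNReal.ofReal (A * Real.exp (-(R ^ 2 / (8 * T))) *
          (kap s * (T ^ (1 - s) / (1 - s)) * t)) *
          ENNReal.ofReal (M.2.2 ^ (0 : ℝ) * th M ^ (-((d : ℝ) + 1))) := by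
      filter_upwards [hP.supp, hpos] with M hM hM0
      have hth := th_pos ht hM hM0.2
      have h1 : ∫⁻ p, (if M.2.2 ≤ T ∧ p.1 ≤ T then
          ENNReal.ofReal (p.1 / (M.2.2 + p.1) * gr d (M + J p) R q.2 0) else 0) ∂(rho s t) ≤
          ∫⁻ p, ENNReal.ofReal (A * Real.exp (-(R ^ 2 / (8 * T))) * th M ^ (-((d : ℝ) + 1))) *
            (if p.1 ≤ T then ENNReal.ofReal p.1 else 0) ∂(rho s t) := by
        apply lintegral_mono_ae
        filter_upwards [Pool.Agent.L0h88.FK.rho_good s t] with p hp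
        split_ifs with h2 h3 h3
        · rw [← ENNReal.ofReal_mul (by positivity)]
          apply ENNReal.ofReal_le_ofReal
          have := pt (R := R) ht d hM hM0.2 q.2 hT0 h2.1 hp.1 h3 hp.2
          refine this.trans (le_of_eq ?_)
          rw [hA]
          ring
        · exact absurd h2.2 h3
        · exact zero_le
        · exact zero_le
      refine h1.trans ?_
      rw [lintegral_const_mul' _ _ ENNReal.ofReal_ne_top]
      calc _ ≤ ENNReal.ofReal (A * Real.exp (-(R ^ 2 / (8 * T))) * th M ^ (-((d : ℝ) + 1))) *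
            ENNReal.ofReal (kap s * (T ^ (1 - s) / (1 - s)) * t) :=
            mul_le_mul_right (small hs1 hT0 hk.le) _
        _ = _ := by
            rw [← ENNReal.ofReal_mul (by positivity), ← ENNReal.ofReal_mul (by positivity),
              Real.rpow_zero]
            congr 1
            ring
    calc _ ≤ ENNReal.ofReal (R ^ ((d : ℝ) + 1 + 2 * s)) *
          ∫⁻ M, ENNReal.ofReal (A * Real.exp (-(R ^ 2 / (8 * T))) *
            (kap s * (T ^ (1 - s) / (1 - s)) * t)) *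
            ENNReal.ofReal (M.2.2 ^ (0 : ℝ) * th M ^ (-((d : ℝ) + 1))) ∂P :=
          mul_le_mul_right (lintegral_mono_ae hin) _
      _ = _ := by
          rw [lintegral_const_mul' _ _ ENNReal.ofReal_ne_top, ← mul_assoc,
            ← ENNReal.ofReal_mul (by positivity)]
          congr 2
          have e1 : R ^ 2 / (8 * T) = 1 / 8 * R ^ (s / 4) := by
            rw [hT, Real.rpow_sub hR0, Real.rpow_two]
            field_simp
          have e2 : T ^ (1 - s) = R ^ ((2 - s / 4) * (1 - s)) := by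
            rw [hT, ← Real.rpow_mul hR0.le]
          rw [e1, e2, Real.rpow_add hR0 ((d : ℝ) + 1 + 2 * s), neg_mul]
          ring
  -- the limit
  have hlim : Tendsto (fun q : ℝ × ℝ => ENNReal.ofReal (A * (kap s / (1 - s) * t) *
        (q.1 ^ ((d : ℝ) + 1 + 2 * s + (2 - s / 4) * (1 - s)) *
          Real.exp (-(1 / 8) * q.1 ^ (s / 4)))) * m) (atTop ×ˢ ⊤) (𝓝 0) := by
    have hr : Tendsto (fun R : ℝ => R ^ ((d : ℝ) + 1 + 2 * s + (2 - s / 4) * (1 - s)) *
        Real.exp (-(1 / 8) * R ^ (s / 4))) atTop (𝓝 0) := by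
      set κ := (d : ℝ) + 1 + 2 * s + (2 - s / 4) * (1 - s) with hκ
      have h2 := (tendsto_rpow_mul_exp_neg_mul_atTop_nhds_zero (κ / (s / 4)) (1 / 8)
        (by norm_num)).comp (tendsto_rpow_atTop (show 0 < s / 4 by positivity))
      refine h2.congr' ?_
      filter_upwards [eventually_gt_atTop 0] with R hR
      simp only [Function.comp_apply]
      rw [← Real.rpow_mul hR.le]
      congr 2
      field_simp
    have h3 : Tendsto (fun q : ℝ × ℝ => A * (kap s / (1 - s) * t) *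
        (q.1 ^ ((d : ℝ) + 1 + 2 * s + (2 - s / 4) * (1 - s)) *
          Real.exp (-(1 / 8) * q.1 ^ (s / 4)))) (atTop ×ˢ ⊤) (𝓝 (A * (kap s / (1 - s) * t) * 0)) :=
      (hr.comp tendsto_fst).const_mul _
    rw [mul_zero] at h3
    have h4 := ENNReal.tendsto_ofReal h3
    rw [ENNReal.ofReal_zero] at h4
    have h5 := ENNReal.Tendsto.mul_const h4 (Or.inr hmom.ne)
    rwa [zero_mul] at h5
  refine tendsto_of_tendsto_of_tendsto_of_le_of_le' tendsto_const_nhds hlim
    (Filter.Eventually.of_forall fun q => zero_le) ?_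
  have : ∀ᶠ q : ℝ × ℝ in (atTop ×ˢ ⊤), 1 ≤ q.1 := tendsto_fst.eventually (eventually_ge_atTop 1)
  filter_upwards [this] with q hq
  exact key q hq

end Pool.Agent.L0h89.FK.B
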