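import Pool.Agent.L0h89.FK.Defs

/-! # Elementary identities for the 2 x 2 matrices -/

set_option autoImplicit false

open MeasureTheory Set Filter Topology
open scoped ENNReal RealInnerProductSpace

namespace Pool.Agent.L0h89.FK

@[simp] lemma J_fst (r τ : ℝ) : (J (r, τ)).1 = r * τ ^ 2 := rfl
@[simp] lemma J_snd_fst (r τ : ℝ) : (J (r, τ)).2.1 = r * τ := rfl
@[simp] lemma J_snd_snd (r τ : ℝ) : (J (r, τ)).2.2 = r := rfl

lemma det_add_J (M : Mat) (r τ : ℝ) : det (M + J (r, τ)) = det M + r * Q τ M := by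
  simp [det, Q, J]; ring

lemma Q_add (τ : ℝ) (M N : Mat) : Q τ (M + N) = Q τ M + Q τ N := by
  simp [Q]; ring

lemma Q_J (τ₀ r τ : ℝ) : Q τ₀ (J (r, τ)) = r * (τ - τ₀) ^ 2 := by
  simp [Q, J]; ring

lemma Q_add_J (τ₀ : ℝ) (M : Mat) (r τ : ℝ) : Q τ₀ (M + J (r, τ)) = Q τ₀ M + r * (τ - τ₀) ^ 2 := by
  rw [Q_add, Q_J]

/-- `c Q_τ = (c τ - b)² + det` -/
lemma c_mul_Q (τ : ℝ) (M : Mat) : M.2.2 * Q τ M = (M.2.2 * τ - M.2.1) ^ 2 + det M := by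
  simp [det, Q]; ring

lemma det_nonneg {t : ℝ} {M : Mat} (h : M ∈ cone t) : 0 ≤ det M := by
  obtain ⟨h1, h2, h3, h4, h5⟩ := h
  unfold det; linarith

lemma c_nonneg {t : ℝ} (ht : 0 < t) {M : Mat} (h : M ∈ cone t) : 0 ≤ M.2.2 := by
  obtain ⟨h1, h2, h3, h4, h5⟩ := h
  by_contra hc
  push Not at hc
  have : t * M.2.2 < 0 := mul_neg_of_pos_of_neg ht hc
  linarith

lemma c_pos {t : ℝ} (ht : 0 < t) {M : Mat} (h : M ∈ cone t) (hd : 0 < det M) : 0 < M.2.2 := by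
  rcases (c_nonneg ht h).lt_or_eq with h1 | h1
  · exact h1
  · exfalso
    unfold det at hd
    rw [← h1] at hd
    nlinarith [sq_nonneg M.2.1]

lemma J_mem_cone {t : ℝ} {r τ : ℝ} (hr : 0 ≤ r) (h0 : 0 ≤ τ) (h1 : τ ≤ t) :
    J (r, τ) ∈ cone t := by
  refine ⟨?_, ?_, ?_, ?_, ?_⟩
  · simp; positivity
  · simp; nlinarith
  · simp; positivity
  · simp; nlinarith [mul_nonneg hr h0, mul_nonneg (mul_nonneg hr h0) (sub_nonneg.2 h1)]
  · simp; nlinarith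

lemma add_mem_cone {t : ℝ} (ht : 0 < t) {M N : Mat} (hM : M ∈ cone t) (hN : N ∈ cone t) :
    M + N ∈ cone t := by
  have hcM := c_nonneg ht hM
  have hcN := c_nonneg ht hN
  obtain ⟨h1, h2, h3, h4, h5⟩ := hM
  obtain ⟨k1, k2, k3, k4, k5⟩ := hN
  refine ⟨?_, ?_, ?_, ?_, ?_⟩
  · simp; linarith
  · simp; nlinarith
  · simp; linarith
  · simp; nlinarith
  · simp only [Prod.fst_add, Prod.snd_add]
    -- 2 b b' ≤ a c' + a' c
    have key : 2 * (M.2.1 * N.2.1) ≤ M.1 * N.2.2 + N.1 * M.2.2 := by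
      have h6 : (M.2.1 * N.2.1) ^ 2 ≤ (M.1 * N.2.2) * (N.1 * M.2.2) := by
        calc (M.2.1 * N.2.1) ^ 2 = M.2.1 ^ 2 * N.2.1 ^ 2 := by ring
          _ ≤ (M.1 * M.2.2) * (N.1 * N.2.2) :=
              mul_le_mul h5 k5 (sq_nonneg _) (mul_nonneg h3 hcM)
          _ = (M.1 * N.2.2) * (N.1 * M.2.2) := by ring
      have h7 : 0 ≤ M.1 * N.2.2 := mul_nonneg h3 hcN
      have h8 : 0 ≤ N.1 * M.2.2 := mul_nonneg k3 hcM
      nlinarith [sq_nonneg (M.1 * N.2.2 - N.1 * M.2.2), mul_nonneg h1 k1]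
    nlinarith

/-- the minimum of `Q_τ` is `θ` -/
lemma th_le_Q {t : ℝ} (ht : 0 < t) {M : Mat} (h : M ∈ cone t) (hd : 0 < det M) (τ : ℝ) :
    th M ≤ Q τ M := by
  have hc := c_pos ht h hd
  unfold th
  rw [div_le_iff₀ hc, mul_comm, c_mul_Q]
  nlinarith [sq_nonneg (M.2.2 * τ - M.2.1)]

lemma th_pos {t : ℝ} (ht : 0 < t) {M : Mat} (h : M ∈ cone t) (hd : 0 < det M) : 0 < th M :=
  div_pos hd (c_pos ht h hd)

/-- `θ ≤ t² c` -/
lemma th_le {t : ℝ} (ht : 0 < t) {M : Mat} (h : M ∈ cone t) (hd : 0 < det M) :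
    th M ≤ t ^ 2 * M.2.2 := by
  have hc := c_pos ht h hd
  obtain ⟨h1, h2, h3, h4, h5⟩ := h
  have := th_le_Q ht ⟨h1, h2, h3, h4, h5⟩ hd 0
  refine this.trans ?_
  unfold Q
  nlinarith

lemma Q_pos {t : ℝ} (ht : 0 < t) {M : Mat} (h : M ∈ cone t) (hd : 0 < det M) (τ : ℝ) :
    0 < Q τ M := (th_pos ht h hd).trans_le (th_le_Q ht h hd τ)

/-- `g` in the coordinates `(|v|, ⟨x,v⟩/|v|², |x - τ v|)` -/
lemma g_eq_gr (d : ℕ) (M : Mat) (x v : V d) (hv : v ≠ 0) :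
    g d M x v = gr d M ‖v‖ (⟪x, v⟫ / ‖v‖ ^ 2) ‖x - (⟪x, v⟫ / ‖v‖ ^ 2) • v‖ := by
  have hv' : ‖v‖ ^ 2 ≠ 0 := by simpa using hv
  unfold g gr
  congr 3
  rw [norm_sub_sq_real, inner_smul_right, norm_smul, mul_pow, Real.norm_eq_abs, sq_abs]
  unfold Q
  congr 1
  field_simp
  ring

lemma gr_nonneg {t : ℝ} {M : Mat} (h : M ∈ cone t) (d : ℕ) (R τ w : ℝ) : 0 ≤ gr d M R τ w := by
  have := det_nonneg h
  unfold gr
  positivity

lemma gr_le_gr_zero {t : ℝ} (ht : 0 < t) {M : Mat} (h : M ∈ cone t) (d : ℕ) (R τ w : ℝ) :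
    gr d M R τ w ≤ gr d M R τ 0 := by
  have h1 := det_nonneg h
  have h2 := c_nonneg ht h
  unfold gr
  apply mul_le_mul_of_nonneg_left _ (by positivity)
  apply Real.exp_le_exp.2
  apply neg_le_neg
  apply div_le_div_of_nonneg_right _ (by positivity)
  have : 0 ≤ M.2.2 * w ^ 2 := by positivity
  nlinarith

lemma J_meas : Measurable J := by
  unfold J; fun_prop

lemma det_meas : Measurable det := by
  unfold det; fun_prop

lemma Q_meas (τ : ℝ) : Measurable (Q τ) := by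
  unfold Q; fun_prop

end Pool.Agent.L0h89.FK
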