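import Pool.Agent.L0h89.FK.Defs2

/-! # Bi: the dominating function is integrable -/

set_option autoImplicit false

open MeasureTheory Set Filter Topology
open scoped ENNReal RealInnerProductSpace

namespace Pool.Agent.L0h89.FK.Bi

lemma rho_min_scale (s t T : ℝ) (hT : 0 < T) :
    ∫⁻ p, ENNReal.ofReal (min 1 (p.1 / T ^ 2)) ∂(rho s t) =
      ENNReal.ofReal (T ^ (-(2 * s))) * ∫⁻ p, ENNReal.ofReal (min 1 p.1) ∂(rho s t) := by
  rw [I.rho_scale s t (T ^ 2) (by positivity) (fun p => ENNReal.ofReal (min 1 (p.1 / T ^ 2)))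
    (by fun_prop)]
  congr 1
  · congr 1
    rw [← Real.rpow_natCast, ← Real.rpow_mul hT.le]
    congr 1
    push_cast; ring
  · refine lintegral_congr fun p => ?_
    congr 2
    field_simp

lemma sigma_int (a : ℝ) (ha : 1 < a) : ∫⁻ σ : ℝ, ENNReal.ofReal ((max 1 |σ|) ^ (-a)) < ∞ := by
  have hi : Integrable (fun σ : ℝ => (1 + ‖σ‖) ^ (-a)) := by
    apply integrable_one_add_norm
    simpa using ha
  have hb : ∀ σ : ℝ, (max 1 |σ|) ^ (-a) ≤ 2 ^ a * (1 + ‖σ‖) ^ (-a) := by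
    intro σ
    have h1 : (1 + ‖σ‖) / 2 ≤ max 1 |σ| := by
      rw [Real.norm_eq_abs]
      have := le_max_left 1 |σ|
      have := le_max_right 1 |σ|
      linarith
    have h0 : 0 < (1 + ‖σ‖) / 2 := by positivity
    calc (max 1 |σ|) ^ (-a) ≤ ((1 + ‖σ‖) / 2) ^ (-a) :=
          Real.rpow_le_rpow_of_nonpos h0 h1 (by linarith)
      _ = 2 ^ a * (1 + ‖σ‖) ^ (-a) := by
          rw [Real.div_rpow (by positivity) (by norm_num), Real.rpow_neg (by norm_num : (0:ℝ) ≤ 2),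
            div_inv_eq_mul, mul_comm]
  calc ∫⁻ σ : ℝ, ENNReal.ofReal ((max 1 |σ|) ^ (-a)) ≤
      ∫⁻ σ : ℝ, ENNReal.ofReal (2 ^ a * (1 + ‖σ‖) ^ (-a)) :=
        lintegral_mono fun σ => ENNReal.ofReal_le_ofReal (hb σ)
    _ < ∞ := by
        have := (hi.const_mul (2 ^ a)).lintegral_lt_top
        exact this

theorem main : StmtBi := by
  intro s t hs hs1 ht d hd
  obtain ⟨K, hK⟩ : ∃ K, K = ∫⁻ p, ENNReal.ofReal (min 1 p.1) ∂(rho s t) := ⟨_, rfl⟩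
  have hKt : K < ∞ := by rw [hK]; exact I.rho_min s t hs hs1
  obtain ⟨L, hL⟩ : ∃ L, L = ∫⁻ σ : ℝ, ENNReal.ofReal ((max 1 |σ|) ^ (-((d : ℝ) + 2 * s))) :=
    ⟨_, rfl⟩
  have hd1 : (1 : ℝ) ≤ d := by exact_mod_cast hd
  have hLt : L < ∞ := by rw [hL]; exact sigma_int _ (by linarith)
  have e1 : ∀ q₁ : ℝ, 0 < q₁ → ∀ σ : ℝ, ∫⁻ p, ENNReal.ofReal (Bd d q₁ σ p) ∂(rho s t) =
      ENNReal.ofReal (q₁ ^ (-((d : ℝ) / 2)) * Real.exp (-(1 / 24 / q₁))) *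
        (ENNReal.ofReal ((max 1 |σ|) ^ (-((d : ℝ) + 2 * s))) * K) := by
    intro q₁ hq σ
    have hT : 0 < max 1 |σ| := lt_of_lt_of_le one_pos (le_max_left _ _)
    unfold Bd
    have h1 : ∀ p : ℝ × ℝ, ENNReal.ofReal (q₁ ^ (-((d : ℝ) / 2)) * Real.exp (-(1 / 24 / q₁)) *
        ((max 1 |σ|) ^ (-(d : ℝ)) * min 1 (p.1 / (max 1 |σ|) ^ 2))) =
        ENNReal.ofReal (q₁ ^ (-((d : ℝ) / 2)) * Real.exp (-(1 / 24 / q₁)) *
        (max 1 |σ|) ^ (-(d : ℝ))) * ENNReal.ofReal (min 1 (p.1 / (max 1 |σ|) ^ 2)) := by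
      intro p
      rw [← ENNReal.ofReal_mul (by positivity), mul_assoc, mul_assoc, mul_assoc]
    simp_rw [h1]
    rw [lintegral_const_mul' _ _ ENNReal.ofReal_ne_top, rho_min_scale s t _ hT, ← hK,
      ENNReal.ofReal_mul (by positivity), mul_assoc, ← mul_assoc (ENNReal.ofReal _)
        (ENNReal.ofReal _) K, ← ENNReal.ofReal_mul (by positivity), ← Real.rpow_add hT]
    congr 4
    ring
  have e2 : ∀ q₁ : ℝ, 0 < q₁ → ∫⁻ σ, (∫⁻ p, ENNReal.ofReal (Bd d q₁ σ p) ∂(rho s t)) =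
      ENNReal.ofReal (q₁ ^ (-((d : ℝ) / 2)) * Real.exp (-(1 / 24 / q₁))) * (L * K) := by
    intro q₁ hq
    simp_rw [e1 q₁ hq]
    rw [lintegral_const_mul' _ _ ENNReal.ofReal_ne_top, lintegral_mul_const' _ _ hKt.ne, ← hL]
  calc ∫⁻ q₁, (∫⁻ σ, (∫⁻ p, ENNReal.ofReal (Bd d q₁ σ p) ∂(rho s t))) ∂(lev s) =
      ∫⁻ q₁, ENNReal.ofReal (q₁ ^ (-((d : ℝ) / 2)) * Real.exp (-(1 / 24 / q₁))) * (L * K)
        ∂(lev s) := by
        refine lintegral_congr_ae ?_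
        filter_upwards [I.lev_pos s] with q hq using e2 q hq
    _ < ∞ := by
        have hLK : L * K < ∞ := ENNReal.mul_lt_top hLt hKt
        rw [lintegral_mul_const' _ _ hLK.ne, C.lev_gauss d s (1 / 24) hs hs1 (by norm_num)]
        exact ENNReal.mul_lt_top ENNReal.ofReal_lt_top hLK

end Pool.Agent.L0h89.FK.Bi
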