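import Pool.Agent.L0h89.FK.Basic

/-! # C1: the pointwise bound for the integral over `τ` -/

set_option autoImplicit false

open MeasureTheory Set Filter Topology
open scoped ENNReal RealInnerProductSpace

namespace Pool.Agent.L0h89.FK.C1

/-- `R e^{-R^{s/4}/160}` is bounded -/
lemma small (s : ℝ) (hs : 0 < s) : ∃ C : ℝ, 0 < C ∧ ∀ R : ℝ, 1 ≤ R →
    Real.exp (-(R ^ (s / 4) / 160)) ≤ C * R⁻¹ := by
  obtain ⟨n, hn⟩ := exists_nat_ge (4 / s)
  refine ⟨160 ^ n * n.factorial, by positivity, fun R hR => ?_⟩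
  have hR0 : 0 < R := by linarith
  set u := R ^ (s / 4) with hu
  have hu1 : 1 ≤ u := Real.one_le_rpow hR (by positivity)
  have hu0 : 0 < u := by linarith
  have h1 : R ≤ u ^ n := by
    have e : R = u ^ (4 / s) := by
      rw [hu, ← Real.rpow_mul hR0.le]
      have : s / 4 * (4 / s) = 1 := by field_simp
      rw [this, Real.rpow_one]
    calc R = u ^ (4 / s) := e
      _ ≤ u ^ (n : ℝ) := Real.rpow_le_rpow_of_exponent_le hu1 hn
      _ = u ^ n := Real.rpow_natCast _ _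
  have h2 : (u / 160) ^ n / n.factorial ≤ Real.exp (u / 160) := by
    have := Real.sum_le_exp_of_nonneg (x := u / 160) (by positivity) (n + 1)
    refine le_trans ?_ this
    refine Finset.single_le_sum (f := fun i => (u / 160) ^ i / (i.factorial : ℝ))
      (fun i _ => by positivity) (Finset.mem_range.2 (Nat.lt_succ_self n))
  rw [Real.exp_neg]
  have hf : (0 : ℝ) < n.factorial := by exact_mod_cast Nat.factorial_pos n
  have h3 : R ≤ 160 ^ n * n.factorial * Real.exp (u / 160) := by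
    calc R ≤ u ^ n := h1
      _ = 160 ^ n * n.factorial * ((u / 160) ^ n / n.factorial) := by
          rw [div_pow]; field_simp
      _ ≤ _ := mul_le_mul_of_nonneg_left h2 (by positivity)
  rw [← div_eq_mul_inv, le_div_iff₀ hR0, inv_mul_le_iff₀ (Real.exp_pos _)]
  linarith

lemma up (M : Mat) (hc : 0 < M.2.2) (hd : 0 ≤ det M) (τ τs : ℝ) :
    Q τ M ≤ 2 * Q τs M + 2 * (M.2.2 * (τ - τs) ^ 2) := by
  have h1 := c_mul_Q τs M
  have h2 : M.2.2 * (2 * Q τs M + 2 * (M.2.2 * (τ - τs) ^ 2) - Q τ M) =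
      (M.2.2 * τs - M.2.1 - M.2.2 * (τ - τs)) ^ 2 + det M := by
    unfold Q det at *
    ring
  have h3 : 0 ≤ M.2.2 * (2 * Q τs M + 2 * (M.2.2 * (τ - τs) ^ 2) - Q τ M) := by
    rw [h2]; positivity
  have := nonneg_of_mul_nonneg_right h3 hc
  linarith

lemma low (M : Mat) (hc : 0 < M.2.2) (hd : 0 ≤ det M) (τ τs : ℝ) :
    Q τs M / 2 - M.2.2 * (τ - τs) ^ 2 ≤ Q τ M := by
  have h1 := c_mul_Q τs M
  have h2 : 2 * M.2.2 * (Q τ M - (Q τs M / 2 - M.2.2 * (τ - τs) ^ 2)) =
      (M.2.2 * τs - M.2.1 + 2 * M.2.2 * (τ - τs)) ^ 2 + det M := by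
    unfold Q det at *
    ring
  have h3 : 0 ≤ 2 * M.2.2 * (Q τ M - (Q τs M / 2 - M.2.2 * (τ - τs) ^ 2)) := by
    rw [h2]; positivity
  have := nonneg_of_mul_nonneg_right h3 (by positivity)
  linarith

/-- the bound for `gr` -/
lemma gr_bound {t : ℝ} (ht : 0 < t) (d : ℕ) (M : Mat) (hM : M ∈ cone t) (hd : 0 < det M)
    (R r τ₀ τ : ℝ) (hr : M.2.2 < r) :
    gr d (M + J (r, τ)) R τ₀ 0 ≤ r ^ (-((d : ℝ) / 2)) * Real.exp (-(R ^ 2 / (8 * r))) *
      (Q τ M ^ (-((d : ℝ) / 2)) *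
        Real.exp (-(R ^ 2 * (τ - (τ₀ + (M.2.2 * τ₀ - M.2.1) / r)) ^ 2 / (16 * Q τ M)))) := by
  have hc := c_pos ht hM hd
  have hr0 : 0 < r := hc.trans hr
  have hQ := Q_pos ht hM hd τ
  set τs := τ₀ + (M.2.2 * τ₀ - M.2.1) / r with hτs
  set D := det (M + J (r, τ)) with hD
  have hDe : D = det M + r * Q τ M := det_add_J M r τ
  have hDpos : 0 < D := by rw [hDe]; positivity
  have hD1 : r * Q τ M ≤ D := by rw [hDe]; linarith
  have hcQ : det M ≤ M.2.2 * Q τ M := by
    rw [c_mul_Q]; nlinarith [sq_nonneg (M.2.2 * τ - M.2.1)]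
  have hD2 : D ≤ 2 * r * Q τ M := by
    rw [hDe]; nlinarith
  have hcr : (M + J (r, τ)).2.2 = M.2.2 + r := rfl
  have hbr : (M + J (r, τ)).2.1 = M.2.1 + r * τ := rfl
  have hid := c_mul_Q τ₀ (M + J (r, τ))
  rw [hcr, hbr, ← hD] at hid
  have hy : (M.2.2 + r) * τ₀ - (M.2.1 + r * τ) = -(r * (τ - τs)) := by
    rw [hτs]; field_simp; ring
  rw [hy] at hid
  have hsum : 0 < M.2.2 + r := by positivity
  have hQ0 : Q τ₀ (M + J (r, τ)) = ((r * (τ - τs)) ^ 2 + D) / (M.2.2 + r) := by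
    rw [eq_div_iff hsum.ne', mul_comm, hid]; ring
  unfold gr
  rw [← hD]
  have e1 : (M + J (r, τ)).2.2 * (0 : ℝ) ^ 2 + R ^ 2 * Q τ₀ (M + J (r, τ)) =
      R ^ 2 * Q τ₀ (M + J (r, τ)) := by ring
  rw [e1]
  have h1 : (4 * Real.pi) ^ (-(d : ℝ)) ≤ 1 := by
    apply Real.rpow_le_one_of_one_le_of_nonpos
    · have := Real.pi_gt_three; linarith
    · have : (0 : ℝ) ≤ d := Nat.cast_nonneg d
      linarith
  have h2 : D ^ (-((d : ℝ) / 2)) ≤ r ^ (-((d : ℝ) / 2)) * Q τ M ^ (-((d : ℝ) / 2)) := by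
    rw [← Real.mul_rpow hr0.le hQ.le]
    apply Real.rpow_le_rpow_of_nonpos (by positivity) hD1
    have : (0 : ℝ) ≤ d := Nat.cast_nonneg d
    linarith
  have h3 : R ^ 2 / (8 * r) + R ^ 2 * (τ - τs) ^ 2 / (16 * Q τ M) ≤
      R ^ 2 * Q τ₀ (M + J (r, τ)) / (4 * D) := by
    rw [hQ0]
    have e2 : R ^ 2 * (((r * (τ - τs)) ^ 2 + D) / (M.2.2 + r)) / (4 * D) =
        R ^ 2 / (4 * (M.2.2 + r)) + R ^ 2 * (r * (τ - τs)) ^ 2 / (4 * (M.2.2 + r) * D) := by
      field_simp
      ring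
    rw [e2]
    apply add_le_add
    · apply div_le_div_of_nonneg_left (sq_nonneg R) (by positivity)
      linarith
    · have e3 : R ^ 2 * (τ - τs) ^ 2 / (16 * Q τ M) =
          R ^ 2 * (r * (τ - τs)) ^ 2 / (4 * (2 * r) * (2 * r * Q τ M)) := by
        field_simp; ring
      rw [e3]
      apply div_le_div_of_nonneg_left (by positivity) (by positivity)
      apply mul_le_mul _ hD2 hDpos.le (by positivity)
      linarith
  calc (4 * Real.pi) ^ (-(d : ℝ)) * D ^ (-((d : ℝ) / 2)) *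
        Real.exp (-(R ^ 2 * Q τ₀ (M + J (r, τ)) / (4 * D)))
      ≤ 1 * (r ^ (-((d : ℝ) / 2)) * Q τ M ^ (-((d : ℝ) / 2))) *
          Real.exp (-(R ^ 2 / (8 * r) + R ^ 2 * (τ - τs) ^ 2 / (16 * Q τ M))) := by
        apply mul_le_mul
        · exact mul_le_mul h1 h2 (by positivity) (by norm_num)
        · exact Real.exp_le_exp.2 (neg_le_neg h3)
        · positivity
        · positivity
    _ = _ := by
        rw [neg_add, Real.exp_add]; ring

/-- the pointwise bound of the integrand -/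
lemma pt {t : ℝ} (ht : 0 < t) (d : ℕ) (M : Mat) (hM : M ∈ cone t) (hd : 0 < det M)
    (R T τ τs : ℝ) (hT : M.2.2 ≤ T) :
    Q τ M ^ (-((d : ℝ) / 2)) * Real.exp (-(R ^ 2 * (τ - τs) ^ 2 / (16 * Q τ M))) ≤
      (Q τs M / 4) ^ (-((d : ℝ) / 2)) * Real.exp (-(R ^ 2 / (40 * Q τs M)) * (τ - τs) ^ 2) +
        th M ^ (-((d : ℝ) / 2)) * Real.exp (-(R ^ 2 / (160 * T))) := by
  have hc := c_pos ht hM hd
  have hQ := Q_pos ht hM hd τ
  have hQs := Q_pos ht hM hd τs
  have hth := th_pos ht hM hd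
  have hTpos : 0 < T := hc.trans_le hT
  have hdd : -((d : ℝ) / 2) ≤ 0 := by
    have : (0 : ℝ) ≤ d := Nat.cast_nonneg d
    linarith
  have hup := up M hc hd.le τ τs
  have hlow := low M hc hd.le τ τs
  by_cases hy : M.2.2 * (τ - τs) ^ 2 ≤ Q τs M / 4
  · have h1 : Q τs M / 4 ≤ Q τ M := by linarith
    have h2 : 16 * Q τ M ≤ 40 * Q τs M := by linarith
    have h3 : Q τ M ^ (-((d : ℝ) / 2)) ≤ (Q τs M / 4) ^ (-((d : ℝ) / 2)) :=
      Real.rpow_le_rpow_of_nonpos (by positivity) h1 hdd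
    have h4 : Real.exp (-(R ^ 2 * (τ - τs) ^ 2 / (16 * Q τ M))) ≤
        Real.exp (-(R ^ 2 / (40 * Q τs M)) * (τ - τs) ^ 2) := by
      apply Real.exp_le_exp.2
      rw [neg_mul]
      apply neg_le_neg
      rw [div_mul_eq_mul_div]
      exact div_le_div_of_nonneg_left (by positivity) (by positivity) h2
    have h5 : 0 ≤ th M ^ (-((d : ℝ) / 2)) * Real.exp (-(R ^ 2 / (160 * T))) := by positivity
    have h6 := mul_le_mul h3 h4 (Real.exp_pos _).le (by positivity)
    linarith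
  · push Not at hy
    have h1 : Q τ M ≤ 10 * (M.2.2 * (τ - τs) ^ 2) := by linarith
    have hypos : 0 < (τ - τs) ^ 2 := by
      rcases (sq_nonneg (τ - τs)).lt_or_eq with h | h
      · exact h
      · exfalso; rw [← h, mul_zero] at hy; linarith
    have h2 : th M ≤ Q τ M := th_le_Q ht hM hd τ
    have h3 : Q τ M ^ (-((d : ℝ) / 2)) ≤ th M ^ (-((d : ℝ) / 2)) :=
      Real.rpow_le_rpow_of_nonpos hth h2 hdd
    have h4 : Real.exp (-(R ^ 2 * (τ - τs) ^ 2 / (16 * Q τ M))) ≤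
        Real.exp (-(R ^ 2 / (160 * T))) := by
      apply Real.exp_le_exp.2
      apply neg_le_neg
      rw [div_le_div_iff₀ (by positivity) (by positivity)]
      have h5 : 16 * Q τ M ≤ 160 * T * (τ - τs) ^ 2 := by
        have : M.2.2 * (τ - τs) ^ 2 ≤ T * (τ - τs) ^ 2 :=
          mul_le_mul_of_nonneg_right hT hypos.le
        linarith
      nlinarith [sq_nonneg R]
    have h5 : 0 ≤ (Q τs M / 4) ^ (-((d : ℝ) / 2)) *
        Real.exp (-(R ^ 2 / (40 * Q τs M)) * (τ - τs) ^ 2) := by positivity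
    have h6 := mul_le_mul h3 h4 (Real.exp_pos _).le (by positivity)
    linarith

theorem main : StmtC1 := by
  intro s t hs hs1 ht d hd1
  obtain ⟨C0, hC0, hsmall⟩ := small s hs
  set C1 : ℝ := 4 ^ ((d : ℝ) / 2) * Real.sqrt (Real.pi * 40) with hC1
  have hC1pos : 0 < C1 := by positivity
  refine ⟨C1 + t * C0, by positivity, ?_⟩
  intro M hM hdet R r τ₀ hR hcT hTr
  have hR0 : 0 < R := by linarith
  set T := R ^ (2 - s / 4) with hT
  have hc := c_pos ht hM hdet
  have hTpos : 0 < T := by positivity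
  have hr0 : 0 < r := hTpos.trans hTr
  have hth := th_pos ht hM hdet
  set τs := τ₀ + (M.2.2 * τ₀ - M.2.1) / r with hτs
  have hQs := Q_pos ht hM hdet τs
  set pre := r ^ (-((d : ℝ) / 2)) * Real.exp (-(R ^ 2 / (8 * r))) with hpre
  have hpre0 : 0 ≤ pre := by positivity
  have hb : 0 < R ^ 2 / (40 * Q τs M) := by positivity
  have hRT : R ^ 2 / (160 * T) = R ^ (s / 4) / 160 := by
    have : R ^ 2 = T * R ^ (s / 4) := by
      rw [hT, ← Real.rpow_add hR0, ← Real.rpow_natCast]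
      congr 1
      push_cast
      ring
    rw [this]
    field_simp
  calc ∫⁻ τ in Icc (0 : ℝ) t, ENNReal.ofReal (gr d (M + J (r, τ)) R τ₀ 0)
      ≤ ∫⁻ τ in Icc (0 : ℝ) t, ENNReal.ofReal (pre *
          ((Q τs M / 4) ^ (-((d : ℝ) / 2)) * Real.exp (-(R ^ 2 / (40 * Q τs M)) * (τ - τs) ^ 2)) +
          pre * (th M ^ (-((d : ℝ) / 2)) * Real.exp (-(R ^ 2 / (160 * T))))) := by
        apply lintegral_mono
        intro τ
        apply ENNReal.ofReal_le_ofReal
        refine (gr_bound ht d M hM hdet R r τ₀ τ (hcT.trans_lt hTr)).trans ?_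
        rw [← hτs, ← hpre, ← mul_add]
        exact mul_le_mul_of_nonneg_left (pt ht d M hM hdet R T τ τs hcT) hpre0
    _ ≤ (∫⁻ τ in Icc (0 : ℝ) t, ENNReal.ofReal (pre *
          ((Q τs M / 4) ^ (-((d : ℝ) / 2)) * Real.exp (-(R ^ 2 / (40 * Q τs M)) * (τ - τs) ^ 2)))) +
        ∫⁻ τ in Icc (0 : ℝ) t, ENNReal.ofReal (pre * (th M ^ (-((d : ℝ) / 2)) *
          Real.exp (-(R ^ 2 / (160 * T))))) := by
        rw [← lintegral_add_right _ measurable_const]
        apply lintegral_mono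
        intro τ
        exact ENNReal.ofReal_add_le
    _ ≤ ENNReal.ofReal (pre * (C1 * th M ^ (-(((d : ℝ) - 1) / 2)) * R⁻¹)) +
        ENNReal.ofReal (pre * (t * C0 * th M ^ (-((d : ℝ) / 2)) * R⁻¹)) := by
        apply add_le_add
        · refine (setLIntegral_le_lintegral _ _).trans ?_
          have hint : Integrable (fun τ : ℝ => pre * ((Q τs M / 4) ^ (-((d : ℝ) / 2)) *
              Real.exp (-(R ^ 2 / (40 * Q τs M)) * (τ - τs) ^ 2))) := by
            apply Integrable.const_mul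
            apply Integrable.const_mul
            exact (integrable_exp_neg_mul_sq hb).comp_sub_right τs
          rw [← ofReal_integral_eq_lintegral_ofReal hint
            (Filter.Eventually.of_forall fun τ => by positivity)]
          apply ENNReal.ofReal_le_ofReal
          rw [integral_const_mul, integral_const_mul,
            integral_sub_right_eq_self (fun τ => Real.exp (-(R ^ 2 / (40 * Q τs M)) * τ ^ 2)) τs,
            integral_gaussian]
          apply mul_le_mul_of_nonneg_left _ hpre0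
          have e1 : Real.sqrt (Real.pi / (R ^ 2 / (40 * Q τs M))) =
              Real.sqrt (Real.pi * 40) * Q τs M ^ ((1 : ℝ) / 2) * R⁻¹ := by
            rw [← Real.sqrt_eq_rpow]
            have : Real.pi / (R ^ 2 / (40 * Q τs M)) = (Real.pi * 40) * Q τs M * (R⁻¹) ^ 2 := by
              field_simp
            rw [this, Real.sqrt_mul (by positivity), Real.sqrt_mul (by positivity),
              Real.sqrt_sq (by positivity)]
          have e2 : (Q τs M / 4) ^ (-((d : ℝ) / 2)) =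
              4 ^ ((d : ℝ) / 2) * Q τs M ^ (-((d : ℝ) / 2)) := by
            rw [Real.div_rpow hQs.le (by norm_num), Real.rpow_neg (by norm_num : (0 : ℝ) ≤ 4)]
            field_simp
          rw [e1, e2]
          have e3 : Q τs M ^ (-((d : ℝ) / 2)) * Q τs M ^ ((1 : ℝ) / 2) =
              Q τs M ^ (-(((d : ℝ) - 1) / 2)) := by
            rw [← Real.rpow_add hQs]; congr 1; ring
          have h4 : Q τs M ^ (-(((d : ℝ) - 1) / 2)) ≤ th M ^ (-(((d : ℝ) - 1) / 2)) := by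
            apply Real.rpow_le_rpow_of_nonpos hth (th_le_Q ht hM hdet τs)
            have : (1 : ℝ) ≤ d := by exact_mod_cast hd1
            linarith
          calc 4 ^ ((d : ℝ) / 2) * Q τs M ^ (-((d : ℝ) / 2)) *
                (Real.sqrt (Real.pi * 40) * Q τs M ^ ((1 : ℝ) / 2) * R⁻¹)
              = C1 * (Q τs M ^ (-((d : ℝ) / 2)) * Q τs M ^ ((1 : ℝ) / 2)) * R⁻¹ := by
                rw [hC1]; ring
            _ = C1 * Q τs M ^ (-(((d : ℝ) - 1) / 2)) * R⁻¹ := by rw [e3]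
            _ ≤ C1 * th M ^ (-(((d : ℝ) - 1) / 2)) * R⁻¹ := by gcongr
        · rw [setLIntegral_const, Real.volume_Icc, sub_zero, ← ENNReal.ofReal_mul (by positivity)]
          apply ENNReal.ofReal_le_ofReal
          rw [hRT]
          have h5 := hsmall R hR
          calc pre * (th M ^ (-((d : ℝ) / 2)) * Real.exp (-(R ^ (s / 4) / 160))) * t
              ≤ pre * (th M ^ (-((d : ℝ) / 2)) * (C0 * R⁻¹)) * t := by gcongr
            _ = pre * (t * C0 * th M ^ (-((d : ℝ) / 2)) * R⁻¹) := by ring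
    _ ≤ _ := by
        rw [← ENNReal.ofReal_add (by positivity) (by positivity)]
        apply ENNReal.ofReal_le_ofReal
        have h6 : 0 ≤ th M ^ (-((d : ℝ) / 2)) := by positivity
        have h7 : 0 ≤ th M ^ (-(((d : ℝ) - 1) / 2)) := by positivity
        have h8 : C1 * th M ^ (-(((d : ℝ) - 1) / 2)) + t * C0 * th M ^ (-((d : ℝ) / 2)) ≤
            (C1 + t * C0) * (th M ^ (-((d : ℝ) / 2)) + th M ^ (-(((d : ℝ) - 1) / 2))) := by
          have : 0 ≤ t * C0 := by positivity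
          nlinarith [mul_nonneg hC1pos.le h6, mul_nonneg this h7]
        calc pre * (C1 * th M ^ (-(((d : ℝ) - 1) / 2)) * R⁻¹) +
              pre * (t * C0 * th M ^ (-((d : ℝ) / 2)) * R⁻¹)
            = pre * R⁻¹ * (C1 * th M ^ (-(((d : ℝ) - 1) / 2)) +
                t * C0 * th M ^ (-((d : ℝ) / 2))) := by ring
          _ ≤ pre * R⁻¹ * ((C1 + t * C0) *
                (th M ^ (-((d : ℝ) / 2)) + th M ^ (-(((d : ℝ) - 1) / 2)))) :=
              mul_le_mul_of_nonneg_left h8 (by positivity)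
          _ = _ := by rw [hpre]; ring

end Pool.Agent.L0h89.FK.C1
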