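import Pool.Agent.L0h89.FK.Tools
import Pool.Agent.L0h89.FK.C1

/-! # C: the main part -/

set_option autoImplicit false

open MeasureTheory Set Filter Topology
open scoped ENNReal RealInnerProductSpace

namespace Pool.Agent.L0h89.FK.C

/-- inverse Gamma integral -/
lemma gamma_inv (a b : ℝ) (ha : 0 < a) (hb : 0 < b) :
    ∫⁻ q in Ioi (0 : ℝ), ENNReal.ofReal (q ^ (-a - 1) * Real.exp (-(b / q))) =
      ENNReal.ofReal (b ^ (-a) * Real.Gamma a) := by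
  have h1 := Real.integral_rpow_mul_exp_neg_mul_Ioi ha hb
  have hint : IntegrableOn (fun y : ℝ => y ^ (a - 1) * Real.exp (-(b * y))) (Ioi 0) := by
    have := integrableOn_rpow_mul_exp_neg_mul_rpow (p := 1) (s := a - 1) (b := b) (by linarith)
      one_pos hb
    simpa [Real.rpow_one, neg_mul] using this
  have h2 := integral_comp_rpow_Ioi (fun y : ℝ => y ^ (a - 1) * Real.exp (-(b * y)))
    (p := -1) (by norm_num)
  have h3 := (integrableOn_Ioi_comp_rpow_iff (fun y : ℝ => y ^ (a - 1) * Real.exp (-(b * y)))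
    (p := -1) (by norm_num)).2 hint
  have e : ∀ x ∈ Ioi (0 : ℝ), (|(-1 : ℝ)| * x ^ ((-1 : ℝ) - 1)) •
      ((x ^ (-1 : ℝ)) ^ (a - 1) * Real.exp (-(b * x ^ (-1 : ℝ)))) =
      x ^ (-a - 1) * Real.exp (-(b / x)) := by
    intro x hx
    have hx0 : 0 < x := hx
    rw [smul_eq_mul, abs_neg, abs_one, one_mul, ← mul_assoc, ← Real.rpow_mul hx0.le,
      ← Real.rpow_add hx0]
    congr 2
    · ring
    · rw [Real.rpow_neg_one, div_eq_mul_inv]
  rw [setIntegral_congr_fun measurableSet_Ioi e, h1] at h2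
  have h4 : IntegrableOn (fun x : ℝ => x ^ (-a - 1) * Real.exp (-(b / x))) (Ioi 0) :=
    (integrableOn_congr_fun e measurableSet_Ioi).1 h3
  rw [← ofReal_integral_eq_lintegral_ofReal h4, h2]
  · congr 2
    rw [one_div, Real.inv_rpow hb.le, Real.rpow_neg hb.le]
  · filter_upwards [ae_restrict_mem measurableSet_Ioi] with x hx
    have hx0 : 0 < x := hx
    positivity

/-- the Gaussian average over jump sizes -/
lemma lev_gauss (d : ℕ) (s b : ℝ) (hs : 0 < s) (hs1 : s < 1) (hb : 0 < b) :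
    ∫⁻ q, ENNReal.ofReal (q ^ (-((d : ℝ) / 2)) * Real.exp (-(b / q))) ∂(lev s) =
      ENNReal.ofReal (kap s * (b ^ (-((d : ℝ) / 2 + s)) * Real.Gamma ((d : ℝ) / 2 + s))) := by
  have hk := kap_pos hs hs1
  have ha : 0 < (d : ℝ) / 2 + s := by positivity
  rw [lintegral_lev, ENNReal.ofReal_mul hk.le, ← gamma_inv _ b ha hb,
    ← lintegral_const_mul' _ _ ENNReal.ofReal_ne_top]
  apply setLIntegral_congr_fun measurableSet_Ioi
  intro q hq
  have hq0 : 0 < q := hq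
  simp only
  rw [← ENNReal.ofReal_mul (by positivity), ← ENNReal.ofReal_mul hk.le]
  congr 1
  have : q ^ (-((d : ℝ) / 2 + s) - 1) = q ^ (-1 - s) * q ^ (-((d : ℝ) / 2)) := by
    rw [← Real.rpow_add hq0]; congr 1; ring
  rw [this]
  ring

/-- the constant -/
lemma lev_cds (d : ℕ) (s : ℝ) (hs : 0 < s) (hs1 : s < 1) :
    ∫⁻ q, ENNReal.ofReal ((4 * Real.pi * q) ^ (-((d : ℝ) / 2)) * Real.exp (-(1 / 4 / q)))
      ∂(lev s) = ENNReal.ofReal (cds d s) := by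
  have hpi := Real.pi_pos
  have h1 : ∀ᵐ q ∂(lev s), ENNReal.ofReal ((4 * Real.pi * q) ^ (-((d : ℝ) / 2)) *
      Real.exp (-(1 / 4 / q))) = ENNReal.ofReal ((4 * Real.pi) ^ (-((d : ℝ) / 2))) *
        ENNReal.ofReal (q ^ (-((d : ℝ) / 2)) * Real.exp (-(1 / 4 / q))) := by
    have : ∀ᵐ r ∂(lev s), 0 < r := by
      unfold lev
      apply (withDensity_absolutelyContinuous _ _).ae_le
      exact ae_restrict_mem measurableSet_Ioi
    filter_upwards [this] with q hq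
    rw [← ENNReal.ofReal_mul (by positivity), Real.mul_rpow (by positivity) hq.le, mul_assoc]
  rw [lintegral_congr_ae h1, lintegral_const_mul' _ _ ENNReal.ofReal_ne_top,
    lev_gauss d s (1 / 4) hs hs1 (by norm_num), ← ENNReal.ofReal_mul (by positivity)]
  congr 1
  unfold cds kap
  have e1 : (1 / 4 : ℝ) ^ (-((d : ℝ) / 2 + s)) = 4 ^ ((d : ℝ) / 2) * 4 ^ s := by
    rw [one_div, Real.inv_rpow (by norm_num), Real.rpow_neg (by norm_num), inv_inv,
      Real.rpow_add (by norm_num)]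
  have e2 : (4 * Real.pi) ^ (-((d : ℝ) / 2)) =
      (4 ^ ((d : ℝ) / 2))⁻¹ * (Real.pi ^ ((d : ℝ) / 2))⁻¹ := by
    rw [Real.mul_rpow (by norm_num) hpi.le, Real.rpow_neg (by norm_num), Real.rpow_neg hpi.le]
  rw [e1, e2]
  have h4 : (4 : ℝ) ^ ((d : ℝ) / 2) ≠ 0 := by positivity
  have h5 : Real.pi ^ ((d : ℝ) / 2) ≠ 0 := by positivity
  have h6 : Real.Gamma (1 - s) ≠ 0 := (Real.Gamma_pos_of_pos (by linarith)).ne'
  field_simp

lemma lev_ae (s : ℝ) : ∀ᵐ r ∂(lev s), 0 < r := by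
  unfold lev
  apply (withDensity_absolutelyContinuous _ _).ae_le
  exact ae_restrict_mem measurableSet_Ioi

/-- linear substitution -/
lemma subst_lin (R a : ℝ) (hR : 0 < R) (F : ℝ → ℝ≥0∞) (hF : Measurable F) :
    ∫⁻ τ, F τ = ENNReal.ofReal R⁻¹ * ∫⁻ σ, F (a + σ * R⁻¹) := by
  have hmap : Measure.map (fun σ : ℝ => R⁻¹ * σ) volume = ENNReal.ofReal R • volume := by
    have := Real.map_volume_mul_left (a := R⁻¹) (inv_pos.2 hR).ne'
    rw [inv_inv, abs_of_pos hR] at this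
    exact this
  have h1 : ∫⁻ σ, F (a + σ * R⁻¹) = ENNReal.ofReal R * ∫⁻ y, F (a + y) := by
    have h2 : ∫⁻ y, F (a + y) ∂(Measure.map (fun σ : ℝ => R⁻¹ * σ) volume) =
        ∫⁻ σ, F (a + R⁻¹ * σ) := lintegral_map (by fun_prop) (by fun_prop)
    rw [hmap, lintegral_smul_measure, smul_eq_mul] at h2
    rw [h2]
    congr 1
    funext σ
    rw [mul_comm]
  rw [h1, ← mul_assoc, ← ENNReal.ofReal_mul (by positivity), inv_mul_cancel₀ hR.ne',
    ENNReal.ofReal_one, one_mul, lintegral_add_left_eq_self F a]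

lemma gr_meas (d : ℕ) (R τ w : ℝ) : Measurable (fun M : Mat => gr d M R τ w) := by
  unfold gr det Q
  fun_prop

/-- the rescaled integrand -/
noncomputable def Gf (d : ℕ) (M : Mat) (q σ ε η τ w : ℝ) : ℝ :=
  q / (M.2.2 * ε + q) * ((4 * Real.pi) ^ (-(d : ℝ)) *
    (det M * ε + q * Q (τ + σ * η) M) ^ (-((d : ℝ) / 2)) *
    Real.exp (-(((M.2.2 * ε + q) * w ^ 2 + Q τ M + q * σ ^ 2) /
      (4 * (det M * ε + q * Q (τ + σ * η) M)))))

lemma G_eq (d : ℕ) (M : Mat) (R q σ τ w : ℝ) (hR : 0 < R) (hq : 0 < q) (hc : 0 < M.2.2)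
    (hd : 0 < det M) (hQ : 0 < Q (τ + σ * R⁻¹) M) :
    R ^ (d : ℝ) * (R ^ 2 * q / (M.2.2 + R ^ 2 * q) *
      gr d (M + J (R ^ 2 * q, τ + σ * R⁻¹)) R τ w) = Gf d M q σ (R ^ 2)⁻¹ R⁻¹ τ w := by
  unfold gr Gf
  rw [det_add_J, Q_add_J]
  set τ' := τ + σ * R⁻¹ with hτ'
  have hcr : (M + J (R ^ 2 * q, τ')).2.2 = M.2.2 + R ^ 2 * q := rfl
  rw [hcr]
  set D' := det M * (R ^ 2)⁻¹ + q * Q τ' M with hD'
  have hD'pos : 0 < D' := by positivity
  have e1 : det M + R ^ 2 * q * Q τ' M = R ^ 2 * D' := by rw [hD']; field_simp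
  have e2 : τ' - τ = σ * R⁻¹ := by rw [hτ']; ring
  rw [e1, e2, Real.mul_rpow (by positivity) hD'pos.le]
  have e3 : R ^ (d : ℝ) * (R ^ 2) ^ (-((d : ℝ) / 2)) = 1 := by
    rw [← Real.rpow_natCast R 2, ← Real.rpow_mul hR.le, ← Real.rpow_add hR]
    have : (d : ℝ) + ((2 : ℕ) : ℝ) * -((d : ℝ) / 2) = 0 := by push_cast; ring
    rw [this, Real.rpow_zero]
  have e4 : ((M.2.2 + R ^ 2 * q) * w ^ 2 + R ^ 2 * (Q τ M + R ^ 2 * q * (σ * R⁻¹) ^ 2)) /
      (4 * (R ^ 2 * D')) = ((M.2.2 * (R ^ 2)⁻¹ + q) * w ^ 2 + Q τ M + q * σ ^ 2) / (4 * D') := by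
    field_simp
    ring
  have e5 : R ^ 2 * q / (M.2.2 + R ^ 2 * q) = q / (M.2.2 * (R ^ 2)⁻¹ + q) := by
    field_simp
  rw [e4, e5]
  calc _ = (R ^ (d : ℝ) * (R ^ 2) ^ (-((d : ℝ) / 2))) * (q / (M.2.2 * (R ^ 2)⁻¹ + q) *
        ((4 * Real.pi) ^ (-(d : ℝ)) * D' ^ (-((d : ℝ) / 2)) *
          Real.exp (-(((M.2.2 * (R ^ 2)⁻¹ + q) * w ^ 2 + Q τ M + q * σ ^ 2) / (4 * D'))))) := by
        ring
    _ = _ := by rw [e3, one_mul]

/-- the limit of the integrand -/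
noncomputable def Gl (d : ℕ) (M : Mat) (q σ τ₀ w₀ : ℝ) : ℝ :=
  ((4 * Real.pi * q) ^ (-((d : ℝ) / 2)) * Real.exp (-(1 / 4 / q))) *
    ((4 * Real.pi * Q τ₀ M) ^ (-((d : ℝ) / 2)) *
      Real.exp (-((w₀ ^ 2 + σ ^ 2) / (4 * Q τ₀ M))))

lemma Gf_lim (d : ℕ) (M : Mat) (q σ τ₀ w₀ : ℝ) (hq : 0 < q) (hQ : 0 < Q τ₀ M)
    (R τ w : ℕ → ℝ) (hR : Tendsto R atTop atTop) (hτ : Tendsto τ atTop (𝓝 τ₀))
    (hw : Tendsto w atTop (𝓝 w₀)) :
    Tendsto (fun k => Gf d M q σ (R k ^ 2)⁻¹ (R k)⁻¹ (τ k) (w k)) atTop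
      (𝓝 (Gl d M q σ τ₀ w₀)) := by
  have hη : Tendsto (fun k => (R k)⁻¹) atTop (𝓝 0) := tendsto_inv_atTop_zero.comp hR
  have hε : Tendsto (fun k => (R k ^ 2)⁻¹) atTop (𝓝 0) := by
    have : (fun k => (R k ^ 2)⁻¹) = fun k => ((R k)⁻¹) ^ 2 := by funext k; rw [inv_pow]
    rw [this]
    simpa using hη.pow 2
  have h1 : Tendsto (fun k => M.2.2 * (R k ^ 2)⁻¹ + q) atTop (𝓝 q) := by
    simpa using (hε.const_mul M.2.2).add_const q
  have hQc : Continuous (fun x : ℝ => Q x M) := by unfold Q; fun_prop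
  have h2 : Tendsto (fun k => Q (τ k + σ * (R k)⁻¹) M) atTop (𝓝 (Q τ₀ M)) := by
    apply (hQc.tendsto τ₀).comp
    simpa using hτ.add (hη.const_mul σ)
  have h3 : Tendsto (fun k => det M * (R k ^ 2)⁻¹ + q * Q (τ k + σ * (R k)⁻¹) M) atTop
      (𝓝 (q * Q τ₀ M)) := by
    simpa using (hε.const_mul (det M)).add (h2.const_mul q)
  have h4 : Tendsto (fun k => Q (τ k) M) atTop (𝓝 (Q τ₀ M)) := (hQc.tendsto τ₀).comp hτ
  have hqQ : 0 < q * Q τ₀ M := mul_pos hq hQ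
  have h5 : Tendsto (fun k => Gf d M q σ (R k ^ 2)⁻¹ (R k)⁻¹ (τ k) (w k)) atTop
      (𝓝 (q / q * ((4 * Real.pi) ^ (-(d : ℝ)) * (q * Q τ₀ M) ^ (-((d : ℝ) / 2)) *
        Real.exp (-((q * w₀ ^ 2 + Q τ₀ M + q * σ ^ 2) / (4 * (q * Q τ₀ M))))))) := by
    unfold Gf
    apply Tendsto.mul
    · exact tendsto_const_nhds.div h1 hq.ne'
    · apply Tendsto.mul
      · apply Tendsto.mul tendsto_const_nhds
        exact h3.rpow_const (Or.inl hqQ.ne')
      · apply (Real.continuous_exp.tendsto _).comp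
        apply Tendsto.neg
        apply Tendsto.div _ (h3.const_mul 4) (by positivity)
        exact (((h1.mul (hw.pow 2)).add h4).add_const _)
  convert! h5 using 2
  unfold Gl
  rw [div_self hq.ne', one_mul]
  have hpi := Real.pi_pos
  have e1 : (q * w₀ ^ 2 + Q τ₀ M + q * σ ^ 2) / (4 * (q * Q τ₀ M)) =
      1 / 4 / q + (w₀ ^ 2 + σ ^ 2) / (4 * Q τ₀ M) := by
    field_simp
    ring
  rw [e1, neg_add, Real.exp_add, Real.mul_rpow (by positivity) hq.le,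
    Real.mul_rpow (by positivity) hQ.le, Real.mul_rpow hq.le hQ.le]
  have e2 : (4 * Real.pi) ^ (-(d : ℝ)) =
      (4 * Real.pi) ^ (-((d : ℝ) / 2)) * (4 * Real.pi) ^ (-((d : ℝ) / 2)) := by
    rw [← Real.rpow_add (by positivity)]; congr 1; ring
  rw [e2]
  ring

lemma ind_meas (a b : ℝ) : Measurable (ind a b) := by
  unfold ind
  exact Measurable.ite (measurableSet_Ici.inter measurableSet_Iic) measurable_const
    measurable_const

lemma Gf_meas (d : ℕ) (M : Mat) (q ε η τ w : ℝ) : Measurable (fun σ => Gf d M q σ ε η τ w) := by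
  unfold Gf Q
  fun_prop

/-- domination of the integrand -/
lemma dom {t : ℝ} (ht : 0 < t) (d : ℕ) (M : Mat) (hM : M ∈ cone t) (hd : 0 < det M)
    (R q σ τ w : ℝ) (hR : 0 < R) (hq : 0 < q) (hc1 : M.2.2 < R ^ 2 * q)
    (hδ : |M.2.2 * τ - M.2.1| ≤ R * q) (h0 : 0 ≤ τ + σ * R⁻¹) (h1 : τ + σ * R⁻¹ ≤ t) :
    Gf d M q σ (R ^ 2)⁻¹ R⁻¹ τ w ≤ q ^ (-((d : ℝ) / 2)) * th M ^ (-((d : ℝ) / 2)) *
      Real.exp (1 / (16 * (M.1 + t ^ 2 * M.2.2))) *
      Real.exp (-(1 / (32 * (M.1 + t ^ 2 * M.2.2))) * σ ^ 2) := by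
  have hc := c_pos ht hM hd
  have hth := th_pos ht hM hd
  set τ' := τ + σ * R⁻¹ with hτ'
  have hQ := Q_pos ht hM hd τ'
  set Qm := M.1 + t ^ 2 * M.2.2 with hQm
  have hQle : Q τ' M ≤ Qm := by
    unfold Q
    obtain ⟨k1, k2, k3, k4, k5⟩ := hM
    have h2 : 0 ≤ τ' * M.2.1 := mul_nonneg h0 k1
    have h3 : τ' ^ 2 * M.2.2 ≤ t ^ 2 * M.2.2 :=
      mul_le_mul_of_nonneg_right (pow_le_pow_left₀ h0 h1 2) hc.le
    rw [hQm]; linarith
  have hQmpos : 0 < Qm := hQ.trans_le hQle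
  rw [← G_eq d M R q σ τ w hR hq hc hd hQ]
  have hr0 : 0 < R ^ 2 * q := by positivity
  have hJ : M + J (R ^ 2 * q, τ') ∈ cone t := add_mem_cone ht hM (J_mem_cone hr0.le h0 h1)
  have hb := C1.gr_bound ht d M hM hd R (R ^ 2 * q) τ τ' hc1
  have hb0 := gr_le_gr_zero ht hJ d R τ w
  have hfrac : R ^ 2 * q / (M.2.2 + R ^ 2 * q) ≤ 1 := by
    rw [div_le_one (by positivity)]; linarith
  have hgr0 : 0 ≤ gr d (M + J (R ^ 2 * q, τ')) R τ 0 := gr_nonneg hJ d R τ 0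
  have hdd : -((d : ℝ) / 2) ≤ 0 := by
    have : (0 : ℝ) ≤ d := Nat.cast_nonneg d
    linarith
  -- the exponent
  set δ := (M.2.2 * τ - M.2.1) / (R * q) with hδdef
  have hδ1 : δ ^ 2 ≤ 1 := by
    have h2 : |δ| ≤ 1 := by
      rw [hδdef, abs_div, abs_of_pos (show 0 < R * q by positivity), div_le_one (by positivity)]
      exact hδ
    have := abs_le.1 h2
    nlinarith
  have hsq : R ^ 2 * (τ' - (τ + (M.2.2 * τ - M.2.1) / (R ^ 2 * q))) ^ 2 = (σ - δ) ^ 2 := by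
    have : R * (τ' - (τ + (M.2.2 * τ - M.2.1) / (R ^ 2 * q))) = σ - δ := by
      rw [hτ', hδdef]; field_simp; ring
    rw [← this]; ring
  have hexp : Real.exp (-(R ^ 2 * (τ' - (τ + (M.2.2 * τ - M.2.1) / (R ^ 2 * q))) ^ 2 /
      (16 * Q τ' M))) ≤ Real.exp (1 / (16 * Qm)) * Real.exp (-(1 / (32 * Qm)) * σ ^ 2) := by
    rw [← Real.exp_add, hsq]
    apply Real.exp_le_exp.2
    have h2 : (σ - δ) ^ 2 / (16 * Qm) ≤ (σ - δ) ^ 2 / (16 * Q τ' M) :=
      div_le_div_of_nonneg_left (sq_nonneg _) (by positivity) (by linarith)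
    have h3 : σ ^ 2 / 2 - 1 ≤ (σ - δ) ^ 2 := by nlinarith [sq_nonneg (σ - 2 * δ)]
    have h4 : (σ ^ 2 / 2 - 1) / (16 * Qm) ≤ (σ - δ) ^ 2 / (16 * Qm) :=
      div_le_div_of_nonneg_right h3 (by positivity)
    have h5 : (σ ^ 2 / 2 - 1) / (16 * Qm) = 1 / (32 * Qm) * σ ^ 2 - 1 / (16 * Qm) := by
      field_simp; ring
    linarith
  have hQth : Q τ' M ^ (-((d : ℝ) / 2)) ≤ th M ^ (-((d : ℝ) / 2)) :=
    Real.rpow_le_rpow_of_nonpos hth (th_le_Q ht hM hd τ') hdd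
  have he8 : Real.exp (-(R ^ 2 / (8 * (R ^ 2 * q)))) ≤ 1 := by
    apply Real.exp_le_one_iff.2
    have : 0 ≤ R ^ 2 / (8 * (R ^ 2 * q)) := by positivity
    linarith
  have hRd : R ^ (d : ℝ) * (R ^ 2 * q) ^ (-((d : ℝ) / 2)) = q ^ (-((d : ℝ) / 2)) := by
    rw [Real.mul_rpow (by positivity) hq.le, ← mul_assoc, ← Real.rpow_natCast R 2,
      ← Real.rpow_mul hR.le, ← Real.rpow_add hR]
    have : (d : ℝ) + ((2 : ℕ) : ℝ) * -((d : ℝ) / 2) = 0 := by push_cast; ring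
    rw [this, Real.rpow_zero, one_mul]
  calc R ^ (d : ℝ) * (R ^ 2 * q / (M.2.2 + R ^ 2 * q) * gr d (M + J (R ^ 2 * q, τ')) R τ w)
      ≤ R ^ (d : ℝ) * (1 * gr d (M + J (R ^ 2 * q, τ')) R τ 0) := by
        apply mul_le_mul_of_nonneg_left _ (by positivity)
        exact mul_le_mul hfrac hb0 (gr_nonneg hJ d R τ w) (by norm_num)
    _ ≤ R ^ (d : ℝ) * ((R ^ 2 * q) ^ (-((d : ℝ) / 2)) * 1 *
          (th M ^ (-((d : ℝ) / 2)) * (Real.exp (1 / (16 * Qm)) *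
            Real.exp (-(1 / (32 * Qm)) * σ ^ 2)))) := by
        apply mul_le_mul_of_nonneg_left _ (by positivity)
        rw [one_mul]
        refine hb.trans ?_
        gcongr
    _ = (R ^ (d : ℝ) * (R ^ 2 * q) ^ (-((d : ℝ) / 2))) * (th M ^ (-((d : ℝ) / 2)) *
          (Real.exp (1 / (16 * Qm)) * Real.exp (-(1 / (32 * Qm)) * σ ^ 2))) := by ring
    _ = _ := by rw [hRd]; ring

/-- the `τ`-integral -/
noncomputable def Y (d : ℕ) (t : ℝ) (M : Mat) (R τ w q : ℝ) : ℝ≥0∞ :=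
  ENNReal.ofReal (R ^ ((d : ℝ) + 1)) * ∫⁻ τ' in Icc (0 : ℝ) t,
    ENNReal.ofReal (R ^ 2 * q / (M.2.2 + R ^ 2 * q) * gr d (M + J (R ^ 2 * q, τ')) R τ w)

lemma Y_eq {t : ℝ} (ht : 0 < t) (d : ℕ) (M : Mat) (hM : M ∈ cone t) (hd : 0 < det M)
    (R τ w q : ℝ) (hR : 0 < R) (hq : 0 < q) :
    Y d t M R τ w q = ∫⁻ σ, ENNReal.ofReal (ind (-(R * τ)) (R * (t - τ)) σ *
      Gf d M q σ (R ^ 2)⁻¹ R⁻¹ τ w) := by
  have hc := c_pos ht hM hd
  set h : ℝ → ℝ≥0∞ := fun τ' => ENNReal.ofReal (R ^ 2 * q / (M.2.2 + R ^ 2 * q) *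
    gr d (M + J (R ^ 2 * q, τ')) R τ w) with hh
  have hhm : Measurable h := by
    have h1 : Measurable (fun τ' : ℝ => M + J (R ^ 2 * q, τ')) := by
      unfold J; fun_prop
    have h2 := (gr_meas d R τ w).comp h1
    exact (h2.const_mul _).ennreal_ofReal
  unfold Y
  rw [← lintegral_indicator measurableSet_Icc,
    subst_lin R τ hR _ (Measurable.indicator hhm measurableSet_Icc), ← mul_assoc,
    ← ENNReal.ofReal_mul (by positivity), ← lintegral_const_mul' _ _ ENNReal.ofReal_ne_top]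
  congr 1
  funext σ
  have eR : R ^ ((d : ℝ) + 1) * R⁻¹ = R ^ (d : ℝ) := by
    rw [Real.rpow_add hR, Real.rpow_one]; field_simp
  rw [eR]
  have hiff : (τ + σ * R⁻¹ ∈ Icc (0 : ℝ) t) ↔ (-(R * τ) ≤ σ ∧ σ ≤ R * (t - τ)) := by
    have e1 : τ + σ * R⁻¹ = (R * τ + σ) / R := by field_simp
    rw [mem_Icc, e1, le_div_iff₀ hR, div_le_iff₀ hR]
    constructor
    · rintro ⟨h1, h2⟩; constructor <;> nlinarith
    · rintro ⟨h1, h2⟩; constructor <;> nlinarith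
  unfold ind
  by_cases hcase : τ + σ * R⁻¹ ∈ Icc (0 : ℝ) t
  · rw [indicator_of_mem hcase, if_pos (hiff.1 hcase), one_mul, hh]
    simp only
    rw [← ENNReal.ofReal_mul (by positivity)]
    congr 1
    exact G_eq d M R q σ τ w hR hq hc hd (Q_pos ht hM hd _)
  · rw [indicator_of_notMem hcase, if_neg (fun h => hcase (hiff.2 h)), zero_mul, mul_zero,
      ENNReal.ofReal_zero]

lemma Y_meas (d : ℕ) (t : ℝ) (M : Mat) (R τ w : ℝ) : Measurable (Y d t M R τ w) := by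
  unfold Y
  apply Measurable.const_mul
  have h1 : Measurable (fun x : ℝ × ℝ => ENNReal.ofReal (R ^ 2 * x.1 / (M.2.2 + R ^ 2 * x.1) *
      gr d (M + J (R ^ 2 * x.1, x.2)) R τ w)) := by
    have h2 : Measurable (fun x : ℝ × ℝ => M + J (R ^ 2 * x.1, x.2)) := by
      unfold J; fun_prop
    have h3 := (gr_meas d R τ w).comp h2
    apply Measurable.ennreal_ofReal
    apply Measurable.mul _ h3
    fun_prop
  exact h1.lintegral_prod_right'

/-- the whole inner expression after the change of variables -/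
lemma L_eq (s t : ℝ) (d : ℕ) (M : Mat) (R τ w T : ℝ) (hR : 0 < R) :
    ENNReal.ofReal (R ^ (d + 1 + 2 * s)) *
      ∫⁻ p, (if M.2.2 ≤ T ∧ T < p.1 then
        ENNReal.ofReal (p.1 / (M.2.2 + p.1) * gr d (M + J p) R τ w) else 0) ∂(rho s t) =
    ∫⁻ q, (if M.2.2 ≤ T ∧ T < R ^ 2 * q then Y d t M R τ w q else 0) ∂(lev s) := by
  have hm : Measurable (fun p : ℝ × ℝ => if M.2.2 ≤ T ∧ T < p.1 then
      ENNReal.ofReal (p.1 / (M.2.2 + p.1) * gr d (M + J p) R τ w) else 0) := by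
    apply Measurable.ite
    · exact (MeasurableSet.const _).inter (measurableSet_lt measurable_const measurable_fst)
    · have h2 : Measurable (fun x : ℝ × ℝ => M + J x) := by
        unfold J; fun_prop
      have h3 := (gr_meas d R τ w).comp h2
      apply Measurable.ennreal_ofReal
      apply Measurable.mul _ h3
      fun_prop
    · exact measurable_const
  unfold rho
  rw [lintegral_prod _ hm.aemeasurable, lev_scale s (R ^ 2) (by positivity) _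
    hm.lintegral_prod_right', ← mul_assoc, ← ENNReal.ofReal_mul (by positivity),
    ← lintegral_const_mul' _ _ ENNReal.ofReal_ne_top]
  congr 1
  funext q
  have e1 : R ^ ((d : ℝ) + 1 + 2 * s) * (R ^ 2) ^ (-s) = R ^ ((d : ℝ) + 1) := by
    rw [← Real.rpow_natCast R 2, ← Real.rpow_mul hR.le, ← Real.rpow_add hR]
    congr 1
    push_cast
    ring
  rw [e1]
  unfold Y
  by_cases h : M.2.2 ≤ T ∧ T < R ^ 2 * q
  · simp only [if_pos h]
  · simp only [if_neg h, lintegral_zero, mul_zero]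

/-- the `σ`-limit -/
lemma Y_lim {t : ℝ} (ht : 0 < t) (d : ℕ) (M : Mat) (hM : M ∈ cone t) (hd : 0 < det M)
    (q : ℝ) (hq : 0 < q) (R τ w : ℕ → ℝ) (τ₀ w₀ : ℝ) (χ : ℝ → ℝ) (hR : Tendsto R atTop atTop)
    (hτ : Tendsto τ atTop (𝓝 τ₀)) (hw : Tendsto w atTop (𝓝 w₀))
    (hχ : ∀ᵐ σ : ℝ, Tendsto (fun k => ind (-(R k * τ k)) (R k * (t - τ k)) σ) atTop (𝓝 (χ σ))) :
    Tendsto (fun k => Y d t M (R k) (τ k) (w k) q) atTop
      (𝓝 (∫⁻ σ, ENNReal.ofReal (χ σ * Gl d M q σ τ₀ w₀))) := by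
  have hc := c_pos ht hM hd
  set Qm := M.1 + t ^ 2 * M.2.2 with hQm
  have hQmpos : 0 < Qm := by
    obtain ⟨k1, k2, k3, k4, k5⟩ := hM
    have : 0 < t ^ 2 * M.2.2 := by positivity
    linarith
  have hRpos : ∀ᶠ k in atTop, 0 < R k := hR.eventually_gt_atTop 0
  have hev1 : ∀ᶠ k in atTop, M.2.2 < R k ^ 2 * q := by
    have h1 : Tendsto (fun k => R k ^ 2 * q) atTop atTop :=
      ((tendsto_pow_atTop two_ne_zero).comp hR).atTop_mul_const hq
    exact h1.eventually_gt_atTop _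
  have hev2 : ∀ᶠ k in atTop, |M.2.2 * τ k - M.2.1| ≤ R k * q := by
    have h1 : Tendsto (fun k => R k * q) atTop atTop := hR.atTop_mul_const hq
    have h2 : Tendsto (fun k => |M.2.2 * τ k - M.2.1|) atTop (𝓝 |M.2.2 * τ₀ - M.2.1|) :=
      ((hτ.const_mul _).sub_const _).abs
    filter_upwards [h1.eventually_ge_atTop (|M.2.2 * τ₀ - M.2.1| + 1),
      h2.eventually (gt_mem_nhds (lt_add_one _))] with k k1 k2
    linarith
  have hYe : ∀ᶠ k in atTop, ∫⁻ σ, ENNReal.ofReal (ind (-(R k * τ k)) (R k * (t - τ k)) σ *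
      Gf d M q σ (R k ^ 2)⁻¹ (R k)⁻¹ (τ k) (w k)) = Y d t M (R k) (τ k) (w k) q := by
    filter_upwards [hRpos] with k k1
    exact (Y_eq ht d M hM hd (R k) (τ k) (w k) q k1 hq).symm
  refine Tendsto.congr' hYe ?_
  refine tendsto_lintegral_filter_of_dominated_convergence
    (fun σ => ENNReal.ofReal (q ^ (-((d : ℝ) / 2)) * th M ^ (-((d : ℝ) / 2)) *
      Real.exp (1 / (16 * Qm)) * Real.exp (-(1 / (32 * Qm)) * σ ^ 2))) ?_ ?_ ?_ ?_
  · exact Eventually.of_forall fun k => ((ind_meas _ _).mul (Gf_meas _ _ _ _ _ _ _)).ennreal_ofReal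
  · filter_upwards [hRpos, hev1, hev2] with k k1 k2 k3
    refine Eventually.of_forall fun σ => ?_
    apply ENNReal.ofReal_le_ofReal
    unfold ind
    have hth := th_pos ht hM hd
    split_ifs with h
    · rw [one_mul]
      have hiff : 0 ≤ τ k + σ * (R k)⁻¹ ∧ τ k + σ * (R k)⁻¹ ≤ t := by
        have e1 : τ k + σ * (R k)⁻¹ = (R k * τ k + σ) / R k := by field_simp
        rw [e1, le_div_iff₀ k1, div_le_iff₀ k1]
        obtain ⟨h1, h2⟩ := h
        constructor <;> nlinarith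
      exact dom ht d M hM hd (R k) q σ (τ k) (w k) k1 hq k2 k3 hiff.1 hiff.2
    · rw [zero_mul]
      positivity
  · have hb : 0 < 1 / (32 * Qm) := by positivity
    have h1 := (integrable_exp_neg_mul_sq hb).const_mul
      (q ^ (-((d : ℝ) / 2)) * th M ^ (-((d : ℝ) / 2)) * Real.exp (1 / (16 * Qm)))
    exact h1.lintegral_lt_top.ne
  · filter_upwards [hχ] with σ hσ
    exact (ENNReal.continuous_ofReal.tendsto _).comp
      (hσ.mul (Gf_lim d M q σ τ₀ w₀ hq (Q_pos ht hM hd τ₀) R τ w hR hτ hw))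

/-- the bound for the `τ`-integral -/
lemma Y_bound {s t : ℝ} (ht : 0 < t) (d : ℕ) (C : ℝ) (hC : 0 < C)
    (hCb : ∀ (M : Mat), M ∈ cone t → 0 < det M → ∀ R r τ₀ : ℝ, 1 ≤ R → M.2.2 ≤ R ^ (2 - s / 4) →
      R ^ (2 - s / 4) < r →
      ∫⁻ τ in Icc (0 : ℝ) t, ENNReal.ofReal (gr d (M + J (r, τ)) R τ₀ 0) ≤
      ENNReal.ofReal (C * (th M ^ (-((d : ℝ) / 2)) + th M ^ (-(((d : ℝ) - 1) / 2))) * R⁻¹ *
        r ^ (-((d : ℝ) / 2)) * Real.exp (-(R ^ 2 / (8 * r)))))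
    (M : Mat) (hM : M ∈ cone t) (hd : 0 < det M) (R τ w q : ℝ) (hR : 1 ≤ R) (hq : 0 < q)
    (hc1 : M.2.2 ≤ R ^ (2 - s / 4)) (hr : R ^ (2 - s / 4) < R ^ 2 * q) :
    Y d t M R τ w q ≤ ENNReal.ofReal (C * (th M ^ (-((d : ℝ) / 2)) +
      th M ^ (-(((d : ℝ) - 1) / 2)))) * ENNReal.ofReal (q ^ (-((d : ℝ) / 2)) *
        Real.exp (-(1 / 8 / q))) := by
  have hR0 : 0 < R := by linarith
  have hc := c_pos ht hM hd
  have hth := th_pos ht hM hd
  have h1 : ∫⁻ τ' in Icc (0 : ℝ) t,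
      ENNReal.ofReal (R ^ 2 * q / (M.2.2 + R ^ 2 * q) * gr d (M + J (R ^ 2 * q, τ')) R τ w) ≤
      ∫⁻ τ' in Icc (0 : ℝ) t, ENNReal.ofReal (gr d (M + J (R ^ 2 * q, τ')) R τ 0) := by
    apply setLIntegral_mono' measurableSet_Icc
    intro τ' hτ'
    apply ENNReal.ofReal_le_ofReal
    have hr0 : 0 < R ^ 2 * q := by positivity
    have hJ : M + J (R ^ 2 * q, τ') ∈ cone t := add_mem_cone ht hM
      (J_mem_cone hr0.le hτ'.1 hτ'.2)
    have hfrac : R ^ 2 * q / (M.2.2 + R ^ 2 * q) ≤ 1 := by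
      rw [div_le_one (by positivity)]; linarith
    calc _ ≤ 1 * gr d (M + J (R ^ 2 * q, τ')) R τ 0 :=
          mul_le_mul hfrac (gr_le_gr_zero ht hJ d R τ w) (gr_nonneg hJ d R τ w) (by norm_num)
      _ = _ := one_mul _
  unfold Y
  calc _ ≤ ENNReal.ofReal (R ^ ((d : ℝ) + 1)) * ENNReal.ofReal (C *
        (th M ^ (-((d : ℝ) / 2)) + th M ^ (-(((d : ℝ) - 1) / 2))) * R⁻¹ *
        (R ^ 2 * q) ^ (-((d : ℝ) / 2)) * Real.exp (-(R ^ 2 / (8 * (R ^ 2 * q))))) := by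
        gcongr
        exact h1.trans (hCb M hM hd R (R ^ 2 * q) τ hR hc1 hr)
    _ = _ := by
        rw [← ENNReal.ofReal_mul (by positivity), ← ENNReal.ofReal_mul (by positivity)]
        congr 1
        have e1 : R ^ ((d : ℝ) + 1) * (R⁻¹ * (R ^ 2 * q) ^ (-((d : ℝ) / 2))) =
            q ^ (-((d : ℝ) / 2)) := by
          rw [Real.mul_rpow (by positivity) hq.le, Real.rpow_add hR0, Real.rpow_one,
            ← Real.rpow_natCast R 2, ← Real.rpow_mul hR0.le]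
          have e2 : R ^ (d : ℝ) * R ^ (((2 : ℕ) : ℝ) * -((d : ℝ) / 2)) = 1 := by
            rw [← Real.rpow_add hR0]
            have : (d : ℝ) + ((2 : ℕ) : ℝ) * -((d : ℝ) / 2) = 0 := by push_cast; ring
            rw [this, Real.rpow_zero]
          calc _ = (R ^ (d : ℝ) * R ^ (((2 : ℕ) : ℝ) * -((d : ℝ) / 2))) * (R * R⁻¹) *
                q ^ (-((d : ℝ) / 2)) := by ring
            _ = _ := by rw [e2, mul_inv_cancel₀ hR0.ne']; ring
        have e3 : R ^ 2 / (8 * (R ^ 2 * q)) = 1 / 8 / q := by field_simp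
        rw [e3]
        calc _ = C * (th M ^ (-((d : ℝ) / 2)) + th M ^ (-(((d : ℝ) - 1) / 2))) *
              (R ^ ((d : ℝ) + 1) * (R⁻¹ * (R ^ 2 * q) ^ (-((d : ℝ) / 2)))) *
              Real.exp (-(1 / 8 / q)) := by ring
          _ = _ := by rw [e1]; ring

/-- the limit in `q` -/
lemma L_lim {s t : ℝ} (hs : 0 < s) (hs1 : s < 1) (ht : 0 < t) (d : ℕ) (C : ℝ) (hC : 0 < C)
    (hCb : ∀ (M : Mat), M ∈ cone t → 0 < det M → ∀ R r τ₀ : ℝ, 1 ≤ R → M.2.2 ≤ R ^ (2 - s / 4) →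
      R ^ (2 - s / 4) < r →
      ∫⁻ τ in Icc (0 : ℝ) t, ENNReal.ofReal (gr d (M + J (r, τ)) R τ₀ 0) ≤
      ENNReal.ofReal (C * (th M ^ (-((d : ℝ) / 2)) + th M ^ (-(((d : ℝ) - 1) / 2))) * R⁻¹ *
        r ^ (-((d : ℝ) / 2)) * Real.exp (-(R ^ 2 / (8 * r)))))
    (M : Mat) (hM : M ∈ cone t) (hd : 0 < det M) (R τ w : ℕ → ℝ) (τ₀ w₀ : ℝ) (χ : ℝ → ℝ)
    (hR : Tendsto R atTop atTop)
    (hτ : Tendsto τ atTop (𝓝 τ₀)) (hw : Tendsto w atTop (𝓝 w₀))
    (hχ : ∀ᵐ σ : ℝ, Tendsto (fun k => ind (-(R k * τ k)) (R k * (t - τ k)) σ) atTop (𝓝 (χ σ))) :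
    Tendsto (fun k => ∫⁻ q, (if M.2.2 ≤ R k ^ (2 - s / 4) ∧ R k ^ (2 - s / 4) < R k ^ 2 * q then
        Y d t M (R k) (τ k) (w k) q else 0) ∂(lev s)) atTop
      (𝓝 (∫⁻ q, (∫⁻ σ, ENNReal.ofReal (χ σ * Gl d M q σ τ₀ w₀)) ∂(lev s))) := by
  have hth := th_pos ht hM hd
  have hR1 : ∀ᶠ k in atTop, 1 ≤ R k := hR.eventually_ge_atTop 1
  have hev1 : ∀ᶠ k in atTop, M.2.2 ≤ R k ^ (2 - s / 4) := by
    have h1 : Tendsto (fun k => R k ^ (2 - s / 4)) atTop atTop :=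
      (tendsto_rpow_atTop (by linarith)).comp hR
    exact h1.eventually_ge_atTop _
  refine tendsto_lintegral_filter_of_dominated_convergence
    (fun q => ENNReal.ofReal (C * (th M ^ (-((d : ℝ) / 2)) +
      th M ^ (-(((d : ℝ) - 1) / 2)))) * ENNReal.ofReal (q ^ (-((d : ℝ) / 2)) *
        Real.exp (-(1 / 8 / q)))) ?_ ?_ ?_ ?_
  · refine Eventually.of_forall fun k => ?_
    apply Measurable.ite
    · exact (MeasurableSet.const _).inter (measurableSet_lt measurable_const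
        (measurable_id.const_mul _))
    · exact Y_meas _ _ _ _ _ _
    · exact measurable_const
  · filter_upwards [hR1] with k k1
    filter_upwards [lev_ae s] with q hq
    split_ifs with h
    · exact Y_bound ht d C hC hCb M hM hd (R k) (τ k) (w k) q k1 hq h.1 h.2
    · exact zero_le
  · rw [lintegral_const_mul' _ _ ENNReal.ofReal_ne_top, lev_gauss d s (1 / 8) hs hs1 (by norm_num)]
    exact ENNReal.mul_ne_top ENNReal.ofReal_ne_top ENNReal.ofReal_ne_top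
  · filter_upwards [lev_ae s] with q hq
    have h2 : ∀ᶠ k in atTop, R k ^ (2 - s / 4) < R k ^ 2 * q := by
      have h3 : Tendsto (fun k => R k ^ (-(s / 4))) atTop (𝓝 0) :=
        (tendsto_rpow_neg_atTop (by positivity)).comp hR
      filter_upwards [h3.eventually (gt_mem_nhds hq), hR1] with k k1 k2
      have hk0 : 0 < R k := by linarith
      have e1 : R k ^ (2 - s / 4) = R k ^ 2 * R k ^ (-(s / 4)) := by
        rw [← Real.rpow_natCast (R k) 2, ← Real.rpow_add hk0]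
        congr 1
      rw [e1]
      exact mul_lt_mul_of_pos_left k1 (by positivity)
    refine (Y_lim ht d M hM hd q hq R τ w τ₀ w₀ χ hR hτ hw hχ).congr' ?_
    filter_upwards [h2, hev1] with k k1 k2
    rw [if_pos ⟨k2, k1⟩]

/-- the Gaussian factor -/
noncomputable def Bf (d : ℕ) (τ₀ w₀ : ℝ) (M : Mat) (σ : ℝ) : ℝ :=
  (4 * Real.pi * Q τ₀ M) ^ (-((d : ℝ) / 2)) * Real.exp (-((w₀ ^ 2 + σ ^ 2) / (4 * Q τ₀ M)))

lemma Bf_meas (d : ℕ) (τ₀ w₀ : ℝ) : Measurable (Function.uncurry (Bf d τ₀ w₀)) := by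
  unfold Bf Q Function.uncurry
  fun_prop

/-- evaluation of the limit for a fixed matrix -/
lemma lim_eval {s : ℝ} (hs : 0 < s) (hs1 : s < 1) (d : ℕ) (M : Mat) (τ₀ w₀ : ℝ) (χ : ℝ → ℝ)
    (hχ0 : ∀ᵐ σ : ℝ, 0 ≤ χ σ) :
    ∫⁻ q, (∫⁻ σ, ENNReal.ofReal (χ σ * Gl d M q σ τ₀ w₀)) ∂(lev s) =
      ENNReal.ofReal (cds d s) * ∫⁻ σ, ENNReal.ofReal (χ σ) * ENNReal.ofReal (Bf d τ₀ w₀ M σ) := by
  have h1 : ∀ᵐ q ∂(lev s), ∫⁻ σ, ENNReal.ofReal (χ σ * Gl d M q σ τ₀ w₀) =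
      ENNReal.ofReal ((4 * Real.pi * q) ^ (-((d : ℝ) / 2)) * Real.exp (-(1 / 4 / q))) *
        ∫⁻ σ, ENNReal.ofReal (χ σ) * ENNReal.ofReal (Bf d τ₀ w₀ M σ) := by
    filter_upwards [lev_ae s] with q hq
    have hpi := Real.pi_pos
    rw [← lintegral_const_mul' _ _ ENNReal.ofReal_ne_top]
    apply lintegral_congr_ae
    filter_upwards [hχ0] with σ hσ
    rw [ENNReal.ofReal_mul hσ]
    unfold Gl
    rw [ENNReal.ofReal_mul (by positivity)]
    unfold Bf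
    ring
  rw [lintegral_congr_ae h1, lintegral_mul_const, lev_cds d s hs hs1]
  fun_prop

theorem main (hN1 : StmtN1) (hN2 : StmtN2) (hC1 : StmtC1) : StmtC := by
  intro s t P hs hs1 ht hP d hd1 R τ w τ₀ w₀ χ hR hτ hτ₀ hw hχ
  have := hP.prob
  obtain ⟨hpos, hint⟩ := hN1 s t P hs hs1 ht hP
  obtain ⟨C, hC, hCb⟩ := hC1 s t hs hs1 ht d hd1
  have hgood : ∀ᵐ M ∂P, M ∈ cone t ∧ 0 < det M := by
    filter_upwards [hP.supp, hpos] with M h1 h2
    exact ⟨h1, h2.2⟩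
  have hR1 : ∀ᶠ k in atTop, 1 ≤ R k := hR.eventually_ge_atTop 1
  have hχ0 : ∀ᵐ σ : ℝ, 0 ≤ χ σ := by
    filter_upwards [hχ] with σ hσ
    apply ge_of_tendsto' hσ
    intro k
    unfold ind
    split_ifs <;> norm_num
  have hd2 : (0 : ℝ) ≤ (d : ℝ) / 2 := by positivity
  have hd3 : (0 : ℝ) ≤ ((d : ℝ) - 1) / 2 := by
    have : (1 : ℝ) ≤ d := by exact_mod_cast hd1
    linarith
  have hm2 := hN2 s t P hs hs1 ht hP ((d : ℝ) / 2) 0 hd2 le_rfl hs
  have hm3 := hN2 s t P hs hs1 ht hP (((d : ℝ) - 1) / 2) 0 hd3 le_rfl hs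
  simp only [Real.rpow_zero, one_mul] at hm2 hm3
  have hthm : Measurable th := by
    unfold th det; fun_prop
  -- the constant of the bound
  set D : ℝ≥0∞ := ENNReal.ofReal (kap s * ((1 / 8 : ℝ) ^ (-((d : ℝ) / 2 + s)) *
    Real.Gamma ((d : ℝ) / 2 + s))) with hD
  have key : Tendsto (fun k => ∫⁻ M, (ENNReal.ofReal (R k ^ (d + 1 + 2 * s)) *
      ∫⁻ p, (if M.2.2 ≤ R k ^ (2 - s / 4) ∧ R k ^ (2 - s / 4) < p.1 then
      ENNReal.ofReal (p.1 / (M.2.2 + p.1) * gr d (M + J p) (R k) (τ k) (w k)) else 0)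
      ∂(rho s t)) ∂P) atTop
      (𝓝 (∫⁻ M, (∫⁻ q, (∫⁻ σ, ENNReal.ofReal (χ σ * Gl d M q σ τ₀ w₀)) ∂(lev s)) ∂P)) := by
    refine tendsto_lintegral_filter_of_dominated_convergence
      (fun M => ENNReal.ofReal (C * (th M ^ (-((d : ℝ) / 2)) +
        th M ^ (-(((d : ℝ) - 1) / 2)))) * D) ?_ ?_ ?_ ?_
    · refine Eventually.of_forall fun k => ?_
      apply Measurable.const_mul
      have hm : Measurable (fun x : Mat × (ℝ × ℝ) =>
          if x.1.2.2 ≤ R k ^ (2 - s / 4) ∧ R k ^ (2 - s / 4) < x.2.1 then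
          ENNReal.ofReal (x.2.1 / (x.1.2.2 + x.2.1) *
            gr d (x.1 + J x.2) (R k) (τ k) (w k)) else 0) := by
        apply Measurable.ite
        · exact (measurableSet_le (f := fun x : Mat × (ℝ × ℝ) => x.1.2.2) (by fun_prop)
            measurable_const).inter (measurableSet_lt (g := fun x : Mat × (ℝ × ℝ) => x.2.1)
            measurable_const (by fun_prop))
        · have h2 : Measurable (fun x : Mat × (ℝ × ℝ) => x.1 + J x.2) := by
            unfold J; fun_prop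
          have h3 := (gr_meas d (R k) (τ k) (w k)).comp h2
          apply Measurable.ennreal_ofReal
          apply Measurable.mul _ h3
          fun_prop
        · exact measurable_const
      exact hm.lintegral_prod_right'
    · filter_upwards [hR1] with k k1
      have hk0 : 0 < R k := by linarith
      filter_upwards [hgood] with M hM
      rw [L_eq s t d M (R k) (τ k) (w k) _ hk0, hD,
        ← lev_gauss d s (1 / 8) hs hs1 (by norm_num),
        ← lintegral_const_mul' _ _ ENNReal.ofReal_ne_top]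
      apply lintegral_mono_ae
      filter_upwards [lev_ae s] with q hq
      split_ifs with h
      · exact Y_bound ht d C hC hCb M hM.1 hM.2 (R k) (τ k) (w k) q k1 hq h.1 h.2
      · exact zero_le
    · rw [lintegral_mul_const]
      · apply ENNReal.mul_ne_top _ ENNReal.ofReal_ne_top
        have h1 : ∫⁻ M, ENNReal.ofReal (C * (th M ^ (-((d : ℝ) / 2)) +
            th M ^ (-(((d : ℝ) - 1) / 2)))) ∂P ≤ ENNReal.ofReal C *
              (∫⁻ M, ENNReal.ofReal (th M ^ (-((d : ℝ) / 2))) ∂P +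
               ∫⁻ M, ENNReal.ofReal (th M ^ (-(((d : ℝ) - 1) / 2))) ∂P) := by
          rw [← lintegral_add_left (hthm.pow_const _).ennreal_ofReal,
            ← lintegral_const_mul' _ _ ENNReal.ofReal_ne_top]
          apply lintegral_mono
          intro M
          simp only
          rw [ENNReal.ofReal_mul hC.le]
          gcongr
          exact ENNReal.ofReal_add_le
        refine ne_top_of_le_ne_top ?_ h1
        exact ENNReal.mul_ne_top ENNReal.ofReal_ne_top (ENNReal.add_ne_top.2 ⟨hm2.ne, hm3.ne⟩)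
      · fun_prop
    · filter_upwards [hgood] with M hM
      refine (L_lim hs hs1 ht d C hC hCb M hM.1 hM.2 R τ w τ₀ w₀ χ hR hτ hw hχ).congr' ?_
      filter_upwards [hR1] with k k1
      exact (L_eq s t d M (R k) (τ k) (w k) _ (by linarith)).symm
  have hkey2 : (fun k => ∫⁻ M, (ENNReal.ofReal (R k ^ (d + 1 + 2 * s)) *
      ∫⁻ p, (if M.2.2 ≤ R k ^ (2 - s / 4) ∧ R k ^ (2 - s / 4) < p.1 then
      ENNReal.ofReal (p.1 / (M.2.2 + p.1) * gr d (M + J p) (R k) (τ k) (w k)) else 0)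
      ∂(rho s t)) ∂P) = (fun k => ENNReal.ofReal (R k ^ (d + 1 + 2 * s)) *
    ∫⁻ M, ∫⁻ p, (if M.2.2 ≤ R k ^ (2 - s / 4) ∧ R k ^ (2 - s / 4) < p.1 then
      ENNReal.ofReal (p.1 / (M.2.2 + p.1) * gr d (M + J p) (R k) (τ k) (w k)) else 0)
      ∂(rho s t) ∂P) := by
    funext k
    exact lintegral_const_mul' _ _ ENNReal.ofReal_ne_top
  rw [hkey2] at key
  convert! key using 2
  -- identification of the limit
  have hχm : AEMeasurable χ volume := by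
    refine aemeasurable_of_tendsto_metrizable_ae atTop (fun k => (ind_meas _ _).aemeasurable) hχ
  obtain ⟨χ', hχ'm, hχ'⟩ := hχm
  have e0 : ∀ M : Mat, ∫⁻ σ, ENNReal.ofReal (χ σ) * ENNReal.ofReal (Bf d τ₀ w₀ M σ) =
      ∫⁻ σ, ENNReal.ofReal (χ' σ) * ENNReal.ofReal (Bf d τ₀ w₀ M σ) := by
    intro M
    apply lintegral_congr_ae
    filter_upwards [hχ'] with σ hσ
    rw [hσ]
  have e1 : ∀ M : Mat, ∫⁻ q, (∫⁻ σ, ENNReal.ofReal (χ σ * Gl d M q σ τ₀ w₀)) ∂(lev s) =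
      ENNReal.ofReal (cds d s) * ∫⁻ σ, ENNReal.ofReal (χ' σ) *
        ENNReal.ofReal (Bf d τ₀ w₀ M σ) := by
    intro M
    rw [lim_eval hs hs1 d M τ₀ w₀ χ hχ0, e0]
  simp_rw [e1]
  rw [lintegral_const_mul' _ _ ENNReal.ofReal_ne_top]
  congr 1
  have hBm := Bf_meas d τ₀ w₀
  rw [lintegral_lintegral_swap]
  · apply lintegral_congr_ae
    filter_upwards [hχ'] with σ hσ
    rw [lintegral_const_mul' _ _ ENNReal.ofReal_ne_top, hσ]
    congr 1
    have hBint : Integrable (fun M => Bf d τ₀ w₀ M σ) P := by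
      have hB1 : Integrable (fun M => th M ^ (-((d : ℝ) / 2))) P := by
        refine ⟨(by fun_prop : Measurable fun M => th M ^ (-((d : ℝ) / 2))).aestronglyMeasurable,
          ?_⟩
        rw [hasFiniteIntegral_iff_ofReal]
        · exact hm2
        · filter_upwards [hgood] with M hM
          exact Real.rpow_nonneg (th_pos ht hM.1 hM.2).le _
      refine Integrable.mono' (hB1.const_mul ((4 * Real.pi) ^ (-((d : ℝ) / 2)))) ?_ ?_
      · exact (hBm.comp (measurable_id.prodMk measurable_const)).aestronglyMeasurable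
      · filter_upwards [hgood] with M hM
        have hQ := Q_pos ht hM.1 hM.2 τ₀
        have hth := th_pos ht hM.1 hM.2
        have hpi := Real.pi_pos
        unfold Bf
        rw [Real.norm_of_nonneg (by positivity), Real.mul_rpow (by positivity) hQ.le]
        have h1 : Q τ₀ M ^ (-((d : ℝ) / 2)) ≤ th M ^ (-((d : ℝ) / 2)) :=
          Real.rpow_le_rpow_of_nonpos hth (th_le_Q ht hM.1 hM.2 τ₀) (by linarith)
        have h2 : Real.exp (-((w₀ ^ 2 + σ ^ 2) / (4 * Q τ₀ M))) ≤ 1 := by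
          apply Real.exp_le_one_iff.2
          have : 0 ≤ (w₀ ^ 2 + σ ^ 2) / (4 * Q τ₀ M) := by positivity
          linarith
        calc (4 * Real.pi) ^ (-((d : ℝ) / 2)) * Q τ₀ M ^ (-((d : ℝ) / 2)) *
              Real.exp (-((w₀ ^ 2 + σ ^ 2) / (4 * Q τ₀ M)))
            ≤ (4 * Real.pi) ^ (-((d : ℝ) / 2)) * th M ^ (-((d : ℝ) / 2)) * 1 := by gcongr
          _ = _ := mul_one _
    rw [← ofReal_integral_eq_lintegral_ofReal hBint]
    · congr 1
      unfold pst Bf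
      rw [Real.sq_sqrt (by positivity)]
    · filter_upwards [hgood] with M hM
      have hQ := Q_pos ht hM.1 hM.2 τ₀
      have hpi := Real.pi_pos
      unfold Bf
      simp only [Pi.zero_apply]
      positivity
  · apply Measurable.aemeasurable
    exact (hχ'm.comp measurable_snd).ennreal_ofReal.mul hBm.ennreal_ofReal

end Pool.Agent.L0h89.FK.C
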