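import Pool.Agent.L0h89.FK.Defs2

/-! # Dm: domination of the rescaled density -/

set_option autoImplicit false

open MeasureTheory Set Filter Topology
open scoped ENNReal RealInnerProductSpace

namespace Pool.Agent.L0h89.FK.Dm

/-- the numerator -/
noncomputable def S (d : ℕ) (N : Mat) (x v : V d) : ℝ :=
  N.2.2 * ‖x‖ ^ 2 - 2 * N.2.1 * ⟪x, v⟫ + N.1 * ‖v‖ ^ 2

lemma E1 (d : ℕ) (N : Mat) (x v : V d) : det N * ‖v‖ ^ 2 ≤ S d N x v * N.2.2 := by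
  have h : 0 ≤ ‖N.2.2 • x - N.2.1 • v‖ ^ 2 := by positivity
  rw [norm_sub_sq_real, norm_smul, norm_smul, inner_smul_left, inner_smul_right, mul_pow, mul_pow,
    Real.norm_eq_abs, Real.norm_eq_abs, sq_abs, sq_abs] at h
  simp only [conj_trivial] at h
  unfold S det
  nlinarith

lemma E2 (d : ℕ) (N : Mat) (x v : V d) (τ : ℝ) :
    det N * ‖x - τ • v‖ ^ 2 ≤ S d N x v * Q τ N := by
  have h : 0 ≤ ‖(N.1 - τ * N.2.1) • v - (N.2.1 - τ * N.2.2) • x‖ ^ 2 := by positivity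
  rw [norm_sub_sq_real, norm_smul, norm_smul, inner_smul_left, inner_smul_right, mul_pow, mul_pow,
    Real.norm_eq_abs, Real.norm_eq_abs, sq_abs, sq_abs, real_inner_comm] at h
  simp only [conj_trivial] at h
  have h2 : ‖x - τ • v‖ ^ 2 = ‖x‖ ^ 2 - 2 * (τ * ⟪x, v⟫) + τ ^ 2 * ‖v‖ ^ 2 := by
    rw [norm_sub_sq_real, norm_smul, inner_smul_right, mul_pow, Real.norm_eq_abs, sq_abs]
  rw [h2]
  unfold S det Q
  nlinarith

lemma dist_sq (d : ℕ) (x v : V d) (hv : v ≠ 0) (τ : ℝ) :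
    ‖v‖ ^ 2 * (τ - ⟪x, v⟫ / ‖v‖ ^ 2) ^ 2 ≤ ‖x - τ • v‖ ^ 2 := by
  have hv' : 0 < ‖v‖ ^ 2 := by positivity
  have h2 : ‖x - τ • v‖ ^ 2 = ‖x‖ ^ 2 - 2 * (τ * ⟪x, v⟫) + τ ^ 2 * ‖v‖ ^ 2 := by
    rw [norm_sub_sq_real, norm_smul, inner_smul_right, mul_pow, Real.norm_eq_abs, sq_abs]
  rw [h2]
  have h3 : ⟪x, v⟫ ^ 2 ≤ ‖x‖ ^ 2 * ‖v‖ ^ 2 := by
    have := abs_real_inner_le_norm x v
    calc ⟪x, v⟫ ^ 2 = |⟪x, v⟫| ^ 2 := (sq_abs _).symm
      _ ≤ (‖x‖ * ‖v‖) ^ 2 := by gcongr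
      _ = _ := by ring
  have h4 : ⟪x, v⟫ ^ 2 / ‖v‖ ^ 2 ≤ ‖x‖ ^ 2 := by
    rw [div_le_iff₀ hv']; exact h3
  have h5 : ‖v‖ ^ 2 * (τ - ⟪x, v⟫ / ‖v‖ ^ 2) ^ 2 =
      τ ^ 2 * ‖v‖ ^ 2 - 2 * (τ * ⟪x, v⟫) + ⟪x, v⟫ ^ 2 / ‖v‖ ^ 2 := by
    field_simp
    ring
  rw [h5]
  linarith

/-- `u^{-d/2} e^{-1/(8u)} ≤ C min(1,u)` -/
lemma upow (d : ℕ) : ∃ C : ℝ, 0 < C ∧ ∀ u : ℝ, 0 < u →
    u ^ (-((d : ℝ) / 2)) * Real.exp (-(1 / (8 * u))) ≤ C * min 1 u := by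
  obtain ⟨C1, hC1, h1⟩ := exp_le_rpow ((d : ℝ) / 2) (by positivity)
  obtain ⟨C2, hC2, h2⟩ := exp_le_rpow ((d : ℝ) / 2 + 1) (by positivity)
  refine ⟨C1 * 8 ^ ((d : ℝ) / 2) + C2 * 8 ^ ((d : ℝ) / 2 + 1), by positivity, fun u hu => ?_⟩
  have hy : (0 : ℝ) < 1 / (8 * u) := by positivity
  have e1 : ∀ k : ℝ, (1 / (8 * u)) ^ (-k) = 8 ^ k * u ^ k := by
    intro k
    rw [one_div, Real.inv_rpow (by positivity), Real.rpow_neg (by positivity), inv_inv,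
      Real.mul_rpow (by norm_num) hu.le]
  have e2 : u ^ (-((d : ℝ) / 2)) * u ^ ((d : ℝ) / 2) = 1 := by
    rw [← Real.rpow_add hu]; simp
  have e3 : u ^ (-((d : ℝ) / 2)) * u ^ ((d : ℝ) / 2 + 1) = u := by
    rw [← Real.rpow_add hu]; simp
  have a1 : u ^ (-((d : ℝ) / 2)) * Real.exp (-(1 / (8 * u))) ≤ C1 * 8 ^ ((d : ℝ) / 2) * 1 := by
    calc _ ≤ u ^ (-((d : ℝ) / 2)) * (C1 * (1 / (8 * u)) ^ (-((d : ℝ) / 2))) :=
          mul_le_mul_of_nonneg_left (h1 _ hy) (by positivity)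
      _ = C1 * 8 ^ ((d : ℝ) / 2) * (u ^ (-((d : ℝ) / 2)) * u ^ ((d : ℝ) / 2)) := by
          rw [e1]; ring
      _ = _ := by rw [e2]
  have a2 : u ^ (-((d : ℝ) / 2)) * Real.exp (-(1 / (8 * u))) ≤
      C2 * 8 ^ ((d : ℝ) / 2 + 1) * u := by
    calc _ ≤ u ^ (-((d : ℝ) / 2)) * (C2 * (1 / (8 * u)) ^ (-((d : ℝ) / 2 + 1))) :=
          mul_le_mul_of_nonneg_left (h2 _ hy) (by positivity)
      _ = C2 * 8 ^ ((d : ℝ) / 2 + 1) * (u ^ (-((d : ℝ) / 2)) * u ^ ((d : ℝ) / 2 + 1)) := by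
          rw [e1]; ring
      _ = _ := by rw [e3]
  have p1 : 0 < C1 * (8 : ℝ) ^ ((d : ℝ) / 2) := by positivity
  have p2 : 0 < C2 * (8 : ℝ) ^ ((d : ℝ) / 2 + 1) := by positivity
  rcases le_total 1 u with h | h
  · rw [min_eq_left h]
    linarith
  · rw [min_eq_right h]
    nlinarith

theorem main : StmtDm := by
  intro t ht d hd
  obtain ⟨C, hC, hu⟩ := upow d
  refine ⟨(4 * Real.pi) ^ (-(d : ℝ)) * (C * max 1 (t ^ 2)), by positivity,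
    fun M q₁ σ p x v l hM hq hp hp2 hl hv hτ hfar hle => ?_⟩
  have hR : 0 < ‖v‖ := norm_pos_iff.2 hv
  obtain ⟨τ₁, hτ₁⟩ : ∃ τ₁, τ₁ = ⟪x, v⟫ / ‖v‖ ^ 2 + σ * (l / ‖v‖) := ⟨_, rfl⟩
  obtain ⟨r₁, hr₁⟩ : ∃ r₁, r₁ = ‖v‖ ^ 2 * q₁ := ⟨_, rfl⟩
  obtain ⟨r₂, hr₂⟩ : ∃ r₂, r₂ = l ^ 2 * p.1 := ⟨_, rfl⟩
  obtain ⟨M', hM'⟩ : ∃ M', M' = M + J (r₂, p.2) := ⟨_, rfl⟩
  obtain ⟨N, hN⟩ : ∃ N, N = M' + J (r₁, τ₁) := ⟨_, rfl⟩
  rw [← hr₁, ← hr₂] at hle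
  rw [← hτ₁] at hτ
  have hr1 : 0 < r₁ := by rw [hr₁]; positivity
  have hr2 : 0 < r₂ := by rw [hr₂]; positivity
  have hJ2 : J (r₂, p.2) ∈ cone t := J_mem_cone hr2.le hp2.1 hp2.2
  have hJ1 : J (r₁, τ₁) ∈ cone t := J_mem_cone hr1.le hτ.1 hτ.2
  have hM'c : M' ∈ cone t := by rw [hM']; exact add_mem_cone ht hM hJ2
  have hNc : N ∈ cone t := by rw [hN]; exact add_mem_cone ht hM'c hJ1
  have hc0 : 0 ≤ M.2.2 := c_nonneg ht hM
  have hc' : M'.2.2 = M.2.2 + r₂ := by rw [hM']; rfl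
  have hcN : N.2.2 = M'.2.2 + r₁ := by rw [hN]; rfl
  have hc'pos : 0 < M'.2.2 := by rw [hc']; linarith
  have hdM' := det_nonneg hM'c
  have hdN := det_nonneg hNc
  have hdet : det N = det M' + r₁ * Q τ₁ M' := by rw [hN]; exact det_add_J _ _ _
  have hQ0 : 0 ≤ Q τ₁ M' := by
    have := c_mul_Q τ₁ M'
    by_contra h
    push Not at h
    have h1 : M'.2.2 * Q τ₁ M' < 0 := mul_neg_of_pos_of_neg hc'pos h
    nlinarith [sq_nonneg (M'.2.2 * τ₁ - M'.2.1)]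
  have hQN : Q τ₁ N = Q τ₁ M' := by rw [hN, Q_add_J]; ring
  have hPsi : Psi d M q₁ σ p x v l = (‖v‖ * l) ^ (d : ℝ) * g d N x v := by
    unfold Psi
    rw [← hτ₁, ← hr₁, ← hr₂, ← hM', ← hN]
  have hgS : g d N x v = (4 * Real.pi) ^ (-(d : ℝ)) * det N ^ (-((d : ℝ) / 2)) *
      Real.exp (-(S d N x v / (4 * det N))) := rfl
  have hd0 : (d : ℝ) ≠ 0 := by positivity
  have hBd : 0 ≤ Bd d q₁ σ p := by
    unfold Bd
    have : 0 ≤ min 1 (p.1 / (max 1 |σ|) ^ 2) := by positivity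
    positivity
  rcases hdN.eq_or_lt with h0 | h0
  · -- degenerate
    rw [hPsi, hgS, ← h0, Real.zero_rpow (by simpa using hd0)]
    simp only [mul_zero, zero_mul]
    have : 0 ≤ (4 * Real.pi) ^ (-(d : ℝ)) * (C * max 1 (t ^ 2)) := by positivity
    positivity
  -- nondegenerate
  have hX := hfar τ₁ hτ
  have hX0 : 0 < ‖x - τ₁ • v‖ := hl.trans_le hX
  have hQ : 0 < Q τ₁ M' := by
    rcases hQ0.eq_or_lt with h | h
    · exfalso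
      have := E2 d N x v τ₁
      rw [hQN, ← h, mul_zero] at this
      have h2 : 0 < det N * ‖x - τ₁ • v‖ ^ 2 := by positivity
      linarith
    · exact h
  have hcNle : N.2.2 ≤ 3 * r₁ := by rw [hcN, hc']; linarith
  have hcNpos : 0 < N.2.2 := by rw [hcN]; linarith
  -- the exponent
  have b1 : 1 / (12 * q₁) ≤ S d N x v / (4 * det N) := by
    have e := E1 d N x v
    have e1 : ‖v‖ ^ 2 / (4 * N.2.2) ≤ S d N x v / (4 * det N) := by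
      rw [div_le_div_iff₀ (by positivity) (by positivity)]
      linarith
    refine le_trans ?_ e1
    rw [div_le_div_iff₀ (by positivity) (by positivity)]
    have := mul_le_mul_of_nonneg_left hcNle (by norm_num : (0 : ℝ) ≤ 4)
    rw [hr₁] at this
    linarith
  obtain ⟨T, hT⟩ : ∃ T, T = max 1 |σ| := ⟨_, rfl⟩
  have hT1 : 1 ≤ T := by rw [hT]; exact le_max_left _ _
  have hXT : l ^ 2 * T ^ 2 ≤ ‖x - τ₁ • v‖ ^ 2 := by
    have e1 : l ^ 2 ≤ ‖x - τ₁ • v‖ ^ 2 := by gcongr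
    have e2 : l ^ 2 * |σ| ^ 2 ≤ ‖x - τ₁ • v‖ ^ 2 := by
      have := dist_sq d x v hv τ₁
      refine le_trans (le_of_eq ?_) this
      rw [hτ₁, sq_abs]
      field_simp
      ring
    rw [hT]
    rcases le_total 1 |σ| with h | h
    · rw [max_eq_right h]; exact e2
    · rw [max_eq_left h]; simpa using e1
  obtain ⟨u, hu'⟩ : ∃ u, u = Q τ₁ M' / (l ^ 2 * T ^ 2) := ⟨_, rfl⟩
  have hupos : 0 < u := by rw [hu']; positivity
  have hQu : Q τ₁ M' = u * (l ^ 2 * T ^ 2) := by rw [hu']; field_simp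
  have b2 : 1 / (4 * u) ≤ S d N x v / (4 * det N) := by
    have e := E2 d N x v τ₁
    rw [hQN] at e
    have e1 : ‖x - τ₁ • v‖ ^ 2 / (4 * Q τ₁ M') ≤ S d N x v / (4 * det N) := by
      rw [div_le_div_iff₀ (by positivity) (by positivity)]
      linarith
    refine le_trans ?_ e1
    rw [hQu, div_le_div_iff₀ (by positivity) (by positivity)]
    have := mul_le_mul_of_nonneg_left hXT (by positivity : 0 ≤ 4 * u)
    linarith
  have b3 : Real.exp (-(S d N x v / (4 * det N))) ≤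
      Real.exp (-(1 / 24 / q₁)) * Real.exp (-(1 / (8 * u))) := by
    rw [← Real.exp_add]
    apply Real.exp_le_exp.2
    have e1 : 1 / 24 / q₁ = 1 / (12 * q₁) / 2 := by field_simp; norm_num
    have e2 : 1 / (8 * u) = 1 / (4 * u) / 2 := by field_simp; norm_num
    rw [e1, e2]
    linarith
  -- the determinant
  have b4 : det N ^ (-((d : ℝ) / 2)) ≤ (r₁ * Q τ₁ M') ^ (-((d : ℝ) / 2)) := by
    apply Real.rpow_le_rpow_of_nonpos (by positivity) (by rw [hdet]; linarith)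
    have : (0 : ℝ) ≤ d := by positivity
    linarith
  have b5 : (‖v‖ * l) ^ (d : ℝ) * (r₁ * Q τ₁ M') ^ (-((d : ℝ) / 2)) =
      q₁ ^ (-((d : ℝ) / 2)) * (T ^ (-(d : ℝ)) * u ^ (-((d : ℝ) / 2))) := by
    have e0 : r₁ * Q τ₁ M' = (‖v‖ * l) ^ 2 * (q₁ * (T ^ 2 * u)) := by rw [hQu, hr₁]; ring
    have e1 : ((‖v‖ * l) ^ 2) ^ (-((d : ℝ) / 2)) = (‖v‖ * l) ^ (-(d : ℝ)) := by
      rw [← Real.rpow_natCast, ← Real.rpow_mul (by positivity)]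
      congr 1; push_cast; ring
    have e2 : (T ^ 2) ^ (-((d : ℝ) / 2)) = T ^ (-(d : ℝ)) := by
      rw [← Real.rpow_natCast, ← Real.rpow_mul (by positivity)]
      congr 1; push_cast; ring
    have e3 : (‖v‖ * l) ^ (d : ℝ) * (‖v‖ * l) ^ (-(d : ℝ)) = 1 := by
      rw [← Real.rpow_add (by positivity)]; simp
    have e4 : ((‖v‖ * l) ^ 2 * (q₁ * (T ^ 2 * u))) ^ (-((d : ℝ) / 2)) =
        (‖v‖ * l) ^ (-(d : ℝ)) * (q₁ ^ (-((d : ℝ) / 2)) *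
          (T ^ (-(d : ℝ)) * u ^ (-((d : ℝ) / 2)))) := by
      rw [Real.mul_rpow (by positivity) (by positivity), e1,
        Real.mul_rpow hq.le (by positivity), Real.mul_rpow (by positivity) hupos.le, e2]
    rw [e0, e4, ← mul_assoc, e3, one_mul]
  have b6 : Psi d M q₁ σ p x v l ≤ (4 * Real.pi) ^ (-(d : ℝ)) *
      (q₁ ^ (-((d : ℝ) / 2)) * Real.exp (-(1 / 24 / q₁)) * (T ^ (-(d : ℝ)) * (C * min 1 u))) := by
    rw [hPsi, hgS]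
    calc (‖v‖ * l) ^ (d : ℝ) * ((4 * Real.pi) ^ (-(d : ℝ)) * det N ^ (-((d : ℝ) / 2)) *
          Real.exp (-(S d N x v / (4 * det N)))) ≤
        (‖v‖ * l) ^ (d : ℝ) * ((4 * Real.pi) ^ (-(d : ℝ)) * (r₁ * Q τ₁ M') ^ (-((d : ℝ) / 2)) *
          (Real.exp (-(1 / 24 / q₁)) * Real.exp (-(1 / (8 * u))))) := by
          gcongr
      _ = (4 * Real.pi) ^ (-(d : ℝ)) * (((‖v‖ * l) ^ (d : ℝ) *
          (r₁ * Q τ₁ M') ^ (-((d : ℝ) / 2))) *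
          (Real.exp (-(1 / 24 / q₁)) * Real.exp (-(1 / (8 * u))))) := by ring
      _ = (4 * Real.pi) ^ (-(d : ℝ)) * (q₁ ^ (-((d : ℝ) / 2)) * Real.exp (-(1 / 24 / q₁)) *
          (T ^ (-(d : ℝ)) * (u ^ (-((d : ℝ) / 2)) * Real.exp (-(1 / (8 * u)))))) := by
          rw [b5]; ring
      _ ≤ _ := by
          apply mul_le_mul_of_nonneg_left _ (by positivity)
          apply mul_le_mul_of_nonneg_left _ (by positivity)
          exact mul_le_mul_of_nonneg_left (hu u hupos) (by positivity)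
  -- the weight
  have hwpos : 0 < r₂ / (M.2.2 + r₂) := by positivity
  have hw1 : r₂ / (M.2.2 + r₂) ≤ 1 := by
    rw [div_le_one (by positivity)]; linarith
  have b7 : r₂ / (M.2.2 + r₂) * min 1 u ≤ max 1 (t ^ 2) * min 1 (p.1 / T ^ 2) := by
    have hm1 : 1 ≤ max 1 (t ^ 2) := le_max_left _ _
    have hm2 : t ^ 2 ≤ max 1 (t ^ 2) := le_max_right _ _
    have c1 : r₂ / (M.2.2 + r₂) * min 1 u ≤ max 1 (t ^ 2) * 1 := by
      calc _ ≤ 1 * 1 := mul_le_mul hw1 (min_le_left _ _) (by positivity) zero_le_one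
        _ ≤ _ := by linarith
    have c2 : r₂ / (M.2.2 + r₂) * min 1 u ≤ max 1 (t ^ 2) * (p.1 / T ^ 2) := by
      have e1 : u ≤ t ^ 2 * (M.2.2 + r₂) / (l ^ 2 * T ^ 2) := by
        rw [hu']
        apply div_le_div_of_nonneg_right _ (by positivity)
        have := I.Q_cone ht hτ.1 hτ.2 hM'c
        rw [hc'] at this
        exact this
      calc _ ≤ r₂ / (M.2.2 + r₂) * u := mul_le_mul_of_nonneg_left (min_le_right _ _) hwpos.le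
        _ ≤ r₂ / (M.2.2 + r₂) * (t ^ 2 * (M.2.2 + r₂) / (l ^ 2 * T ^ 2)) :=
            mul_le_mul_of_nonneg_left e1 hwpos.le
        _ = t ^ 2 * (p.1 / T ^ 2) := by
            have : M.2.2 + r₂ ≠ 0 := by positivity
            rw [hr₂] at *
            field_simp
        _ ≤ _ := mul_le_mul_of_nonneg_right hm2 (by positivity)
    rcases le_total 1 (p.1 / T ^ 2) with h | h
    · rw [min_eq_left h]; exact c1
    · rw [min_eq_right h]; exact c2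
  rw [← hr₂]
  calc r₂ / (M.2.2 + r₂) * Psi d M q₁ σ p x v l ≤
      r₂ / (M.2.2 + r₂) * ((4 * Real.pi) ^ (-(d : ℝ)) *
      (q₁ ^ (-((d : ℝ) / 2)) * Real.exp (-(1 / 24 / q₁)) * (T ^ (-(d : ℝ)) * (C * min 1 u)))) :=
        mul_le_mul_of_nonneg_left b6 hwpos.le
    _ = (4 * Real.pi) ^ (-(d : ℝ)) * C * (q₁ ^ (-((d : ℝ) / 2)) * Real.exp (-(1 / 24 / q₁)) *
        T ^ (-(d : ℝ))) * (r₂ / (M.2.2 + r₂) * min 1 u) := by ring
    _ ≤ (4 * Real.pi) ^ (-(d : ℝ)) * C * (q₁ ^ (-((d : ℝ) / 2)) * Real.exp (-(1 / 24 / q₁)) *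
        T ^ (-(d : ℝ))) * (max 1 (t ^ 2) * min 1 (p.1 / T ^ 2)) :=
        mul_le_mul_of_nonneg_left b7 (by positivity)
    _ = (4 * Real.pi) ^ (-(d : ℝ)) * (C * max 1 (t ^ 2)) * Bd d q₁ σ p := by
        unfold Bd
        rw [← hT]
        ring

end Pool.Agent.L0h89.FK.Dm
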