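import Pool.Agent.L0h89.FK.Defs2
import Pool.Agent.L0h89.FK.Dm
import Pool.Agent.L0h89.FK.Bi

/-! # DL, HL: the limits of the dominant part and of the two jump profile -/

set_option autoImplicit false

open MeasureTheory Set Filter Topology
open scoped ENNReal RealInnerProductSpace

namespace Pool.Agent.L0h89.FK.DL

/-- change of variables in the two jump integral -/
lemma change (s t R l τ : ℝ) (hR : 0 < R) (hl : 0 < l) (F : (ℝ × ℝ) × (ℝ × ℝ) → ℝ≥0∞)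
    (hF : Measurable F) :
    ∫⁻ p₂, (∫⁻ p₁, F (p₂, p₁) ∂(rho s t)) ∂(rho s t) =
      ENNReal.ofReal (R ^ (-(2 * s)) * (l / R) * l ^ (-(2 * s))) *
        ∫⁻ q, (∫⁻ σ, (∫⁻ p, ENNReal.ofReal (ind (-(R * τ / l)) (R * (t - τ) / l) σ) *
          F ((l ^ 2 * p.1, p.2), (R ^ 2 * q, τ + σ * (l / R))) ∂(rho s t))) ∂(lev s) := by
  have hR2 : (R ^ 2) ^ (-s) = R ^ (-(2 * s)) := by
    rw [← Real.rpow_natCast, ← Real.rpow_mul hR.le]; congr 1; push_cast; ring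
  have hl2 : (l ^ 2) ^ (-s) = l ^ (-(2 * s)) := by
    rw [← Real.rpow_natCast, ← Real.rpow_mul hl.le]; congr 1; push_cast; ring
  have hG : Measurable (fun p₁ : ℝ × ℝ => ∫⁻ p₂, F (p₂, p₁) ∂(rho s t)) :=
    hF.lintegral_prod_left'
  rw [lintegral_lintegral_swap (f := fun p₂ p₁ => F (p₂, p₁)) hF.aemeasurable,
    I.rho_scale s t (R ^ 2) (by positivity) _ hG, hR2]
  have hG2 : Measurable (fun p₁ : ℝ × ℝ => ∫⁻ p₂, F (p₂, (R ^ 2 * p₁.1, p₁.2)) ∂(rho s t)) :=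
    hG.comp (by fun_prop : Measurable fun p₁ : ℝ × ℝ => (R ^ 2 * p₁.1, p₁.2))
  have e1 : ∫⁻ p₁, (∫⁻ p₂, F (p₂, (R ^ 2 * p₁.1, p₁.2)) ∂(rho s t)) ∂(rho s t) =
      ∫⁻ q, (∫⁻ τ' in Icc (0 : ℝ) t, (∫⁻ p₂, F (p₂, (R ^ 2 * q, τ')) ∂(rho s t))) ∂(lev s) := by
    conv_lhs => unfold rho
    exact lintegral_prod _ hG2.aemeasurable
  rw [e1]
  have e2 : ∀ q : ℝ, ∫⁻ τ' in Icc (0 : ℝ) t, (∫⁻ p₂, F (p₂, (R ^ 2 * q, τ')) ∂(rho s t)) =
      ENNReal.ofReal ((l / R) * l ^ (-(2 * s))) *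
      ∫⁻ σ, (∫⁻ p, ENNReal.ofReal (ind (-(R * τ / l)) (R * (t - τ) / l) σ) *
          F ((l ^ 2 * p.1, p.2), (R ^ 2 * q, τ + σ * (l / R))) ∂(rho s t)) := by
    intro q
    have hH : Measurable (fun τ' : ℝ => ∫⁻ p₂, F (p₂, (R ^ 2 * q, τ')) ∂(rho s t)) :=
      hG.comp (by fun_prop : Measurable fun τ' : ℝ => (R ^ 2 * q, τ'))
    rw [← lintegral_indicator measurableSet_Icc, C.subst_lin (R / l) τ (by positivity) _
      (hH.indicator measurableSet_Icc), inv_div, ENNReal.ofReal_mul (by positivity), mul_assoc]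
    congr 1
    rw [← lintegral_const_mul' _ _ ENNReal.ofReal_ne_top]
    refine lintegral_congr fun σ => ?_
    have hiff : (τ + σ * (l / R) ∈ Icc (0 : ℝ) t) ↔
        (-(R * τ / l) ≤ σ ∧ σ ≤ R * (t - τ) / l) := by
      rw [mem_Icc, le_div_iff₀ hl, ← neg_div, div_le_iff₀ hl]
      have h1 : τ + σ * (l / R) = (R * τ + σ * l) / R := by field_simp
      rw [h1, le_div_iff₀ hR, div_le_iff₀ hR]
      constructor
      · rintro ⟨k1, k2⟩
        exact ⟨by linarith, by linarith⟩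
      · rintro ⟨k1, k2⟩
        exact ⟨by linarith, by linarith⟩
    rw [lintegral_const_mul' _ _ ENNReal.ofReal_ne_top]
    unfold ind
    by_cases hm : τ + σ * (l / R) ∈ Icc (0 : ℝ) t
    · rw [indicator_of_mem hm, if_pos (hiff.1 hm), ENNReal.ofReal_one, one_mul,
        I.rho_scale s t (l ^ 2) (by positivity)
        (fun p => F (p, (R ^ 2 * q, τ + σ * (l / R)))) (by fun_prop), hl2]
    · rw [indicator_of_notMem hm, if_neg (fun h => hm (hiff.2 h)), ENNReal.ofReal_zero, zero_mul,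
        mul_zero]
  simp_rw [e2]
  rw [lintegral_const_mul' _ _ ENNReal.ofReal_ne_top, ← mul_assoc, ← ENNReal.ofReal_mul
    (by positivity)]
  congr 2
  ring

/-- the exponents -/
lemma pow_id (d : ℕ) (s R l : ℝ) (hR : 0 < R) (hl : 0 < l) :
    R ^ ((d : ℝ) + 1 + 2 * s) * l ^ ((d : ℝ) - 1 + 2 * s) *
      (R ^ (-(2 * s)) * (l / R) * l ^ (-(2 * s))) = (R * l) ^ (d : ℝ) := by
  have h1 : R ^ ((d : ℝ) + 1 + 2 * s) * R ^ (-(2 * s)) = R ^ (d : ℝ) * R := by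
    rw [← Real.rpow_add hR]
    nth_rewrite 3 [← Real.rpow_one R]
    rw [← Real.rpow_add hR]
    congr 1; ring
  have h2 : l ^ ((d : ℝ) - 1 + 2 * s) * l ^ (-(2 * s)) * l = l ^ (d : ℝ) := by
    rw [← Real.rpow_add hl]
    nth_rewrite 2 [← Real.rpow_one l]
    rw [← Real.rpow_add hl]
    congr 1; ring
  rw [Real.mul_rpow hR.le hl.le]
  calc _ = (R ^ ((d : ℝ) + 1 + 2 * s) * R ^ (-(2 * s))) / R *
      (l ^ ((d : ℝ) - 1 + 2 * s) * l ^ (-(2 * s)) * l) := by ring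
    _ = _ := by
      rw [h1, h2]
      field_simp

/-- the rescaled integrand -/
noncomputable def fk (d : ℕ) (t : ℝ) (Φ : Mat → ℝ → ℝ × ℝ → ℝ) (x v : V d) (l : ℝ)
    (a : Mat × (ℝ × (ℝ × (ℝ × ℝ)))) : ℝ≥0∞ :=
  ENNReal.ofReal (ind (-(‖v‖ * (⟪x, v⟫ / ‖v‖ ^ 2) / l))
    (‖v‖ * (t - ⟪x, v⟫ / ‖v‖ ^ 2) / l) a.2.2.1) *
    ENNReal.ofReal (Φ a.1 a.2.1 a.2.2.2 * Psi d a.1 a.2.1 a.2.2.1 a.2.2.2 x v l)

lemma fk_meas (d : ℕ) (t : ℝ) (Φ : Mat → ℝ → ℝ × ℝ → ℝ)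
    (hΦ : Measurable fun a : Mat × (ℝ × (ℝ × ℝ)) => Φ a.1 a.2.1 a.2.2) (x v : V d) (l : ℝ) :
    Measurable (fk d t Φ x v l) := by
  have h1 : Measurable fun a : Mat × (ℝ × (ℝ × (ℝ × ℝ))) =>
      ind (-(‖v‖ * (⟪x, v⟫ / ‖v‖ ^ 2) / l)) (‖v‖ * (t - ⟪x, v⟫ / ‖v‖ ^ 2) / l) a.2.2.1 :=
    (C.ind_meas _ _).comp (by fun_prop)
  have h2 : Measurable fun a : Mat × (ℝ × (ℝ × (ℝ × ℝ))) => Φ a.1 a.2.1 a.2.2.2 :=
    hΦ.comp (by fun_prop : Measurable fun a : Mat × (ℝ × (ℝ × (ℝ × ℝ))) =>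
        (a.1, (a.2.1, a.2.2.2)))
  have h3 : Measurable fun a : Mat × (ℝ × (ℝ × (ℝ × ℝ))) =>
      Psi d a.1 a.2.1 a.2.2.1 a.2.2.2 x v l := by
    have h4 : Measurable fun a : Mat × (ℝ × (ℝ × (ℝ × ℝ))) =>
        a.1 + J (l ^ 2 * a.2.2.2.1, a.2.2.2.2) +
          J (‖v‖ ^ 2 * a.2.1, ⟪x, v⟫ / ‖v‖ ^ 2 + a.2.2.1 * (l / ‖v‖)) :=
      (measurable_fst.add (J_meas.comp (by fun_prop))).add (J_meas.comp (by fun_prop))
    exact ((I.g_meas d x v).comp h4).const_mul _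
  exact h1.ennreal_ofReal.mul (h2.mul h3).ennreal_ofReal

lemma Gl2_meas (d : ℕ) (τ₀ ω : ℝ) :
    Measurable fun a : Mat × (ℝ × (ℝ × (ℝ × ℝ))) => Gl2 d a.2.1 a.2.2.1 a.2.2.2 τ₀ ω := by
  unfold Gl2
  fun_prop

lemma Bd_meas (d : ℕ) :
    Measurable fun a : Mat × (ℝ × (ℝ × (ℝ × ℝ))) => Bd d a.2.1 a.2.2.1 a.2.2.2 := by
  unfold Bd
  fun_prop

lemma tau_ne (s t τ₀ : ℝ) : ∀ᵐ p ∂(rho s t), p.2 ≠ τ₀ := by
  unfold rho
  have h : ∀ᵐ τ ∂((volume : Measure ℝ).restrict (Icc (0 : ℝ) t)), τ ≠ τ₀ := by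
    apply ae_restrict_of_ae
    rw [ae_iff]
    have : {σ : ℝ | ¬ σ ≠ τ₀} = {τ₀} := by ext; simp
    rw [this]
    exact measure_singleton _
  exact Measure.quasiMeasurePreserving_snd.ae h

/-- the abstract limit theorem -/
theorem core (hLm : StmtLm) {s t : ℝ} (hs : 0 < s) (hs1 : s < 1) (ht : 0 < t) (P : Measure Mat)
    [IsProbabilityMeasure P] (hP : ∀ᵐ M ∂P, M ∈ cone t) (d : ℕ) (hd : 1 ≤ d) (x v : ℕ → V d)
    (l : ℕ → ℝ) (τ₀ ω : ℝ) (a b : EReal) (hN : Near d t x v l τ₀ ω a b)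
    (Φ : ℕ → Mat → ℝ → ℝ × ℝ → ℝ)
    (hΦ : ∀ k, Measurable fun a : Mat × (ℝ × (ℝ × ℝ)) => Φ k a.1 a.2.1 a.2.2)
    (hb : ∀ k M q p, M ∈ cone t → 0 < q → 0 < p.1 → 0 ≤ Φ k M q p ∧
      Φ k M q p ≤ l k ^ 2 * p.1 / (M.2.2 + l k ^ 2 * p.1) ∧
      (Φ k M q p ≠ 0 → M.2.2 + l k ^ 2 * p.1 ≤ 2 * (‖v k‖ ^ 2 * q)))
    (hlim : ∀ M q p, M ∈ cone t → 0 < q → 0 < p.1 → Tendsto (fun k => Φ k M q p) atTop (𝓝 1)) :
    Tendsto (fun k => ∫⁻ M, (∫⁻ q, (∫⁻ σ, (∫⁻ p, fk d t (Φ k) (x k) (v k) (l k) (M, (q, (σ, p)))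
      ∂(rho s t))) ∂(lev s)) ∂P) atTop (𝓝 (L2 d s t τ₀ ω a b)) := by
  have hDm := Dm.main t ht d hd
  obtain ⟨C, hC, hdm⟩ := hDm
  have hBi := Bi.main s t hs hs1 ht d hd
  obtain ⟨ν, hν⟩ : ∃ ν, ν = P.prod ((lev s).prod ((volume : Measure ℝ).prod (rho s t))) := ⟨_, rfl⟩
  have hprod : ∀ f : Mat × (ℝ × (ℝ × (ℝ × ℝ))) → ℝ≥0∞, Measurable f →
      ∫⁻ z, f z ∂ν = ∫⁻ M, (∫⁻ q, (∫⁻ σ, (∫⁻ p, f (M, (q, (σ, p))) ∂(rho s t))) ∂(lev s)) ∂P := by
    intro f hf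
    rw [hν, lintegral_prod _ hf.aemeasurable]
    refine lintegral_congr fun M => ?_
    have hf1 : Measurable fun z : ℝ × (ℝ × (ℝ × ℝ)) => f (M, z) := hf.comp (by fun_prop)
    rw [lintegral_prod _ hf1.aemeasurable]
    refine lintegral_congr fun q => ?_
    have hf2 : Measurable fun z : ℝ × (ℝ × ℝ) => f (M, (q, z)) := hf.comp (by fun_prop)
    rw [lintegral_prod _ hf2.aemeasurable]
  have hae : ∀ᵐ z ∂ν, z.1 ∈ cone t ∧ 0 < z.2.1 ∧ (0 < z.2.2.2.1 ∧ z.2.2.2.2 ∈ Icc (0 : ℝ) t) := by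
    rw [hν]
    filter_upwards [Measure.quasiMeasurePreserving_fst.ae hP,
      Measure.quasiMeasurePreserving_snd.ae (Measure.quasiMeasurePreserving_fst.ae (I.lev_pos s)),
      Measure.quasiMeasurePreserving_snd.ae (Measure.quasiMeasurePreserving_snd.ae
        (Measure.quasiMeasurePreserving_snd.ae (I.rho_ae s t)))] with z h1 h2 h3
    exact ⟨h1, h2, h3⟩
  have hne : ∀ᵐ z ∂ν, z.2.2.2.2 ≠ τ₀ := by
    rw [hν]
    exact Measure.quasiMeasurePreserving_snd.ae (Measure.quasiMeasurePreserving_snd.ae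
        (Measure.quasiMeasurePreserving_snd.ae (tau_ne s t τ₀)))
  have hind : ∀ᵐ z ∂ν, Tendsto (fun k => ind (-(‖v k‖ * (⟪x k, v k⟫ / ‖v k‖ ^ 2) / l k))
      (‖v k‖ * (t - ⟪x k, v k⟫ / ‖v k‖ ^ 2) / l k) z.2.2.1) atTop
      (𝓝 ((Fin.Sab a b).indicator (fun _ => (1 : ℝ)) z.2.2.1)) := by
    rw [hν]
    exact Measure.quasiMeasurePreserving_snd.ae (Measure.quasiMeasurePreserving_snd.ae
      (Measure.quasiMeasurePreserving_fst.ae (Fin.ind_tendsto _ _ a b hN.ta hN.tb)))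
  have hmS : Measurable ((Fin.Sab a b).indicator (fun _ => (1 : ℝ))) :=
    measurable_const.indicator (Fin.Sab_open a b).measurableSet
  have hlimF : L2 d s t τ₀ ω a b = ∫⁻ z, ENNReal.ofReal ((Fin.Sab a b).indicator
      (fun _ => (1 : ℝ)) z.2.2.1) * ENNReal.ofReal (Gl2 d z.2.1 z.2.2.1 z.2.2.2 τ₀ ω) ∂ν := by
    rw [hprod]
    · simp only [lintegral_const, measure_univ, mul_one]
      rfl
    · exact (ENNReal.measurable_ofReal.comp (hmS.comp (by fun_prop))).mul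
        (ENNReal.measurable_ofReal.comp (Gl2_meas d τ₀ ω))
  rw [hlimF]
  have hfun : (fun k => ∫⁻ M, (∫⁻ q, (∫⁻ σ, (∫⁻ p, fk d t (Φ k) (x k) (v k) (l k) (M, (q, (σ, p)))
      ∂(rho s t))) ∂(lev s)) ∂P) = fun k => ∫⁻ z, fk d t (Φ k) (x k) (v k) (l k) z ∂ν := by
    funext k
    rw [hprod _ (fk_meas d t (Φ k) (hΦ k) _ _ _)]
  rw [hfun]
  refine tendsto_lintegral_of_dominated_convergence
    (fun z => ENNReal.ofReal (C * Bd d z.2.1 z.2.2.1 z.2.2.2)) (fun k => ?_) (fun k => ?_) ?_ ?_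
  · exact fk_meas d t (Φ k) (hΦ k) _ _ _
  · filter_upwards [hae] with z hz
    obtain ⟨M, q, σ, p⟩ := z
    obtain ⟨hM, hq, hp1, hp2⟩ := hz
    simp only at hM hq hp1 hp2
    obtain ⟨b1, b2, b3⟩ := hb k M q p hM hq hp1
    have hlk : 0 < l k := one_pos.trans_le (hN.one_le k)
    have hRk : 0 < ‖v k‖ := norm_pos_iff.2 (hN.v_ne k)
    unfold fk
    simp only
    unfold ind
    split_ifs with hi
    · rw [ENNReal.ofReal_one, one_mul]
      apply ENNReal.ofReal_le_ofReal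
      have hmem : ⟪x k, v k⟫ / ‖v k‖ ^ 2 + σ * (l k / ‖v k‖) ∈ Icc (0 : ℝ) t := by
        obtain ⟨k1, k2⟩ := hi
        rw [le_div_iff₀ hlk] at k2
        rw [← neg_div, div_le_iff₀ hlk] at k1
        have h1 : ⟪x k, v k⟫ / ‖v k‖ ^ 2 + σ * (l k / ‖v k‖) =
          (‖v k‖ * (⟪x k, v k⟫ / ‖v k‖ ^ 2) + σ * l k) / ‖v k‖ := by field_simp
        rw [h1, mem_Icc, le_div_iff₀ hRk, div_le_iff₀ hRk]
        exact ⟨by linarith, by linarith⟩
      by_cases h0 : Φ k M q p = 0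
      · rw [h0, zero_mul]
        have : 0 ≤ Bd d q σ p := by
          unfold Bd
          have : 0 ≤ min 1 (p.1 / (max 1 |σ|) ^ 2) := by positivity
          positivity
        positivity
      · have hPsi : 0 ≤ Psi d M q σ p (x k) (v k) (l k) := by
          unfold Psi
          have hc : M + J (l k ^ 2 * p.1, p.2) + J (‖v k‖ ^ 2 * q,
              ⟪x k, v k⟫ / ‖v k‖ ^ 2 + σ * (l k / ‖v k‖)) ∈ cone t :=
            add_mem_cone ht (add_mem_cone ht hM (J_mem_cone (by positivity) hp2.1 hp2.2))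
              (J_mem_cone (by positivity) hmem.1 hmem.2)
          have := det_nonneg hc
          unfold g
          positivity
        exact (mul_le_mul_of_nonneg_right b2 hPsi).trans
          (hdm M q σ p (x k) (v k) (l k) hM hq hp1 hp2 hlk (hN.v_ne k) hmem (hN.far k) (b3 h0))
    · rw [ENNReal.ofReal_zero, zero_mul]
      exact bot_le
  · have hm : Measurable fun z : Mat × (ℝ × (ℝ × (ℝ × ℝ))) =>
        ENNReal.ofReal (C * Bd d z.2.1 z.2.2.1 z.2.2.2) :=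
      ENNReal.measurable_ofReal.comp ((Bd_meas d).const_mul C)
    rw [hprod _ hm]
    simp only [lintegral_const, measure_univ, mul_one]
    simp_rw [ENNReal.ofReal_mul hC.le, lintegral_const_mul' _ _ ENNReal.ofReal_ne_top]
    exact ENNReal.mul_ne_top ENNReal.ofReal_ne_top hBi.ne
  · filter_upwards [hae, hne, hind] with z hz hz2 hz3
    obtain ⟨M, q, σ, p⟩ := z
    obtain ⟨hM, hq, hp1, hp2⟩ := hz
    simp only at hM hq hp1 hp2 hz2 hz3
    unfold fk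
    simp only
    have h1 : Tendsto (fun k => Φ k M q p * Psi d M q σ p (x k) (v k) (l k)) atTop
        (𝓝 (1 * Gl2 d q σ p τ₀ ω)) :=
      (hlim M q p hM hq hp1).mul (hLm t d x v l τ₀ ω a b ht hd hN M q σ p hq hp1 hz2)
    rw [one_mul] at h1
    refine ENNReal.Tendsto.mul ((ENNReal.continuous_ofReal.tendsto _).comp hz3) (Or.inr
      ENNReal.ofReal_ne_top) ((ENNReal.continuous_ofReal.tendsto _).comp h1) (Or.inr
      ENNReal.ofReal_ne_top)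

lemma far_ne {d : ℕ} {t : ℝ} {x v : ℕ → V d} {l : ℕ → ℝ} {τ₀ ω : ℝ} {a b : EReal}
    (hN : Near d t x v l τ₀ ω a b) (k : ℕ) : ∀ τ ∈ Icc (0 : ℝ) t, x k ≠ τ • v k := by
  intro τ hτ h
  have h1 := hN.far k τ hτ
  rw [h, sub_self, norm_zero] at h1
  have := hN.one_le k
  linarith

/-- the weight in the dominant part -/
noncomputable def PhD (R l : ℝ) (M : Mat) (q : ℝ) (p : ℝ × ℝ) : ℝ :=
  if M.2.2 + l ^ 2 * p.1 ≤ 2 * (R ^ 2 * q) then
    l ^ 2 * p.1 / (M.2.2 + l ^ 2 * p.1) * (R ^ 2 * q / (M.2.2 + l ^ 2 * p.1 + R ^ 2 * q)) else 0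

lemma PhD_meas (R l : ℝ) : Measurable fun a : Mat × (ℝ × (ℝ × ℝ)) => PhD R l a.1 a.2.1 a.2.2 := by
  unfold PhD
  refine Measurable.ite (measurableSet_le (by fun_prop) (by fun_prop)) (by fun_prop) (by fun_prop)

/-- the integral of the dominant part in the new coordinates -/
lemma opD_eq (hN1 : StmtN1) {s t : ℝ} (hs : 0 < s) (hs1 : s < 1) (ht : 0 < t) {P : Measure Mat}
    (hP : Law s t P) (d : ℕ) (x v : V d) (l : ℝ) (hl : 0 < l) (hv : v ≠ 0) :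
    ENNReal.ofReal (‖v‖ ^ ((d : ℝ) + 1 + 2 * s) * l ^ ((d : ℝ) - 1 + 2 * s)) *
      ∫⁻ M, opD s t (fun M => ENNReal.ofReal (g d M x v)) M ∂P =
    ∫⁻ M, (∫⁻ q, (∫⁻ σ, (∫⁻ p, fk d t (PhD ‖v‖ l) x v l (M, (q, (σ, p)))
      ∂(rho s t))) ∂(lev s)) ∂P := by
  have hR : 0 < ‖v‖ := norm_pos_iff.2 hv
  have hc : ∀ᵐ M ∂P, 0 < M.2.2 := (hN1 s t P hs hs1 ht hP).1.mono fun M h => h.1
  have hgm : Measurable (fun M : Mat => ENNReal.ofReal (g d M x v)) :=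
    (I.g_meas d x v).ennreal_ofReal
  have hm2 : Measurable (fun z : Mat × (ℝ × ℝ) => if z.1.2.2 ≤ 2 * z.2.1 then
      ENNReal.ofReal (z.2.1 / (z.1.2.2 + z.2.1)) * ENNReal.ofReal (g d (z.1 + J z.2) x v)
      else 0) := by
    refine Measurable.ite (measurableSet_le (by fun_prop) (by fun_prop)) ?_ measurable_const
    exact (by fun_prop : Measurable fun z : Mat × (ℝ × ℝ) =>
      ENNReal.ofReal (z.2.1 / (z.1.2.2 + z.2.1))).mul
      (hgm.comp (measurable_fst.add (J_meas.comp measurable_snd)))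
  have hop : Measurable (opD s t (fun M => ENNReal.ofReal (g d M x v))) := by
    unfold opD
    exact hm2.lintegral_prod_right'
  rw [I.mecke1 hP hc _ hop, ← lintegral_const_mul' _ _ ENNReal.ofReal_ne_top]
  refine lintegral_congr_ae ?_
  filter_upwards [hP.supp, hc] with M hM hcM
  have e1 : ∫⁻ p, ENNReal.ofReal (p.1 / (M.2.2 + p.1)) *
      opD s t (fun M => ENNReal.ofReal (g d M x v)) (M + J p) ∂(rho s t) =
      ∫⁻ p₂, (∫⁻ p₁, ENNReal.ofReal (p₂.1 / (M.2.2 + p₂.1)) *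
        (if (M + J p₂).2.2 ≤ 2 * p₁.1 then ENNReal.ofReal (p₁.1 / ((M + J p₂).2.2 + p₁.1)) *
          ENNReal.ofReal (g d (M + J p₂ + J p₁) x v) else 0) ∂(rho s t)) ∂(rho s t) := by
    refine lintegral_congr fun p₂ => ?_
    rw [lintegral_const_mul' _ _ ENNReal.ofReal_ne_top]
    rfl
  rw [e1]
  have hFm : Measurable (fun z : (ℝ × ℝ) × (ℝ × ℝ) =>
      ENNReal.ofReal (z.1.1 / (M.2.2 + z.1.1)) *
        (if (M + J z.1).2.2 ≤ 2 * z.2.1 then ENNReal.ofReal (z.2.1 / ((M + J z.1).2.2 + z.2.1)) *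
          ENNReal.ofReal (g d (M + J z.1 + J z.2) x v) else 0)) := by
    have hJ1 : Measurable fun z : (ℝ × ℝ) × (ℝ × ℝ) => M + J z.1 :=
      (J_meas.comp measurable_fst).const_add M
    refine Measurable.mul (by fun_prop) ?_
    exact hm2.comp (hJ1.prodMk measurable_snd)
  rw [change s t ‖v‖ l (⟪x, v⟫ / ‖v‖ ^ 2) hR hl _ hFm, ← mul_assoc, ← ENNReal.ofReal_mul
    (by positivity), pow_id d s ‖v‖ l hR hl, ← lintegral_const_mul' _ _ ENNReal.ofReal_ne_top]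
  refine lintegral_congr_ae ?_
  filter_upwards [I.lev_pos s] with q hq
  rw [← lintegral_const_mul' _ _ ENNReal.ofReal_ne_top]
  refine lintegral_congr fun σ => ?_
  rw [← lintegral_const_mul' _ _ ENNReal.ofReal_ne_top]
  refine lintegral_congr_ae ?_
  filter_upwards [I.rho_ae s t] with p hp
  have hp1 := hp.1
  unfold fk
  simp only
  rw [mul_left_comm]
  congr 1
  unfold PhD Psi
  have hcc : (M + J (l ^ 2 * p.1, p.2)).2.2 = M.2.2 + l ^ 2 * p.1 := rfl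
  rw [hcc]
  split_ifs with hi
  · rw [← ENNReal.ofReal_mul (by positivity), ← ENNReal.ofReal_mul (by positivity),
      ← ENNReal.ofReal_mul (by positivity)]
    congr 1
    ring
  · simp

theorem main (hN1 : StmtN1) (hLm : StmtLm) : StmtDL := by
  intro s t P hs hs1 ht hP d hd x v l τ₀ ω a b hN
  have hpr := hP.prob
  have hlk : ∀ k, 0 < l k := fun k => one_pos.trans_le (hN.one_le k)
  have hRk : ∀ k, 0 < ‖v k‖ := fun k => norm_pos_iff.2 (hN.v_ne k)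
  have e : (fun k => ENNReal.ofReal (‖v k‖ ^ (d + 1 + 2 * s) * l k ^ (d - 1 + 2 * s)) *
      ∫⁻ M, opD s t (fun M => ENNReal.ofReal (g d M (x k) (v k))) M ∂P) = fun k =>
      ∫⁻ M, (∫⁻ q, (∫⁻ σ, (∫⁻ p, fk d t (PhD ‖v k‖ (l k)) (x k) (v k) (l k) (M, (q, (σ, p)))
      ∂(rho s t))) ∂(lev s)) ∂P := by
    funext k
    exact opD_eq hN1 hs hs1 ht hP d (x k) (v k) (l k) (hlk k) (hN.v_ne k)
  rw [e]
  refine core hLm hs hs1 ht P hP.supp d hd x v l τ₀ ω a b hN (fun k => PhD ‖v k‖ (l k))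
    (fun k => PhD_meas _ _) (fun k M q p hM hq hp => ?_) (fun M q p hM hq hp => ?_)
  · have hc := c_nonneg ht hM
    have h1 := hlk k
    have h2 := hRk k
    have hw : 0 < l k ^ 2 * p.1 / (M.2.2 + l k ^ 2 * p.1) := by positivity
    have hw2 : 0 < ‖v k‖ ^ 2 * q / (M.2.2 + l k ^ 2 * p.1 + ‖v k‖ ^ 2 * q) := by positivity
    have hw3 : ‖v k‖ ^ 2 * q / (M.2.2 + l k ^ 2 * p.1 + ‖v k‖ ^ 2 * q) ≤ 1 := by
      rw [div_le_one (by positivity)]
      have : 0 < l k ^ 2 * p.1 := by positivity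
      linarith
    unfold PhD
    split_ifs with hi
    · refine ⟨by positivity, ?_, fun _ => hi⟩
      exact mul_le_of_le_one_right hw.le hw3
    · exact ⟨le_rfl, hw.le, fun h => absurd rfl h⟩
  · have hc := c_nonneg ht hM
    have tl2 : Tendsto (fun k => (l k ^ 2)⁻¹) atTop (𝓝 0) :=
      (tendsto_pow_atTop two_ne_zero |>.comp hN.tl).inv_tendsto_atTop
    have tR2 : Tendsto (fun k => (‖v k‖ ^ 2)⁻¹) atTop (𝓝 0) :=
      (tendsto_pow_atTop two_ne_zero |>.comp hN.tR).inv_tendsto_atTop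
    have tlR2 : Tendsto (fun k => (l k / ‖v k‖) ^ 2) atTop (𝓝 0) := by
      have := hN.tlR.pow 2
      simpa using this
    have hw : Tendsto (fun k => l k ^ 2 * p.1 / (M.2.2 + l k ^ 2 * p.1)) atTop (𝓝 1) := by
      have h1 : Tendsto (fun k => p.1 / (M.2.2 * (l k ^ 2)⁻¹ + p.1)) atTop
          (𝓝 (p.1 / (M.2.2 * 0 + p.1))) :=
        tendsto_const_nhds.div ((tl2.const_mul _).add_const _) (by simpa using hp.ne')
      rw [mul_zero, zero_add, div_self hp.ne'] at h1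
      refine h1.congr fun k => ?_
      have := hlk k
      field_simp
    have hsmall : Tendsto (fun k => (M.2.2 + l k ^ 2 * p.1) / ‖v k‖ ^ 2) atTop (𝓝 0) := by
      have h1 := (tR2.const_mul M.2.2).add (tlR2.mul_const p.1)
      rw [mul_zero, zero_mul, add_zero] at h1
      refine h1.congr fun k => ?_
      have := hRk k
      field_simp
    have hw2 : Tendsto (fun k => ‖v k‖ ^ 2 * q / (M.2.2 + l k ^ 2 * p.1 + ‖v k‖ ^ 2 * q)) atTop
        (𝓝 1) := by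
      have h1 : Tendsto (fun k => q / ((M.2.2 + l k ^ 2 * p.1) / ‖v k‖ ^ 2 + q)) atTop
          (𝓝 (q / (0 + q))) :=
        tendsto_const_nhds.div (hsmall.add_const _) (by simpa using hq.ne')
      rw [zero_add, div_self hq.ne'] at h1
      refine h1.congr fun k => ?_
      have := hRk k
      field_simp
    have h3 := hw.mul hw2
    rw [one_mul] at h3
    refine h3.congr' ?_
    have hev : ∀ᶠ k in atTop, (M.2.2 + l k ^ 2 * p.1) / ‖v k‖ ^ 2 < 2 * q :=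
      hsmall.eventually (gt_mem_nhds (by positivity))
    filter_upwards [hev] with k hk
    have := hRk k
    rw [div_lt_iff₀ (by positivity)] at hk
    unfold PhD
    rw [if_pos (by linarith)]

end Pool.Agent.L0h89.FK.DL
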