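import Mathlib

/-!
# The fractional Kolmogorov fundamental solution (MP_bd80ac_an): definitions and modules

Paper proofs: team document `FK_BLUEPRINT.md`.  Every module is a Prop `StmtXX`; its proof goes to
`Pool/Agent/L0h89/FK/XX.lean` as `theorem main : StmtXX` (dependencies as hypotheses) in the
namespace `Pool.Agent.L0h89.FK.XX`.
-/

set_option autoImplicit false

open MeasureTheory Set Filter Topology
open scoped ENNReal RealInnerProductSpace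

namespace Pool.Agent.L0h89.FK

/-- the space `ℝᵈ` -/
abbrev V (d : ℕ) : Type := EuclideanSpace ℝ (Fin d)

/-- the exponent `Φ_t(ψ,ξ) = ∫_0^t |ξ + τ ψ|^{2s} dτ` -/
noncomputable def Phi (d : ℕ) (s t : ℝ) (ψ ξ : V d) : ℝ :=
  ∫ τ in (0 : ℝ)..t, ‖ξ + τ • ψ‖ ^ (2 * s)

/-- the fundamental solution at time `t` (total mass one), by Fourier inversion -/
noncomputable def K (d : ℕ) (s t : ℝ) (x v : V d) : ℝ :=
  ((2 * Real.pi) ^ (2 * d))⁻¹ *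
    ∫ p : V d × V d, Real.cos (⟪x, p.1⟫ + ⟪v, p.2⟫) * Real.exp (-Phi d s t p.1 p.2)

/-- symmetric matrices `[[a,b],[b,c]]` as triples `(a,b,c)` -/
abbrev Mat : Type := ℝ × ℝ × ℝ

/-- the rank one matrix `r (τ,1)ᵀ(τ,1)`, for `p = (r,τ)` -/
def J (p : ℝ × ℝ) : Mat := (p.1 * p.2 ^ 2, p.1 * p.2, p.1)

/-- the determinant `a c - b²` -/
def det (M : Mat) : ℝ := M.1 * M.2.2 - M.2.1 ^ 2

/-- `θ = det / c` -/
noncomputable def th (M : Mat) : ℝ := det M / M.2.2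

/-- `Q_τ(M) = a - 2 τ b + τ² c` -/
def Q (τ : ℝ) (M : Mat) : ℝ := M.1 - 2 * τ * M.2.1 + τ ^ 2 * M.2.2

/-- the closed convex cone generated by the jumps with `τ ∈ [0,t]` -/
def cone (t : ℝ) : Set Mat :=
  {M | 0 ≤ M.2.1 ∧ M.2.1 ≤ t * M.2.2 ∧ 0 ≤ M.1 ∧ M.1 ≤ t * M.2.1 ∧ M.2.1 ^ 2 ≤ M.1 * M.2.2}

/-- the constant with `∫_0^∞ (1 - e^{-r q}) κ r^{-1-s} dr = q^s` -/
noncomputable def kap (s : ℝ) : ℝ := s / Real.Gamma (1 - s)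

/-- the Lévy measure `κ r^{-1-s} dr` on `(0,∞)` -/
noncomputable def lev (s : ℝ) : Measure ℝ :=
  (volume.restrict (Ioi 0)).withDensity (fun r => ENNReal.ofReal (kap s * r ^ (-1 - s)))

/-- the measure `κ r^{-1-s} dr dτ` on `(0,∞) × [0,t]` -/
noncomputable def rho (s t : ℝ) : Measure (ℝ × ℝ) := (lev s).prod (volume.restrict (Icc 0 t))

instance (s : ℝ) : SigmaFinite (lev s) := by
  unfold lev; infer_instance

instance (s t : ℝ) : SigmaFinite (rho s t) := by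
  unfold rho; infer_instance

/-- the law of the random covariance matrix: support, Laplace transform, Mecke identity -/
structure Law (s t : ℝ) (P : Measure Mat) : Prop where
  prob : IsProbabilityMeasure P
  supp : ∀ᵐ M ∂P, M ∈ cone t
  lap : ∀ A B C : ℝ, 0 ≤ A → 0 ≤ C → B ^ 2 ≤ A * C →
    ∫ M, Real.exp (-(A * M.1 + 2 * B * M.2.1 + C * M.2.2)) ∂P =
      Real.exp (-∫ τ in (0 : ℝ)..t, (A * τ ^ 2 + 2 * B * τ + C) ^ s)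
  mecke : ∀ G : Mat → ℝ≥0∞, Measurable G →
    ∫⁻ M, ENNReal.ofReal M.2.2 * G M ∂P =
      ∫⁻ M, ∫⁻ p, ENNReal.ofReal p.1 * G (M + J p) ∂(rho s t) ∂P

/-- the Gaussian density with covariance `2 M ⊗ I_d` -/
noncomputable def g (d : ℕ) (M : Mat) (x v : V d) : ℝ :=
  (4 * Real.pi) ^ (-(d : ℝ)) * det M ^ (-((d : ℝ) / 2)) *
    Real.exp (-((M.2.2 * ‖x‖ ^ 2 - 2 * M.2.1 * ⟪x, v⟫ + M.1 * ‖v‖ ^ 2) / (4 * det M)))

/-- the same in the coordinates `R = |v|`, `τ = ⟨x,v⟩/|v|²`, `w = |x - τ v|` -/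
noncomputable def gr (d : ℕ) (M : Mat) (R τ w : ℝ) : ℝ :=
  (4 * Real.pi) ^ (-(d : ℝ)) * det M ^ (-((d : ℝ) / 2)) *
    Real.exp (-((M.2.2 * w ^ 2 + R ^ 2 * Q τ M) / (4 * det M)))

/-- the constant of the fractional Laplacian: `|ξ|^{2s} = ∫ (1 - cos ⟨ξ,y⟩) cds |y|^{-d-2s} dy` -/
noncomputable def cds (d : ℕ) (s : ℝ) : ℝ :=
  s * 4 ^ s * Real.Gamma ((d : ℝ) / 2 + s) / (Real.pi ^ ((d : ℝ) / 2) * Real.Gamma (1 - s))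

/-- the isotropic stable density of exponent `A |θ|^{2s}` on `ℝᵈ` at distance `y` from the origin,
as a mixture of Gaussians: `E[(4πQ)^{-d/2} e^{-y²/(4Q)}]`, `Q = Q_{τ₀}(M)` -/
noncomputable def pst (d : ℕ) (P : Measure Mat) (τ₀ y : ℝ) : ℝ :=
  ∫ M, (4 * Real.pi * Q τ₀ M) ^ (-((d : ℝ) / 2)) * Real.exp (-(y ^ 2 / (4 * Q τ₀ M))) ∂P

/-! ## The law of the covariance -/

/-- P: existence of the law -/
def StmtP : Prop := ∀ s t : ℝ, 0 < s → s < 1 → 0 < t → ∃ P : Measure Mat, Law s t P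

/-- N1: positivity and negative moments of the determinant -/
def StmtN1 : Prop := ∀ (s t : ℝ) (P : Measure Mat), 0 < s → s < 1 → 0 < t → Law s t P →
  (∀ᵐ M ∂P, 0 < M.2.2 ∧ 0 < det M) ∧
    ∀ d : ℕ, 1 ≤ d → ∫⁻ M, ENNReal.ofReal (det M ^ (-((d : ℝ) / 2))) ∂P < ∞

/-- N2: moments -/
def StmtN2 : Prop := ∀ (s t : ℝ) (P : Measure Mat), 0 < s → s < 1 → 0 < t → Law s t P →
  ∀ p x : ℝ, 0 ≤ p → 0 ≤ x → x < s →
    ∫⁻ M, ENNReal.ofReal (M.2.2 ^ x * th M ^ (-p)) ∂P < ∞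

/-- R: representation of the fundamental solution as a mixture of Gaussians -/
def StmtR : Prop := ∀ (s t : ℝ) (P : Measure Mat), 0 < s → s < 1 → 0 < t → Law s t P →
  ∀ d : ℕ, 1 ≤ d → ∀ x v : V d, Integrable (fun M => g d M x v) P ∧
    K d s t x v = ∫ M, g d M x v ∂P

/-- F: the fundamental solution is a probability density with Fourier transform `e^{-Φ_t}` -/
def StmtF : Prop := ∀ s t : ℝ, 0 < s → s < 1 → 0 < t → ∀ d : ℕ, 1 ≤ d →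
  (∀ x v : V d, 0 < K d s t x v) ∧ Integrable (fun p : V d × V d => K d s t p.1 p.2) ∧
    ∀ ψ ξ : V d, ∫ p : V d × V d,
      Complex.exp (-Complex.I * ((⟪p.1, ψ⟫ + ⟪p.2, ξ⟫ : ℝ) : ℂ)) * (K d s t p.1 p.2 : ℂ) =
        (Real.exp (-Phi d s t ψ ξ) : ℂ)

/-! ## Directions off the cone `{(τ v, v)}` -/

/-- I: two jumps -/
def StmtI : Prop := ∀ (s t : ℝ) (P : Measure Mat), 0 < s → s < 1 → 0 < t → Law s t P →
  ∀ d : ℕ, 1 ≤ d → ∀ x v : V d, (∀ τ ∈ Icc (0 : ℝ) t, x ≠ τ • v) →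
  Tendsto (fun p : ℝ × (V d × V d) => ENNReal.ofReal (p.1 ^ (2 * d + 4 * s)) *
      ∫⁻ M, ENNReal.ofReal (g d M (p.1 • p.2.1) (p.1 • p.2.2)) ∂P)
    (atTop ×ˢ 𝓝 (x, v))
    (𝓝 (ENNReal.ofReal (1 / 2) * ∫⁻ p₁, ∫⁻ p₂, ENNReal.ofReal (g d (J p₁ + J p₂) x v)
      ∂(rho s t) ∂(rho s t)))

/-- the two jump constant -/
noncomputable def H (d : ℕ) (s t : ℝ) (x v : V d) : ℝ :=
  1 / 2 * cds d s ^ 2 * ∫ τ₁ in (0 : ℝ)..t, ∫ τ₂ in (0 : ℝ)..t,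
    |τ₁ - τ₂| ^ (d + 4 * s) * ‖x - τ₁ • v‖ ^ (-(d + 2 * s)) * ‖x - τ₂ • v‖ ^ (-(d + 2 * s))

/-- H: evaluation of the two jump integral -/
def StmtH : Prop := ∀ s t : ℝ, 0 < s → s < 1 → 0 < t → ∀ d : ℕ, 1 ≤ d → ∀ x v : V d,
  (∀ τ ∈ Icc (0 : ℝ) t, x ≠ τ • v) →
  0 < H d s t x v ∧
  ENNReal.ofReal (1 / 2) * ∫⁻ p₁, ∫⁻ p₂, ENNReal.ofReal (g d (J p₁ + J p₂) x v)
      ∂(rho s t) ∂(rho s t) = ENNReal.ofReal (H d s t x v)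

/-! ## Directions on the cone -/

/-- the indicator of `a ≤ σ ≤ b` -/
noncomputable def ind (a b σ : ℝ) : ℝ := if a ≤ σ ∧ σ ≤ b then 1 else 0

/-- part A: the rest is large -/
def StmtA : Prop := ∀ (s t : ℝ) (P : Measure Mat), 0 < s → s < 1 → 0 < t → Law s t P →
  ∀ d : ℕ, 1 ≤ d → Tendsto (fun q : ℝ × ℝ => ENNReal.ofReal (q.1 ^ (d + 1 + 2 * s)) *
    ∫⁻ M, ∫⁻ p, (if q.1 ^ (2 - s / 4) < M.2.2 then
      ENNReal.ofReal (p.1 / (M.2.2 + p.1) * gr d (M + J p) q.1 q.2 0) else 0) ∂(rho s t) ∂P)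
    (atTop ×ˢ ⊤) (𝓝 0)

/-- part B: both the rest and the jump are small -/
def StmtB : Prop := ∀ (s t : ℝ) (P : Measure Mat), 0 < s → s < 1 → 0 < t → Law s t P →
  ∀ d : ℕ, 1 ≤ d → Tendsto (fun q : ℝ × ℝ => ENNReal.ofReal (q.1 ^ (d + 1 + 2 * s)) *
    ∫⁻ M, ∫⁻ p, (if M.2.2 ≤ q.1 ^ (2 - s / 4) ∧ p.1 ≤ q.1 ^ (2 - s / 4) then
      ENNReal.ofReal (p.1 / (M.2.2 + p.1) * gr d (M + J p) q.1 q.2 0) else 0) ∂(rho s t) ∂P)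
    (atTop ×ˢ ⊤) (𝓝 0)

/-- C1: the pointwise bound for the integral over `τ` -/
def StmtC1 : Prop := ∀ (s t : ℝ), 0 < s → s < 1 → 0 < t → ∀ d : ℕ, 1 ≤ d → ∃ C : ℝ, 0 < C ∧
  ∀ (M : Mat), M ∈ cone t → 0 < det M → ∀ R r τ₀ : ℝ, 1 ≤ R → M.2.2 ≤ R ^ (2 - s / 4) →
  R ^ (2 - s / 4) < r →
  ∫⁻ τ in Icc (0 : ℝ) t, ENNReal.ofReal (gr d (M + J (r, τ)) R τ₀ 0) ≤
    ENNReal.ofReal (C * (th M ^ (-((d : ℝ) / 2)) + th M ^ (-(((d : ℝ) - 1) / 2))) * R⁻¹ *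
      r ^ (-((d : ℝ) / 2)) * Real.exp (-(R ^ 2 / (8 * r))))

/-- C: the main part -/
def StmtC : Prop := ∀ (s t : ℝ) (P : Measure Mat), 0 < s → s < 1 → 0 < t → Law s t P →
  ∀ d : ℕ, 1 ≤ d → ∀ (R τ w : ℕ → ℝ) (τ₀ w₀ : ℝ) (χ : ℝ → ℝ), Tendsto R atTop atTop →
  Tendsto τ atTop (𝓝 τ₀) → τ₀ ∈ Icc (0 : ℝ) t → Tendsto w atTop (𝓝 w₀) →
  (∀ᵐ σ : ℝ, Tendsto (fun k => ind (-(R k * τ k)) (R k * (t - τ k)) σ) atTop (𝓝 (χ σ))) →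
  Tendsto (fun k => ENNReal.ofReal (R k ^ (d + 1 + 2 * s)) *
    ∫⁻ M, ∫⁻ p, (if M.2.2 ≤ R k ^ (2 - s / 4) ∧ R k ^ (2 - s / 4) < p.1 then
      ENNReal.ofReal (p.1 / (M.2.2 + p.1) * gr d (M + J p) (R k) (τ k) (w k)) else 0)
      ∂(rho s t) ∂P)
    atTop (𝓝 (ENNReal.ofReal (cds d s) *
      ∫⁻ σ, ENNReal.ofReal (χ σ) * ENNReal.ofReal (pst d P τ₀ (Real.sqrt (w₀ ^ 2 + σ ^ 2)))))

/-- E: the constant: integral over a line of the stable density -/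
def StmtE : Prop := ∀ (s t : ℝ) (P : Measure Mat), 0 < s → s < 1 → 0 < t → Law s t P →
  ∀ d : ℕ, 1 ≤ d → ∀ τ₀ ∈ Icc (0 : ℝ) t,
  Integrable (fun σ : ℝ => pst d P τ₀ (Real.sqrt (0 ^ 2 + σ ^ 2))) ∧
  ∫ σ : ℝ, pst d P τ₀ (Real.sqrt (0 ^ 2 + σ ^ 2)) =
    (4 * Real.pi) ^ (-(((d : ℝ) - 1) / 2)) *
      (Real.Gamma (((d : ℝ) - 1) / (2 * s) + 1) / Real.Gamma (((d : ℝ) - 1) / 2 + 1)) *
      ((τ₀ ^ (2 * s + 1) + (t - τ₀) ^ (2 * s + 1)) / (2 * s + 1)) ^ (-(((d : ℝ) - 1) / (2 * s)))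

/-- the isotropic stable density on `ℝᵈ` with characteristic function `e^{-A |θ|^{2s}}` -/
noncomputable def stab (d : ℕ) (s A : ℝ) (y : V d) : ℝ :=
  ((2 * Real.pi) ^ d)⁻¹ * ∫ θ : V d, Real.cos ⟪y, θ⟫ * Real.exp (-(A * ‖θ‖ ^ (2 * s)))

/-- S: the mixture `pst` is the isotropic stable density -/
def StmtS : Prop := ∀ (s t : ℝ) (P : Measure Mat), 0 < s → s < 1 → 0 < t → Law s t P →
  ∀ d : ℕ, 1 ≤ d → ∀ τ₀ ∈ Icc (0 : ℝ) t, ∀ y : V d,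
  pst d P τ₀ ‖y‖ = stab d s ((τ₀ ^ (2 * s + 1) + (t - τ₀) ^ (2 * s + 1)) / (2 * s + 1)) y

end Pool.Agent.L0h89.FK
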