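import Pool.Agent.L0h89.FK.Fin

/-!
# Uniform two jump asymptotics near the cone: definitions and modules

Team document `FK2_BLUEPRINT.md`.
-/

set_option autoImplicit false

open MeasureTheory Set Filter Topology
open scoped ENNReal RealInnerProductSpace

namespace Pool.Agent.L0h89.FK

/-- dominant picks: the removed jump is at least half of the rest -/
noncomputable def opD (s t : ℝ) (F : Mat → ℝ≥0∞) (M : Mat) : ℝ≥0∞ :=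
  ∫⁻ p, (if M.2.2 ≤ 2 * p.1 then ENNReal.ofReal (p.1 / (M.2.2 + p.1)) * F (M + J p) else 0)
    ∂(rho s t)

/-- non dominant picks -/
noncomputable def opN (s t : ℝ) (F : Mat → ℝ≥0∞) (M : Mat) : ℝ≥0∞ :=
  ∫⁻ p, (if 2 * p.1 < M.2.2 then ENNReal.ofReal (p.1 / (M.2.2 + p.1)) * F (M + J p) else 0)
    ∂(rho s t)

/-- the error functional -/
noncomputable def opB (s t A : ℝ) (P : Measure Mat) (F : Mat → ℝ≥0∞) : ℝ≥0∞ :=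
  ∫⁻ M, (∫⁻ p, (if M.2.2 ≤ A * p.1 then ENNReal.ofReal ((M.2.2 / p.1) ^ (s / 2)) * F (M + J p)
    else 0) ∂(rho s t)) ∂P

/-- NCa: iterated picks -/
def StmtNCa : Prop := ∀ (s t : ℝ) (P : Measure Mat), 0 < s → s < 1 → 0 < t → Law s t P →
  ∀ n : ℕ, ∃ A C : ℝ, 1 ≤ A ∧ 0 ≤ C ∧ ∀ F : Mat → ℝ≥0∞, Measurable F →
  ∫⁻ M, F M ∂P ≤ (∫⁻ M, opD s t F M ∂P) + ENNReal.ofReal C * opB s t A P F +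
    ∫⁻ M, ((opN s t)^[n + 1] F) M ∂P

/-- Tl: tail moment -/
def StmtTl : Prop := ∀ (s t : ℝ) (P : Measure Mat), 0 < s → s < 1 → 0 < t → Law s t P →
  ∃ C : ℝ, 0 < C ∧ ∀ Y : ℝ, 0 < Y →
  ∫⁻ M, ENNReal.ofReal (M.2.2 ^ (s / 2) * min 1 (M.2.2 / Y)) ∂P ≤ ENNReal.ofReal (C * Y ^ (-(s / 2)))

/-- NCb: bound of the error functional -/
def StmtNCb : Prop := ∀ (s t : ℝ) (P : Measure Mat), 0 < s → s < 1 → 0 < t → Law s t P →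
  ∀ d : ℕ, 1 ≤ d → ∀ A : ℝ, 1 ≤ A → ∃ C : ℝ, 0 < C ∧ ∀ x v : V d, v ≠ 0 →
  (∀ τ ∈ Icc (0 : ℝ) t, x ≠ τ • v) →
  opB s t A P (fun M => ENNReal.ofReal (g d M x v)) ≤
    ENNReal.ofReal (C * (‖v‖ ^ (-(d + 3 * s)) * ∫ τ in (0 : ℝ)..t, ‖x - τ • v‖ ^ (-(d + s))))

/-- NCc: many non dominant picks -/
def StmtNCc : Prop := ∀ (s t : ℝ) (P : Measure Mat), 0 < s → s < 1 → 0 < t → Law s t P →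
  ∀ d : ℕ, 1 ≤ d → ∃ (n : ℕ) (C : ℝ), 0 < C ∧ ∀ x v : V d, 1 ≤ ‖v‖ →
  ∫⁻ M, ((opN s t)^[n + 1] (fun M => ENNReal.ofReal (g d M x v))) M ∂P ≤
    ENNReal.ofReal (C * ‖v‖ ^ (-(2 * d + 4 * s + 1)))

/-- sequences near the cone, at distance of order `l` with `1 ≪ l ≪ |v|` -/
structure Near (d : ℕ) (t : ℝ) (x v : ℕ → V d) (l : ℕ → ℝ) (τ₀ ω : ℝ) (a b : EReal) : Prop where
  one_le : ∀ k, 1 ≤ l k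
  v_ne : ∀ k, v k ≠ 0
  tR : Tendsto (fun k => ‖v k‖) atTop atTop
  tl : Tendsto l atTop atTop
  tlR : Tendsto (fun k => l k / ‖v k‖) atTop (𝓝 0)
  tτ : Tendsto (fun k => ⟪x k, v k⟫ / ‖v k‖ ^ 2) atTop (𝓝 τ₀)
  mem : τ₀ ∈ Icc (0 : ℝ) t
  tw : Tendsto (fun k => ‖x k - (⟪x k, v k⟫ / ‖v k‖ ^ 2) • v k‖ / l k) atTop (𝓝 ω)
  far : ∀ k, ∀ τ ∈ Icc (0 : ℝ) t, l k ≤ ‖x k - τ • v k‖
  ta : Tendsto (fun k => ((‖v k‖ * (⟪x k, v k⟫ / ‖v k‖ ^ 2) / l k : ℝ) : EReal)) atTop (𝓝 a)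
  tb : Tendsto (fun k => ((‖v k‖ * (t - ⟪x k, v k⟫ / ‖v k‖ ^ 2) / l k : ℝ) : EReal)) atTop (𝓝 b)

/-- the rescaled density; `p = (q₂, τ₂)` -/
noncomputable def Psi (d : ℕ) (M : Mat) (q₁ σ : ℝ) (p : ℝ × ℝ) (x v : V d) (l : ℝ) : ℝ :=
  (‖v‖ * l) ^ (d : ℝ) * g d (M + J (l ^ 2 * p.1, p.2) +
    J (‖v‖ ^ 2 * q₁, ⟪x, v⟫ / ‖v‖ ^ 2 + σ * (l / ‖v‖))) x v

/-- the limit of the rescaled density -/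
noncomputable def Gl2 (d : ℕ) (q₁ σ : ℝ) (p : ℝ × ℝ) (τ₀ ω : ℝ) : ℝ :=
  (4 * Real.pi) ^ (-(d : ℝ)) * (q₁ * (p.1 * (p.2 - τ₀) ^ 2)) ^ (-((d : ℝ) / 2)) *
    Real.exp (-((q₁ * (ω ^ 2 + σ ^ 2) + p.1 * (p.2 - τ₀) ^ 2) / (4 * (q₁ * (p.1 * (p.2 - τ₀) ^ 2)))))

/-- the dominating function -/
noncomputable def Bd (d : ℕ) (q₁ σ : ℝ) (p : ℝ × ℝ) : ℝ :=
  q₁ ^ (-((d : ℝ) / 2)) * Real.exp (-(1 / 24 / q₁)) *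
    ((max 1 |σ|) ^ (-(d : ℝ)) * min 1 (p.1 / (max 1 |σ|) ^ 2))

/-- the limit constant -/
noncomputable def L2 (d : ℕ) (s t τ₀ ω : ℝ) (a b : EReal) : ℝ≥0∞ :=
  ∫⁻ q₁, (∫⁻ σ, (∫⁻ p, ENNReal.ofReal ((Fin.Sab a b).indicator (fun _ => (1 : ℝ)) σ) *
    ENNReal.ofReal (Gl2 d q₁ σ p τ₀ ω) ∂(rho s t))) ∂(lev s)

/-- Dm: domination -/
def StmtDm : Prop := ∀ t : ℝ, 0 < t → ∀ d : ℕ, 1 ≤ d → ∃ C : ℝ, 0 < C ∧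
  ∀ (M : Mat) (q₁ σ : ℝ) (p : ℝ × ℝ) (x v : V d) (l : ℝ), M ∈ cone t → 0 < q₁ → 0 < p.1 →
  p.2 ∈ Icc (0 : ℝ) t → 0 < l → v ≠ 0 →
  ⟪x, v⟫ / ‖v‖ ^ 2 + σ * (l / ‖v‖) ∈ Icc (0 : ℝ) t → (∀ τ ∈ Icc (0 : ℝ) t, l ≤ ‖x - τ • v‖) →
  M.2.2 + l ^ 2 * p.1 ≤ 2 * (‖v‖ ^ 2 * q₁) →
  l ^ 2 * p.1 / (M.2.2 + l ^ 2 * p.1) * Psi d M q₁ σ p x v l ≤ C * Bd d q₁ σ p

/-- Bi: the dominating function is integrable -/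
def StmtBi : Prop := ∀ s t : ℝ, 0 < s → s < 1 → 0 < t → ∀ d : ℕ, 1 ≤ d →
  ∫⁻ q₁, (∫⁻ σ, (∫⁻ p, ENNReal.ofReal (Bd d q₁ σ p) ∂(rho s t))) ∂(lev s) < ∞

/-- Lm: pointwise limit -/
def StmtLm : Prop := ∀ (t : ℝ) (d : ℕ) (x v : ℕ → V d) (l : ℕ → ℝ) (τ₀ ω : ℝ) (a b : EReal),
  0 < t → 1 ≤ d → Near d t x v l τ₀ ω a b →
  ∀ (M : Mat) (q₁ σ : ℝ) (p : ℝ × ℝ), 0 < q₁ → 0 < p.1 → p.2 ≠ τ₀ →
  Tendsto (fun k => Psi d M q₁ σ p (x k) (v k) (l k)) atTop (𝓝 (Gl2 d q₁ σ p τ₀ ω))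

/-- DL: the limit of the dominant part -/
def StmtDL : Prop := ∀ (s t : ℝ) (P : Measure Mat), 0 < s → s < 1 → 0 < t → Law s t P →
  ∀ d : ℕ, 1 ≤ d → ∀ (x v : ℕ → V d) (l : ℕ → ℝ) (τ₀ ω : ℝ) (a b : EReal),
  Near d t x v l τ₀ ω a b →
  Tendsto (fun k => ENNReal.ofReal (‖v k‖ ^ (d + 1 + 2 * s) * l k ^ (d - 1 + 2 * s)) *
    ∫⁻ M, opD s t (fun M => ENNReal.ofReal (g d M (x k) (v k))) M ∂P) atTop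
    (𝓝 (L2 d s t τ₀ ω a b))

/-- HL: the limit of the two jump profile -/
def StmtHL : Prop := ∀ (s t : ℝ), 0 < s → s < 1 → 0 < t →
  ∀ d : ℕ, 1 ≤ d → ∀ (x v : ℕ → V d) (l : ℕ → ℝ) (τ₀ ω : ℝ) (a b : EReal),
  Near d t x v l τ₀ ω a b →
  Tendsto (fun k => ENNReal.ofReal (‖v k‖ ^ (d + 1 + 2 * s) * l k ^ (d - 1 + 2 * s)) *
    ENNReal.ofReal (H d s t (x k) (v k))) atTop (𝓝 (L2 d s t τ₀ ω a b))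

/-- LP: the limit constant is positive -/
def StmtLP : Prop := ∀ (s t : ℝ), 0 < s → s < 1 → 0 < t → ∀ d : ℕ, 1 ≤ d →
  ∀ (τ₀ ω : ℝ) (a b : EReal), -a < b → 0 < L2 d s t τ₀ ω a b

/-- LF: the limit constant is finite -/
def StmtLF : Prop := ∀ (s t : ℝ), 0 < s → s < 1 → 0 < t → ∀ d : ℕ, 1 ≤ d →
  ∀ (x v : ℕ → V d) (l : ℕ → ℝ) (τ₀ ω : ℝ) (a b : EReal),
  Near d t x v l τ₀ ω a b → L2 d s t τ₀ ω a b < ∞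

/-- ER: the errors are small -/
def StmtER : Prop := ∀ (s t : ℝ), 0 < s → s < 1 → 0 < t → ∀ d : ℕ, 1 ≤ d →
  ∀ (x v : ℕ → V d) (l : ℕ → ℝ) (τ₀ ω : ℝ) (a b : EReal), Near d t x v l τ₀ ω a b →
  Tendsto (fun k => ‖v k‖ ^ (d + 1 + 2 * s) * l k ^ (d - 1 + 2 * s) *
    (‖v k‖ ^ (-(d + 3 * s)) * (∫ τ in (0 : ℝ)..t, ‖x k - τ • v k‖ ^ (-(d + s))) +
      ‖v k‖ ^ (-(2 * d + 4 * s + 1)))) atTop (𝓝 0)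

/-- U: uniform two jump asymptotics away from the cone -/
def StmtU : Prop := ∀ s t : ℝ, 0 < s → s < 1 → 0 < t → ∀ d : ℕ, 1 ≤ d → ∀ ε : ℝ, 0 < ε →
  ∃ L : ℝ, ∀ x v : V d, (∀ τ ∈ Icc (0 : ℝ) t, L ≤ ‖x - τ • v‖) →
  |K d s t x v / H d s t x v - 1| ≤ ε

end Pool.Agent.L0h89.FK
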