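import Pool.Agent.L0h89.FK.S

/-! # E: integral of the stable density over a line -/

set_option autoImplicit false
set_option linter.unusedVariables false

open MeasureTheory Set Filter Topology
open scoped ENNReal RealInnerProductSpace

namespace Pool.Agent.L0h89.FK.E

open Pool.Agent.L0h93.FK

/-- negative moments of `Q_{τ₀}` -/
theorem negmom {s t : ℝ} (hs : 0 < s) (ht : 0 < t) {P : Measure Mat} (hL : Law s t P)
    (hpos : ∀ᵐ M ∂P, 0 < M.2.2 ∧ 0 < det M) {τ₀ : ℝ} (h0 : τ₀ ∈ Icc (0 : ℝ) t) {m : ℝ} (hm : 0 < m) :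
    ∫⁻ M, ENNReal.ofReal (Q τ₀ M ^ (-m)) ∂P =
      ENNReal.ofReal (Real.Gamma (m / s + 1) / Real.Gamma (m + 1) *
        ((τ₀ ^ (2 * s + 1) + (t - τ₀) ^ (2 * s + 1)) / (2 * s + 1)) ^ (-(m / s))) := by
  have hprob := hL.prob
  set A : ℝ := (τ₀ ^ (2 * s + 1) + (t - τ₀) ^ (2 * s + 1)) / (2 * s + 1) with hA
  have hA0 : 0 < A := S.A_pos hs ht h0
  have hG : 0 < Real.Gamma m := Real.Gamma_pos_of_pos hm
  have h1 : ∀ᵐ M ∂P, ENNReal.ofReal (Q τ₀ M ^ (-m)) = ENNReal.ofReal (1 / Real.Gamma m) *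
      ∫⁻ l in Ioi (0 : ℝ), ENNReal.ofReal (l ^ (m - 1) * Real.exp (-(l * Q τ₀ M))) := by
    filter_upwards [hL.supp, hpos] with M hM hM0
    have hQ := Q_pos ht hM hM0.2 τ₀
    have e1 := Real.integral_rpow_mul_exp_neg_mul_Ioi hm hQ
    have e2 : IntegrableOn (fun l : ℝ => l ^ (m - 1) * Real.exp (-(Q τ₀ M * l))) (Ioi 0) := by
      by_contra hni
      rw [integral_undef hni] at e1
      have : 0 < (1 / Q τ₀ M) ^ m * Real.Gamma m := by positivity
      linarith
    have e3 : ∀ l : ℝ, l * Q τ₀ M = Q τ₀ M * l := fun l => mul_comm _ _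
    simp only [e3]
    rw [← ofReal_integral_eq_lintegral_ofReal e2 ((ae_restrict_iff' measurableSet_Ioi).2
      (Eventually.of_forall fun l (hl : 0 < l) => by positivity)), e1,
      ← ENNReal.ofReal_mul (by positivity)]
    congr 1
    rw [Real.rpow_neg hQ.le, ← Real.inv_rpow hQ.le]
    field_simp
  rw [lintegral_congr_ae h1]
  have hmeas : Measurable (Function.uncurry fun (M : Mat) (l : ℝ) =>
      ENNReal.ofReal (l ^ (m - 1) * Real.exp (-(l * Q τ₀ M)))) := by
    refine Measurable.ennreal_ofReal ?_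
    have g1 : Measurable fun z : Mat × ℝ => Q τ₀ z.1 := (Q_meas τ₀).comp measurable_fst
    have g2 : Measurable fun z : Mat × ℝ => z.2 ^ (m - 1) := measurable_snd.pow_const _
    exact g2.mul (Real.measurable_exp.comp (measurable_snd.mul g1).neg)
  rw [lintegral_const_mul _ (Measurable.lintegral_prod_right hmeas)]
  rw [lintegral_lintegral_swap hmeas.aemeasurable]
  have h2 : ∀ l ∈ Ioi (0 : ℝ), ∫⁻ M, ENNReal.ofReal (l ^ (m - 1) * Real.exp (-(l * Q τ₀ M))) ∂P =
      ENNReal.ofReal (l ^ (m - 1) * Real.exp (-A * l ^ s)) := by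
    intro l (hl : 0 < l)
    rw [← ofReal_integral_eq_lintegral_ofReal ((S.integrable_lapQ ht hL hpos τ₀ hl.le).const_mul _)
      (Eventually.of_forall fun M => by positivity), integral_const_mul, S.lap_Q hL hs h0 hl.le]
    congr 3
    rw [← hA]; ring
  rw [setLIntegral_congr_fun measurableSet_Ioi h2]
  have e4 := integral_rpow_mul_exp_neg_mul_rpow (p := s) (q := m - 1) (b := A) hs (by linarith) hA0
  have e5 : IntegrableOn (fun l : ℝ => l ^ (m - 1) * Real.exp (-A * l ^ s)) (Ioi 0) :=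
    integrableOn_rpow_mul_exp_neg_mul_rpow (by linarith) hs hA0
  rw [← ofReal_integral_eq_lintegral_ofReal e5 ((ae_restrict_iff' measurableSet_Ioi).2
      (Eventually.of_forall fun l (hl : 0 < l) => by positivity)), e4,
      ← ENNReal.ofReal_mul (by positivity)]
  congr 1
  have e6 : m - 1 + 1 = m := by ring
  rw [e6, Real.Gamma_add_one (by positivity), Real.Gamma_add_one hm.ne', neg_div]
  have := hG.ne'
  field_simp

/-- module E -/
theorem main (hN1 : StmtN1) : StmtE := by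
  intro s t P hs hs1 ht hL d hd τ₀ h0
  have hprob := hL.prob
  obtain ⟨hpos, -⟩ := hN1 s t P hs hs1 ht hL
  set A : ℝ := (τ₀ ^ (2 * s + 1) + (t - τ₀) ^ (2 * s + 1)) / (2 * s + 1) with hA
  have hA0 : 0 < A := S.A_pos hs ht h0
  have hd1 : (1 : ℝ) ≤ d := by exact_mod_cast hd
  set m : ℝ := ((d : ℝ) - 1) / 2 with hm
  have hm0 : 0 ≤ m := by rw [hm]; linarith
  -- the moment
  have hmom : ∫⁻ M, ENNReal.ofReal (Q τ₀ M ^ (-m)) ∂P =
      ENNReal.ofReal (Real.Gamma (m / s + 1) / Real.Gamma (m + 1) * A ^ (-(m / s))) := by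
    rcases hm0.lt_or_eq with h | h
    · exact negmom hs ht hL hpos h0 h
    · rw [← h]
      simp
  have hQm : Measurable fun M : Mat => Q τ₀ M ^ (-m) := (Q_meas τ₀).pow_const _
  have hnn : 0 ≤ᵐ[P] fun M : Mat => Q τ₀ M ^ (-m) := by
    filter_upwards [hL.supp, hpos] with M hM hM0
    exact Real.rpow_nonneg (Q_pos ht hM hM0.2 τ₀).le _
  have hQi : Integrable (fun M : Mat => Q τ₀ M ^ (-m)) P := by
    refine ⟨hQm.aestronglyMeasurable, ?_⟩
    rw [hasFiniteIntegral_iff_ofReal hnn, hmom]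
    exact ENNReal.ofReal_lt_top
  have hQint : ∫ M, Q τ₀ M ^ (-m) ∂P = Real.Gamma (m / s + 1) / Real.Gamma (m + 1) * A ^ (-(m / s)) := by
    rw [integral_eq_lintegral_of_nonneg_ae hnn hQm.aestronglyMeasurable, hmom,
      ENNReal.toReal_ofReal]
    have g1 : 0 < Real.Gamma (m / s + 1) := Real.Gamma_pos_of_pos (by positivity)
    have g2 : 0 < Real.Gamma (m + 1) := Real.Gamma_pos_of_pos (by positivity)
    positivity
  -- the inner integral
  set F : ℝ → Mat → ℝ := fun σ M => (4 * Real.pi * Q τ₀ M) ^ (-((d : ℝ) / 2)) *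
    Real.exp (-(Real.sqrt (0 ^ 2 + σ ^ 2) ^ 2 / (4 * Q τ₀ M))) with hF
  have hsq : ∀ σ : ℝ, Real.sqrt (0 ^ 2 + σ ^ 2) ^ 2 = σ ^ 2 := by
    intro σ
    rw [Real.sq_sqrt (by positivity)]; ring
  have hinner : ∀ M : Mat, 0 < Q τ₀ M → Integrable (fun σ => F σ M) ∧
      ∫ σ, F σ M = (4 * Real.pi) ^ (-m) * Q τ₀ M ^ (-m) := by
    intro M hQ
    have e1 : (fun σ => F σ M) = fun σ : ℝ => (4 * Real.pi * Q τ₀ M) ^ (-((d : ℝ) / 2)) *
        Real.exp (-(1 / (4 * Q τ₀ M)) * σ ^ 2) := by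
      funext σ
      simp only [hF, hsq]
      congr 2
      ring
    rw [e1]
    refine ⟨(integrable_exp_neg_mul_sq (by positivity)).const_mul _, ?_⟩
    rw [integral_const_mul, integral_gaussian, Real.sqrt_eq_rpow]
    have e2 : Real.pi / (1 / (4 * Q τ₀ M)) = 4 * Real.pi * Q τ₀ M := by field_simp
    rw [e2, ← Real.rpow_add (by positivity), ← Real.mul_rpow (by positivity) hQ.le]
    congr 1
    rw [hm]; ring
  have hFm : Measurable (Function.uncurry F) := by
    have g1 : Measurable fun z : ℝ × Mat => Q τ₀ z.2 := (Q_meas τ₀).comp measurable_snd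
    have g2 : Measurable fun z : ℝ × Mat => Real.sqrt (0 ^ 2 + z.1 ^ 2) ^ 2 := by fun_prop
    exact ((g1.const_mul (4 * Real.pi)).pow_const _).mul
      (Real.measurable_exp.comp (g2.div (g1.const_mul 4)).neg)
  have hFi : Integrable (Function.uncurry F) ((volume : Measure ℝ).prod P) := by
    rw [integrable_prod_iff' hFm.aestronglyMeasurable]
    refine ⟨?_, ?_⟩
    · filter_upwards [hL.supp, hpos] with M hM hM0
      exact (hinner M (Q_pos ht hM hM0.2 τ₀)).1
    · refine (hQi.const_mul ((4 * Real.pi) ^ (-m))).congr ?_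
      filter_upwards [hL.supp, hpos] with M hM hM0
      have hQ := Q_pos ht hM hM0.2 τ₀
      rw [← (hinner M hQ).2]
      refine integral_congr_ae (Eventually.of_forall fun σ => ?_)
      simp only [Function.uncurry, hF]
      rw [Real.norm_of_nonneg]
      positivity
  refine ⟨hFi.integral_prod_left, ?_⟩
  have h3 : ∫ σ : ℝ, pst d P τ₀ (Real.sqrt (0 ^ 2 + σ ^ 2)) = ∫ σ : ℝ, (∫ M, F σ M ∂P) := rfl
  rw [h3, integral_integral_swap hFi]
  have h4 : ∫ M, (∫ σ : ℝ, F σ M) ∂P = ∫ M, (4 * Real.pi) ^ (-m) * Q τ₀ M ^ (-m) ∂P := by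
    refine integral_congr_ae ?_
    filter_upwards [hL.supp, hpos] with M hM hM0
    exact (hinner M (Q_pos ht hM hM0.2 τ₀)).2
  rw [h4, integral_const_mul, hQint]
  have e7 : m / s = ((d : ℝ) - 1) / (2 * s) := by rw [hm]; field_simp
  rw [e7]
  ring

end Pool.Agent.L0h89.FK.E
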