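import Pool.Agent.L0h89.FK.Defs2

/-! # Module ER: the errors are small -/

set_option autoImplicit false

open MeasureTheory Set Filter Topology
open scoped ENNReal RealInnerProductSpace

namespace Pool.Agent.L0h89.FK.ER

lemma dist_ge (d : ℕ) (x v : V d) (hv : v ≠ 0) (τ : ℝ) :
    ‖v‖ * |τ - ⟪x, v⟫ / ‖v‖ ^ 2| ≤ ‖x - τ • v‖ := by
  have hR : 0 < ‖v‖ := norm_pos_iff.2 hv
  have h1 := abs_real_inner_le_norm (x - τ • v) v
  rw [inner_sub_left, inner_smul_left, real_inner_self_eq_norm_sq] at h1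
  simp only [conj_trivial] at h1
  have h2 : ⟪x, v⟫ - τ * ‖v‖ ^ 2 = -(‖v‖ ^ 2 * (τ - ⟪x, v⟫ / ‖v‖ ^ 2)) := by
    field_simp
    ring
  rw [h2, abs_neg, abs_mul, abs_of_pos (by positivity : 0 < ‖v‖ ^ 2)] at h1
  have h3 : ‖v‖ * (‖v‖ * |τ - ⟪x, v⟫ / ‖v‖ ^ 2|) ≤ ‖v‖ * ‖x - τ • v‖ := by nlinarith
  exact le_of_mul_le_mul_left h3 hR

lemma int_bound (d : ℕ) (hd : 1 ≤ d) (s : ℝ) (hs : 0 < s) (t : ℝ) (ht : 0 < t) (x v : V d) (l : ℝ)
    (hl : 0 < l) (hv : v ≠ 0) (hfar : ∀ τ ∈ Icc (0 : ℝ) t, l ≤ ‖x - τ • v‖) :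
    ∫ τ in (0 : ℝ)..t, ‖x - τ • v‖ ^ (-(d + s)) ≤
      ((2 : ℝ) ^ ((d : ℝ) + s) * ∫ σ : ℝ, (1 + ‖σ‖) ^ (-((d : ℝ) + s))) *
        (l ^ (-((d : ℝ) + s)) * (l / ‖v‖)) := by
  have hR : 0 < ‖v‖ := norm_pos_iff.2 hv
  have hp : 1 < (d : ℝ) + s := by
    have : (1 : ℝ) ≤ d := by exact_mod_cast hd
    linarith
  set p : ℝ := (d : ℝ) + s with hpdef
  set T : ℝ := ⟪x, v⟫ / ‖v‖ ^ 2 with hT
  set φ : ℝ → ℝ := fun σ => (1 + ‖σ‖) ^ (-p) with hφ
  have hφi : Integrable φ := integrable_one_add_norm (by simpa using hp)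
  have hRl : 0 < ‖v‖ / l := by positivity
  have hgi : Integrable (fun τ : ℝ => (l / 2) ^ (-p) * φ (‖v‖ / l * (τ - T))) := by
    apply Integrable.const_mul
    have h1 : Integrable (fun τ : ℝ => φ (‖v‖ / l * τ)) := hφi.comp_mul_left' hRl.ne'
    exact h1.comp_sub_right T
  have h0 : ∀ τ ∈ Icc (0 : ℝ) t, ‖x - τ • v‖ ^ (-p) ≤ (l / 2) ^ (-p) * φ (‖v‖ / l * (τ - T)) := by
    intro τ hτ
    have h1 := dist_ge d x v hv τ
    have h2 := hfar τ hτ
    have h3 : l / 2 * (1 + ‖‖v‖ / l * (τ - T)‖) ≤ ‖x - τ • v‖ := by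
      rw [Real.norm_eq_abs, abs_mul, abs_of_pos hRl]
      have h4 : l / 2 * (1 + ‖v‖ / l * |τ - T|) = (l + ‖v‖ * |τ - T|) / 2 := by
        field_simp
      rw [h4]
      linarith
    simp only [hφ]
    rw [← Real.mul_rpow (by positivity) (by positivity)]
    exact Real.rpow_le_rpow_of_nonpos (by positivity) h3 (by linarith)
  have hc : IntervalIntegrable (fun τ : ℝ => ‖x - τ • v‖ ^ (-p)) volume 0 t := by
    apply ContinuousOn.intervalIntegrable
    rw [uIcc_of_le ht.le]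
    apply ContinuousOn.rpow_const
    · fun_prop
    · intro τ hτ
      left
      have := hfar τ hτ
      linarith
  calc ∫ τ in (0 : ℝ)..t, ‖x - τ • v‖ ^ (-p)
      ≤ ∫ τ in (0 : ℝ)..t, (l / 2) ^ (-p) * φ (‖v‖ / l * (τ - T)) :=
        intervalIntegral.integral_mono_on ht.le hc hgi.intervalIntegrable h0
    _ ≤ ∫ τ : ℝ, (l / 2) ^ (-p) * φ (‖v‖ / l * (τ - T)) := by
        rw [intervalIntegral.integral_of_le ht.le]
        apply setIntegral_le_integral hgi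
        refine Eventually.of_forall fun τ => ?_
        simp only [hφ, Pi.zero_apply]
        positivity
    _ = (l / 2) ^ (-p) * (l / ‖v‖ * ∫ σ : ℝ, φ σ) := by
        rw [integral_const_mul]
        congr 1
        rw [integral_sub_right_eq_self (fun τ => φ (‖v‖ / l * τ)) T,
          Measure.integral_comp_mul_left, smul_eq_mul, abs_of_pos (by positivity)]
        congr 1
        field_simp
    _ = ((2 : ℝ) ^ p * ∫ σ : ℝ, (1 + ‖σ‖) ^ (-p)) * (l ^ (-p) * (l / ‖v‖)) := by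
        rw [Real.div_rpow hl.le (by norm_num), Real.rpow_neg (by norm_num : (0 : ℝ) ≤ 2)]
        simp only [hφ]
        field_simp

theorem main : StmtER := by
  intro s t hs hs1 ht d hd x v l τ₀ ω a b hN
  have hd1 : (1 : ℝ) ≤ d := by exact_mod_cast hd
  set C : ℝ := (2 : ℝ) ^ ((d : ℝ) + s) * ∫ σ : ℝ, (1 + ‖σ‖) ^ (-((d : ℝ) + s)) with hC
  have t1 : Tendsto (fun k => C * (l k / ‖v k‖) ^ s + ‖v k‖⁻¹) atTop (𝓝 0) := by
    have h1 := ((hN.tlR.rpow_const (p := s) (Or.inr hs.le)).const_mul C).add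
      (tendsto_inv_atTop_zero.comp hN.tR)
    rw [Real.zero_rpow hs.ne', mul_zero, zero_add] at h1
    exact h1
  refine tendsto_of_tendsto_of_tendsto_of_le_of_le' tendsto_const_nhds t1 ?_ ?_
  · refine Eventually.of_forall fun k => ?_
    have hI : 0 ≤ ∫ τ in (0 : ℝ)..t, ‖x k - τ • v k‖ ^ (-(d + s)) :=
      intervalIntegral.integral_nonneg ht.le fun τ _ => by positivity
    have := hN.one_le k
    positivity
  · filter_upwards [hN.tlR.eventually (gt_mem_nhds one_pos)] with k hk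
    have hl : 0 < l k := by linarith [hN.one_le k]
    have hv := hN.v_ne k
    have hR : 0 < ‖v k‖ := norm_pos_iff.2 hv
    have hb := int_bound d hd s hs t ht (x k) (v k) (l k) hl hv (hN.far k)
    rw [← hC] at hb
    rw [mul_add]
    apply add_le_add
    · calc ‖v k‖ ^ (d + 1 + 2 * s) * l k ^ (d - 1 + 2 * s) *
            (‖v k‖ ^ (-(d + 3 * s)) * ∫ τ in (0 : ℝ)..t, ‖x k - τ • v k‖ ^ (-(d + s)))
          ≤ ‖v k‖ ^ (d + 1 + 2 * s) * l k ^ (d - 1 + 2 * s) *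
            (‖v k‖ ^ (-(d + 3 * s)) * (C * (l k ^ (-((d : ℝ) + s)) * (l k / ‖v k‖)))) := by gcongr
        _ = C * ((‖v k‖ ^ (d + 1 + 2 * s) * ‖v k‖ ^ (-(d + 3 * s)) * ‖v k‖ ^ (-1 : ℝ)) *
            (l k ^ (d - 1 + 2 * s) * l k ^ (-((d : ℝ) + s)) * l k ^ (1 : ℝ))) := by
            rw [Real.rpow_one, Real.rpow_neg_one]
            field_simp
        _ = C * (l k / ‖v k‖) ^ s := by
            rw [← Real.rpow_add hR, ← Real.rpow_add hR, ← Real.rpow_add hl, ← Real.rpow_add hl,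
              Real.div_rpow hl.le hR.le]
            have e1 : (d : ℝ) + 1 + 2 * s + -(d + 3 * s) + -1 = -s := by ring
            have e2 : (d : ℝ) - 1 + 2 * s + -((d : ℝ) + s) + 1 = s := by ring
            rw [e1, e2, Real.rpow_neg hR.le]
            field_simp
    · have hlR : l k ≤ ‖v k‖ := by
        rw [div_lt_one hR] at hk
        exact hk.le
      calc ‖v k‖ ^ (d + 1 + 2 * s) * l k ^ (d - 1 + 2 * s) * ‖v k‖ ^ (-(2 * d + 4 * s + 1))
          ≤ ‖v k‖ ^ (d + 1 + 2 * s) * ‖v k‖ ^ (d - 1 + 2 * s) *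
            ‖v k‖ ^ (-(2 * d + 4 * s + 1)) := by
            gcongr
        _ = ‖v k‖⁻¹ := by
            rw [← Real.rpow_add hR, ← Real.rpow_add hR, ← Real.rpow_neg_one]
            congr 1
            ring

end Pool.Agent.L0h89.FK.ER
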