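import Pool.Agent.L0h89.FK.U

/-! # The two regimes exhaust all sequences tending to infinity -/

set_option autoImplicit false

open MeasureTheory Set Filter Topology
open scoped ENNReal RealInnerProductSpace

namespace Pool.Agent.L0h89.FK.Exh

/-- the hypotheses of the theorem near the cone -/
structure NearC (d : ℕ) (t : ℝ) (x v : ℕ → V d) (τ₀ w₀ : ℝ) (a b : EReal) : Prop where
  tR : Tendsto (fun k => ‖v k‖) atTop atTop
  tτ : Tendsto (fun k => ⟪x k, v k⟫ / ‖v k‖ ^ 2) atTop (𝓝 τ₀)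
  mem : τ₀ ∈ Icc (0 : ℝ) t
  tw : Tendsto (fun k => ‖x k - (⟪x k, v k⟫ / ‖v k‖ ^ 2) • v k‖) atTop (𝓝 w₀)
  ta : Tendsto (fun k => ((‖v k‖ * (⟪x k, v k⟫ / ‖v k‖ ^ 2) : ℝ) : EReal)) atTop (𝓝 a)
  tb : Tendsto (fun k => ((‖v k‖ * (t - ⟪x k, v k⟫ / ‖v k‖ ^ 2) : ℝ) : EReal)) atTop (𝓝 b)

theorem exhaust {t : ℝ} (ht : 0 < t) (d : ℕ) (x v : ℕ → V d)
    (hinf : Tendsto (fun k => ‖x k‖ + ‖v k‖) atTop atTop) :
    ∃ φ : ℕ → ℕ, StrictMono φ ∧
      ((∀ L : ℝ, ∀ᶠ k in atTop, ∀ τ ∈ Icc (0 : ℝ) t, L ≤ ‖x (φ k) - τ • v (φ k)‖) ∨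
        ∃ (τ₀ w₀ : ℝ) (a b : EReal), -a < b ∧
          NearC d t (fun k => x (φ k)) (fun k => v (φ k)) τ₀ w₀ a b) := by
  have hmin : ∀ k, ∃ τs ∈ Icc (0 : ℝ) t, IsMinOn (fun τ : ℝ => ‖x k - τ • v k‖) (Icc 0 t) τs :=
    fun k => isCompact_Icc.exists_isMinOn (nonempty_Icc.2 ht.le) (by fun_prop)
  choose τs hτs hτsmin using hmin
  by_cases hm : Tendsto (fun k => ‖x k - τs k • v k‖) atTop atTop
  · refine ⟨id, strictMono_id, Or.inl fun L => ?_⟩
    filter_upwards [hm.eventually_ge_atTop L] with k hk τ hτ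
    exact hk.trans (hτsmin k hτ)
  · rw [tendsto_atTop] at hm
    push Not at hm
    obtain ⟨D, hD⟩ := hm
    obtain ⟨φ0, hφ0, hφ0D⟩ := extraction_of_frequently_atTop hD
    -- the velocities tend to infinity
    have hD0 : 0 ≤ D := by
      have := hφ0D 0
      linarith [norm_nonneg (x (φ0 0) - τs (φ0 0) • v (φ0 0))]
    have hvt0 : Tendsto (fun k => ‖v (φ0 k)‖) atTop atTop := by
      have h1 := hinf.comp hφ0.tendsto_atTop
      have h2 : ∀ k, ‖x (φ0 k)‖ + ‖v (φ0 k)‖ ≤ D + (t + 1) * ‖v (φ0 k)‖ := by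
        intro k
        have h3 := hφ0D k
        have h4 : ‖x (φ0 k)‖ ≤ ‖x (φ0 k) - τs (φ0 k) • v (φ0 k)‖ + ‖τs (φ0 k) • v (φ0 k)‖ := by
          have := norm_add_le (x (φ0 k) - τs (φ0 k) • v (φ0 k)) (τs (φ0 k) • v (φ0 k))
          rwa [sub_add_cancel] at this
        have h5 : ‖τs (φ0 k) • v (φ0 k)‖ ≤ t * ‖v (φ0 k)‖ := by
          rw [norm_smul, Real.norm_of_nonneg (hτs _).1]
          exact mul_le_mul_of_nonneg_right (hτs _).2 (norm_nonneg _)
        linarith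
      have h6 : Tendsto (fun k => D + (t + 1) * ‖v (φ0 k)‖) atTop atTop :=
        tendsto_atTop_mono h2 h1
      have h7 : Tendsto (fun k => (t + 1) * ‖v (φ0 k)‖) atTop atTop := by
        have := tendsto_atTop_add_const_left atTop (-D) h6
        simpa using this
      exact (tendsto_const_mul_atTop_of_pos (by positivity)).1 h7
    obtain ⟨N, hN⟩ := eventually_atTop.1 (hvt0.eventually_ge_atTop 1)
    set φ1 : ℕ → ℕ := fun k => φ0 (k + N) with hφ1
    have hφ1m : StrictMono φ1 := hφ0.comp (fun a b h => Nat.add_lt_add_right h N)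
    have hvt1 : Tendsto (fun k => ‖v (φ1 k)‖) atTop atTop :=
      hvt0.comp (tendsto_add_atTop_nat N)
    have hv1 : ∀ k, 1 ≤ ‖v (φ1 k)‖ := fun k => hN (k + N) (Nat.le_add_left _ _)
    have hvpos : ∀ k, 0 < ‖v (φ1 k)‖ := fun k => by linarith [hv1 k]
    have hv0 : ∀ k, v (φ1 k) ≠ 0 := fun k => norm_pos_iff.1 (hvpos k)
    set l : ℕ → ℝ := fun k => ‖x (φ1 k) - τs (φ1 k) • v (φ1 k)‖ with hl
    have hlD : ∀ k, l k ≤ D := fun k => (hφ0D (k + N)).le
    have hl0 : ∀ k, 0 ≤ l k := fun k => norm_nonneg _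
    set τk : ℕ → ℝ := fun k => ⟪x (φ1 k), v (φ1 k)⟫ / ‖v (φ1 k)‖ ^ 2 with hτk
    have hdec : ∀ k τ, ‖x (φ1 k) - τ • v (φ1 k)‖ ^ 2 = ‖x (φ1 k) - τk k • v (φ1 k)‖ ^ 2 +
        ‖v (φ1 k)‖ ^ 2 * (τ - τk k) ^ 2 := fun k τ => U.norm_decomp _ _ (hv0 k) τ
    have hw : ∀ k, ‖x (φ1 k) - τk k • v (φ1 k)‖ ≤ D := by
      intro k
      have h1 := hdec k (τs (φ1 k))
      have h2 : 0 ≤ ‖v (φ1 k)‖ ^ 2 * (τs (φ1 k) - τk k) ^ 2 := by positivity
      have h3 : ‖x (φ1 k) - τk k • v (φ1 k)‖ ≤ l k := by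
        apply le_of_sq_le_sq _ (hl0 k)
        simp only [hl]
        linarith
      exact h3.trans (hlD k)
    have hRτ : ∀ k, ‖v (φ1 k)‖ * |τs (φ1 k) - τk k| ≤ D := by
      intro k
      have h1 := hdec k (τs (φ1 k))
      have h2 : 0 ≤ ‖x (φ1 k) - τk k • v (φ1 k)‖ ^ 2 := by positivity
      have h3 : ‖v (φ1 k)‖ * |τs (φ1 k) - τk k| ≤ l k := by
        apply le_of_sq_le_sq _ (hl0 k)
        rw [mul_pow, sq_abs]
        simp only [hl]
        linarith
      exact h3.trans (hlD k)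
    have hτd : ∀ k, |τs (φ1 k) - τk k| ≤ D := by
      intro k
      have h1 := hRτ k
      have h2 := hv1 k
      have h3 := abs_nonneg (τs (φ1 k) - τk k)
      nlinarith
    have hτmem : ∀ k, τk k ∈ Icc (-D) (t + D) := by
      intro k
      have h1 := abs_le.1 (hτd k)
      have h2 := hτs (φ1 k)
      exact ⟨by linarith [h2.1, h1.2], by linarith [h2.2, h1.1]⟩
    set A : ℕ → ℝ := fun k => ‖v (φ1 k)‖ * τk k with hA
    set B : ℕ → ℝ := fun k => ‖v (φ1 k)‖ * (t - τk k) with hB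
    have hA1 : ∀ k, -D ≤ A k := by
      intro k
      simp only [hA]
      have h1 := hRτ k
      have h2 := le_abs_self (τs (φ1 k) - τk k)
      have h3 : ‖v (φ1 k)‖ * (τs (φ1 k) - τk k) ≤ D :=
        (mul_le_mul_of_nonneg_left h2 (hvpos k).le).trans h1
      have h4 : 0 ≤ ‖v (φ1 k)‖ * τs (φ1 k) := mul_nonneg (hvpos k).le (hτs _).1
      nlinarith
    have hB1 : ∀ k, -D ≤ B k := by
      intro k
      simp only [hB]
      have h1 := hRτ k
      have h2 := neg_abs_le (τs (φ1 k) - τk k)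
      have h3 : ‖v (φ1 k)‖ * (-(τs (φ1 k) - τk k)) ≤ D :=
        (mul_le_mul_of_nonneg_left (by linarith) (hvpos k).le).trans h1
      have h4 : 0 ≤ ‖v (φ1 k)‖ * (t - τs (φ1 k)) :=
        mul_nonneg (hvpos k).le (by linarith [(hτs (φ1 k)).2])
      nlinarith
    have hmem : ∀ k, (τk k, (‖x (φ1 k) - τk k • v (φ1 k)‖, ((A k : EReal), (B k : EReal)))) ∈
        (Icc (-D) (t + D)) ×ˢ ((Icc (0 : ℝ) D) ×ˢ ((univ : Set EReal) ×ˢ (univ : Set EReal))) :=
      fun k => ⟨hτmem k, ⟨norm_nonneg _, hw k⟩, trivial, trivial⟩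
    obtain ⟨⟨τ₀, w₀, a, b⟩, -, φ2, hφ2, hlim2⟩ := (isCompact_Icc.prod (isCompact_Icc.prod
      (isCompact_univ.prod isCompact_univ))).tendsto_subseq hmem
    have hτt : Tendsto (fun k => τk (φ2 k)) atTop (𝓝 τ₀) := (continuous_fst.tendsto _).comp hlim2
    have hwt : Tendsto (fun k => ‖x (φ1 (φ2 k)) - τk (φ2 k) • v (φ1 (φ2 k))‖) atTop (𝓝 w₀) :=
      ((continuous_fst.comp continuous_snd).tendsto _).comp hlim2
    have ha : Tendsto (fun k => ((A (φ2 k) : ℝ) : EReal)) atTop (𝓝 a) :=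
      ((continuous_fst.comp (continuous_snd.comp continuous_snd)).tendsto _).comp hlim2
    have hb : Tendsto (fun k => ((B (φ2 k) : ℝ) : EReal)) atTop (𝓝 b) :=
      ((continuous_snd.comp (continuous_snd.comp continuous_snd)).tendsto _).comp hlim2
    have hφ2t := hφ2.tendsto_atTop
    have hvt2 : Tendsto (fun k => ‖v (φ1 (φ2 k))‖) atTop atTop := hvt1.comp hφ2t
    have hDR : Tendsto (fun k => D / ‖v (φ1 (φ2 k))‖) atTop (𝓝 0) := hvt2.const_div_atTop D
    have hτ0mem : τ₀ ∈ Icc (0 : ℝ) t := by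
      constructor
      · have h1 : Tendsto (fun k => τk (φ2 k) + D / ‖v (φ1 (φ2 k))‖) atTop (𝓝 (τ₀ + 0)) :=
          hτt.add hDR
        rw [add_zero] at h1
        refine ge_of_tendsto' h1 fun k => ?_
        have h2 := hA1 (φ2 k)
        simp only [hA] at h2
        have h3 := hvpos (φ2 k)
        have h4 : τk (φ2 k) + D / ‖v (φ1 (φ2 k))‖ =
            (‖v (φ1 (φ2 k))‖ * τk (φ2 k) + D) / ‖v (φ1 (φ2 k))‖ := by field_simp
        rw [h4]
        exact div_nonneg (by linarith) h3.le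
      · have h1 : Tendsto (fun k => τk (φ2 k) - D / ‖v (φ1 (φ2 k))‖) atTop (𝓝 (τ₀ - 0)) :=
          hτt.sub hDR
        rw [sub_zero] at h1
        refine le_of_tendsto' h1 fun k => ?_
        have h2 := hB1 (φ2 k)
        simp only [hB] at h2
        have h3 := hvpos (φ2 k)
        have h4 : t - (τk (φ2 k) - D / ‖v (φ1 (φ2 k))‖) =
            (‖v (φ1 (φ2 k))‖ * (t - τk (φ2 k)) + D) / ‖v (φ1 (φ2 k))‖ := by field_simp; ring
        have h5 : 0 ≤ t - (τk (φ2 k) - D / ‖v (φ1 (φ2 k))‖) := by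
          rw [h4]
          exact div_nonneg (by linarith) h3.le
        linarith
    have ha1' : ((-D : ℝ) : EReal) ≤ a := ge_of_tendsto' ha fun k => EReal.coe_le_coe_iff.2 (hA1 _)
    have hb1' : ((-D : ℝ) : EReal) ≤ b := ge_of_tendsto' hb fun k => EReal.coe_le_coe_iff.2 (hB1 _)
    have hsum : Tendsto (fun k => A (φ2 k) + B (φ2 k)) atTop atTop := by
      have e1 : ∀ k, A k + B k = ‖v (φ1 k)‖ * t := by
        intro k
        simp only [hA, hB]
        ring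
      simp_rw [e1]
      exact hvt2.atTop_mul_const ht
    have htop : a = ⊤ ∨ b = ⊤ := by
      by_contra hno
      push Not at hno
      obtain ⟨hna, hnb⟩ := hno
      have hab1 : a ≠ ⊥ := fun h => by
        rw [h] at ha1'
        exact absurd ha1' (not_le.2 (EReal.bot_lt_coe _))
      have hbb1 : b ≠ ⊥ := fun h => by
        rw [h] at hb1'
        exact absurd hb1' (not_le.2 (EReal.bot_lt_coe _))
      lift a to ℝ using ⟨hna, hab1⟩
      lift b to ℝ using ⟨hnb, hbb1⟩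
      have h1 : Tendsto (fun k => A (φ2 k)) atTop (𝓝 a) := EReal.tendsto_coe.1 ha
      have h2 : Tendsto (fun k => B (φ2 k)) atTop (𝓝 b) := EReal.tendsto_coe.1 hb
      exact not_tendsto_nhds_of_tendsto_atTop hsum _ (h1.add h2)
    have hab : -a < b := by
      rcases htop with h | h
      · rw [h, EReal.neg_top]
        exact lt_of_lt_of_le (EReal.bot_lt_coe _) hb1'
      · rw [h, lt_top_iff_ne_top]
        intro h1
        rw [EReal.neg_eq_top_iff] at h1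
        rw [h1] at ha1'
        exact absurd ha1' (not_le.2 (EReal.bot_lt_coe _))
    exact ⟨fun k => φ1 (φ2 k), hφ1m.comp hφ2, Or.inr ⟨τ₀, w₀, a, b, hab,
      ⟨hvt2, hτt, hτ0mem, hwt, ha, hb⟩⟩⟩

end Pool.Agent.L0h89.FK.Exh
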