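import Pool.Agent.L0h93.FK.Gau

/-! # F: the fundamental solution is a probability density with Fourier transform `e^{-Φ_t}` -/

set_option autoImplicit false

open MeasureTheory Set Filter Topology
open scoped ENNReal RealInnerProductSpace

namespace Pool.Agent.L0h89.FK.F

open Pool.Agent.L0h93.FK

/-- the inverse matrix (with the sign of `b` changed) -/
noncomputable def inv (M : Mat) : Mat :=
  (M.2.2 / (4 * det M), M.2.1 / (4 * det M), M.1 / (4 * det M))

lemma ab_pos {t : ℝ} (ht : 0 < t) {M : Mat} (h : M ∈ cone t) (hd : 0 < det M) :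
    0 < M.1 ∧ 0 < M.2.1 := by
  have hc := c_pos ht h hd
  obtain ⟨h1, h2, h3, h4, h5⟩ := h
  have ha : 0 < M.1 := by
    rcases h3.lt_or_eq with h6 | h6
    · exact h6
    · exfalso
      unfold det at hd
      rw [← h6] at hd
      nlinarith [sq_nonneg M.2.1]
  refine ⟨ha, ?_⟩
  rcases h1.lt_or_eq with h6 | h6
  · exact h6
  · exfalso
    rw [← h6] at h4
    linarith

lemma inv_mem {t : ℝ} (ht : 0 < t) {M : Mat} (h : M ∈ cone t) (hd : 0 < det M) :
    ∃ t' : ℝ, 0 < t' ∧ inv M ∈ cone t' := by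
  have hc := c_pos ht h hd
  obtain ⟨ha, hb⟩ := ab_pos ht h hd
  refine ⟨M.2.1 / M.1 + M.2.2 / M.2.1, by positivity, ?_, ?_, ?_, ?_, ?_⟩
  · unfold inv; simp only; positivity
  · unfold inv; simp only
    rw [← mul_div_assoc]
    apply div_le_div_of_nonneg_right _ (by positivity)
    rw [add_mul, div_mul_cancel₀ _ ha.ne']
    have : 0 ≤ M.2.2 / M.2.1 * M.1 := by positivity
    linarith
  · unfold inv; simp only; positivity
  · unfold inv; simp only
    rw [← mul_div_assoc]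
    apply div_le_div_of_nonneg_right _ (by positivity)
    rw [add_mul, div_mul_cancel₀ _ hb.ne']
    have : 0 ≤ M.2.1 / M.1 * M.2.1 := by positivity
    linarith
  · unfold inv; simp only
    rw [div_pow, div_mul_div_comm, ← pow_two]
    apply div_le_div_of_nonneg_right _ (by positivity)
    have : 0 < M.1 * M.2.2 - M.2.1 ^ 2 := hd
    nlinarith

lemma det_inv {M : Mat} (hd : 0 < det M) : det (inv M) = 1 / (16 * det M) := by
  have e : det (inv M) = (M.1 * M.2.2 - M.2.1 ^ 2) / (16 * det M ^ 2) := by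
    unfold inv
    rw [det]
    simp only
    field_simp
    ring
  have e2 : M.1 * M.2.2 - M.2.1 ^ 2 = det M := rfl
  rw [e, e2]
  field_simp

/-- reflection of the first variable -/
noncomputable def refl (d : ℕ) : (V d × V d) ≃ᵐ (V d × V d) :=
  MeasurableEquiv.prodCongr (MeasurableEquiv.neg (V d)) (MeasurableEquiv.refl (V d))

lemma refl_apply {d : ℕ} (p : V d × V d) : refl d p = (-p.1, p.2) := rfl

lemma refl_mp (d : ℕ) : MeasurePreserving (refl d) volume volume :=
  (Measure.measurePreserving_neg (volume : Measure (V d))).prod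
    (MeasurePreserving.id (volume : Measure (V d)))

lemma g_refl {d : ℕ} (M : Mat) (p : V d × V d) :
    g d M (refl d p).1 (refl d p).2 = (4 * Real.pi) ^ (-(d : ℝ)) * det M ^ (-((d : ℝ) / 2)) *
      Real.exp (-qf (inv M) p.1 p.2) := by
  rw [refl_apply]
  unfold g qf inv
  simp only [norm_neg, inner_neg_left]
  congr 3
  ring

lemma g_int {d : ℕ} (hd1 : 1 ≤ d) {t : ℝ} (ht : 0 < t) {M : Mat} (h : M ∈ cone t)
    (hd : 0 < det M) : Integrable (fun p : V d × V d => g d M p.1 p.2) := by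
  obtain ⟨t', ht', hM'⟩ := inv_mem ht h hd
  have hd' : 0 < det (inv M) := by rw [det_inv hd]; positivity
  have h1 := (integrable_exp_qf hd1 ht' hM' hd').const_mul
    ((4 * Real.pi) ^ (-(d : ℝ)) * det M ^ (-((d : ℝ) / 2)))
  have h2 : Integrable ((fun p : V d × V d => g d M p.1 p.2) ∘ (refl d)) := by
    refine h1.congr (Filter.Eventually.of_forall fun p => ?_)
    exact (g_refl M p).symm
  exact ((refl_mp d).integrable_comp_emb (refl d).measurableEmbedding).1 h2

/-- the Fourier transform of `g` -/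
lemma ft {d : ℕ} (hd1 : 1 ≤ d) {t : ℝ} (ht : 0 < t) {M : Mat} (h : M ∈ cone t)
    (hd : 0 < det M) (ψ ξ : V d) :
    ∫ p : V d × V d, Complex.exp (-Complex.I * ((⟪p.1, ψ⟫ + ⟪p.2, ξ⟫ : ℝ) : ℂ)) *
      (g d M p.1 p.2 : ℂ) = ((Real.exp (-qf M ψ ξ) : ℝ) : ℂ) := by
  obtain ⟨t', ht', hM'⟩ := inv_mem ht h hd
  have hd' : 0 < det (inv M) := by rw [det_inv hd]; positivity
  rw [← (refl_mp d).integral_comp']
  have e : ∀ p : V d × V d, Complex.exp (-Complex.I *
      ((⟪(refl d p).1, ψ⟫ + ⟪(refl d p).2, ξ⟫ : ℝ) : ℂ)) *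
      (g d M (refl d p).1 (refl d p).2 : ℂ) =
      (((4 * Real.pi) ^ (-(d : ℝ)) * det M ^ (-((d : ℝ) / 2)) : ℝ) : ℂ) *
        Complex.exp (-(qf (inv M) p.1 p.2 : ℂ) +
          Complex.I * ((⟪ψ, p.1⟫ + ⟪-ξ, p.2⟫ : ℝ) : ℂ)) := by
    intro p
    rw [g_refl, Complex.exp_add, Complex.ofReal_mul, Complex.ofReal_exp]
    have e2 : -Complex.I * ((⟪(refl d p).1, ψ⟫ + ⟪(refl d p).2, ξ⟫ : ℝ) : ℂ) =
        Complex.I * ((⟪ψ, p.1⟫ + ⟪-ξ, p.2⟫ : ℝ) : ℂ) := by
      rw [refl_apply]
      simp only [inner_neg_left]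
      rw [real_inner_comm p.1 ψ, real_inner_comm p.2 ξ]
      push_cast
      ring
    rw [e2]
    push_cast
    ring
  simp_rw [e]
  rw [integral_const_mul, gauss_two hd1 ht' hM' hd' ψ (-ξ), ← Complex.ofReal_mul]
  congr 1
  rw [det_inv hd]
  have e3 : (inv M).2.2 * ‖ψ‖ ^ 2 - 2 * (inv M).2.1 * ⟪ψ, -ξ⟫ + (inv M).1 * ‖-ξ‖ ^ 2 =
      qf M ψ ξ / (4 * det M) := by
    unfold qf inv
    simp only [norm_neg, inner_neg_right]
    ring
  rw [e3]
  have e4 : qf M ψ ξ / (4 * det M) / (4 * (1 / (16 * det M))) = qf M ψ ξ := by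
    field_simp
    ring
  rw [e4]
  have e5 : (1 / (16 * det M)) ^ (-((d : ℝ) / 2)) = 4 ^ (d : ℝ) * det M ^ ((d : ℝ) / 2) := by
    rw [one_div, Real.inv_rpow (by positivity), Real.rpow_neg (by positivity), inv_inv,
      Real.mul_rpow (by norm_num) hd.le]
    congr 1
    rw [show (16 : ℝ) = 4 ^ (2 : ℝ) by norm_num, ← Real.rpow_mul (by norm_num)]
    congr 1
    ring
  rw [e5]
  have e6 : det M ^ (-((d : ℝ) / 2)) * det M ^ ((d : ℝ) / 2) = 1 := by
    rw [← Real.rpow_add hd]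
    simp
  have e7 : (4 * Real.pi) ^ (-(d : ℝ)) * (Real.pi ^ (d : ℝ) * 4 ^ (d : ℝ)) = 1 := by
    rw [Real.rpow_neg (by positivity), Real.mul_rpow (by norm_num) Real.pi_pos.le,
      mul_comm (Real.pi ^ (d : ℝ))]
    exact inv_mul_cancel₀ (by positivity)
  calc _ = ((4 * Real.pi) ^ (-(d : ℝ)) * (Real.pi ^ (d : ℝ) * 4 ^ (d : ℝ))) *
        (det M ^ (-((d : ℝ) / 2)) * det M ^ ((d : ℝ) / 2)) * Real.exp (-qf M ψ ξ) := by ring
    _ = _ := by rw [e6, e7, one_mul, one_mul]

lemma g_pos {d : ℕ} {M : Mat} (hd : 0 < det M) (x v : V d) : 0 < g d M x v := by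
  unfold g; positivity

lemma g_one {d : ℕ} (hd1 : 1 ≤ d) {t : ℝ} (ht : 0 < t) {M : Mat} (h : M ∈ cone t)
    (hd : 0 < det M) : ∫ p : V d × V d, g d M p.1 p.2 = 1 := by
  have h1 := ft hd1 ht h hd (0 : V d) (0 : V d)
  simp only [inner_zero_right, add_zero, Complex.ofReal_zero, mul_zero, Complex.exp_zero,
    one_mul] at h1
  rw [integral_complex_ofReal] at h1
  have h2 := Complex.ofReal_injective h1
  rw [h2]
  unfold qf
  simp

lemma g_meas2 (d : ℕ) : Measurable (fun q : Mat × (V d × V d) => g d q.1 q.2.1 q.2.2) := by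
  have h1 : Measurable (fun q : Mat × (V d × V d) => det q.1) := det_meas.comp measurable_fst
  unfold g
  refine Measurable.mul (Measurable.mul measurable_const (h1.pow_const _)) ?_
  refine Real.measurable_exp.comp (Measurable.neg (Measurable.div ?_ (measurable_const.mul h1)))
  fun_prop

theorem main (hP : StmtP) (hN1 : StmtN1) (hR : StmtR) : StmtF := by
  intro s t h0 h1 ht d hd1
  obtain ⟨P, hL⟩ := hP s t h0 h1 ht
  have hprob := hL.prob
  obtain ⟨hpos, -⟩ := hN1 s t P h0 h1 ht hL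
  have hK := fun x v => hR s t P h0 h1 ht hL d hd1 x v
  have hint : Integrable (fun q : Mat × (V d × V d) => g d q.1 q.2.1 q.2.2)
      (P.prod (volume : Measure (V d × V d))) := by
    rw [integrable_prod_iff (g_meas2 d).aestronglyMeasurable]
    constructor
    · filter_upwards [hL.supp, hpos] with M hM hM0
      exact g_int hd1 ht hM hM0.2
    · have : (fun M => ∫ p : V d × V d, ‖g d M p.1 p.2‖) =ᵐ[P] fun _ => (1 : ℝ) := by
        filter_upwards [hL.supp, hpos] with M hM hM0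
        rw [← g_one hd1 ht hM hM0.2]
        congr 1; ext p
        rw [Real.norm_of_nonneg (g_pos hM0.2 _ _).le]
      exact (integrable_const (1 : ℝ)).congr this.symm
  have hKeq : ∀ p : V d × V d, K d s t p.1 p.2 = ∫ M, g d M p.1 p.2 ∂P := fun p =>
    (hK p.1 p.2).2
  refine ⟨fun x v => ?_, ?_, fun ψ ξ => ?_⟩
  · rw [(hK x v).2]
    have hnn : 0 ≤ᵐ[P] fun M => g d M x v := by
      filter_upwards [hpos] with M hM
      exact (g_pos hM.2 x v).le
    rw [integral_pos_iff_support_of_nonneg_ae hnn (hK x v).1]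
    have : Function.support (fun M => g d M x v) =ᵐ[P] (univ : Set Mat) := by
      rw [eventuallyEq_univ]
      filter_upwards [hpos] with M hM
      exact (g_pos hM.2 x v).ne'
    rw [measure_congr this, measure_univ]
    exact one_pos
  · have := hint.integral_prod_right
    refine this.congr (Filter.Eventually.of_forall fun p => ?_)
    exact (hKeq p).symm
  · have e1 : ∀ p : V d × V d, Complex.exp (-Complex.I * ((⟪p.1, ψ⟫ + ⟪p.2, ξ⟫ : ℝ) : ℂ)) *
        (K d s t p.1 p.2 : ℂ) = ∫ M, Complex.exp (-Complex.I *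
          ((⟪p.1, ψ⟫ + ⟪p.2, ξ⟫ : ℝ) : ℂ)) * (g d M p.1 p.2 : ℂ) ∂P := by
      intro p
      rw [hKeq p, integral_const_mul, integral_complex_ofReal]
    simp_rw [e1]
    have hint2 : Integrable (Function.uncurry fun (p : V d × V d) (M : Mat) =>
        Complex.exp (-Complex.I * ((⟪p.1, ψ⟫ + ⟪p.2, ξ⟫ : ℝ) : ℂ)) * (g d M p.1 p.2 : ℂ))
        ((volume : Measure (V d × V d)).prod P) := by
      have h3 := hint.swap
      refine h3.norm.mono' ?_ (Filter.Eventually.of_forall fun q => ?_)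
      · apply Measurable.aestronglyMeasurable
        have hc : Continuous (fun q : (V d × V d) × Mat =>
            Complex.exp (-Complex.I * ((⟪q.1.1, ψ⟫ + ⟪q.1.2, ξ⟫ : ℝ) : ℂ))) := by fun_prop
        have hm : Measurable (fun q : (V d × V d) × Mat => g d q.2 q.1.1 q.1.2) :=
          (g_meas2 d).comp (measurable_snd.prodMk measurable_fst)
        exact hc.measurable.mul (Complex.measurable_ofReal.comp hm)
      · simp only [Function.uncurry, Function.comp_apply, Prod.swap, norm_mul]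
        rw [Complex.norm_real]
        have : ‖Complex.exp (-Complex.I * ((⟪q.1.1, ψ⟫ + ⟪q.1.2, ξ⟫ : ℝ) : ℂ))‖ = 1 := by
          rw [show -Complex.I * ((⟪q.1.1, ψ⟫ + ⟪q.1.2, ξ⟫ : ℝ) : ℂ) =
            ((-(⟪q.1.1, ψ⟫ + ⟪q.1.2, ξ⟫) : ℝ) : ℂ) * Complex.I by push_cast; ring]
          exact Complex.norm_exp_ofReal_mul_I _
        rw [this, one_mul]
    rw [integral_integral_swap hint2]
    have e2 : ∫ M, (∫ p : V d × V d, Complex.exp (-Complex.I *
        ((⟪p.1, ψ⟫ + ⟪p.2, ξ⟫ : ℝ) : ℂ)) * (g d M p.1 p.2 : ℂ)) ∂P =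
        ∫ M, ((Real.exp (-qf M ψ ξ) : ℝ) : ℂ) ∂P := by
      apply integral_congr_ae
      filter_upwards [hL.supp, hpos] with M hM hM0
      exact ft hd1 ht hM hM0.2 ψ ξ
    rw [e2, integral_complex_ofReal, lap_qf hL h0]

end Pool.Agent.L0h89.FK.F
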