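import Pool.Agent.L0h89.FK.Basic

/-! # H: evaluation of the two jump integral -/

set_option autoImplicit false

open MeasureTheory Set Filter Topology
open scoped ENNReal RealInnerProductSpace

namespace Pool.Agent.L0h89.FK.H

/-! ## The inverse Gamma integral -/

lemma invGamma (p B : ℝ) (hp : 0 < p) (hB : 0 < B) :
    ∫ r in Ioi (0 : ℝ), r ^ (-1 - p) * Real.exp (-(B / r)) = Real.Gamma p * B ^ (-p) := by
  have h1 := Real.integral_rpow_mul_exp_neg_mul_Ioi (a := p) (r := B) hp hB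
  have h2 := integral_comp_rpow_Ioi (fun y : ℝ => y ^ (p - 1) * Real.exp (-(B * y)))
    (p := (-1 : ℝ)) (by norm_num)
  rw [h1] at h2
  have h3 : ∫ r in Ioi (0 : ℝ), r ^ (-1 - p) * Real.exp (-(B / r)) =
      ∫ x in Ioi (0 : ℝ), (|(-1 : ℝ)| * x ^ ((-1 : ℝ) - 1)) •
        ((fun y : ℝ => y ^ (p - 1) * Real.exp (-(B * y))) (x ^ (-1 : ℝ))) := by
    refine setIntegral_congr_fun measurableSet_Ioi (fun x hx => ?_)
    have hx0 : 0 < x := hx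
    simp only [smul_eq_mul, abs_neg, abs_one, one_mul]
    rw [← Real.rpow_mul hx0.le, ← mul_assoc, ← Real.rpow_add hx0, Real.rpow_neg_one,
      div_eq_mul_inv]
    congr 2
    ring
  rw [h3, h2, one_div, Real.inv_rpow hB.le, Real.rpow_neg hB.le, mul_comm]

lemma invGamma_int (p B : ℝ) (hp : 0 < p) (hB : 0 < B) :
    IntegrableOn (fun r : ℝ => r ^ (-1 - p) * Real.exp (-(B / r))) (Ioi 0) := by
  apply Integrable.of_integral_ne_zero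
  rw [invGamma p B hp hB]
  have := Real.Gamma_pos_of_pos hp
  positivity

lemma kap_pos (s : ℝ) (hs : 0 < s) (hs1 : s < 1) : 0 < kap s := by
  unfold kap
  have := Real.Gamma_pos_of_pos (show 0 < 1 - s by linarith)
  positivity

lemma lev_pos (s : ℝ) : ∀ᵐ r ∂(lev s), 0 < r := by
  unfold lev
  exact (withDensity_absolutelyContinuous _ _).ae_le (ae_restrict_mem measurableSet_Ioi)

lemma lev_int (s : ℝ) (hs : 0 < s) (hs1 : s < 1) (q B : ℝ) (hq : 0 ≤ q) (hB : 0 < B) :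
    ∫⁻ r, ENNReal.ofReal (r ^ (-q) * Real.exp (-(B / r))) ∂(lev s) =
      ENNReal.ofReal (kap s * (Real.Gamma (s + q) * B ^ (-(s + q)))) := by
  have hk := kap_pos s hs hs1
  unfold lev
  rw [lintegral_withDensity_eq_lintegral_mul _ (by fun_prop) (by fun_prop)]
  rw [← invGamma (s + q) B (by linarith) hB, ← integral_const_mul,
    ofReal_integral_eq_lintegral_ofReal]
  · refine setLIntegral_congr_fun measurableSet_Ioi (fun r hr => ?_)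
    have hr0 : 0 < r := hr
    simp only [Pi.mul_apply]
    rw [← ENNReal.ofReal_mul (by positivity)]
    congr 1
    rw [show -1 - (s + q) = (-1 - s) + (-q) by ring, Real.rpow_add hr0]
    ring
  · exact (invGamma_int (s + q) B (by linarith) hB).const_mul _
  · refine (ae_restrict_iff' measurableSet_Ioi).2 (Eventually.of_forall fun r hr => ?_)
    have hr0 : 0 < r := hr
    show 0 ≤ _
    positivity

/-! ## The Gaussian of two jumps -/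

lemma det_two (r₁ τ₁ r₂ τ₂ : ℝ) :
    det (J (r₁, τ₁) + J (r₂, τ₂)) = r₁ * r₂ * |τ₁ - τ₂| ^ 2 := by
  rw [sq_abs]
  simp [det, J]
  ring

lemma num_two (d : ℕ) (x v : V d) (r₁ τ₁ r₂ τ₂ : ℝ) :
    (J (r₁, τ₁) + J (r₂, τ₂)).2.2 * ‖x‖ ^ 2 - 2 * (J (r₁, τ₁) + J (r₂, τ₂)).2.1 * ⟪x, v⟫ +
      (J (r₁, τ₁) + J (r₂, τ₂)).1 * ‖v‖ ^ 2 =
      r₁ * ‖x - τ₁ • v‖ ^ 2 + r₂ * ‖x - τ₂ • v‖ ^ 2 := by
  rw [norm_sub_sq_real, norm_sub_sq_real, inner_smul_right, inner_smul_right, norm_smul, norm_smul,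
    mul_pow, mul_pow, Real.norm_eq_abs, Real.norm_eq_abs, sq_abs, sq_abs]
  simp only [J, Prod.fst_add, Prod.snd_add]
  ring

lemma g_two (d : ℕ) (x v : V d) (r₁ τ₁ r₂ τ₂ : ℝ) (h1 : 0 < r₁) (h2 : 0 < r₂) (hτ : τ₁ ≠ τ₂) :
    g d (J (r₁, τ₁) + J (r₂, τ₂)) x v =
      ((4 * Real.pi) ^ (-(d : ℝ)) * |τ₁ - τ₂| ^ (-(d : ℝ))) *
        (r₁ ^ (-((d : ℝ) / 2)) * Real.exp (-(‖x - τ₂ • v‖ ^ 2 / (4 * |τ₁ - τ₂| ^ 2) / r₁))) *
        (r₂ ^ (-((d : ℝ) / 2)) * Real.exp (-(‖x - τ₁ • v‖ ^ 2 / (4 * |τ₁ - τ₂| ^ 2) / r₂))) := by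
  have hδ : 0 < |τ₁ - τ₂| := abs_pos.2 (sub_ne_zero.2 hτ)
  unfold g
  rw [num_two, det_two]
  generalize |τ₁ - τ₂| = δ at hδ
  generalize ‖x - τ₁ • v‖ = n₁
  generalize ‖x - τ₂ • v‖ = n₂
  have e1 : (r₁ * r₂ * δ ^ 2) ^ (-((d : ℝ) / 2)) =
      r₁ ^ (-((d : ℝ) / 2)) * r₂ ^ (-((d : ℝ) / 2)) * δ ^ (-(d : ℝ)) := by
    rw [Real.mul_rpow (by positivity) (by positivity), Real.mul_rpow h1.le h2.le]
    congr 1
    rw [← Real.rpow_natCast, ← Real.rpow_mul hδ.le]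
    congr 1
    push_cast
    ring
  have e2 : Real.exp (-((r₁ * n₁ ^ 2 + r₂ * n₂ ^ 2) / (4 * (r₁ * r₂ * δ ^ 2)))) =
      Real.exp (-(n₂ ^ 2 / (4 * δ ^ 2) / r₁)) * Real.exp (-(n₁ ^ 2 / (4 * δ ^ 2) / r₂)) := by
    rw [← Real.exp_add]
    congr 1
    field_simp
    ring
  rw [e1, e2]
  ring

lemma g_two_zero (d : ℕ) (hd : 1 ≤ d) (x v : V d) (r₁ r₂ τ : ℝ) :
    g d (J (r₁, τ) + J (r₂, τ)) x v = 0 := by
  unfold g
  rw [det_two, sub_self, abs_zero]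
  have : -((d : ℝ) / 2) ≠ 0 := by
    have : (0 : ℝ) < d := by exact_mod_cast hd
    linarith
  rw [show r₁ * r₂ * (0 : ℝ) ^ 2 = 0 by ring, Real.zero_rpow this]
  ring

lemma pow_id (n δ e : ℝ) (hn : 0 < n) (hδ : 0 < δ) :
    (n ^ 2 / (4 * δ ^ 2)) ^ (-e) = n ^ (-(2 * e)) * (4 ^ e * δ ^ (2 * e)) := by
  rw [Real.div_rpow (by positivity) (by positivity), Real.mul_rpow (by positivity) (by positivity),
    ← Real.rpow_natCast n 2, ← Real.rpow_mul hn.le, ← Real.rpow_natCast δ 2, ← Real.rpow_mul hδ.le]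
  have e1 : ((2 : ℕ) : ℝ) * (-e) = -(2 * e) := by push_cast; ring
  rw [e1, div_eq_mul_inv, mul_inv, ← Real.rpow_neg (by norm_num), ← Real.rpow_neg hδ.le, neg_neg,
    neg_neg]

lemma const_id (d : ℕ) (s δ n₁ n₂ : ℝ) (hs : 0 < s) (hs1 : s < 1) (hδ : 0 < δ) (h1 : 0 < n₁)
    (h2 : 0 < n₂) :
    ((4 * Real.pi) ^ (-(d : ℝ)) * δ ^ (-(d : ℝ))) *
      (kap s * (Real.Gamma (s + (d : ℝ) / 2) * (n₂ ^ 2 / (4 * δ ^ 2)) ^ (-(s + (d : ℝ) / 2)))) *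
      (kap s * (Real.Gamma (s + (d : ℝ) / 2) * (n₁ ^ 2 / (4 * δ ^ 2)) ^ (-(s + (d : ℝ) / 2)))) =
    cds d s ^ 2 * (δ ^ ((d : ℝ) + 4 * s) * n₁ ^ (-((d : ℝ) + 2 * s)) *
      n₂ ^ (-((d : ℝ) + 2 * s))) := by
  have hG := Real.Gamma_pos_of_pos (show 0 < 1 - s by linarith)
  rw [pow_id n₁ δ _ h1 hδ, pow_id n₂ δ _ h2 hδ]
  unfold kap cds
  have e0 : 2 * (s + (d : ℝ) / 2) = (d : ℝ) + 2 * s := by ring
  rw [e0, show s + (d : ℝ) / 2 = (d : ℝ) / 2 + s by ring]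
  have e1 : (4 * Real.pi) ^ (-(d : ℝ)) = (4 ^ (d : ℝ))⁻¹ * (Real.pi ^ (d : ℝ))⁻¹ := by
    rw [Real.mul_rpow (by norm_num) Real.pi_pos.le, Real.rpow_neg (by norm_num),
      Real.rpow_neg Real.pi_pos.le]
  have e2 : (4 : ℝ) ^ ((d : ℝ) / 2 + s) * 4 ^ ((d : ℝ) / 2 + s) = 4 ^ (d : ℝ) * (4 ^ s * 4 ^ s) := by
    rw [← Real.rpow_add (by norm_num), ← Real.rpow_add (by norm_num),
      ← Real.rpow_add (by norm_num)]
    congr 1; ring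
  have e3 : δ ^ (-(d : ℝ)) * (δ ^ ((d : ℝ) + 2 * s) * δ ^ ((d : ℝ) + 2 * s)) =
      δ ^ ((d : ℝ) + 4 * s) := by
    rw [← Real.rpow_add hδ, ← Real.rpow_add hδ]
    congr 1; ring
  have e4 : (Real.pi ^ ((d : ℝ) / 2)) ^ 2 = Real.pi ^ (d : ℝ) := by
    rw [← Real.rpow_natCast, ← Real.rpow_mul Real.pi_pos.le]
    congr 1; push_cast; ring
  have h4 : (4 : ℝ) ^ (d : ℝ) ≠ 0 := by positivity
  have hπ : Real.pi ^ (d : ℝ) ≠ 0 := by positivity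
  calc _ = (Real.Gamma ((d : ℝ) / 2 + s)) ^ 2 * (s / Real.Gamma (1 - s)) ^ 2 *
        n₁ ^ (-((d : ℝ) + 2 * s)) * n₂ ^ (-((d : ℝ) + 2 * s)) *
        ((4 * Real.pi) ^ (-(d : ℝ)) * (4 ^ ((d : ℝ) / 2 + s) * 4 ^ ((d : ℝ) / 2 + s))) *
        (δ ^ (-(d : ℝ)) * (δ ^ ((d : ℝ) + 2 * s) * δ ^ ((d : ℝ) + 2 * s))) := by ring
    _ = _ := by
      rw [e2, e3, e1, div_pow, div_pow, mul_pow, mul_pow, mul_pow, e4]
      field_simp

lemma two_jumps (d : ℕ) (hd : 1 ≤ d) (s : ℝ) (hs : 0 < s) (hs1 : s < 1) (x v : V d) (τ₁ τ₂ : ℝ)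
    (h1 : x ≠ τ₁ • v) (h2 : x ≠ τ₂ • v) :
    ∫⁻ r₁, ∫⁻ r₂, ENNReal.ofReal (g d (J (r₁, τ₁) + J (r₂, τ₂)) x v) ∂(lev s) ∂(lev s) =
      ENNReal.ofReal (cds d s ^ 2 * (|τ₁ - τ₂| ^ ((d : ℝ) + 4 * s) *
        ‖x - τ₁ • v‖ ^ (-((d : ℝ) + 2 * s)) * ‖x - τ₂ • v‖ ^ (-((d : ℝ) + 2 * s)))) := by
  have hn1 : 0 < ‖x - τ₁ • v‖ := norm_pos_iff.2 (sub_ne_zero.2 h1)
  have hn2 : 0 < ‖x - τ₂ • v‖ := norm_pos_iff.2 (sub_ne_zero.2 h2)
  have hd0 : (0 : ℝ) < d := by exact_mod_cast hd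
  by_cases hτ : τ₁ = τ₂
  · subst hτ
    have : (d : ℝ) + 4 * s ≠ 0 := by positivity
    simp only [g_two_zero d hd, ENNReal.ofReal_zero, lintegral_zero, sub_self, abs_zero,
      Real.zero_rpow this, zero_mul, mul_zero]
  · have hδ : 0 < |τ₁ - τ₂| := abs_pos.2 (sub_ne_zero.2 hτ)
    obtain ⟨B₁, hB₁⟩ : ∃ B, B = ‖x - τ₁ • v‖ ^ 2 / (4 * |τ₁ - τ₂| ^ 2) := ⟨_, rfl⟩
    obtain ⟨B₂, hB₂⟩ : ∃ B, B = ‖x - τ₂ • v‖ ^ 2 / (4 * |τ₁ - τ₂| ^ 2) := ⟨_, rfl⟩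
    have hB1 : 0 < B₁ := by rw [hB₁]; positivity
    have hB2 : 0 < B₂ := by rw [hB₂]; positivity
    have hk := kap_pos s hs hs1
    have hG := Real.Gamma_pos_of_pos (show 0 < s + (d : ℝ) / 2 by positivity)
    rw [← const_id d s |τ₁ - τ₂| ‖x - τ₁ • v‖ ‖x - τ₂ • v‖ hs hs1 hδ hn1 hn2, ← hB₁, ← hB₂]
    have step : ∀ᵐ r₁ ∂(lev s),
        ∫⁻ r₂, ENNReal.ofReal (g d (J (r₁, τ₁) + J (r₂, τ₂)) x v) ∂(lev s) =
        ENNReal.ofReal ((4 * Real.pi) ^ (-(d : ℝ)) * |τ₁ - τ₂| ^ (-(d : ℝ))) *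
          ENNReal.ofReal (kap s * (Real.Gamma (s + (d : ℝ) / 2) * B₁ ^ (-(s + (d : ℝ) / 2)))) *
          ENNReal.ofReal (r₁ ^ (-((d : ℝ) / 2)) * Real.exp (-(B₂ / r₁))) := by
      filter_upwards [lev_pos s] with r₁ hr₁
      rw [← lev_int s hs hs1 ((d : ℝ) / 2) B₁ (by positivity) hB1,
        ← lintegral_const_mul _ (by fun_prop), ← lintegral_mul_const _ (by fun_prop)]
      refine lintegral_congr_ae ?_
      filter_upwards [lev_pos s] with r₂ hr₂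
      rw [g_two d x v r₁ τ₁ r₂ τ₂ hr₁ hr₂ hτ, ← hB₁, ← hB₂,
        ← ENNReal.ofReal_mul (by positivity), ← ENNReal.ofReal_mul (by positivity)]
      congr 1
      ring
    rw [lintegral_congr_ae step, lintegral_const_mul _ (by fun_prop),
      lev_int s hs hs1 ((d : ℝ) / 2) B₂ (by positivity) hB2,
      ← ENNReal.ofReal_mul (by positivity), ← ENNReal.ofReal_mul (by positivity)]
    congr 1
    ring

/-! ## Exchanging the integrals -/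

lemma g_meas (d : ℕ) (x v : V d) : Measurable (fun M : Mat => g d M x v) := by
  unfold g
  have := det_meas
  fun_prop

lemma swap4 (μ ν : Measure ℝ) [SFinite μ] [SFinite ν] (f : (ℝ × ℝ) × (ℝ × ℝ) → ℝ≥0∞)
    (hf : Measurable f) :
    ∫⁻ p₁, ∫⁻ p₂, f (p₁, p₂) ∂(μ.prod ν) ∂(μ.prod ν) =
    ∫⁻ τ₁, ∫⁻ τ₂, ∫⁻ r₁, ∫⁻ r₂, f ((r₁, τ₁), (r₂, τ₂)) ∂μ ∂μ ∂ν ∂ν := by
  rw [lintegral_prod_symm' _ hf.lintegral_prod_right']
  refine lintegral_congr fun τ₁ => ?_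
  have h3 : ∀ r₁ : ℝ, ∫⁻ p₂, f ((r₁, τ₁), p₂) ∂(μ.prod ν) =
      ∫⁻ τ₂, ∫⁻ r₂, f ((r₁, τ₁), (r₂, τ₂)) ∂μ ∂ν := by
    intro r₁
    have hm' : Measurable (fun p₂ : ℝ × ℝ => f ((r₁, τ₁), p₂)) :=
      hf.comp (by fun_prop : Measurable fun p : ℝ × ℝ => ((r₁, τ₁), p))
    exact lintegral_prod_symm' _ hm'
  simp only [h3]
  refine lintegral_lintegral_swap ?_
  refine Measurable.aemeasurable ?_
  have h4 : Measurable (fun q : (ℝ × ℝ) × ℝ => f ((q.1.1, τ₁), (q.2, q.1.2))) :=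
    hf.comp (by fun_prop : Measurable fun q : (ℝ × ℝ) × ℝ => ((q.1.1, τ₁), (q.2, q.1.2)))
  exact h4.lintegral_prod_right'

lemma exchange (d : ℕ) (s t : ℝ) (x v : V d) :
    ∫⁻ p₁, ∫⁻ p₂, ENNReal.ofReal (g d (J p₁ + J p₂) x v) ∂(rho s t) ∂(rho s t) =
    ∫⁻ τ₁ in Icc (0 : ℝ) t, ∫⁻ τ₂ in Icc (0 : ℝ) t,
      ∫⁻ r₁, ∫⁻ r₂, ENNReal.ofReal (g d (J (r₁, τ₁) + J (r₂, τ₂)) x v) ∂(lev s) ∂(lev s) := by
  have hm : Measurable (fun q : (ℝ × ℝ) × (ℝ × ℝ) =>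
      ENNReal.ofReal (g d (J q.1 + J q.2) x v)) := by
    have h1 := g_meas d x v
    have h2 := J_meas
    exact (h1.comp ((h2.comp measurable_fst).add (h2.comp measurable_snd))).ennreal_ofReal
  unfold rho
  exact swap4 (lev s) (volume.restrict (Icc 0 t)) _ hm

/-! ## The double integral over the times -/

/-- projection to `[0,t]` -/
noncomputable def cl (t τ : ℝ) : ℝ := max 0 (min t τ)

lemma cl_cont (t : ℝ) : Continuous (cl t) := by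
  unfold cl; fun_prop

lemma cl_mem (t : ℝ) (ht : 0 < t) (τ : ℝ) : cl t τ ∈ Icc (0 : ℝ) t := by
  unfold cl
  constructor
  · exact le_max_left _ _
  · exact max_le ht.le (min_le_left _ _)

lemma cl_eq (t τ : ℝ) (h : τ ∈ Icc (0 : ℝ) t) : cl t τ = τ := by
  unfold cl
  rw [min_eq_right h.2, max_eq_right h.1]

/-- the continuous integrand -/
noncomputable def G (d : ℕ) (s t : ℝ) (x v : V d) (τ₁ τ₂ : ℝ) : ℝ :=
  |τ₁ - τ₂| ^ ((d : ℝ) + 4 * s) * ‖x - cl t τ₁ • v‖ ^ (-((d : ℝ) + 2 * s)) *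
    ‖x - cl t τ₂ • v‖ ^ (-((d : ℝ) + 2 * s))

lemma G_cont (d : ℕ) (s t : ℝ) (hs : 0 < s) (ht : 0 < t) (x v : V d)
    (h : ∀ τ ∈ Icc (0 : ℝ) t, x ≠ τ • v) : Continuous (Function.uncurry (G d s t x v)) := by
  have hc := cl_cont t
  have hn : ∀ τ : ℝ, ‖x - cl t τ • v‖ ≠ 0 := fun τ =>
    (norm_pos_iff.2 (sub_ne_zero.2 (h _ (cl_mem t ht τ)))).ne'
  unfold G Function.uncurry
  refine ((Continuous.rpow_const (by fun_prop) (fun _ => Or.inr (by positivity))).mul ?_).mul ?_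
  · refine Continuous.rpow_const ?_ (fun q => Or.inl (hn _))
    exact (continuous_const.sub ((hc.comp continuous_fst).smul continuous_const)).norm
  · refine Continuous.rpow_const ?_ (fun q => Or.inl (hn _))
    exact (continuous_const.sub ((hc.comp continuous_snd).smul continuous_const)).norm

lemma G_nonneg (d : ℕ) (s t : ℝ) (x v : V d) (τ₁ τ₂ : ℝ) : 0 ≤ G d s t x v τ₁ τ₂ := by
  unfold G; positivity

lemma G_pos (d : ℕ) (s t : ℝ) (ht : 0 < t) (x v : V d)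
    (h : ∀ τ ∈ Icc (0 : ℝ) t, x ≠ τ • v) (τ₁ τ₂ : ℝ) (hτ : τ₁ ≠ τ₂) : 0 < G d s t x v τ₁ τ₂ := by
  have hn : ∀ τ : ℝ, 0 < ‖x - cl t τ • v‖ := fun τ =>
    norm_pos_iff.2 (sub_ne_zero.2 (h _ (cl_mem t ht τ)))
  have h1 := hn τ₁
  have h2 := hn τ₂
  have hδ : 0 < |τ₁ - τ₂| := abs_pos.2 (sub_ne_zero.2 hτ)
  unfold G; positivity

lemma F_cont (d : ℕ) (s t : ℝ) (hs : 0 < s) (ht : 0 < t) (x v : V d)
    (h : ∀ τ ∈ Icc (0 : ℝ) t, x ≠ τ • v) :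
    Continuous (fun τ₁ => ∫ τ₂ in (0 : ℝ)..t, G d s t x v τ₁ τ₂) :=
  intervalIntegral.continuous_parametric_intervalIntegral_of_continuous' (G_cont d s t hs ht x v h)
    0 t

lemma F_pos (d : ℕ) (s t : ℝ) (hs : 0 < s) (ht : 0 < t) (x v : V d)
    (h : ∀ τ ∈ Icc (0 : ℝ) t, x ≠ τ • v) (τ₁ : ℝ) :
    0 < ∫ τ₂ in (0 : ℝ)..t, G d s t x v τ₁ τ₂ := by
  have hc : Continuous (fun τ₂ => G d s t x v τ₁ τ₂) :=
    (G_cont d s t hs ht x v h).comp (by fun_prop : Continuous fun τ₂ : ℝ => (τ₁, τ₂))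
  refine intervalIntegral.integral_pos ht hc.continuousOn (fun τ₂ _ => G_nonneg d s t x v τ₁ τ₂) ?_
  by_cases h0 : τ₁ = 0
  · exact ⟨t, ⟨ht.le, le_rfl⟩, G_pos d s t ht x v h τ₁ t (by rw [h0]; exact ht.ne)⟩
  · exact ⟨0, ⟨le_rfl, ht.le⟩, G_pos d s t ht x v h τ₁ 0 h0⟩

lemma FF_pos (d : ℕ) (s t : ℝ) (hs : 0 < s) (ht : 0 < t) (x v : V d)
    (h : ∀ τ ∈ Icc (0 : ℝ) t, x ≠ τ • v) :
    0 < ∫ τ₁ in (0 : ℝ)..t, ∫ τ₂ in (0 : ℝ)..t, G d s t x v τ₁ τ₂ :=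
  intervalIntegral.integral_pos ht (F_cont d s t hs ht x v h).continuousOn
    (fun τ₁ _ => (F_pos d s t hs ht x v h τ₁).le) ⟨0, ⟨le_rfl, ht.le⟩, F_pos d s t hs ht x v h 0⟩

lemma H_eq (d : ℕ) (s t : ℝ) (ht : 0 < t) (x v : V d) :
    FK.H d s t x v = 1 / 2 * cds d s ^ 2 *
      ∫ τ₁ in (0 : ℝ)..t, ∫ τ₂ in (0 : ℝ)..t, G d s t x v τ₁ τ₂ := by
  unfold FK.H
  congr 1
  refine intervalIntegral.integral_congr fun τ₁ h1 => ?_
  refine intervalIntegral.integral_congr fun τ₂ h2 => ?_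
  rw [uIcc_of_le ht.le] at h1 h2
  simp only [G, cl_eq t _ h1, cl_eq t _ h2]

lemma lint (f : ℝ → ℝ) (hf : Continuous f) (t : ℝ) (ht : 0 < t)
    (h0 : ∀ τ, 0 ≤ f τ) :
    ∫⁻ τ in Icc (0 : ℝ) t, ENNReal.ofReal (f τ) = ENNReal.ofReal (∫ τ in (0 : ℝ)..t, f τ) := by
  rw [intervalIntegral.integral_of_le ht.le, ← integral_Icc_eq_integral_Ioc,
    ofReal_integral_eq_lintegral_ofReal hf.continuousOn.integrableOn_Icc
      (Eventually.of_forall h0)]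

theorem main : StmtH := by
  intro s t hs hs1 ht d hd x v hxv
  have hd0 : (0 : ℝ) < d := by exact_mod_cast hd
  have hcds : 0 < cds d s := by
    unfold cds
    have h1 := Real.Gamma_pos_of_pos (show 0 < (d : ℝ) / 2 + s by positivity)
    have h2 := Real.Gamma_pos_of_pos (show 0 < 1 - s by linarith)
    positivity
  refine ⟨?_, ?_⟩
  · rw [H_eq d s t ht x v]
    have := FF_pos d s t hs ht x v hxv
    positivity
  · rw [exchange, H_eq d s t ht x v]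
    have h1 : ∀ τ₁ ∈ Icc (0 : ℝ) t, ∫⁻ τ₂ in Icc (0 : ℝ) t, ∫⁻ r₁, ∫⁻ r₂,
        ENNReal.ofReal (g d (J (r₁, τ₁) + J (r₂, τ₂)) x v) ∂(lev s) ∂(lev s) =
        ENNReal.ofReal (cds d s ^ 2 * ∫ τ₂ in (0 : ℝ)..t, G d s t x v τ₁ τ₂) := by
      intro τ₁ hτ₁
      have hc : Continuous (fun τ₂ => G d s t x v τ₁ τ₂) :=
        (G_cont d s t hs ht x v hxv).comp (by fun_prop : Continuous fun τ₂ : ℝ => (τ₁, τ₂))
      rw [← intervalIntegral.integral_const_mul,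
        ← lint (fun τ₂ => cds d s ^ 2 * G d s t x v τ₁ τ₂) (continuous_const.mul hc) t ht
        (fun τ₂ => mul_nonneg (sq_nonneg _) (G_nonneg d s t x v τ₁ τ₂))]
      refine setLIntegral_congr_fun measurableSet_Icc (fun τ₂ hτ₂ => ?_)
      show _ = ENNReal.ofReal (cds d s ^ 2 * G d s t x v τ₁ τ₂)
      rw [two_jumps d hd s hs hs1 x v τ₁ τ₂ (hxv _ hτ₁) (hxv _ hτ₂)]
      unfold G
      rw [cl_eq t _ hτ₁, cl_eq t _ hτ₂]
    rw [setLIntegral_congr_fun measurableSet_Icc h1,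
      lint (fun τ₁ => cds d s ^ 2 * ∫ τ₂ in (0 : ℝ)..t, G d s t x v τ₁ τ₂)
        (continuous_const.mul (F_cont d s t hs ht x v hxv)) t ht
      (fun τ₁ => mul_nonneg (sq_nonneg _) (F_pos d s t hs ht x v hxv τ₁).le),
      intervalIntegral.integral_const_mul, ← ENNReal.ofReal_mul (by norm_num)]
    congr 1
    ring

end Pool.Agent.L0h89.FK.H
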