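import Pool.Agent.L0h89.FK.Tools

/-! # I: two jumps, directions off the cone -/

set_option autoImplicit false

open MeasureTheory Set Filter Topology
open scoped ENNReal RealInnerProductSpace

namespace Pool.Agent.L0h89.FK.I

lemma lev_pos (s : ℝ) : ∀ᵐ r ∂(lev s), 0 < r := by
  unfold lev
  exact (withDensity_absolutelyContinuous _ _).ae_le (ae_restrict_mem measurableSet_Ioi)

lemma rho_ae (s t : ℝ) : ∀ᵐ p ∂(rho s t), 0 < p.1 ∧ p.2 ∈ Icc (0 : ℝ) t := by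
  unfold rho
  filter_upwards [Measure.quasiMeasurePreserving_fst.ae (lev_pos s),
    Measure.quasiMeasurePreserving_snd.ae
      (ae_restrict_mem (μ := volume) (s := Icc (0 : ℝ) t) measurableSet_Icc)] with p h1 h2
  exact ⟨h1, h2⟩

/-! ## The Mecke identity, twice -/

lemma mecke1 {s t : ℝ} {P : Measure Mat} (hP : Law s t P) (hc : ∀ᵐ M ∂P, 0 < M.2.2)
    (h : Mat → ℝ≥0∞) (hh : Measurable h) :
    ∫⁻ M, h M ∂P =
      ∫⁻ M, ∫⁻ p, ENNReal.ofReal (p.1 / (M.2.2 + p.1)) * h (M + J p) ∂(rho s t) ∂P := by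
  have e := hP.mecke (fun M => ENNReal.ofReal (M.2.2⁻¹) * h M) (by fun_prop)
  calc ∫⁻ M, h M ∂P = ∫⁻ M, ENNReal.ofReal M.2.2 * (ENNReal.ofReal (M.2.2⁻¹) * h M) ∂P := by
        refine lintegral_congr_ae ?_
        filter_upwards [hc] with M hM
        rw [← mul_assoc, ← ENNReal.ofReal_mul hM.le, mul_inv_cancel₀ hM.ne', ENNReal.ofReal_one,
          one_mul]
    _ = _ := e
    _ = _ := by
        refine lintegral_congr fun M => ?_
        refine lintegral_congr_ae ?_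
        filter_upwards [rho_ae s t] with p hp
        rw [← mul_assoc, ← ENNReal.ofReal_mul hp.1.le]
        rfl

lemma mecke2 {s t : ℝ} {P : Measure Mat} (hP : Law s t P) (hc : ∀ᵐ M ∂P, 0 < M.2.2)
    (h : Mat → ℝ≥0∞) (hh : Measurable h) :
    ∫⁻ M, h M ∂P =
      ∫⁻ M, ∫⁻ p₂, ∫⁻ p₁, ENNReal.ofReal (p₂.1 / (M.2.2 + p₂.1)) *
        (ENNReal.ofReal (p₁.1 / (M.2.2 + p₂.1 + p₁.1)) * h (M + J p₂ + J p₁))
        ∂(rho s t) ∂(rho s t) ∂P := by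
  have hJ := J_meas
  have hm : Measurable (fun q : Mat × (ℝ × ℝ) =>
      ENNReal.ofReal (q.2.1 / (q.1.2.2 + q.2.1)) * h (q.1 + J q.2)) :=
    (by fun_prop : Measurable fun q : Mat × (ℝ × ℝ) =>
      ENNReal.ofReal (q.2.1 / (q.1.2.2 + q.2.1))).mul
      (hh.comp (measurable_fst.add (hJ.comp measurable_snd)))
  rw [mecke1 hP hc h hh, mecke1 hP hc _ hm.lintegral_prod_right']
  refine lintegral_congr fun M => lintegral_congr fun p₂ => ?_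
  rw [← lintegral_const_mul' _ _ ENNReal.ofReal_ne_top]
  rfl

lemma rho_scale (s t l : ℝ) (hl : 0 < l) (F : ℝ × ℝ → ℝ≥0∞) (hF : Measurable F) :
    ∫⁻ p, F p ∂(rho s t) =
      ENNReal.ofReal (l ^ (-s)) * ∫⁻ p, F (l * p.1, p.2) ∂(rho s t) := by
  unfold rho
  have hF' : Measurable (fun p : ℝ × ℝ => F (l * p.1, p.2)) :=
    hF.comp (by fun_prop : Measurable fun p : ℝ × ℝ => (l * p.1, p.2))
  rw [lintegral_prod_symm' _ hF, lintegral_prod_symm' _ hF', ← lintegral_const_mul' _ _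
    ENNReal.ofReal_ne_top]
  refine lintegral_congr fun τ => ?_
  exact lev_scale s l hl (fun r => F (r, τ)) (hF.comp (by fun_prop : Measurable fun r : ℝ => (r, τ)))

/-! ## Measurability and scaling of the Gaussian density -/

lemma g_meas (d : ℕ) (x v : V d) : Measurable (fun M : Mat => g d M x v) := by
  unfold g
  have := det_meas
  fun_prop

lemma g_scale (d : ℕ) (R : ℝ) (hR : 0 < R) (N : Mat) (hN : 0 ≤ det N) (x v : V d) :
    g d (R ^ 2 • N) (R • x) (R • v) = (R ^ (2 * (d : ℝ)))⁻¹ * g d N x v := by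
  have hdet : det (R ^ 2 • N) = R ^ 4 * det N := by
    simp [det]; ring
  have h1 : (R ^ 4 * det N) ^ (-((d : ℝ) / 2)) =
      (R ^ (2 * (d : ℝ)))⁻¹ * det N ^ (-((d : ℝ) / 2)) := by
    rw [Real.mul_rpow (by positivity) hN]
    congr 1
    rw [← Real.rpow_natCast, ← Real.rpow_mul hR.le, ← Real.rpow_neg hR.le]
    congr 1
    push_cast
    ring
  unfold g
  rw [hdet, h1, inner_smul_left, inner_smul_right, norm_smul, norm_smul, mul_pow, mul_pow,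
    Real.norm_eq_abs, sq_abs]
  have h2 : ((R ^ 2 • N).2.2 * (R ^ 2 * ‖x‖ ^ 2) -
      2 * (R ^ 2 • N).2.1 * ((starRingEnd ℝ) R * (R * ⟪x, v⟫)) +
      (R ^ 2 • N).1 * (R ^ 2 * ‖v‖ ^ 2)) / (4 * (R ^ 4 * det N)) =
      (N.2.2 * ‖x‖ ^ 2 - 2 * N.2.1 * ⟪x, v⟫ + N.1 * ‖v‖ ^ 2) / (4 * det N) := by
    have h3 : ((R ^ 2 • N).2.2 * (R ^ 2 * ‖x‖ ^ 2) -
      2 * (R ^ 2 • N).2.1 * ((starRingEnd ℝ) R * (R * ⟪x, v⟫)) +
      (R ^ 2 • N).1 * (R ^ 2 * ‖v‖ ^ 2)) =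
        R ^ 4 * (N.2.2 * ‖x‖ ^ 2 - 2 * N.2.1 * ⟪x, v⟫ + N.1 * ‖v‖ ^ 2) := by
      simp
      ring
    rw [h3, show 4 * (R ^ 4 * det N) = R ^ 4 * (4 * det N) by ring,
      mul_div_mul_left _ _ (by positivity)]
  rw [h2]
  ring


/-- the integrand after scaling -/
noncomputable def Wg (d : ℕ) (q : ℝ × (V d × V d)) (a : Mat × ((ℝ × ℝ) × (ℝ × ℝ))) : ℝ :=
  (a.2.1.1 / (a.1.2.2 / q.1 ^ 2 + a.2.1.1)) *
    (a.2.2.1 / (a.1.2.2 / q.1 ^ 2 + a.2.1.1 + a.2.2.1)) *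
    g d ((q.1 ^ 2)⁻¹ • a.1 + J a.2.1 + J a.2.2) q.2.1 q.2.2

lemma Wg_meas (d : ℕ) (q : ℝ × (V d × V d)) : Measurable (Wg d q) := by
  have hJ := J_meas
  have h1 : Measurable (fun a : Mat × ((ℝ × ℝ) × (ℝ × ℝ)) =>
      (q.1 ^ 2)⁻¹ • a.1 + J a.2.1 + J a.2.2) :=
    ((by fun_prop : Measurable fun a : Mat × ((ℝ × ℝ) × (ℝ × ℝ)) => (q.1 ^ 2)⁻¹ • a.1).add
      (hJ.comp (by fun_prop))).add (hJ.comp (by fun_prop))
  unfold Wg
  exact (by fun_prop : Measurable fun a : Mat × ((ℝ × ℝ) × (ℝ × ℝ)) =>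
    (a.2.1.1 / (a.1.2.2 / q.1 ^ 2 + a.2.1.1)) *
    (a.2.2.1 / (a.1.2.2 / q.1 ^ 2 + a.2.1.1 + a.2.2.1))).mul
    ((g_meas d q.2.1 q.2.2).comp h1)

/-- the integrand before scaling -/
noncomputable def Fn (d : ℕ) (X Y : V d) (a : Mat × ((ℝ × ℝ) × (ℝ × ℝ))) : ℝ≥0∞ :=
  ENNReal.ofReal (a.2.1.1 / (a.1.2.2 + a.2.1.1)) *
    (ENNReal.ofReal (a.2.2.1 / (a.1.2.2 + a.2.1.1 + a.2.2.1)) *
      ENNReal.ofReal (g d (a.1 + J a.2.1 + J a.2.2) X Y))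

lemma Fn_meas (d : ℕ) (X Y : V d) : Measurable (Fn d X Y) := by
  have hJ := J_meas
  have h1 : Measurable (fun a : Mat × ((ℝ × ℝ) × (ℝ × ℝ)) => a.1 + J a.2.1 + J a.2.2) :=
    (measurable_fst.add (hJ.comp (by fun_prop))).add (hJ.comp (by fun_prop))
  unfold Fn
  exact (by fun_prop : Measurable fun a : Mat × ((ℝ × ℝ) × (ℝ × ℝ)) =>
    ENNReal.ofReal (a.2.1.1 / (a.1.2.2 + a.2.1.1))).mul
    ((by fun_prop : Measurable fun a : Mat × ((ℝ × ℝ) × (ℝ × ℝ)) =>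
    ENNReal.ofReal (a.2.2.1 / (a.1.2.2 + a.2.1.1 + a.2.2.1))).mul
    ((g_meas d X Y).comp h1).ennreal_ofReal)

lemma J_smul (l : ℝ) (p : ℝ × ℝ) : J (l * p.1, p.2) = l • J p := by
  unfold J
  ext <;> simp <;> ring

lemma smul_mem_cone {t : ℝ} {l : ℝ} (hl : 0 ≤ l) {M : Mat} (h : M ∈ cone t) : l • M ∈ cone t := by
  obtain ⟨h1, h2, h3, h4, h5⟩ := h
  refine ⟨?_, ?_, ?_, ?_, ?_⟩
  · simp; positivity
  · simp; nlinarith
  · simp; positivity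
  · simp; nlinarith
  · simp; nlinarith [sq_nonneg l]

lemma sum_cone {t : ℝ} (ht : 0 < t) {l : ℝ} (hl : 0 ≤ l) {M : Mat} (h : M ∈ cone t) {p₁ p₂ : ℝ × ℝ}
    (h1 : 0 < p₁.1 ∧ p₁.2 ∈ Icc (0 : ℝ) t) (h2 : 0 < p₂.1 ∧ p₂.2 ∈ Icc (0 : ℝ) t) :
    l • M + J p₂ + J p₁ ∈ cone t :=
  add_mem_cone ht (add_mem_cone ht (smul_mem_cone hl h)
    (J_mem_cone h2.1.le h2.2.1 h2.2.2)) (J_mem_cone h1.1.le h1.2.1 h1.2.2)

lemma Fn_scale {t : ℝ} (ht : 0 < t) (d : ℕ) (R : ℝ) (hR : 0 < R) (x v : V d) (M : Mat)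
    (hM : M ∈ cone t) (p₁ p₂ : ℝ × ℝ)
    (h1 : 0 < p₁.1 ∧ p₁.2 ∈ Icc (0 : ℝ) t) (h2 : 0 < p₂.1 ∧ p₂.2 ∈ Icc (0 : ℝ) t) :
    Fn d (R • x) (R • v) (M, ((R ^ 2 * p₂.1, p₂.2), (R ^ 2 * p₁.1, p₁.2))) =
      ENNReal.ofReal ((R ^ (2 * (d : ℝ)))⁻¹) * ENNReal.ofReal (Wg d (R, (x, v)) (M, (p₂, p₁))) := by
  have hc := c_nonneg ht hM
  have hR2 : 0 < R ^ 2 := by positivity
  have hN := sum_cone ht (inv_nonneg.2 hR2.le) hM h1 h2
  have e1 : M + J (R ^ 2 * p₂.1, p₂.2) + J (R ^ 2 * p₁.1, p₁.2) =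
      R ^ 2 • ((R ^ 2)⁻¹ • M + J p₂ + J p₁) := by
    rw [J_smul, J_smul, smul_add, smul_add, smul_smul, mul_inv_cancel₀ hR2.ne', one_smul]
  have e2 : R ^ 2 * p₂.1 / (M.2.2 + R ^ 2 * p₂.1) = p₂.1 / (M.2.2 / R ^ 2 + p₂.1) := by
    have : M.2.2 + R ^ 2 * p₂.1 = R ^ 2 * (M.2.2 / R ^ 2 + p₂.1) := by
      field_simp
    rw [this, mul_div_mul_left _ _ hR2.ne']
  have e3 : R ^ 2 * p₁.1 / (M.2.2 + R ^ 2 * p₂.1 + R ^ 2 * p₁.1) =
      p₁.1 / (M.2.2 / R ^ 2 + p₂.1 + p₁.1) := by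
    have : M.2.2 + R ^ 2 * p₂.1 + R ^ 2 * p₁.1 = R ^ 2 * (M.2.2 / R ^ 2 + p₂.1 + p₁.1) := by
      field_simp
    rw [this, mul_div_mul_left _ _ hR2.ne']
  have q1 := h1.1
  have q2 := h2.1
  unfold Fn Wg
  simp only []
  rw [e1, e2, e3, g_scale d R hR _ (det_nonneg hN), ← ENNReal.ofReal_mul (by positivity),
    ← ENNReal.ofReal_mul (by positivity), ← ENNReal.ofReal_mul (by positivity)]
  congr 1
  ring

lemma key {s t : ℝ} (ht : 0 < t) {P : Measure Mat} (hP : Law s t P)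
    (hc : ∀ᵐ M ∂P, 0 < M.2.2) (d : ℕ) (R : ℝ) (hR : 0 < R) (x v : V d) :
    ENNReal.ofReal (R ^ (2 * (d : ℝ) + 4 * s)) *
      ∫⁻ M, ENNReal.ofReal (g d M (R • x) (R • v)) ∂P =
    ∫⁻ a, ENNReal.ofReal (Wg d (R, (x, v)) a) ∂(P.prod ((rho s t).prod (rho s t))) := by
  have := hP.prob
  have hFm := Fn_meas d (R • x) (R • v)
  have hWm := (Wg_meas d (R, (x, v))).ennreal_ofReal
  have hR2 : 0 < R ^ 2 := by positivity
  rw [lintegral_prod _ hWm.aemeasurable,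
    mecke2 hP hc (fun M => ENNReal.ofReal (g d M (R • x) (R • v))) (g_meas d _ _).ennreal_ofReal,
    ← lintegral_const_mul' _ _ ENNReal.ofReal_ne_top]
  refine lintegral_congr_ae ?_
  filter_upwards [hP.supp] with M hM
  have hWM : Measurable (fun p : (ℝ × ℝ) × (ℝ × ℝ) =>
      ENNReal.ofReal (Wg d (R, (x, v)) (M, p))) :=
    hWm.comp (by fun_prop : Measurable fun p : (ℝ × ℝ) × (ℝ × ℝ) => (M, p))
  have hFM : Measurable (fun p : (ℝ × ℝ) × (ℝ × ℝ) => Fn d (R • x) (R • v) (M, p)) :=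
    hFm.comp (by fun_prop : Measurable fun p : (ℝ × ℝ) × (ℝ × ℝ) => (M, p))
  rw [lintegral_prod _ hWM.aemeasurable]
  have e1 : ∫⁻ p₂, ∫⁻ p₁, ENNReal.ofReal (p₂.1 / (M.2.2 + p₂.1)) *
        (ENNReal.ofReal (p₁.1 / (M.2.2 + p₂.1 + p₁.1)) *
          ENNReal.ofReal (g d (M + J p₂ + J p₁) (R • x) (R • v))) ∂(rho s t) ∂(rho s t) =
      ENNReal.ofReal ((R ^ 2) ^ (-s)) * ∫⁻ p₂, (ENNReal.ofReal ((R ^ 2) ^ (-s)) *
        ∫⁻ p₁, Fn d (R • x) (R • v) (M, ((R ^ 2 * p₂.1, p₂.2), (R ^ 2 * p₁.1, p₁.2)))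
          ∂(rho s t)) ∂(rho s t) := by
    rw [rho_scale s t (R ^ 2) hR2 (fun p₂ => ∫⁻ p₁, ENNReal.ofReal (p₂.1 / (M.2.2 + p₂.1)) *
        (ENNReal.ofReal (p₁.1 / (M.2.2 + p₂.1 + p₁.1)) *
          ENNReal.ofReal (g d (M + J p₂ + J p₁) (R • x) (R • v))) ∂(rho s t))
        hFM.lintegral_prod_right']
    congr 1
    refine lintegral_congr fun p₂ => ?_
    rw [rho_scale s t (R ^ 2) hR2 (fun p₁ => ENNReal.ofReal (R ^ 2 * p₂.1 /
        (M.2.2 + R ^ 2 * p₂.1)) *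
        (ENNReal.ofReal (p₁.1 / (M.2.2 + R ^ 2 * p₂.1 + p₁.1)) *
          ENNReal.ofReal (g d (M + J (R ^ 2 * p₂.1, p₂.2) + J p₁) (R • x) (R • v))))
      (hFM.comp (by fun_prop : Measurable fun p : ℝ × ℝ => ((R ^ 2 * p₂.1, p₂.2), p)))]
    rfl
  rw [e1, ← lintegral_const_mul' _ _ ENNReal.ofReal_ne_top,
    ← lintegral_const_mul' _ _ ENNReal.ofReal_ne_top]
  refine lintegral_congr_ae ?_
  filter_upwards [rho_ae s t] with p₂ hp₂
  rw [← lintegral_const_mul' _ _ ENNReal.ofReal_ne_top,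
    ← lintegral_const_mul' _ _ ENNReal.ofReal_ne_top,
    ← lintegral_const_mul' _ _ ENNReal.ofReal_ne_top]
  refine lintegral_congr_ae ?_
  filter_upwards [rho_ae s t] with p₁ hp₁
  rw [Fn_scale ht d R hR x v M hM p₁ p₂ hp₁ hp₂, ← mul_assoc, ← mul_assoc, ← mul_assoc,
    ← ENNReal.ofReal_mul (by positivity), ← ENNReal.ofReal_mul (by positivity),
    ← ENNReal.ofReal_mul (by positivity)]
  have e2 : R ^ (2 * (d : ℝ) + 4 * s) * (R ^ 2) ^ (-s) * (R ^ 2) ^ (-s) *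
      (R ^ (2 * (d : ℝ)))⁻¹ = 1 := by
    rw [← Real.rpow_natCast R 2, ← Real.rpow_mul hR.le, ← Real.rpow_neg hR.le,
      ← Real.rpow_add hR, ← Real.rpow_add hR, ← Real.rpow_add hR]
    have : 2 * (d : ℝ) + 4 * s + ((2 : ℕ) : ℝ) * -s + ((2 : ℕ) : ℝ) * -s + -(2 * (d : ℝ)) = 0 := by
      push_cast; ring
    rw [this, Real.rpow_zero]
  rw [e2, ENNReal.ofReal_one, one_mul]

/-! ## The bound -/

/-- the Gaussian density is small when `θ` is small -/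
lemma g_bound {t : ℝ} (ht : 0 < t) (d : ℕ) (m : ℝ) (hm : 0 < m) : ∃ C : ℝ, 0 < C ∧
    ∀ N : Mat, N ∈ cone t → 0 < det N → ∀ x v : V d, (∀ τ ∈ Icc (0 : ℝ) t, m ≤ ‖x - τ • v‖ ^ 2) →
      g d N x v ≤ C * min 1 (th N) ^ 2 := by
  obtain ⟨C, hC, hCx⟩ := exp_le_rpow ((d : ℝ) + 2) (by positivity)
  refine ⟨(4 * Real.pi) ^ (-(d : ℝ)) * t ^ (d : ℝ) * (1 + C * (m / 4) ^ (-((d : ℝ) + 2))),
    by positivity, fun N hN hd x v hx => ?_⟩
  have hc := c_pos ht hN hd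
  have hθ := th_pos ht hN hd
  have hθt := th_le ht hN hd
  obtain ⟨θ, hθd⟩ : ∃ θ, θ = th N := ⟨_, rfl⟩
  rw [← hθd] at hθ hθt ⊢
  have hdet : det N = θ * N.2.2 := by
    rw [hθd]; unfold th; field_simp
  -- the exponent
  have hβ : N.2.1 / N.2.2 ∈ Icc (0 : ℝ) t := by
    obtain ⟨h1, h2, h3, h4, h5⟩ := hN
    exact ⟨div_nonneg h1 hc.le, by rw [div_le_iff₀ hc]; exact h2⟩
  have hnum : N.2.2 * m ≤ N.2.2 * ‖x‖ ^ 2 - 2 * N.2.1 * ⟪x, v⟫ + N.1 * ‖v‖ ^ 2 := by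
    have h1 := hx _ hβ
    have h2 : N.2.2 * ‖x‖ ^ 2 - 2 * N.2.1 * ⟪x, v⟫ + N.1 * ‖v‖ ^ 2 =
        N.2.2 * ‖x - (N.2.1 / N.2.2) • v‖ ^ 2 + θ * ‖v‖ ^ 2 := by
      rw [norm_sub_sq_real, inner_smul_right, norm_smul, mul_pow, Real.norm_eq_abs, sq_abs, hθd]
      unfold th det
      field_simp
      ring
    rw [h2]
    have h3 := mul_le_mul_of_nonneg_left h1 hc.le
    have h4 : 0 ≤ θ * ‖v‖ ^ 2 := by positivity
    linarith
  have hexp : Real.exp (-((N.2.2 * ‖x‖ ^ 2 - 2 * N.2.1 * ⟪x, v⟫ + N.1 * ‖v‖ ^ 2) / (4 * det N))) ≤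
      Real.exp (-(m / 4 / θ)) := by
    apply Real.exp_le_exp.2
    apply neg_le_neg
    rw [hdet]
    calc m / 4 / θ = (N.2.2 * m) / (4 * (θ * N.2.2)) := by field_simp
      _ ≤ _ := div_le_div_of_nonneg_right hnum (by positivity)
  have hpow : det N ^ (-((d : ℝ) / 2)) ≤ t ^ (d : ℝ) * θ ^ (-(d : ℝ)) := by
    have h1 : (θ / t) ^ 2 ≤ det N := by
      rw [hdet, div_pow, div_le_iff₀ (by positivity)]
      calc θ ^ 2 = θ * θ := by ring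
        _ ≤ θ * (t ^ 2 * N.2.2) := mul_le_mul_of_nonneg_left hθt hθ.le
        _ = _ := by ring
    calc det N ^ (-((d : ℝ) / 2)) ≤ ((θ / t) ^ 2) ^ (-((d : ℝ) / 2)) :=
          Real.rpow_le_rpow_of_nonpos (by positivity) h1 (by
            have : (0 : ℝ) ≤ d := by positivity
            linarith)
      _ = t ^ (d : ℝ) * θ ^ (-(d : ℝ)) := by
          rw [← Real.rpow_natCast (θ / t) 2, ← Real.rpow_mul (by positivity)]
          have : ((2 : ℕ) : ℝ) * (-((d : ℝ) / 2)) = -(d : ℝ) := by push_cast; ring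
          rw [this, Real.div_rpow hθ.le ht.le, Real.rpow_neg ht.le, div_inv_eq_mul, mul_comm]
  have hsmall : θ ^ (-(d : ℝ)) * Real.exp (-(m / 4 / θ)) ≤
      (1 + C * (m / 4) ^ (-((d : ℝ) + 2))) * min 1 θ ^ 2 := by
    have hC' : 0 ≤ C * (m / 4) ^ (-((d : ℝ) + 2)) := by positivity
    rcases le_total 1 θ with h | h
    · rw [min_eq_left h]
      have h1 : θ ^ (-(d : ℝ)) ≤ 1 := Real.rpow_le_one_of_one_le_of_nonpos h (by
        have : (0 : ℝ) ≤ d := by positivity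
        linarith)
      have h2 : Real.exp (-(m / 4 / θ)) ≤ 1 := Real.exp_le_one_iff.2 (by
        have : 0 ≤ m / 4 / θ := by positivity
        linarith)
      have h3 : 0 ≤ θ ^ (-(d : ℝ)) := by positivity
      have h4 : 0 < Real.exp (-(m / 4 / θ)) := Real.exp_pos _
      nlinarith
    · rw [min_eq_right h]
      have h1 := hCx (m / 4 / θ) (by positivity)
      have h2 : (m / 4 / θ) ^ (-((d : ℝ) + 2)) = (m / 4) ^ (-((d : ℝ) + 2)) * θ ^ ((d : ℝ) + 2) := by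
        rw [Real.div_rpow (by positivity) hθ.le, Real.rpow_neg hθ.le, div_inv_eq_mul]
      rw [h2] at h1
      have h3 : 0 ≤ θ ^ (-(d : ℝ)) := by positivity
      have h4 : θ ^ (-(d : ℝ)) * θ ^ ((d : ℝ) + 2) = θ ^ 2 := by
        rw [← Real.rpow_add hθ, ← Real.rpow_natCast]
        congr 1; push_cast; ring
      calc θ ^ (-(d : ℝ)) * Real.exp (-(m / 4 / θ)) ≤
            θ ^ (-(d : ℝ)) * (C * ((m / 4) ^ (-((d : ℝ) + 2)) * θ ^ ((d : ℝ) + 2))) :=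
            mul_le_mul_of_nonneg_left h1 h3
        _ = C * (m / 4) ^ (-((d : ℝ) + 2)) * (θ ^ (-(d : ℝ)) * θ ^ ((d : ℝ) + 2)) := by ring
        _ = C * (m / 4) ^ (-((d : ℝ) + 2)) * θ ^ 2 := by rw [h4]
        _ ≤ _ := by nlinarith [sq_nonneg θ]
  unfold g
  have hdp : 0 ≤ det N ^ (-((d : ℝ) / 2)) := by positivity
  calc (4 * Real.pi) ^ (-(d : ℝ)) * det N ^ (-((d : ℝ) / 2)) *
        Real.exp (-((N.2.2 * ‖x‖ ^ 2 - 2 * N.2.1 * ⟪x, v⟫ + N.1 * ‖v‖ ^ 2) / (4 * det N))) ≤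
      (4 * Real.pi) ^ (-(d : ℝ)) * (t ^ (d : ℝ) * θ ^ (-(d : ℝ))) * Real.exp (-(m / 4 / θ)) :=
        mul_le_mul (mul_le_mul_of_nonneg_left hpow (by positivity)) hexp (Real.exp_pos _).le
          (by positivity)
    _ = (4 * Real.pi) ^ (-(d : ℝ)) * t ^ (d : ℝ) * (θ ^ (-(d : ℝ)) * Real.exp (-(m / 4 / θ))) := by
        ring
    _ ≤ (4 * Real.pi) ^ (-(d : ℝ)) * t ^ (d : ℝ) *
        ((1 + C * (m / 4) ^ (-((d : ℝ) + 2))) * min 1 θ ^ 2) :=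
        mul_le_mul_of_nonneg_left hsmall (by positivity)
    _ = _ := by ring

lemma frac_le {q c e : ℝ} (hq : 0 < q) (_hc : 0 ≤ c) (he : 0 ≤ e) (h1 : 1 ≤ c) :
    q / (c + e + q) ≤ min 1 q := by
  apply le_min
  · rw [div_le_one (by positivity)]; linarith
  · rw [div_le_iff₀ (by positivity)]; nlinarith [mul_nonneg hq.le he, mul_nonneg hq.le hq.le]

lemma frac_le' {q c e : ℝ} (hq : 0 < q) (hc : 0 ≤ c) (he : 0 ≤ e) (h1 : c ≤ 1) :
    q / (c + e + q) * c ≤ min 1 q := by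
  have h2 : q / (c + e + q) ≤ 1 := by rw [div_le_one (by positivity)]; linarith
  have h3 : 0 ≤ q / (c + e + q) := by positivity
  apply le_min
  · nlinarith
  · rw [div_mul_eq_mul_div, div_le_iff₀ (by positivity)]
    nlinarith [mul_nonneg hq.le he, mul_nonneg hq.le hq.le]

lemma min_le_mul {θ q T : ℝ} (hT : 1 ≤ T) (hq : 0 < q) (h : θ ≤ T * q) :
    min 1 θ ≤ T * min 1 q := by
  rcases le_total 1 q with h1 | h1
  · rw [min_eq_left h1]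
    exact (min_le_left _ _).trans (by linarith)
  · rw [min_eq_right h1]
    exact (min_le_right _ _).trans h

/-- the weight compensates -/
lemma weight (t c q₁ q₂ θ : ℝ) (hc : 0 ≤ c) (h1 : 0 < q₁) (h2 : 0 < q₂) (hθ : 0 < θ)
    (hθ1 : θ ≤ t ^ 2 * (c + q₁)) (hθ2 : θ ≤ t ^ 2 * (c + q₂)) :
    (q₂ / (c + q₂)) * (q₁ / (c + q₂ + q₁)) * min 1 θ ^ 2 ≤
      4 * (1 + t ^ 2) ^ 2 * (min 1 q₂ * min 1 q₁) := by
  obtain ⟨T, hT⟩ : ∃ T, T = 1 + t ^ 2 := ⟨_, rfl⟩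
  rw [← hT]
  have hT1 : 1 ≤ T := by rw [hT]; nlinarith [sq_nonneg t]
  have htT : t ^ 2 ≤ T := by rw [hT]; linarith
  have hm1 : 0 < min 1 q₁ := lt_min one_pos h1
  have hm2 : 0 < min 1 q₂ := lt_min one_pos h2
  have hmθ : 0 < min 1 θ := lt_min one_pos hθ
  have hmθ1 : min 1 θ ≤ 1 := min_le_left _ _
  have hT4 : 1 ≤ 4 * T ^ 2 := by nlinarith
  have w1 : 0 ≤ q₁ / (c + q₂ + q₁) := by positivity
  have w2 : 0 ≤ q₂ / (c + q₂) := by positivity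
  have w1' : q₁ / (c + q₂ + q₁) ≤ 1 := by rw [div_le_one (by positivity)]; linarith
  have w2' : q₂ / (c + q₂) ≤ 1 := by rw [div_le_one (by positivity)]; linarith
  have e2 : q₂ / (c + q₂) = q₂ / (c + 0 + q₂) := by rw [add_zero]
  rcases le_total 1 c with hc1 | hc1
  · have a1 := frac_le h1 hc h2.le hc1
    have a2 := frac_le h2 hc le_rfl hc1
    rw [← e2] at a2
    calc (q₂ / (c + q₂)) * (q₁ / (c + q₂ + q₁)) * min 1 θ ^ 2 ≤
          (q₂ / (c + q₂)) * (q₁ / (c + q₂ + q₁)) * 1 := by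
            apply mul_le_mul_of_nonneg_left _ (by positivity)
            nlinarith
      _ ≤ min 1 q₂ * min 1 q₁ := by
            rw [mul_one]; exact mul_le_mul a2 a1 w1 hm2.le
      _ ≤ _ := by nlinarith [mul_pos hm2 hm1]
  · by_cases hcase : c < q₁ ∧ c < q₂
    · have b1 : min 1 θ ≤ (2 * T) * min 1 q₁ := min_le_mul (by linarith) h1 (by
        nlinarith [hcase.1])
      have b2 : min 1 θ ≤ (2 * T) * min 1 q₂ := min_le_mul (by linarith) h2 (by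
        nlinarith [hcase.2])
      calc (q₂ / (c + q₂)) * (q₁ / (c + q₂ + q₁)) * min 1 θ ^ 2 ≤ 1 * min 1 θ ^ 2 := by
            apply mul_le_mul_of_nonneg_right _ (by positivity)
            nlinarith
        _ = min 1 θ * min 1 θ := by ring
        _ ≤ ((2 * T) * min 1 q₂) * ((2 * T) * min 1 q₁) :=
            mul_le_mul b2 b1 hmθ.le (by positivity)
        _ = _ := by ring
    · have hθc : θ ≤ 2 * T * c := by
        rw [not_and_or, not_lt, not_lt] at hcase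
        rcases hcase with h | h
        · nlinarith
        · nlinarith
      have b : min 1 θ ≤ 2 * T * c := (min_le_right _ _).trans hθc
      have a1 := frac_le' h1 hc h2.le hc1
      have a2 := frac_le' h2 hc le_rfl hc1
      rw [← e2] at a2
      calc (q₂ / (c + q₂)) * (q₁ / (c + q₂ + q₁)) * min 1 θ ^ 2 ≤
            (q₂ / (c + q₂)) * (q₁ / (c + q₂ + q₁)) * (2 * T * c) ^ 2 := by
              apply mul_le_mul_of_nonneg_left _ (by positivity)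
              exact pow_le_pow_left₀ hmθ.le b 2
        _ = 4 * T ^ 2 * ((q₂ / (c + q₂) * c) * (q₁ / (c + q₂ + q₁) * c)) := by ring
        _ ≤ 4 * T ^ 2 * (min 1 q₂ * min 1 q₁) := by
              apply mul_le_mul_of_nonneg_left _ (by positivity)
              exact mul_le_mul a2 a1 (by positivity) hm2.le

lemma det_pos_add {t : ℝ} (ht : 0 < t) {M : Mat} (h : M ∈ cone t) (hd : 0 < det M) {p : ℝ × ℝ}
    (hp : 0 < p.1) : 0 < det (M + J p) := by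
  have := det_add_J M p.1 p.2
  rw [Prod.mk.eta] at this
  rw [this]
  have := Q_pos ht h hd p.2
  have := hp
  positivity

lemma Q_cone {t τ : ℝ} (ht : 0 < t) (h0 : 0 ≤ τ) (h1 : τ ≤ t) {M : Mat} (h : M ∈ cone t) :
    Q τ M ≤ t ^ 2 * M.2.2 := by
  have hc := c_nonneg ht h
  obtain ⟨k1, k2, k3, k4, k5⟩ := h
  unfold Q
  have e1 : M.1 - 2 * τ * M.2.1 + τ ^ 2 * M.2.2 ≤ (t - 2 * τ) * M.2.1 + τ ^ 2 * M.2.2 := by
    linarith
  refine e1.trans ?_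
  rcases le_total (2 * τ) t with h2 | h2
  · have : (t - 2 * τ) * M.2.1 ≤ (t - 2 * τ) * (t * M.2.2) :=
      mul_le_mul_of_nonneg_left k2 (by linarith)
    nlinarith [mul_nonneg (mul_nonneg h0 (by linarith : 0 ≤ 2 * t - τ)) hc]
  · have : (t - 2 * τ) * M.2.1 ≤ 0 := mul_nonpos_of_nonpos_of_nonneg (by linarith) k1
    nlinarith [mul_nonneg (mul_nonneg (sub_nonneg.2 h1) (by linarith : 0 ≤ t + τ)) hc]

lemma Q_jump {t τ : ℝ} (h0 : 0 ≤ τ) (h1 : τ ≤ t) {p : ℝ × ℝ} (hp : 0 < p.1 ∧ p.2 ∈ Icc (0 : ℝ) t) :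
    Q τ (J p) ≤ t ^ 2 * p.1 := by
  have := Q_J τ p.1 p.2
  rw [Prod.mk.eta] at this
  rw [this, mul_comm]
  apply mul_le_mul_of_nonneg_right _ hp.1.le
  have := hp.2.1
  have := hp.2.2
  exact sq_le_sq' (by linarith) (by linarith)

lemma Q_jump_self (p : ℝ × ℝ) : Q p.2 (J p) = 0 := by
  have := Q_J p.2 p.1 p.2
  rw [Prod.mk.eta] at this
  rw [this]; ring

lemma Wg_bound {t : ℝ} (ht : 0 < t) (d : ℕ) (m : ℝ) (hm : 0 < m) : ∃ C : ℝ, 0 < C ∧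
    ∀ q : ℝ × (V d × V d), 0 < q.1 → (∀ τ ∈ Icc (0 : ℝ) t, m ≤ ‖q.2.1 - τ • q.2.2‖ ^ 2) →
    ∀ M : Mat, M ∈ cone t → 0 < det M → ∀ p₂ p₁ : ℝ × ℝ, (0 < p₂.1 ∧ p₂.2 ∈ Icc (0 : ℝ) t) →
      (0 < p₁.1 ∧ p₁.2 ∈ Icc (0 : ℝ) t) →
      Wg d q (M, (p₂, p₁)) ≤ C * (min 1 p₂.1 * min 1 p₁.1) := by
  obtain ⟨C, hC, hb⟩ := g_bound ht d m hm
  refine ⟨C * (4 * (1 + t ^ 2) ^ 2), by positivity, fun q hq hx M hM hd p₂ p₁ h2 h1 => ?_⟩
  have hR2 : 0 < q.1 ^ 2 := by positivity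
  have hc := c_nonneg ht hM
  obtain ⟨l, hl⟩ : ∃ l, l = (q.1 ^ 2)⁻¹ := ⟨_, rfl⟩
  have hl0 : 0 < l := by rw [hl]; positivity
  obtain ⟨M', hM'⟩ : ∃ M', M' = l • M := ⟨_, rfl⟩
  have hM'c : M' ∈ cone t := by rw [hM']; exact smul_mem_cone hl0.le hM
  have hd' : 0 < det M' := by
    have : det M' = l ^ 2 * det M := by rw [hM']; simp [det]; ring
    rw [this]; positivity
  obtain ⟨c', hc'⟩ : ∃ c', c' = M.2.2 / q.1 ^ 2 := ⟨_, rfl⟩
  have hc'0 : 0 ≤ c' := by rw [hc']; positivity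
  have hc'M : M'.2.2 = c' := by rw [hM', hc', hl, div_eq_inv_mul]; rfl
  obtain ⟨N, hN⟩ : ∃ N, N = M' + J p₂ + J p₁ := ⟨_, rfl⟩
  have hJ2 : J p₂ ∈ cone t := J_mem_cone h2.1.le h2.2.1 h2.2.2
  have hJ1 : J p₁ ∈ cone t := J_mem_cone h1.1.le h1.2.1 h1.2.2
  have hd2 : 0 < det (M' + J p₂) := det_pos_add ht hM'c hd' h2.1
  have hNc : N ∈ cone t := by rw [hN]; exact add_mem_cone ht (add_mem_cone ht hM'c hJ2) hJ1
  have hNd : 0 < det N := by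
    rw [hN]; exact det_pos_add ht (add_mem_cone ht hM'c hJ2) hd2 h1.1
  have hθ := th_pos ht hNc hNd
  have hθ1 : th N ≤ t ^ 2 * (c' + p₁.1) := by
    refine (th_le_Q ht hNc hNd p₂.2).trans ?_
    rw [hN, Q_add, Q_add, Q_jump_self]
    have a1 := Q_cone ht h2.2.1 h2.2.2 hM'c
    have a2 := Q_jump h2.2.1 h2.2.2 h1
    rw [hc'M] at a1
    linarith
  have hθ2 : th N ≤ t ^ 2 * (c' + p₂.1) := by
    refine (th_le_Q ht hNc hNd p₁.2).trans ?_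
    rw [hN, Q_add, Q_add, Q_jump_self]
    have a1 := Q_cone ht h1.2.1 h1.2.2 hM'c
    have a2 := Q_jump h1.2.1 h1.2.2 h2
    rw [hc'M] at a1
    linarith
  have hw := weight t c' p₁.1 p₂.1 (th N) hc'0 h1.1 h2.1 hθ hθ1 hθ2
  have hg := hb N hNc hNd q.2.1 q.2.2 hx
  have e : Wg d q (M, (p₂, p₁)) = (p₂.1 / (c' + p₂.1)) * (p₁.1 / (c' + p₂.1 + p₁.1)) *
      g d N q.2.1 q.2.2 := by
    unfold Wg
    rw [hN, hM', hl, hc']
  have q1 := h1.1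
  have q2 := h2.1
  rw [e]
  calc (p₂.1 / (c' + p₂.1)) * (p₁.1 / (c' + p₂.1 + p₁.1)) * g d N q.2.1 q.2.2 ≤
        (p₂.1 / (c' + p₂.1)) * (p₁.1 / (c' + p₂.1 + p₁.1)) * (C * min 1 (th N) ^ 2) :=
        mul_le_mul_of_nonneg_left hg (by positivity)
    _ = C * ((p₂.1 / (c' + p₂.1)) * (p₁.1 / (c' + p₂.1 + p₁.1)) * min 1 (th N) ^ 2) := by ring
    _ ≤ C * (4 * (1 + t ^ 2) ^ 2 * (min 1 p₂.1 * min 1 p₁.1)) :=
        mul_le_mul_of_nonneg_left hw hC.le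
    _ = _ := by ring

/-! ## Integrability of the bound -/

lemma lev_min (s : ℝ) (hs : 0 < s) (hs1 : s < 1) :
    ∫⁻ r, ENNReal.ofReal (min 1 r) ∂(lev s) < ∞ := by
  rw [lintegral_lev]
  have hk := kap_pos hs hs1
  have hsplit : (Ioi (0 : ℝ)) = Ioc 0 1 ∪ Ioi 1 := by
    rw [Ioc_union_Ioi_eq_Ioi zero_le_one]
  rw [hsplit]
  refine (lintegral_union_le _ _ _).trans_lt ?_
  refine ENNReal.add_lt_top.2 ⟨?_, ?_⟩
  · calc ∫⁻ r in Ioc (0 : ℝ) 1, ENNReal.ofReal (kap s * r ^ (-1 - s)) * ENNReal.ofReal (min 1 r) ≤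
        ∫⁻ r in Ioc (0 : ℝ) 1, ENNReal.ofReal (kap s) * ENNReal.ofReal (r ^ (-s)) := by
          refine setLIntegral_mono' measurableSet_Ioc fun r hr => ?_
          have hr0 : 0 < r := hr.1
          rw [← ENNReal.ofReal_mul (by positivity), ← ENNReal.ofReal_mul (by positivity)]
          apply ENNReal.ofReal_le_ofReal
          rw [mul_assoc]
          apply mul_le_mul_of_nonneg_left _ hk.le
          calc r ^ (-1 - s) * min 1 r ≤ r ^ (-1 - s) * r :=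
                mul_le_mul_of_nonneg_left (min_le_right _ _) (by positivity)
            _ = r ^ (-s) := by
                nth_rewrite 2 [← Real.rpow_one r]
                rw [← Real.rpow_add hr0]
                congr 1; ring
      _ < ∞ := by
          rw [lintegral_const_mul' _ _ ENNReal.ofReal_ne_top,
            lintegral_Ioc_rpow (-s) 1 (by linarith) zero_le_one]
          exact ENNReal.mul_lt_top ENNReal.ofReal_lt_top ENNReal.ofReal_lt_top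
  · calc ∫⁻ r in Ioi (1 : ℝ), ENNReal.ofReal (kap s * r ^ (-1 - s)) * ENNReal.ofReal (min 1 r) ≤
        ∫⁻ r in Ioi (1 : ℝ), ENNReal.ofReal (kap s) * ENNReal.ofReal (r ^ (-1 - s)) := by
          refine setLIntegral_mono' measurableSet_Ioi fun r hr => ?_
          have hr0 : 0 < r := one_pos.trans hr
          rw [← ENNReal.ofReal_mul (by positivity), ← ENNReal.ofReal_mul (by positivity)]
          apply ENNReal.ofReal_le_ofReal
          calc kap s * r ^ (-1 - s) * min 1 r ≤ kap s * r ^ (-1 - s) * 1 :=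
                mul_le_mul_of_nonneg_left (min_le_left _ _) (by positivity)
            _ = _ := mul_one _
      _ < ∞ := by
          rw [lintegral_const_mul' _ _ ENNReal.ofReal_ne_top,
            lintegral_Ioi_rpow (-1 - s) 1 (by linarith) one_pos]
          exact ENNReal.mul_lt_top ENNReal.ofReal_lt_top ENNReal.ofReal_lt_top

lemma rho_min (s t : ℝ) (hs : 0 < s) (hs1 : s < 1) :
    ∫⁻ p, ENNReal.ofReal (min 1 p.1) ∂(rho s t) < ∞ := by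
  unfold rho
  have := lintegral_prod_mul (μ := lev s) (ν := volume.restrict (Icc (0 : ℝ) t))
    (f := fun r => ENNReal.ofReal (min 1 r)) (g := fun _ => 1) (by fun_prop) (by fun_prop)
  simp only [mul_one] at this
  rw [this]
  refine ENNReal.mul_lt_top (lev_min s hs hs1) ?_
  simp

lemma bound_int {s t : ℝ} (hs : 0 < s) (hs1 : s < 1) (P : Measure Mat) [IsProbabilityMeasure P]
    (C : ℝ) :
    ∫⁻ a : Mat × ((ℝ × ℝ) × (ℝ × ℝ)), ENNReal.ofReal C *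
      (ENNReal.ofReal (min 1 a.2.1.1) * ENNReal.ofReal (min 1 a.2.2.1))
      ∂(P.prod ((rho s t).prod (rho s t))) ≠ ∞ := by
  have h1 := lintegral_prod_mul (μ := rho s t) (ν := rho s t)
    (f := fun p => ENNReal.ofReal (min 1 p.1)) (g := fun p => ENNReal.ofReal (min 1 p.1))
    (by fun_prop) (by fun_prop)
  have h2 := lintegral_prod_mul (μ := P) (ν := (rho s t).prod (rho s t))
    (f := fun _ => ENNReal.ofReal C)
    (g := fun p => ENNReal.ofReal (min 1 p.1.1) * ENNReal.ofReal (min 1 p.2.1))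
    (by fun_prop) (by fun_prop)
  rw [h2, h1]
  refine (ENNReal.mul_lt_top ?_ (ENNReal.mul_lt_top (rho_min s t hs hs1)
    (rho_min s t hs hs1))).ne
  simp

/-! ## The limit -/

lemma g_tendsto {ι : Type*} {l : Filter ι} (d : ℕ) (N : ι → Mat) (X Y : ι → V d) (N₀ : Mat)
    (x v : V d) (hN : Tendsto N l (𝓝 N₀)) (hX : Tendsto X l (𝓝 x)) (hY : Tendsto Y l (𝓝 v))
    (h0 : det N₀ ≠ 0) : Tendsto (fun i => g d (N i) (X i) (Y i)) l (𝓝 (g d N₀ x v)) := by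
  have hdet : Continuous det := by unfold det; fun_prop
  have h1 : Tendsto (fun i => det (N i)) l (𝓝 (det N₀)) := (hdet.tendsto N₀).comp hN
  have ha : Tendsto (fun i => (N i).1) l (𝓝 N₀.1) := (continuous_fst.tendsto N₀).comp hN
  have hb : Tendsto (fun i => (N i).2.1) l (𝓝 N₀.2.1) :=
    ((continuous_fst.comp continuous_snd).tendsto N₀).comp hN
  have hc : Tendsto (fun i => (N i).2.2) l (𝓝 N₀.2.2) :=
    ((continuous_snd.comp continuous_snd).tendsto N₀).comp hN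
  have h2 : Tendsto (fun i => (N i).2.2 * ‖X i‖ ^ 2 - 2 * (N i).2.1 * ⟪X i, Y i⟫ +
      (N i).1 * ‖Y i‖ ^ 2) l
      (𝓝 (N₀.2.2 * ‖x‖ ^ 2 - 2 * N₀.2.1 * ⟪x, v⟫ + N₀.1 * ‖v‖ ^ 2)) :=
    ((hc.mul (hX.norm.pow 2)).sub ((hb.const_mul 2).mul (hX.inner hY))).add
      (ha.mul (hY.norm.pow 2))
  have h3 : Tendsto (fun i => -(((N i).2.2 * ‖X i‖ ^ 2 - 2 * (N i).2.1 * ⟪X i, Y i⟫ +
      (N i).1 * ‖Y i‖ ^ 2) / (4 * det (N i)))) l
      (𝓝 (-((N₀.2.2 * ‖x‖ ^ 2 - 2 * N₀.2.1 * ⟪x, v⟫ + N₀.1 * ‖v‖ ^ 2) / (4 * det N₀)))) :=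
    (h2.div (h1.const_mul 4) (mul_ne_zero (by norm_num) h0)).neg
  have h4 : Tendsto (fun i => det (N i) ^ (-((d : ℝ) / 2))) l (𝓝 (det N₀ ^ (-((d : ℝ) / 2)))) :=
    h1.rpow_const (Or.inl h0)
  exact (h4.const_mul _).mul ((Real.continuous_exp.tendsto _).comp h3)

lemma Wg_tendsto (d : ℕ) (x v : V d) (M : Mat) (p₂ p₁ : ℝ × ℝ) (h2 : 0 < p₂.1) (h1 : 0 < p₁.1)
    (hτ : p₂.2 ≠ p₁.2) :
    Tendsto (fun q : ℝ × (V d × V d) => ENNReal.ofReal (Wg d q (M, (p₂, p₁))))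
      (atTop ×ˢ 𝓝 (x, v))
      (𝓝 (ENNReal.ofReal (p₁.1 / (p₂.1 + p₁.1) * g d (J p₂ + J p₁) x v))) := by
  refine ENNReal.tendsto_ofReal ?_
  unfold Wg
  have hε : Tendsto (fun q : ℝ × (V d × V d) => (q.1 ^ 2)⁻¹) (atTop ×ˢ 𝓝 (x, v)) (𝓝 0) :=
    (tendsto_inv_atTop_zero.comp (tendsto_pow_atTop two_ne_zero)).comp tendsto_fst
  have hx : Tendsto (fun q : ℝ × (V d × V d) => q.2.1) (atTop ×ˢ 𝓝 (x, v)) (𝓝 x) :=
    (continuous_fst.tendsto (x, v)).comp tendsto_snd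
  have hv : Tendsto (fun q : ℝ × (V d × V d) => q.2.2) (atTop ×ˢ 𝓝 (x, v)) (𝓝 v) :=
    (continuous_snd.tendsto (x, v)).comp tendsto_snd
  have hdet : det (J p₂ + J p₁) ≠ 0 := by
    have : det (J p₂ + J p₁) = p₂.1 * p₁.1 * (p₂.2 - p₁.2) ^ 2 := by
      simp [det, J]; ring
    rw [this]
    have := sub_ne_zero.2 hτ
    positivity
  have hN : Tendsto (fun q : ℝ × (V d × V d) => (q.1 ^ 2)⁻¹ • M + J p₂ + J p₁)
      (atTop ×ˢ 𝓝 (x, v)) (𝓝 (J p₂ + J p₁)) := by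
    have := ((hε.smul_const M).add_const (J p₂)).add_const (J p₁)
    simpa using this
  have hg : Tendsto (fun q : ℝ × (V d × V d) =>
      g d ((q.1 ^ 2)⁻¹ • M + J p₂ + J p₁) q.2.1 q.2.2) (atTop ×ˢ 𝓝 (x, v))
      (𝓝 (g d (J p₂ + J p₁) x v)) :=
    g_tendsto d _ _ _ _ x v hN hx hv hdet
  have hcε : Tendsto (fun q : ℝ × (V d × V d) => M.2.2 / q.1 ^ 2) (atTop ×ˢ 𝓝 (x, v)) (𝓝 0) := by
    have := hε.const_mul M.2.2
    simpa [div_eq_mul_inv] using this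
  have hw2 : Tendsto (fun q : ℝ × (V d × V d) => p₂.1 / (M.2.2 / q.1 ^ 2 + p₂.1))
      (atTop ×ˢ 𝓝 (x, v)) (𝓝 1) := by
    have := (tendsto_const_nhds (x := p₂.1)).div (hcε.add_const p₂.1) (by simpa using h2.ne')
    rw [zero_add, div_self h2.ne'] at this
    exact this
  have hw1 : Tendsto (fun q : ℝ × (V d × V d) => p₁.1 / (M.2.2 / q.1 ^ 2 + p₂.1 + p₁.1))
      (atTop ×ˢ 𝓝 (x, v)) (𝓝 (p₁.1 / (p₂.1 + p₁.1))) := by
    have := (tendsto_const_nhds (x := p₁.1)).div ((hcε.add_const p₂.1).add_const p₁.1)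
      (by simpa using (add_pos h2 h1).ne')
    rw [zero_add] at this
    exact this
  have := (hw2.mul hw1).mul hg
  rw [one_mul] at this
  exact this

lemma tau_ne (s t : ℝ) : ∀ᵐ p ∂((rho s t).prod (rho s t)), p.1.2 ≠ p.2.2 := by
  have hm : MeasurableSet {p : (ℝ × ℝ) × (ℝ × ℝ) | p.1.2 = p.2.2} :=
    measurableSet_eq_fun (by fun_prop) (by fun_prop)
  rw [ae_iff]
  simp only [ne_eq, not_not]
  rw [Measure.measure_prod_null hm]
  refine Eventually.of_forall fun p₁ => ?_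
  have : Prod.mk p₁ ⁻¹' {p : (ℝ × ℝ) × (ℝ × ℝ) | p.1.2 = p.2.2} = univ ×ˢ {p₁.2} := by
    ext p
    simp [eq_comm]
  show (rho s t) (Prod.mk p₁ ⁻¹' {p : (ℝ × ℝ) × (ℝ × ℝ) | p.1.2 = p.2.2}) = 0
  rw [this]
  unfold rho
  rw [Measure.prod_prod]
  simp

lemma symm_half {s t : ℝ} (d : ℕ) (x v : V d) :
    ENNReal.ofReal (1 / 2) * ∫⁻ p₁, ∫⁻ p₂, ENNReal.ofReal (g d (J p₁ + J p₂) x v)
      ∂(rho s t) ∂(rho s t) =
    ∫⁻ p, ENNReal.ofReal (p.2.1 / (p.1.1 + p.2.1) * g d (J p.1 + J p.2) x v)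
      ∂((rho s t).prod (rho s t)) := by
  have hJ := J_meas
  have hg : Measurable (fun p : (ℝ × ℝ) × (ℝ × ℝ) => g d (J p.1 + J p.2) x v) :=
    (g_meas d x v).comp ((hJ.comp measurable_fst).add (hJ.comp measurable_snd))
  have hm1 : Measurable (fun p : (ℝ × ℝ) × (ℝ × ℝ) =>
      ENNReal.ofReal (p.2.1 / (p.1.1 + p.2.1) * g d (J p.1 + J p.2) x v)) :=
    ((by fun_prop : Measurable fun p : (ℝ × ℝ) × (ℝ × ℝ) =>
      p.2.1 / (p.1.1 + p.2.1)).mul hg).ennreal_ofReal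
  have hm2 : Measurable (fun p : (ℝ × ℝ) × (ℝ × ℝ) =>
      ENNReal.ofReal (p.1.1 / (p.2.1 + p.1.1) * g d (J p.2 + J p.1) x v)) :=
    hm1.comp measurable_swap
  obtain ⟨L, hL⟩ : ∃ L, L = ∫⁻ p, ENNReal.ofReal (p.2.1 / (p.1.1 + p.2.1) *
      g d (J p.1 + J p.2) x v) ∂((rho s t).prod (rho s t)) := ⟨_, rfl⟩
  have h1 : ∫⁻ p, ENNReal.ofReal (p.1.1 / (p.2.1 + p.1.1) * g d (J p.2 + J p.1) x v)
      ∂((rho s t).prod (rho s t)) = L := by
    rw [hL]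
    exact lintegral_prod_swap (μ := rho s t) (ν := rho s t)
      (fun p : (ℝ × ℝ) × (ℝ × ℝ) => ENNReal.ofReal (p.2.1 / (p.1.1 + p.2.1) *
        g d (J p.1 + J p.2) x v))
  have h2 : ∫⁻ p₁, ∫⁻ p₂, ENNReal.ofReal (g d (J p₁ + J p₂) x v) ∂(rho s t) ∂(rho s t) =
      L + L := by
    nth_rewrite 2 [← h1]
    rw [hL, ← lintegral_add_left hm1, ← lintegral_prod _ hg.ennreal_ofReal.aemeasurable]
    refine lintegral_congr_ae ?_
    filter_upwards [Measure.quasiMeasurePreserving_fst.ae (rho_ae s t),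
      Measure.quasiMeasurePreserving_snd.ae (rho_ae s t)] with p hp1 hp2
    have q1 := hp1.1
    have q2 := hp2.1
    have hJ1 : J p.1 ∈ cone t := J_mem_cone hp1.1.le hp1.2.1 hp1.2.2
    have hJ2 : J p.2 ∈ cone t := J_mem_cone hp2.1.le hp2.2.1 hp2.2.2
    have ht : 0 ≤ t := hp1.2.1.trans hp1.2.2
    have hgn : 0 ≤ g d (J p.1 + J p.2) x v := by
      have hdet : 0 ≤ det (J p.1 + J p.2) := by
        have : det (J p.1 + J p.2) = p.1.1 * p.2.1 * (p.1.2 - p.2.2) ^ 2 := by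
          simp [det, J]; ring
        rw [this]; positivity
      unfold g; positivity
    rw [add_comm (J p.2) (J p.1), ← ENNReal.ofReal_add (by positivity) (by positivity)]
    congr 1
    field_simp
    ring
  rw [h2, ← hL, ← two_mul, ← mul_assoc]
  have : ENNReal.ofReal (1 / 2) * 2 = 1 := by
    rw [show (2 : ℝ≥0∞) = ENNReal.ofReal 2 by simp, ← ENNReal.ofReal_mul (by norm_num)]
    norm_num
  rw [this, one_mul]

lemma far {t : ℝ} (ht : 0 < t) (d : ℕ) (x v : V d) (hxv : ∀ τ ∈ Icc (0 : ℝ) t, x ≠ τ • v) :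
    ∃ m : ℝ, 0 < m ∧ ∀ᶠ y in 𝓝 (x, v), ∀ τ ∈ Icc (0 : ℝ) t, m ≤ ‖y.1 - τ • y.2‖ ^ 2 := by
  obtain ⟨τ₀, hτ₀, hmin⟩ := isCompact_Icc.exists_isMinOn (nonempty_Icc.2 ht.le)
    (f := fun τ : ℝ => ‖x - τ • v‖) (by fun_prop)
  have hpos : 0 < ‖x - τ₀ • v‖ := norm_pos_iff.2 (sub_ne_zero.2 (hxv _ hτ₀))
  obtain ⟨r, hr⟩ : ∃ r, r = ‖x - τ₀ • v‖ := ⟨_, rfl⟩
  rw [← hr] at hpos
  refine ⟨(r / 2) ^ 2, by positivity, ?_⟩
  refine Metric.eventually_nhds_iff.2 ⟨r / (2 * (1 + t)), by positivity, fun y hy τ hτ => ?_⟩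
  rw [Prod.dist_eq, max_lt_iff] at hy
  obtain ⟨hy1, hy2⟩ := hy
  simp only [dist_eq_norm] at hy1 hy2
  have h1 : r ≤ ‖x - τ • v‖ := by rw [hr]; exact hmin hτ
  have h2 : x - τ • v = (y.1 - τ • y.2) - ((y.1 - x) - τ • (y.2 - v)) := by
    rw [smul_sub]; abel
  have h3 : ‖x - τ • v‖ ≤ ‖y.1 - τ • y.2‖ + (‖y.1 - x‖ + ‖τ • (y.2 - v)‖) := by
    rw [h2]
    exact (norm_sub_le _ _).trans (by gcongr; exact norm_sub_le _ _)
  have h4 : ‖τ • (y.2 - v)‖ ≤ t * (r / (2 * (1 + t))) := by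
    rw [norm_smul, Real.norm_eq_abs, abs_of_nonneg hτ.1]
    exact mul_le_mul hτ.2 hy2.le (norm_nonneg _) ht.le
  have h5 : r / (2 * (1 + t)) + t * (r / (2 * (1 + t))) = r / 2 := by
    field_simp
  have h6 : r / 2 ≤ ‖y.1 - τ • y.2‖ := by linarith
  exact pow_le_pow_left₀ (by positivity) h6 2

theorem main (hN1 : StmtN1) : StmtI := by
  intro s t P hs hs1 ht hP d hd x v hxv
  have hprob := hP.prob
  obtain ⟨hpos, _⟩ := hN1 s t P hs hs1 ht hP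
  have hc : ∀ᵐ M ∂P, 0 < M.2.2 := by filter_upwards [hpos] with M hM using hM.1
  obtain ⟨m, hm, hfar⟩ := far ht d x v hxv
  obtain ⟨C, hC, hbound⟩ := Wg_bound ht d m hm
  have hev : ∀ᶠ q : ℝ × (V d × V d) in atTop ×ˢ 𝓝 (x, v),
      0 < q.1 ∧ ∀ τ ∈ Icc (0 : ℝ) t, m ≤ ‖q.2.1 - τ • q.2.2‖ ^ 2 :=
    (eventually_gt_atTop (0 : ℝ)).prod_mk hfar
  have hae : ∀ᵐ a ∂(P.prod ((rho s t).prod (rho s t))), (a.1 ∈ cone t ∧ 0 < det a.1) ∧
      (0 < a.2.1.1 ∧ a.2.1.2 ∈ Icc (0 : ℝ) t) ∧ (0 < a.2.2.1 ∧ a.2.2.2 ∈ Icc (0 : ℝ) t) ∧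
      a.2.1.2 ≠ a.2.2.2 := by
    have h1 : ∀ᵐ M ∂P, M ∈ cone t ∧ 0 < det M := by
      filter_upwards [hP.supp, hpos] with M a b using ⟨a, b.2⟩
    have h2 : ∀ᵐ p ∂((rho s t).prod (rho s t)), (0 < p.1.1 ∧ p.1.2 ∈ Icc (0 : ℝ) t) ∧
        (0 < p.2.1 ∧ p.2.2 ∈ Icc (0 : ℝ) t) ∧ p.1.2 ≠ p.2.2 := by
      filter_upwards [Measure.quasiMeasurePreserving_fst.ae (rho_ae s t),
        Measure.quasiMeasurePreserving_snd.ae (rho_ae s t), tau_ne s t] with p a b c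
      exact ⟨a, b, c⟩
    filter_upwards [Measure.quasiMeasurePreserving_fst.ae h1,
      Measure.quasiMeasurePreserving_snd.ae h2] with a b c
    exact ⟨b, c.1, c.2.1, c.2.2⟩
  have hlim := tendsto_lintegral_filter_of_dominated_convergence
    (μ := P.prod ((rho s t).prod (rho s t))) (l := atTop ×ˢ 𝓝 (x, v))
    (F := fun q a => ENNReal.ofReal (Wg d q a))
    (f := fun a => ENNReal.ofReal (a.2.2.1 / (a.2.1.1 + a.2.2.1) * g d (J a.2.1 + J a.2.2) x v))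
    (fun a => ENNReal.ofReal C *
      (ENNReal.ofReal (min 1 a.2.1.1) * ENNReal.ofReal (min 1 a.2.2.1)))
    (Eventually.of_forall fun q => (Wg_meas d q).ennreal_ofReal)
    (by
      filter_upwards [hev] with q hq
      filter_upwards [hae] with a ha
      obtain ⟨⟨a1, a2⟩, b1, b2, -⟩ := ha
      have hm1 : 0 < min 1 a.2.1.1 := lt_min one_pos b1.1
      have hm2 : 0 < min 1 a.2.2.1 := lt_min one_pos b2.1
      rw [← ENNReal.ofReal_mul hm1.le, ← ENNReal.ofReal_mul hC.le]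
      exact ENNReal.ofReal_le_ofReal (hbound q hq.1 hq.2 a.1 a1 a2 a.2.1 a.2.2 b1 b2))
    (bound_int hs hs1 P C)
    (by
      filter_upwards [hae] with a ha
      obtain ⟨⟨a1, a2⟩, b1, b2, b3⟩ := ha
      exact Wg_tendsto d x v a.1 a.2.1 a.2.2 b1.1 b2.1 b3)
  have hval : ∫⁻ a, ENNReal.ofReal (a.2.2.1 / (a.2.1.1 + a.2.2.1) *
      g d (J a.2.1 + J a.2.2) x v) ∂(P.prod ((rho s t).prod (rho s t))) =
      ENNReal.ofReal (1 / 2) * ∫⁻ p₁, ∫⁻ p₂, ENNReal.ofReal (g d (J p₁ + J p₂) x v)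
        ∂(rho s t) ∂(rho s t) := by
    rw [symm_half]
    have hJ := J_meas
    have hg : Measurable (fun p : (ℝ × ℝ) × (ℝ × ℝ) => g d (J p.1 + J p.2) x v) :=
      (g_meas d x v).comp ((hJ.comp measurable_fst).add (hJ.comp measurable_snd))
    have hm1 : Measurable (fun p : (ℝ × ℝ) × (ℝ × ℝ) =>
        ENNReal.ofReal (p.2.1 / (p.1.1 + p.2.1) * g d (J p.1 + J p.2) x v)) :=
      ((by fun_prop : Measurable fun p : (ℝ × ℝ) × (ℝ × ℝ) =>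
        p.2.1 / (p.1.1 + p.2.1)).mul hg).ennreal_ofReal
    have := lintegral_prod_mul (μ := P) (ν := (rho s t).prod (rho s t))
      (f := fun _ => 1) (g := fun p => ENNReal.ofReal (p.2.1 / (p.1.1 + p.2.1) *
        g d (J p.1 + J p.2) x v)) (by fun_prop) hm1.aemeasurable
    simp only [one_mul, lintegral_const, measure_univ] at this
    exact this
  rw [hval] at hlim
  refine hlim.congr' ?_
  filter_upwards [hev] with q hq
  exact (key ht hP hc d q.1 hq.1 q.2.1 q.2.2).symm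

end Pool.Agent.L0h89.FK.I
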