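import Pool.Agent.L0h93.FK.Gau

/-! # N1: positivity and negative moments of the determinant -/

set_option autoImplicit false
set_option linter.unusedVariables false

open MeasureTheory Set Filter Topology
open scoped ENNReal RealInnerProductSpace

namespace Pool.Agent.L0h89.FK.N1

open Pool.Agent.L0h93.FK

theorem meas_JJ (d : ℕ) : Measurable (Function.uncurry fun (M : Mat) (p : V d × V d) =>
    ENNReal.ofReal (Real.exp (-qf M p.1 p.2))) := by
  refine Measurable.ennreal_ofReal ?_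
  refine Continuous.measurable ?_
  unfold qf
  fun_prop

theorem J_finite {s t : ℝ} (hs : 0 < s) (ht : 0 < t) {P : Measure Mat} (hL : Law s t P) {d : ℕ}
    (hd : 1 ≤ d) :
    ∫⁻ M, (∫⁻ p : V d × V d, ENNReal.ofReal (Real.exp (-qf M p.1 p.2))) ∂P < ∞ := by
  have hprob := hL.prob
  rw [lintegral_lintegral_swap (meas_JJ d).aemeasurable]
  have h : ∀ p : V d × V d, ∫⁻ M, ENNReal.ofReal (Real.exp (-qf M p.1 p.2)) ∂P =
      ENNReal.ofReal (Real.exp (-Phi d s t p.1 p.2)) := by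
    intro p
    rw [← ofReal_integral_eq_lintegral_ofReal (integrable_lap ht hL p.1 p.2)
      (Eventually.of_forall fun M => (Real.exp_pos _).le), lap_qf hL hs]
  simp only [h]
  exact (integrable_exp_Phi hd hs ht).lintegral_lt_top

theorem J_infinite {t : ℝ} {d : ℕ} (hd : 1 ≤ d) {M : Mat} (h : M ∈ cone t) (h0 : ¬ 0 < det M) :
    ∫⁻ p : V d × V d, ENNReal.ofReal (Real.exp (-qf M p.1 p.2)) = ∞ := by
  have hdet : det M = 0 := le_antisymm (not_lt.1 h0) (det_nonneg h)
  have : Nonempty (Fin d) := ⟨⟨0, hd⟩⟩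
  have : Nontrivial (V d) := inferInstance
  have : NoncompactSpace (V d) := NormedSpace.noncompactSpace ℝ (V d)
  obtain ⟨c, β, hq⟩ : ∃ c β : ℝ, ∀ ψ ξ : V d, qf M ψ ξ = c * ‖ξ + β • ψ‖ ^ 2 := by
    obtain ⟨h1, h2, h3, h4, h5⟩ := h
    by_cases hc : M.2.2 = 0
    · have hb : M.2.1 = 0 := by rw [hc] at h2; linarith
      have ha : M.1 = 0 := by rw [hb] at h4; linarith
      refine ⟨0, 0, fun ψ ξ => ?_⟩
      unfold qf
      rw [hc, hb, ha]; ring
    · refine ⟨M.2.2, M.2.1 / M.2.2, fun ψ ξ => ?_⟩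
      unfold det at hdet
      unfold qf
      rw [norm_add_sq_real, norm_smul, inner_smul_right, real_inner_comm, mul_pow, Real.norm_eq_abs,
        sq_abs]
      field_simp
      linear_combination ‖ψ‖ ^ 2 * hdet
  rw [Measure.volume_eq_prod, lintegral_prod _ (by
    refine Measurable.aemeasurable ?_
    refine Measurable.ennreal_ofReal (Continuous.measurable ?_)
    unfold qf; fun_prop)]
  have h1 : ∀ ψ : V d, ∫⁻ ξ : V d, ENNReal.ofReal (Real.exp (-qf M ψ ξ)) =
      ∫⁻ ξ : V d, ENNReal.ofReal (Real.exp (-(c * ‖ξ‖ ^ 2))) := by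
    intro ψ
    simp only [hq]
    exact lintegral_add_right_eq_self (fun ξ : V d => ENNReal.ofReal (Real.exp (-(c * ‖ξ‖ ^ 2)))) (β • ψ)
  simp only [h1]
  rw [lintegral_const, measure_univ_of_isAddLeftInvariant, ENNReal.mul_top]
  intro h2
  have hm : Measurable fun ξ : V d => ENNReal.ofReal (Real.exp (-(c * ‖ξ‖ ^ 2))) := by fun_prop
  rw [lintegral_eq_zero_iff hm] at h2
  obtain ⟨ξ, hξ⟩ := (h2 : ∀ᵐ ξ : V d, _).exists
  simp only [Pi.zero_apply, ENNReal.ofReal_eq_zero] at hξ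
  exact absurd hξ (not_le.2 (Real.exp_pos _))

theorem J_eq {t : ℝ} (ht : 0 < t) {d : ℕ} (hd : 1 ≤ d) {M : Mat} (h : M ∈ cone t) (h0 : 0 < det M) :
    ∫⁻ p : V d × V d, ENNReal.ofReal (Real.exp (-qf M p.1 p.2)) =
      ENNReal.ofReal (Real.pi ^ (d : ℝ) * det M ^ (-((d : ℝ) / 2))) := by
  have h1 := gauss_two_re hd ht h h0 0 0
  simp only [inner_zero_left, add_zero, Real.cos_zero, one_mul, norm_zero] at h1
  rw [← ofReal_integral_eq_lintegral_ofReal (integrable_exp_qf hd ht h h0)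
    (Eventually.of_forall fun p => (Real.exp_pos _).le), h1]
  congr 1
  norm_num

/-- module N1 -/
theorem main : StmtN1 := by
  intro s t P hs hs1 ht hL
  have hprob := hL.prob
  have hm : ∀ d : ℕ, Measurable fun M : Mat =>
      ∫⁻ p : V d × V d, ENNReal.ofReal (Real.exp (-qf M p.1 p.2)) := fun d =>
    Measurable.lintegral_prod_right (meas_JJ d)
  have hpos : ∀ᵐ M ∂P, 0 < M.2.2 ∧ 0 < det M := by
    filter_upwards [hL.supp, ae_lt_top (hm 1) (J_finite hs ht hL (le_refl 1)).ne] with M hM hfin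
    have h0 : 0 < det M := by
      by_contra h0
      exact hfin.ne (J_infinite (le_refl 1) hM h0)
    exact ⟨c_pos ht hM h0, h0⟩
  refine ⟨hpos, fun d hd => ?_⟩
  refine lt_of_le_of_lt (lintegral_mono_ae ?_) (J_finite hs ht hL hd)
  filter_upwards [hL.supp, hpos] with M hM h0
  rw [J_eq ht hd hM h0.2]
  refine ENNReal.ofReal_le_ofReal ?_
  have h1 : (1 : ℝ) ≤ Real.pi ^ (d : ℝ) := by
    rw [Real.rpow_natCast]
    exact one_le_pow₀ (by linarith [Real.pi_gt_three])
  have h2 : 0 ≤ det M ^ (-((d : ℝ) / 2)) := Real.rpow_nonneg h0.2.le _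
  nlinarith

end Pool.Agent.L0h89.FK.N1
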