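import Pool.Agent.L0h89.FK.Basic

/-! # Auxiliary bounds -/

set_option autoImplicit false

open MeasureTheory Set Filter Topology
open scoped ENNReal RealInnerProductSpace

namespace Pool.Agent.L0h89.FK

lemma kap_pos {s : ℝ} (hs : 0 < s) (hs1 : s < 1) : 0 < kap s :=
  div_pos hs (Real.Gamma_pos_of_pos (by linarith))

/-- `e^{-x} ≤ C x^{-k}` -/
lemma exp_le_rpow (k : ℝ) (hk : 0 ≤ k) : ∃ C : ℝ, 0 < C ∧ ∀ x : ℝ, 0 < x →
    Real.exp (-x) ≤ C * x ^ (-k) := by
  obtain ⟨n, hn⟩ := exists_nat_ge k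
  have hf : (1 : ℝ) ≤ n.factorial := by exact_mod_cast Nat.one_le_iff_ne_zero.2 (Nat.factorial_ne_zero n)
  refine ⟨n.factorial, by positivity, fun x hx => ?_⟩
  have h1 : x ^ k ≤ n.factorial * Real.exp x := by
    rcases le_total 1 x with h | h
    · calc x ^ k ≤ x ^ (n : ℝ) := Real.rpow_le_rpow_of_exponent_le h hn
        _ = x ^ n := Real.rpow_natCast _ _
        _ = n.factorial * (x ^ n / n.factorial) := by field_simp
        _ ≤ n.factorial * Real.exp x := by
            apply mul_le_mul_of_nonneg_left _ (by positivity)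
            have := Real.sum_le_exp_of_nonneg (x := x) hx.le (n + 1)
            refine le_trans ?_ this
            refine Finset.single_le_sum (f := fun i => x ^ i / (i.factorial : ℝ))
              (fun i _ => by positivity) (Finset.mem_range.2 (Nat.lt_succ_self n))
    · calc x ^ k ≤ 1 := Real.rpow_le_one hx.le h hk
        _ ≤ n.factorial * 1 := by linarith
        _ ≤ n.factorial * Real.exp x := by
            apply mul_le_mul_of_nonneg_left (Real.one_le_exp hx.le) (by positivity)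
  rw [Real.exp_neg, Real.rpow_neg hx.le, ← div_eq_mul_inv, le_div_iff₀ (by positivity),
    inv_mul_le_iff₀ (Real.exp_pos _)]
  linarith

lemma lintegral_lev (s : ℝ) (f : ℝ → ℝ≥0∞) :
    ∫⁻ r, f r ∂(lev s) = ∫⁻ r in Ioi (0 : ℝ), ENNReal.ofReal (kap s * r ^ (-1 - s)) * f r := by
  unfold lev
  rw [lintegral_withDensity_eq_lintegral_mul_non_measurable]
  · rfl
  · fun_prop
  · exact Filter.Eventually.of_forall fun r => ENNReal.ofReal_lt_top

/-- the power integral near zero -/
lemma lintegral_Ioc_rpow (a c : ℝ) (ha : -1 < a) (hc : 0 ≤ c) :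
    ∫⁻ r in Ioc 0 c, ENNReal.ofReal (r ^ a) = ENNReal.ofReal (c ^ (a + 1) / (a + 1)) := by
  have h := integral_rpow (a := (0 : ℝ)) (b := c) (Or.inl ha)
  rw [Real.zero_rpow (by linarith), sub_zero, intervalIntegral.integral_of_le hc] at h
  rw [← h, ofReal_integral_eq_lintegral_ofReal]
  · have := (intervalIntegral.intervalIntegrable_rpow' (a := 0) (b := c) ha)
    rw [intervalIntegrable_iff_integrableOn_Ioc_of_le hc] at this
    exact this
  · filter_upwards [ae_restrict_mem measurableSet_Ioc] with r hr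
    exact Real.rpow_nonneg hr.1.le _

/-- the power integral near infinity -/
lemma lintegral_Ioi_rpow (a c : ℝ) (ha : a < -1) (hc : 0 < c) :
    ∫⁻ r in Ioi c, ENNReal.ofReal (r ^ a) = ENNReal.ofReal (-c ^ (a + 1) / (a + 1)) := by
  rw [← integral_Ioi_rpow_of_lt ha hc, ofReal_integral_eq_lintegral_ofReal]
  · exact integrableOn_Ioi_rpow_of_lt ha hc
  · filter_upwards [ae_restrict_mem measurableSet_Ioi] with r hr
    exact Real.rpow_nonneg (hc.trans hr).le _

/-- scaling of `lev` -/
lemma lev_scale (s : ℝ) (l : ℝ) (hl : 0 < l) (f : ℝ → ℝ≥0∞) (hf : Measurable f) :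
    ∫⁻ r, f r ∂(lev s) = ENNReal.ofReal (l ^ (-s)) * ∫⁻ q, f (l * q) ∂(lev s) := by
  rw [lintegral_lev, lintegral_lev]
  have h1 : ∫⁻ r in Ioi (0 : ℝ), ENNReal.ofReal (kap s * r ^ (-1 - s)) * f r =
      ENNReal.ofReal l * ∫⁻ q in Ioi (0 : ℝ),
        ENNReal.ofReal (kap s * (l * q) ^ (-1 - s)) * f (l * q) := by
    have hmap : Measure.map (fun q : ℝ => l * q) volume = ENNReal.ofReal (l⁻¹) • volume := by
      have := Real.map_volume_mul_left hl.ne'
      rw [abs_of_pos (inv_pos.2 hl)] at this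
      exact this
    have h2 : ∫⁻ q in Ioi (0 : ℝ), ENNReal.ofReal (kap s * (l * q) ^ (-1 - s)) * f (l * q) =
        ∫⁻ r in Ioi (0 : ℝ), ENNReal.ofReal (kap s * r ^ (-1 - s)) * f r
          ∂(Measure.map (fun q : ℝ => l * q) volume) := by
      rw [Measure.restrict_map (by fun_prop) measurableSet_Ioi]
      rw [lintegral_map (by fun_prop) (by fun_prop)]
      congr 2
      ext q
      simp only [mem_preimage, mem_Ioi]
      exact (mul_pos_iff_of_pos_left hl).symm
    rw [h2, hmap, Measure.restrict_smul, lintegral_smul_measure, smul_eq_mul, ← mul_assoc,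
      ← ENNReal.ofReal_mul hl.le, mul_inv_cancel₀ hl.ne', ENNReal.ofReal_one, one_mul]
  rw [h1, ← lintegral_const_mul' _ _ ENNReal.ofReal_ne_top,
    ← lintegral_const_mul' _ _ ENNReal.ofReal_ne_top]
  apply setLIntegral_congr_fun measurableSet_Ioi
  intro q hq
  have hq' : 0 < q := hq
  simp only
  rw [← mul_assoc, ← mul_assoc, ← ENNReal.ofReal_mul hl.le,
    ← ENNReal.ofReal_mul (Real.rpow_nonneg hl.le _)]
  congr 2
  rw [Real.mul_rpow hl.le hq'.le]
  have : l * l ^ (-1 - s) = l ^ (-s) := by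
    nth_rewrite 1 [← Real.rpow_one l]
    rw [← Real.rpow_add hl]
    congr 1
    ring
  calc l * (kap s * (l ^ (-1 - s) * q ^ (-1 - s))) = (l * l ^ (-1 - s)) * (kap s * q ^ (-1 - s)) := by
        ring
    _ = l ^ (-s) * (kap s * q ^ (-1 - s)) := by rw [this]

end Pool.Agent.L0h89.FK
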