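import Pool.Agent.L0h89.FK.E
import Pool.Agent.L0h89.FK.Tools

/-! # N2: moments of `c` and `θ` -/

set_option autoImplicit false

open MeasureTheory Set Filter Topology
open scoped ENNReal RealInnerProductSpace

namespace Pool.Agent.L0h89.FK.N2

/-- lower bound of the scale of `Q_τ` -/
lemma A_ge {s t τ : ℝ} (hs : 0 < s) (ht : 0 < t) (h0 : τ ∈ Icc (0 : ℝ) t) :
    (t / 2) ^ (2 * s + 1) / (2 * s + 1) ≤
      (τ ^ (2 * s + 1) + (t - τ) ^ (2 * s + 1)) / (2 * s + 1) := by
  apply div_le_div_of_nonneg_right _ (by positivity)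
  have h1 : 0 ≤ τ ^ (2 * s + 1) := Real.rpow_nonneg h0.1 _
  have h2 : 0 ≤ (t - τ) ^ (2 * s + 1) := Real.rpow_nonneg (by linarith [h0.2]) _
  rcases le_total (t / 2) τ with h | h
  · have := Real.rpow_le_rpow (by positivity) h (by positivity : 0 ≤ 2 * s + 1)
    linarith
  · have := Real.rpow_le_rpow (by positivity) (by linarith : t / 2 ≤ t - τ)
      (by positivity : 0 ≤ 2 * s + 1)
    linarith

/-- `∫_0^t E[Q_τ^{-m}] dτ < ∞` -/
lemma intQ {s t : ℝ} (hs : 0 < s) (ht : 0 < t) {P : Measure Mat} (hL : Law s t P)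
    (hpos : ∀ᵐ M ∂P, 0 < M.2.2 ∧ 0 < det M) {m : ℝ} (hm : 0 < m) :
    ∫⁻ M, (∫⁻ τ in Icc 0 t, ENNReal.ofReal (Q τ M ^ (-m))) ∂P < ∞ := by
  have hprob := hL.prob
  have hmeas : Measurable (Function.uncurry fun (M : Mat) (τ : ℝ) =>
      ENNReal.ofReal (Q τ M ^ (-m))) := by
    refine Measurable.ennreal_ofReal ?_
    refine Measurable.pow_const ?_ _
    unfold Q
    fun_prop
  rw [lintegral_lintegral_swap hmeas.aemeasurable]
  set c0 : ℝ := (t / 2) ^ (2 * s + 1) / (2 * s + 1) with hc0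
  have hc0p : 0 < c0 := by positivity
  have h1 : ∀ τ ∈ Icc (0 : ℝ) t, ∫⁻ M, ENNReal.ofReal (Q τ M ^ (-m)) ∂P ≤
      ENNReal.ofReal (Real.Gamma (m / s + 1) / Real.Gamma (m + 1) * c0 ^ (-(m / s))) := by
    intro τ hτ
    rw [E.negmom hs ht hL hpos hτ hm]
    apply ENNReal.ofReal_le_ofReal
    have g1 : 0 < Real.Gamma (m / s + 1) := Real.Gamma_pos_of_pos (by positivity)
    have g2 : 0 < Real.Gamma (m + 1) := Real.Gamma_pos_of_pos (by positivity)
    apply mul_le_mul_of_nonneg_left _ (by positivity)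
    apply Real.rpow_le_rpow_of_nonpos hc0p (A_ge hs ht hτ)
    have : 0 < m / s := by positivity
    linarith
  refine (setLIntegral_mono' measurableSet_Icc h1).trans_lt ?_
  rw [lintegral_const]
  simp only [MeasurableSet.univ, Measure.restrict_apply, univ_inter, Real.volume_Icc]
  exact ENNReal.mul_lt_top ENNReal.ofReal_lt_top ENNReal.ofReal_lt_top

/-- the pointwise lower bound of `∫_0^t Q_τ^{-m} dτ` -/
lemma low {t : ℝ} (ht : 0 < t) {M : Mat} (h : M ∈ cone t) (hd : 0 < det M) {m : ℝ} (hm : 0 < m) :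
    ENNReal.ofReal (2 ^ (-m) / 2) * ENNReal.ofReal (th M ^ (1 / 2 - m) * M.2.2 ^ (-(1 / 2 : ℝ))) ≤
      ∫⁻ τ in Icc 0 t, ENNReal.ofReal (Q τ M ^ (-m)) := by
  have hc := c_pos ht h hd
  have hθ := th_pos ht h hd
  have hθc := th_le ht h hd
  set θ := th M with hθdef
  set c := M.2.2 with hcdef
  set w : ℝ := Real.sqrt (θ / c) with hw
  have hw0 : 0 < w := Real.sqrt_pos.2 (by positivity)
  have hw2 : w ^ 2 = θ / c := Real.sq_sqrt (by positivity)
  have hwt : w ≤ t := by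
    rw [hw]
    apply Real.sqrt_le_iff.2
    refine ⟨ht.le, ?_⟩
    rw [div_le_iff₀ hc]
    exact hθc
  set β : ℝ := M.2.1 / c with hβ
  have hβ0 : 0 ≤ β := div_nonneg h.1 hc.le
  have hβt : β ≤ t := by
    rw [hβ, div_le_iff₀ hc]
    exact h.2.1
  obtain ⟨u, hu0, hut, huβ⟩ : ∃ u : ℝ, 0 ≤ u ∧ u + w / 2 ≤ t ∧
      ∀ τ ∈ Icc u (u + w / 2), |τ - β| ≤ w := by
    rcases le_total β (t / 2) with h1 | h1
    · refine ⟨β, hβ0, by linarith, fun τ hτ => ?_⟩
      rw [abs_le]; constructor <;> linarith [hτ.1, hτ.2]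
    · refine ⟨β - w / 2, by linarith, by linarith, fun τ hτ => ?_⟩
      rw [abs_le]; constructor <;> linarith [hτ.1, hτ.2]
  have hQ : ∀ τ ∈ Icc u (u + w / 2), Q τ M ≤ 2 * θ := by
    intro τ hτ
    have h1 : c * Q τ M = (c * τ - M.2.1) ^ 2 + det M := c_mul_Q τ M
    have h2 : det M = θ * c := by
      rw [hθdef]; unfold th; rw [← hcdef]; field_simp
    have h3 : c * τ - M.2.1 = c * (τ - β) := by
      rw [hβ]; field_simp
    have h4 : (τ - β) ^ 2 ≤ w ^ 2 := sq_le_sq' (by linarith [(abs_le.1 (huβ τ hτ)).1])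
      (abs_le.1 (huβ τ hτ)).2
    rw [hw2, le_div_iff₀ hc] at h4
    have h5 : c * Q τ M ≤ c * (2 * θ) := by
      rw [h1, h2, h3]
      nlinarith
    exact le_of_mul_le_mul_left h5 hc
  have hval : 2 ^ (-m) / 2 * (θ ^ (1 / 2 - m) * c ^ (-(1 / 2 : ℝ))) = (2 * θ) ^ (-m) * (w / 2) := by
    rw [Real.mul_rpow (by norm_num) hθ.le, hw, Real.sqrt_eq_rpow, Real.div_rpow hθ.le hc.le,
      sub_eq_add_neg, Real.rpow_add hθ, Real.rpow_neg hc.le (1 / 2)]
    field_simp
  calc ENNReal.ofReal (2 ^ (-m) / 2) * ENNReal.ofReal (θ ^ (1 / 2 - m) * c ^ (-(1 / 2 : ℝ)))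
      = ENNReal.ofReal ((2 * θ) ^ (-m)) * ENNReal.ofReal (w / 2) := by
        rw [← ENNReal.ofReal_mul (by positivity), hval, ENNReal.ofReal_mul (by positivity)]
    _ = ∫⁻ _ in Icc u (u + w / 2), ENNReal.ofReal ((2 * θ) ^ (-m)) := by
        rw [lintegral_const]
        simp
    _ ≤ ∫⁻ τ in Icc u (u + w / 2), ENNReal.ofReal (Q τ M ^ (-m)) := by
        apply setLIntegral_mono' measurableSet_Icc
        intro τ hτ
        apply ENNReal.ofReal_le_ofReal
        exact Real.rpow_le_rpow_of_nonpos (Q_pos ht h hd τ) (hQ τ hτ) (by linarith)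
    _ ≤ _ := lintegral_mono_set (Icc_subset_Icc hu0 hut)

/-- `E[θ^{-k} c^{-1/2}] < ∞` -/
lemma mom1 {s t : ℝ} (hs : 0 < s) (ht : 0 < t) {P : Measure Mat} (hL : Law s t P)
    (hpos : ∀ᵐ M ∂P, 0 < M.2.2 ∧ 0 < det M) {k : ℝ} (hk : 0 ≤ k) :
    ∫⁻ M, ENNReal.ofReal (th M ^ (-k) * M.2.2 ^ (-(1 / 2 : ℝ))) ∂P < ∞ := by
  have hm : 0 < k + 1 / 2 := by linarith
  have h1 := intQ hs ht hL hpos hm
  have h2 : ENNReal.ofReal (2 ^ (-(k + 1 / 2)) / 2) *
      ∫⁻ M, ENNReal.ofReal (th M ^ (-k) * M.2.2 ^ (-(1 / 2 : ℝ))) ∂P ≤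
      ∫⁻ M, (∫⁻ τ in Icc 0 t, ENNReal.ofReal (Q τ M ^ (-(k + 1 / 2)))) ∂P := by
    rw [← lintegral_const_mul' _ _ ENNReal.ofReal_ne_top]
    apply lintegral_mono_ae
    filter_upwards [hL.supp, hpos] with M hM hM0
    have := low ht hM hM0.2 hm
    have e : (1 / 2 : ℝ) - (k + 1 / 2) = -k := by ring
    rw [e] at this
    exact this
  have h3 := h2.trans_lt h1
  by_contra hcon
  rw [not_lt, top_le_iff] at hcon
  rw [hcon, ENNReal.mul_top] at h3
  · exact absurd h3 (lt_irrefl _)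
  · rw [ne_eq, ENNReal.ofReal_eq_zero, not_le]
    positivity

/-- Laplace transform of `c` -/
lemma lap_c {s t : ℝ} {P : Measure Mat} (hL : Law s t P) {l : ℝ} (hl : 0 ≤ l) :
    ∫ M, Real.exp (-(l * M.2.2)) ∂P = Real.exp (-(t * l ^ s)) := by
  have h := hL.lap 0 0 l le_rfl hl (by simp)
  simpa using h

/-- tail of `c` -/
lemma tail {s t : ℝ} (ht : 0 < t) {P : Measure Mat} (hL : Law s t P) {u : ℝ} (hu : 0 < u) :
    P {M | u < M.2.2} ≤ ENNReal.ofReal (2 * t * u ^ (-s)) := by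
  have hprob := hL.prob
  have hnn : ∀ᵐ M ∂P, 0 ≤ M.2.2 := by
    filter_upwards [hL.supp] with M hM using c_nonneg ht hM
  have hmeas : Measurable fun M : Mat => Real.exp (-(u⁻¹ * M.2.2)) := by fun_prop
  have hint : Integrable (fun M : Mat => Real.exp (-(u⁻¹ * M.2.2))) P := by
    refine Integrable.of_bound hmeas.aestronglyMeasurable 1 ?_
    filter_upwards [hnn] with M hM
    rw [Real.norm_of_nonneg (Real.exp_pos _).le]
    apply Real.exp_le_one_iff.2
    have : 0 ≤ u⁻¹ * M.2.2 := by positivity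
    linarith
  have h1 : ∫⁻ M, ENNReal.ofReal (1 - Real.exp (-(u⁻¹ * M.2.2))) ∂P =
      ENNReal.ofReal (1 - Real.exp (-(t * u⁻¹ ^ s))) := by
    rw [← ofReal_integral_eq_lintegral_ofReal (f := fun M : Mat =>
      1 - Real.exp (-(u⁻¹ * M.2.2))) ((integrable_const _).sub hint), integral_sub
      (integrable_const _) hint, lap_c hL (by positivity)]
    · simp
    · filter_upwards [hnn] with M hM
      have : Real.exp (-(u⁻¹ * M.2.2)) ≤ 1 := by
        apply Real.exp_le_one_iff.2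
        have : 0 ≤ u⁻¹ * M.2.2 := by positivity
        linarith
      simpa using this
  have h2 : ENNReal.ofReal (1 / 2) * P {M | u < M.2.2} ≤
      ENNReal.ofReal (1 - Real.exp (-(t * u⁻¹ ^ s))) := by
    rw [← h1]
    refine le_trans ?_ (mul_meas_ge_le_lintegral (by fun_prop) (ENNReal.ofReal (1 / 2)))
    apply mul_le_mul_right
    apply measure_mono
    intro M hM
    have hM' : u < M.2.2 := hM
    simp only [mem_ofPred_eq]
    apply ENNReal.ofReal_le_ofReal
    have h3 : 1 ≤ u⁻¹ * M.2.2 := by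
      rw [← div_eq_inv_mul, le_div_iff₀ hu]
      linarith
    have h4 : Real.exp (-(u⁻¹ * M.2.2)) ≤ Real.exp (-1) := Real.exp_le_exp.2 (by linarith)
    have h5 : Real.exp (-1) ≤ 1 / 2 := by
      rw [Real.exp_neg, one_div]
      apply inv_anti₀ (by norm_num)
      have := Real.add_one_le_exp 1
      linarith
    linarith
  have h3 : ENNReal.ofReal (1 - Real.exp (-(t * u⁻¹ ^ s))) ≤ ENNReal.ofReal (t * u ^ (-s)) := by
    apply ENNReal.ofReal_le_ofReal
    have := Real.one_sub_le_exp_neg (t * u⁻¹ ^ s)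
    rw [Real.rpow_neg hu.le, ← Real.inv_rpow hu.le]
    linarith
  calc P {M | u < M.2.2} = ENNReal.ofReal 2 * (ENNReal.ofReal (1 / 2) * P {M | u < M.2.2}) := by
        rw [← mul_assoc, ← ENNReal.ofReal_mul (by norm_num)]
        norm_num
    _ ≤ ENNReal.ofReal 2 * ENNReal.ofReal (t * u ^ (-s)) := by
        gcongr
        exact h2.trans h3
    _ = ENNReal.ofReal (2 * t * u ^ (-s)) := by
        rw [← ENNReal.ofReal_mul (by norm_num)]
        ring_nf

/-- `E[c^y] < ∞` for `0 < y < s` -/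
lemma mom2 {s t : ℝ} (ht : 0 < t) {P : Measure Mat} (hL : Law s t P) {y : ℝ}
    (hy : 0 < y) (hys : y < s) : ∫⁻ M, ENNReal.ofReal (M.2.2 ^ y) ∂P < ∞ := by
  have hprob := hL.prob
  have hnn : ∀ᵐ M ∂P, 0 ≤ M.2.2 := by
    filter_upwards [hL.supp] with M hM using c_nonneg ht hM
  rw [lintegral_rpow_eq_lintegral_meas_lt_mul P hnn (by fun_prop) hy]
  apply ENNReal.mul_lt_top ENNReal.ofReal_lt_top
  rw [← Ioc_union_Ioi_eq_Ioi (zero_le_one : (0 : ℝ) ≤ 1)]
  refine (lintegral_union_le _ _ _).trans_lt ?_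
  apply ENNReal.add_lt_top.2
  constructor
  · calc ∫⁻ u in Ioc (0 : ℝ) 1, P {M | u < M.2.2} * ENNReal.ofReal (u ^ (y - 1))
        ≤ ∫⁻ u in Ioc (0 : ℝ) 1, ENNReal.ofReal (u ^ (y - 1)) := by
          apply lintegral_mono
          intro u
          calc P {M | u < M.2.2} * ENNReal.ofReal (u ^ (y - 1))
              ≤ 1 * ENNReal.ofReal (u ^ (y - 1)) := by
                gcongr
                exact prob_le_one
            _ = _ := one_mul _
      _ = ENNReal.ofReal (1 ^ (y - 1 + 1) / (y - 1 + 1)) := lintegral_Ioc_rpow _ _ (by linarith) (by norm_num)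
      _ < ∞ := ENNReal.ofReal_lt_top
  · calc ∫⁻ u in Ioi (1 : ℝ), P {M | u < M.2.2} * ENNReal.ofReal (u ^ (y - 1))
        ≤ ∫⁻ u in Ioi (1 : ℝ), ENNReal.ofReal (2 * t) * ENNReal.ofReal (u ^ (y - 1 - s)) := by
          apply setLIntegral_mono' measurableSet_Ioi
          intro u hu
          have hu' : (0 : ℝ) < u := lt_trans one_pos hu
          calc P {M | u < M.2.2} * ENNReal.ofReal (u ^ (y - 1))
              ≤ ENNReal.ofReal (2 * t * u ^ (-s)) * ENNReal.ofReal (u ^ (y - 1)) := by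
                gcongr
                exact tail ht hL hu'
            _ = ENNReal.ofReal (2 * t) * ENNReal.ofReal (u ^ (y - 1 - s)) := by
                rw [← ENNReal.ofReal_mul (by positivity), ← ENNReal.ofReal_mul (by positivity)]
                congr 1
                rw [mul_assoc, ← Real.rpow_add hu']
                ring_nf
      _ = ENNReal.ofReal (2 * t) * ENNReal.ofReal (-1 ^ (y - 1 - s + 1) / (y - 1 - s + 1)) := by
          rw [lintegral_const_mul' _ _ ENNReal.ofReal_ne_top,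
            lintegral_Ioi_rpow _ _ (by linarith) one_pos]
      _ < ∞ := ENNReal.mul_lt_top ENNReal.ofReal_lt_top ENNReal.ofReal_lt_top

/-- module N2 -/
theorem main (hN1 : StmtN1) : StmtN2 := by
  intro s t P hs hs1 ht hL p x hp hx hxs
  obtain ⟨hpos, -⟩ := hN1 s t P hs hs1 ht hL
  have hsx : 0 < s - x := by linarith
  set k : ℝ := 2 + (x + 1 / 2) / (s - x) with hk
  have hfr : 0 < (x + 1 / 2) / (s - x) := by positivity
  have hk1 : 1 < k := by linarith
  have hk0 : 0 < k := by linarith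
  set k' : ℝ := k / (k - 1) with hk'
  have hconj : k.HolderConjugate k' := by
    rw [Real.holderConjugate_iff]
    refine ⟨hk1, ?_⟩
    rw [hk']
    have : k - 1 ≠ 0 := by linarith
    field_simp
    ring
  have hk'1 : 1 < k' := hconj.symm.lt
  set y : ℝ := (x + 1 / (2 * k)) * k' with hy
  have hy0 : 0 < y := by positivity
  have hys : y < s := by
    have h1 : y = x + (x + 1 / 2) / (k - 1) := by
      rw [hy, hk']
      have : k - 1 ≠ 0 := by linarith
      field_simp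
      ring
    rw [h1]
    have h2 : (x + 1 / 2) / (k - 1) < s - x := by
      rw [div_lt_iff₀ (by linarith)]
      have h3 : (s - x) * (k - 1) = (s - x) + (x + 1 / 2) := by
        rw [hk]
        field_simp
        ring
      linarith
    linarith
  have hM1 := mom1 hs ht hL hpos (k := p * k) (by positivity)
  have hM2 := mom2 ht hL hy0 hys
  refine lt_of_le_of_lt ?_ (ENNReal.add_lt_top.2 ⟨hM1, hM2⟩)
  rw [← lintegral_add_right _ (by fun_prop)]
  apply lintegral_mono_ae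
  filter_upwards [hL.supp, hpos] with M hM hM0
  have hc := hM0.1
  have hθ := th_pos ht hM hM0.2
  rw [← ENNReal.ofReal_add (by positivity) (by positivity)]
  apply ENNReal.ofReal_le_ofReal
  have hY := Real.young_inequality_of_nonneg
    (a := th M ^ (-p) * M.2.2 ^ (-(1 / (2 * k)))) (b := M.2.2 ^ (x + 1 / (2 * k)))
    (by positivity) (by positivity) hconj
  have e1 : th M ^ (-p) * M.2.2 ^ (-(1 / (2 * k))) * M.2.2 ^ (x + 1 / (2 * k)) =
      M.2.2 ^ x * th M ^ (-p) := by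
    rw [mul_assoc, ← Real.rpow_add hc, mul_comm]
    congr 2
    ring
  have e2 : (th M ^ (-p) * M.2.2 ^ (-(1 / (2 * k)))) ^ k =
      th M ^ (-(p * k)) * M.2.2 ^ (-(1 / 2 : ℝ)) := by
    rw [Real.mul_rpow (by positivity) (by positivity), ← Real.rpow_mul hθ.le,
      ← Real.rpow_mul hc.le]
    congr 2
    · ring
    · field_simp
  have e3 : (M.2.2 ^ (x + 1 / (2 * k))) ^ k' = M.2.2 ^ y := by
    rw [← Real.rpow_mul hc.le]
  rw [e1, e2, e3] at hY
  refine hY.trans (add_le_add ?_ ?_)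
  · exact div_le_self (by positivity) hk1.le
  · exact div_le_self (by positivity) hk'1.le

end Pool.Agent.L0h89.FK.N2
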