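import Pool.Agent.L0h88.FK.IP
import Pool.Agent.L0h88.FK.LV

/-!
# P: existence of the law of the covariance matrix
-/

set_option autoImplicit false

open MeasureTheory Set Filter Topology
open scoped ENNReal

namespace Pool.Agent.L0h89.FK.P

open Pool.Agent.L0h88.FK

/-- conversion to reals -/
noncomputable def toR (x : E3) : Mat := (x.1.toReal, x.2.1.toReal, x.2.2.toReal)

/-- the jumps -/
noncomputable def jE (p : ℝ × ℝ) : E3 :=
  (ENNReal.ofReal (p.1 * p.2 ^ 2), ENNReal.ofReal (p.1 * p.2), ENNReal.ofReal p.1)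

/-- finite triples in the cone -/
def D (t : ℝ) : Set E3 := {x | x.1 ≠ ∞ ∧ x.2.1 ≠ ∞ ∧ x.2.2 ≠ ∞ ∧ toR x ∈ cone t}

lemma toR_meas : Measurable toR := by unfold toR; fun_prop

lemma jE_meas : Measurable jE := by unfold jE; fun_prop

lemma cone_closed (t : ℝ) : IsClosed (cone t) := by
  have e : cone t = {M : Mat | 0 ≤ M.2.1} ∩ ({M : Mat | M.2.1 ≤ t * M.2.2} ∩
      ({M : Mat | 0 ≤ M.1} ∩ ({M : Mat | M.1 ≤ t * M.2.1} ∩
        {M : Mat | M.2.1 ^ 2 ≤ M.1 * M.2.2}))) := by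
    ext M; simp [cone]
  rw [e]
  refine IsClosed.inter (isClosed_le (by fun_prop) (by fun_prop)) (IsClosed.inter
    (isClosed_le (by fun_prop) (by fun_prop)) (IsClosed.inter
    (isClosed_le (by fun_prop) (by fun_prop)) (IsClosed.inter
    (isClosed_le (by fun_prop) (by fun_prop)) (isClosed_le (by fun_prop) (by fun_prop)))))

lemma D_meas (t : ℝ) : MeasurableSet (D t) := by
  have e : D t = {x : E3 | x.1 = ∞}ᶜ ∩ ({x : E3 | x.2.1 = ∞}ᶜ ∩ ({x : E3 | x.2.2 = ∞}ᶜ ∩
      toR ⁻¹' (cone t))) := by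
    ext x; simp [D]
  rw [e]
  refine MeasurableSet.inter ?_ (MeasurableSet.inter ?_ (MeasurableSet.inter ?_ ?_))
  · exact (measurableSet_eq_fun (by fun_prop) measurable_const).compl
  · exact (measurableSet_eq_fun (by fun_prop) measurable_const).compl
  · exact (measurableSet_eq_fun (by fun_prop) measurable_const).compl
  · exact toR_meas (cone_closed t).measurableSet

lemma toR_add {x y : E3} (h1 : x.1 ≠ ∞) (h2 : x.2.1 ≠ ∞) (h3 : x.2.2 ≠ ∞) (k1 : y.1 ≠ ∞)
    (k2 : y.2.1 ≠ ∞) (k3 : y.2.2 ≠ ∞) : toR (x + y) = toR x + toR y := by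
  unfold toR
  simp only [Prod.fst_add, Prod.snd_add, Prod.mk_add_mk]
  rw [ENNReal.toReal_add h1 k1, ENNReal.toReal_add h2 k2, ENNReal.toReal_add h3 k3]

lemma zero_mem (t : ℝ) : (0 : E3) ∈ D t := by
  refine ⟨by simp, by simp, by simp, ?_⟩
  simp [toR, cone]

lemma add_mem {t : ℝ} (ht : 0 < t) : ∀ x ∈ D t, ∀ y ∈ D t, x + y ∈ D t := by
  rintro x ⟨h1, h2, h3, h4⟩ y ⟨k1, k2, k3, k4⟩
  refine ⟨?_, ?_, ?_, ?_⟩
  · exact ENNReal.add_ne_top.2 ⟨h1, k1⟩
  · exact ENNReal.add_ne_top.2 ⟨h2, k2⟩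
  · exact ENNReal.add_ne_top.2 ⟨h3, k3⟩
  · rw [toR_add h1 h2 h3 k1 k2 k3]
    exact add_mem_cone ht h4 k4

lemma toR_jE {p : ℝ × ℝ} (h1 : 0 < p.1) (h2 : 0 ≤ p.2) : toR (jE p) = J p := by
  unfold toR jE J
  simp only
  rw [ENNReal.toReal_ofReal (by positivity), ENNReal.toReal_ofReal (by positivity),
    ENNReal.toReal_ofReal h1.le]

lemma jE_mem {t : ℝ} {p : ℝ × ℝ} (h1 : 0 < p.1) (h2 : p.2 ∈ Icc 0 t) : jE p ∈ D t := by
  refine ⟨ENNReal.ofReal_ne_top, ENNReal.ofReal_ne_top, ENNReal.ofReal_ne_top, ?_⟩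
  rw [toR_jE h1 h2.1]
  exact J_mem_cone h1.le h2.1 h2.2

/-- the finite pieces of `rho` -/
noncomputable def rk (s t : ℝ) (k : ℕ) : Measure (ℝ × ℝ) := sfiniteSeq (rho s t) k

instance (s t : ℝ) (k : ℕ) : IsFiniteMeasure (rk s t k) := by unfold rk; infer_instance

lemma sum_rk (s t : ℝ) : Measure.sum (rk s t) = rho s t := sum_sfiniteSeq (rho s t)

lemma rk_good (s t : ℝ) (k : ℕ) : ∀ᵐ p ∂(rk s t k), 0 < p.1 ∧ p.2 ∈ Icc 0 t := by
  have h := rho_good s t
  rw [← sum_rk s t, Measure.ae_sum_iff] at h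
  exact h k

/-- the law of the sequence -/
noncomputable def Q0 (s t : ℝ) : Measure (ℕ → E3) := PP (rk s t) jE

instance (s t : ℝ) : IsProbabilityMeasure (Q0 s t) := by unfold Q0; infer_instance

lemma all_D {s t : ℝ} (ht : 0 < t) : ∀ᵐ ω ∂(Q0 s t), ∀ k, ω k ∈ D t := by
  unfold Q0 PP
  apply all_mem
  intro k
  apply cp_supp _ (D_meas t) (zero_mem t) (add_mem ht)
  refine (ae_map_iff (p := fun x => x ∈ D t) jE_meas.aemeasurable (D_meas t)).2 ?_
  filter_upwards [rk_good s t k] with p hp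
  exact jE_mem hp.1 hp.2

lemma Sn_D {t : ℝ} (ht : 0 < t) {ω : ℕ → E3} (h : ∀ k, ω k ∈ D t) (n : ℕ) : Sn n ω ∈ D t := by
  induction n with
  | zero => simpa [Sn] using zero_mem t
  | succ n ih =>
    have e : Sn (n + 1) ω = Sn n ω + ω n := Finset.sum_range_succ _ _
    rw [e]
    exact add_mem ht _ ih _ (h n)

lemma Sn_c (ω : ℕ → E3) : Tendsto (fun n => (Sn n ω).2.2) atTop (𝓝 (S ω).2.2) := by
  simp_rw [Sn_eq]
  exact ENNReal.tendsto_nat_tsum _

lemma toR_Sn {ω : ℕ → E3} (h1 : (S ω).1 ≠ ∞) (h2 : (S ω).2.1 ≠ ∞) (h3 : (S ω).2.2 ≠ ∞) :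
    Tendsto (fun n => toR (Sn n ω)) atTop (𝓝 (toR (S ω))) := by
  unfold toR
  refine Tendsto.prodMk_nhds ?_ (Tendsto.prodMk_nhds ?_ ?_)
  · refine (ENNReal.tendsto_toReal h1).comp ?_
    simp_rw [Sn_eq]
    exact ENNReal.tendsto_nat_tsum _
  · refine (ENNReal.tendsto_toReal h2).comp ?_
    simp_rw [Sn_eq]
    exact ENNReal.tendsto_nat_tsum _
  · exact (ENNReal.tendsto_toReal h3).comp (Sn_c ω)

/-- the exponential of `-l c`, equal to `0` if `c = ∞` -/
noncomputable def fl (l : ℝ) (x : E3) : ℝ≥0∞ :=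
  if x.2.2 = ∞ then 0 else ENNReal.ofReal (Real.exp (-(l * x.2.2.toReal)))

lemma fl_meas (l : ℝ) : Measurable (fl l) := by
  unfold fl
  refine Measurable.ite ?_ measurable_const (by fun_prop)
  exact measurableSet_eq_fun (by fun_prop) measurable_const

lemma fl_lim {t l : ℝ} (ht : 0 < t) (hl : 0 < l) {ω : ℕ → E3} (h : ∀ k, ω k ∈ D t) :
    Tendsto (fun n => fl l (Sn n ω)) atTop (𝓝 (fl l (S ω))) := by
  have hfin : ∀ n, (Sn n ω).2.2 ≠ ∞ := fun n => (Sn_D ht h n).2.2.1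
  have e : ∀ n, fl l (Sn n ω) = ENNReal.ofReal (Real.exp (-(l * (Sn n ω).2.2.toReal))) := by
    intro n
    unfold fl
    rw [if_neg (hfin n)]
  simp_rw [e]
  by_cases hS : (S ω).2.2 = ∞
  · have e2 : fl l (S ω) = ENNReal.ofReal 0 := by
      unfold fl
      rw [if_pos hS, ENNReal.ofReal_zero]
    rw [e2]
    apply ENNReal.tendsto_ofReal
    have h1 : Tendsto (fun n => (Sn n ω).2.2.toReal) atTop atTop := by
      have h2 := Sn_c ω
      rw [hS, ENNReal.tendsto_nhds_top_iff_nnreal] at h2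
      rw [tendsto_atTop]
      intro b
      filter_upwards [h2 b.toNNReal] with n hn
      have h3 : ((b.toNNReal : ℝ≥0∞)).toReal ≤ (Sn n ω).2.2.toReal :=
        ENNReal.toReal_mono (hfin n) hn.le
      rw [ENNReal.coe_toReal, Real.coe_toNNReal'] at h3
      exact (le_max_left _ _).trans h3
    have h3 : Tendsto (fun n => l * (Sn n ω).2.2.toReal) atTop atTop :=
      h1.const_mul_atTop hl
    exact Real.tendsto_exp_neg_atTop_nhds_zero.comp h3
  · have e2 : fl l (S ω) = ENNReal.ofReal (Real.exp (-(l * (S ω).2.2.toReal))) := by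
      unfold fl
      rw [if_neg hS]
    rw [e2]
    apply ENNReal.tendsto_ofReal
    have h1 : Tendsto (fun n => (Sn n ω).2.2.toReal) atTop (𝓝 (S ω).2.2.toReal) :=
      (ENNReal.tendsto_toReal hS).comp (Sn_c ω)
    exact (Real.continuous_exp.tendsto _).comp ((h1.const_mul l).neg)

lemma fl_int {s t l : ℝ} (h0 : 0 < s) (h1 : s < 1) (ht : 0 < t) (hl : 0 < l) :
    ∫⁻ ω, fl l (S ω) ∂(Q0 s t) = ENNReal.ofReal (Real.exp (-(t * l ^ s))) := by
  have hexp : ∫⁻ p, (1 - fl l (jE p)) ∂(Measure.sum (rk s t)) = ENNReal.ofReal (t * l ^ s) := by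
    rw [sum_rk]
    have e1 : ∫⁻ p, (1 - fl l (jE p)) ∂(rho s t) =
        ∫⁻ p, ENNReal.ofReal (1 - Real.exp (-(p.1 * (fun _ : ℝ => l) p.2))) ∂(rho s t) := by
      apply lintegral_congr_ae
      filter_upwards [rho_good s t] with p hp
      unfold fl jE
      simp only [ENNReal.ofReal_ne_top, if_false]
      rw [ENNReal.toReal_ofReal hp.1.le, ENNReal.ofReal_sub _ (Real.exp_pos _).le,
        ENNReal.ofReal_one, mul_comm l]
    rw [e1, rho_exp h0 h1 ht continuous_const (fun _ => hl.le)]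
    congr 1
    simp
  have h := laplace (rk s t) jE jE_meas (D_meas t) (zero_mem t) (add_mem ht)
    (fun k => by
      filter_upwards [rk_good s t k] with p hp
      exact jE_mem hp.1 hp.2) (f := fl l) (fl_meas l) (by simp [fl]) (by
      intro x
      unfold fl
      split_ifs with hx
      · exact zero_le
      · rw [← ENNReal.ofReal_one]
        apply ENNReal.ofReal_le_ofReal
        rw [Real.exp_le_one_iff]
        have : 0 ≤ l * x.2.2.toReal := by positivity
        linarith) (by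
      intro x hx y hy
      have hxy : (x + y).2.2 ≠ ∞ := (add_mem ht x hx y hy).2.2.1
      unfold fl
      rw [if_neg hxy, if_neg hx.2.2.1, if_neg hy.2.2.1, ← ENNReal.ofReal_mul (Real.exp_pos _).le,
        ← Real.exp_add, Prod.snd_add, Prod.snd_add, ENNReal.toReal_add hx.2.2.1 hy.2.2.1]
      congr 2
      ring) (by rw [hexp]; exact ENNReal.ofReal_ne_top) (g := fun ω => fl l (S ω)) (by
      have := all_D (s := s) ht
      unfold Q0 at this
      filter_upwards [this] with ω hω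
      exact fl_lim ht hl hω)
  rw [hexp, ENNReal.toReal_ofReal (by positivity)] at h
  exact h

lemma c_fin {s t : ℝ} (h0 : 0 < s) (h1 : s < 1) (ht : 0 < t) :
    ∀ᵐ ω ∂(Q0 s t), (S ω).2.2 ≠ ∞ := by
  have hmeas : MeasurableSet {ω : ℕ → E3 | (S ω).2.2 ≠ ∞} := by
    have := S_meas
    exact (measurableSet_eq_fun (by fun_prop) measurable_const).compl
  have hle : ∀ l : ℝ, 0 < l → ENNReal.ofReal (Real.exp (-(t * l ^ s))) ≤
      Q0 s t {ω : ℕ → E3 | (S ω).2.2 ≠ ∞} := by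
    intro l hl
    rw [← fl_int h0 h1 ht hl]
    calc ∫⁻ ω, fl l (S ω) ∂(Q0 s t) ≤
        ∫⁻ ω, indicator {ω : ℕ → E3 | (S ω).2.2 ≠ ∞} (fun _ => 1) ω ∂(Q0 s t) := by
          apply lintegral_mono
          intro ω
          by_cases hω : (S ω).2.2 = ∞
          · simp [fl, hω]
          · have : ω ∈ {ω : ℕ → E3 | (S ω).2.2 ≠ ∞} := hω
            rw [indicator_of_mem this]
            show fl l (S ω) ≤ 1
            unfold fl
            rw [if_neg hω, ← ENNReal.ofReal_one]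
            apply ENNReal.ofReal_le_ofReal
            rw [Real.exp_le_one_iff]
            have : 0 ≤ l * (S ω).2.2.toReal := by positivity
            linarith
      _ = _ := by rw [lintegral_indicator_const hmeas, one_mul]
  have hlim : Tendsto (fun l : ℝ => ENNReal.ofReal (Real.exp (-(t * l ^ s)))) (𝓝[>] 0)
      (𝓝 (ENNReal.ofReal 1)) := by
    apply ENNReal.tendsto_ofReal
    have hc : Continuous (fun l : ℝ => Real.exp (-(t * l ^ s))) := by
      have : Continuous fun l : ℝ => l ^ s := continuous_id.rpow_const fun _ => Or.inr h0.le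
      fun_prop
    have := hc.tendsto 0
    simp only [Real.zero_rpow h0.ne', mul_zero, neg_zero, Real.exp_zero] at this
    exact this.mono_left nhdsWithin_le_nhds
  have h2 : ENNReal.ofReal 1 ≤ Q0 s t {ω : ℕ → E3 | (S ω).2.2 ≠ ∞} := by
    refine le_of_tendsto hlim ?_
    filter_upwards [self_mem_nhdsWithin] with l hl
    exact hle l hl
  rw [ENNReal.ofReal_one] at h2
  exact (prob_compl_eq_zero_iff hmeas).2 (le_antisymm prob_le_one h2)

lemma S_D {s t : ℝ} (h0 : 0 < s) (h1 : s < 1) (ht : 0 < t) :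
    ∀ᵐ ω ∂(Q0 s t), S ω ∈ D t ∧ Tendsto (fun n => toR (Sn n ω)) atTop (𝓝 (toR (S ω))) := by
  filter_upwards [all_D (s := s) ht, c_fin h0 h1 ht] with ω hω hc
  have hb : (S ω).2.1 ≠ ∞ := by
    refine ne_top_of_le_ne_top (ENNReal.mul_ne_top (ENNReal.ofReal_ne_top (r := t)) hc) ?_
    show ∑' k, (ω k).2.1 ≤ ENNReal.ofReal t * ∑' k, (ω k).2.2
    rw [← ENNReal.tsum_mul_left]
    apply ENNReal.tsum_le_tsum
    intro k
    obtain ⟨k1, k2, k3, k4⟩ := hω k
    have h5 : (ω k).2.1.toReal ≤ t * (ω k).2.2.toReal := k4.2.1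
    rw [← ENNReal.ofReal_toReal k2, ← ENNReal.ofReal_toReal k3, ← ENNReal.ofReal_mul ht.le]
    exact ENNReal.ofReal_le_ofReal h5
  have ha : (S ω).1 ≠ ∞ := by
    refine ne_top_of_le_ne_top (ENNReal.mul_ne_top (ENNReal.ofReal_ne_top (r := t)) hb) ?_
    show ∑' k, (ω k).1 ≤ ENNReal.ofReal t * ∑' k, (ω k).2.1
    rw [← ENNReal.tsum_mul_left]
    apply ENNReal.tsum_le_tsum
    intro k
    obtain ⟨k1, k2, k3, k4⟩ := hω k
    have h5 : (ω k).1.toReal ≤ t * (ω k).2.1.toReal := k4.2.2.2.1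
    rw [← ENNReal.ofReal_toReal k1, ← ENNReal.ofReal_toReal k2, ← ENNReal.ofReal_mul ht.le]
    exact ENNReal.ofReal_le_ofReal h5
  have hlim := toR_Sn ha hb hc
  refine ⟨⟨ha, hb, hc, ?_⟩, hlim⟩
  exact (cone_closed t).mem_of_tendsto hlim
    (Filter.Eventually.of_forall fun n => (Sn_D ht hω n).2.2.2)

/-- linear functionals are nonnegative on the cone -/
lemma ell_nonneg {t : ℝ} (ht : 0 < t) {M : Mat} (hM : M ∈ cone t) {A B C : ℝ} (hA : 0 ≤ A)
    (hC : 0 ≤ C) (hB : B ^ 2 ≤ A * C) : 0 ≤ A * M.1 + 2 * B * M.2.1 + C * M.2.2 := by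
  have hc := c_nonneg ht hM
  obtain ⟨h1, h2, h3, h4, h5⟩ := hM
  have h6 : (2 * B * M.2.1) ^ 2 ≤ (A * M.1 + C * M.2.2) ^ 2 := by
    have h7 : B ^ 2 * M.2.1 ^ 2 ≤ (A * C) * (M.1 * M.2.2) :=
      mul_le_mul hB h5 (sq_nonneg _) (mul_nonneg hA hC)
    nlinarith [sq_nonneg (A * M.1 - C * M.2.2)]
  have h8 : 0 ≤ A * M.1 + C * M.2.2 := by positivity
  have := (abs_le_of_sq_le_sq' h6 h8).1
  linarith

lemma quad_nonneg {A B C : ℝ} (hA : 0 ≤ A) (hC : 0 ≤ C) (hB : B ^ 2 ≤ A * C) (τ : ℝ) :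
    0 ≤ A * τ ^ 2 + 2 * B * τ + C := by
  rcases hA.eq_or_lt with h | h
  · subst h
    have : B = 0 := by nlinarith [sq_nonneg B]
    subst this
    simp [hC]
  · have h1 : 0 ≤ A * (A * τ ^ 2 + 2 * B * τ + C) := by
      nlinarith [sq_nonneg (A * τ + B)]
    exact nonneg_of_mul_nonneg_right h1 h

theorem main : StmtP := by
  intro s t h0 h1 ht
  have hS := S_meas
  have hR := toR_meas
  have hSR : Measurable (fun ω => toR (S ω)) := hR.comp hS
  refine ⟨(Q0 s t).map (fun ω => toR (S ω)), ?_, ?_, ?_, ?_⟩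
  · exact Measure.isProbabilityMeasure_map hSR.aemeasurable
  · refine (ae_map_iff (p := fun x => x ∈ cone t) hSR.aemeasurable
      (cone_closed t).measurableSet).2 ?_
    filter_upwards [S_D h0 h1 ht] with ω hω
    exact hω.1.2.2.2
  · intro A B C hA hC hB
    set f : E3 → ℝ≥0∞ := fun x => ENNReal.ofReal (Real.exp
      (-(max 0 (A * (toR x).1 + 2 * B * (toR x).2.1 + C * (toR x).2.2)))) with hf
    have hfm : Measurable f := by rw [hf]; fun_prop
    have hfD : ∀ x ∈ D t, f x = ENNReal.ofReal (Real.exp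
        (-(A * (toR x).1 + 2 * B * (toR x).2.1 + C * (toR x).2.2))) := by
      intro x hx
      rw [hf]
      simp only
      rw [max_eq_right (ell_nonneg ht hx.2.2.2 hA hC hB)]
    have hq := quad_nonneg hA hC hB
    have hc : Continuous (fun τ : ℝ => A * τ ^ 2 + 2 * B * τ + C) := by fun_prop
    have hexp : ∫⁻ p, (1 - f (jE p)) ∂(Measure.sum (rk s t)) =
        ENNReal.ofReal (∫ τ in (0 : ℝ)..t, (A * τ ^ 2 + 2 * B * τ + C) ^ s) := by
      rw [sum_rk, ← rho_exp h0 h1 ht hc hq]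
      apply lintegral_congr_ae
      filter_upwards [rho_good s t] with p hp
      rw [hfD _ (jE_mem hp.1 hp.2), toR_jE hp.1 hp.2.1,
        ENNReal.ofReal_sub _ (Real.exp_pos _).le, ENNReal.ofReal_one]
      congr 4
      unfold J
      ring
    have h := laplace (rk s t) jE jE_meas (D_meas t) (zero_mem t) (add_mem ht)
      (fun k => by
        filter_upwards [rk_good s t k] with p hp
        exact jE_mem hp.1 hp.2) (f := f) hfm (by simp [hf, toR]) (by
        intro x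
        rw [hf]
        simp only
        rw [← ENNReal.ofReal_one]
        apply ENNReal.ofReal_le_ofReal
        rw [Real.exp_le_one_iff]
        have : 0 ≤ max 0 (A * (toR x).1 + 2 * B * (toR x).2.1 + C * (toR x).2.2) :=
          le_max_left _ _
        linarith) (by
        intro x hx y hy
        rw [hfD _ (add_mem ht x hx y hy), hfD _ hx, hfD _ hy,
          ← ENNReal.ofReal_mul (Real.exp_pos _).le, ← Real.exp_add,
          toR_add hx.1 hx.2.1 hx.2.2.1 hy.1 hy.2.1 hy.2.2.1]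
        congr 2
        simp only [Prod.fst_add, Prod.snd_add]
        ring) (by rw [hexp]; exact ENNReal.ofReal_ne_top) (g := fun ω => f (S ω)) (by
        have := S_D h0 h1 ht
        unfold Q0 at this
        filter_upwards [this] with ω hω
        rw [hf]
        apply ENNReal.tendsto_ofReal
        have hcont : Continuous (fun M : Mat => Real.exp
          (-(max 0 (A * M.1 + 2 * B * M.2.1 + C * M.2.2)))) := by fun_prop
        exact (hcont.tendsto _).comp hω.2)
    have hint0 : 0 ≤ ∫ τ in (0 : ℝ)..t, (A * τ ^ 2 + 2 * B * τ + C) ^ s :=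
      intervalIntegral.integral_nonneg ht.le fun τ _ => Real.rpow_nonneg (hq τ) s
    rw [hexp, ENNReal.toReal_ofReal hint0] at h
    rw [integral_map hSR.aemeasurable (by
      apply Continuous.aestronglyMeasurable
      fun_prop)]
    rw [integral_eq_lintegral_of_nonneg_ae (Filter.Eventually.of_forall fun ω =>
      (Real.exp_pos _).le) (by
        apply Measurable.aestronglyMeasurable
        fun_prop)]
    have h2 : ∫⁻ ω, ENNReal.ofReal (Real.exp (-(A * (toR (S ω)).1 + 2 * B * (toR (S ω)).2.1 +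
        C * (toR (S ω)).2.2))) ∂(Q0 s t) = ∫⁻ ω, f (S ω) ∂(Q0 s t) := by
      apply lintegral_congr_ae
      filter_upwards [S_D h0 h1 ht] with ω hω
      exact (hfD _ hω.1).symm
    rw [h2]
    have h3 : ∫⁻ ω, f (S ω) ∂(Q0 s t) = ENNReal.ofReal (Real.exp
        (-∫ τ in (0 : ℝ)..t, (A * τ ^ 2 + 2 * B * τ + C) ^ s)) := h
    rw [h3, ENNReal.toReal_ofReal (Real.exp_pos _).le]
  · intro G hG
    have hJ := J_meas
    rw [lintegral_map (by fun_prop) hSR, lintegral_map _ hSR]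
    · have h := mecke (rk s t) jE jE_meas (G := fun x => G (toR x)) (hG.comp hR)
      rw [sum_rk] at h
      have e1 : ∫⁻ ω, ENNReal.ofReal (toR (S ω)).2.2 * G (toR (S ω)) ∂(Q0 s t) =
          ∫⁻ ω, (S ω).2.2 * G (toR (S ω)) ∂(Q0 s t) := by
        apply lintegral_congr_ae
        filter_upwards [S_D h0 h1 ht] with ω hω
        congr 1
        exact ENNReal.ofReal_toReal hω.1.2.2.1
      have e2 : ∫⁻ ω, ∫⁻ p, (jE p).2.2 * G (toR (S ω + jE p)) ∂(rho s t) ∂(Q0 s t) =
          ∫⁻ ω, ∫⁻ p, ENNReal.ofReal p.1 * G (toR (S ω) + J p) ∂(rho s t) ∂(Q0 s t) := by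
        apply lintegral_congr_ae
        filter_upwards [S_D h0 h1 ht] with ω hω
        apply lintegral_congr_ae
        filter_upwards [rho_good s t] with p hp
        have hj := jE_mem hp.1 hp.2
        rw [toR_add hω.1.1 hω.1.2.1 hω.1.2.2.1 hj.1 hj.2.1 hj.2.2.1, toR_jE hp.1 hp.2.1]
        rfl
      rw [e1, ← e2]
      exact h
    · exact Measurable.lintegral_prod_right'
        (f := fun q : Mat × (ℝ × ℝ) => ENNReal.ofReal q.2.1 * G (q.1 + J q.2)) (by fun_prop)

end Pool.Agent.L0h89.FK.P
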