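import Pool.Agent.L0h93.FK.Gau

/-! # R: the fundamental solution as a mixture of Gaussians -/

set_option autoImplicit false
set_option linter.unusedVariables false

open MeasureTheory Set Filter Topology
open scoped ENNReal RealInnerProductSpace

namespace Pool.Agent.L0h89.FK.R

open Pool.Agent.L0h93.FK

theorem g_meas (d : ℕ) (x v : V d) : Measurable fun M : Mat => g d M x v := by
  unfold g
  refine Measurable.mul (Measurable.mul measurable_const (det_meas.pow_const _)) ?_
  refine Real.measurable_exp.comp (Measurable.neg (Measurable.div ?_ (measurable_const.mul det_meas)))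
  fun_prop

theorem g_le {t : ℝ} (ht : 0 < t) {d : ℕ} {M : Mat} (h : M ∈ cone t) (h0 : 0 < det M) (x v : V d) :
    0 ≤ g d M x v ∧ g d M x v ≤ (4 * Real.pi) ^ (-(d : ℝ)) * det M ^ (-((d : ℝ) / 2)) := by
  have hq := qf_nonneg ht h v (-x)
  have hnum : 0 ≤ M.2.2 * ‖x‖ ^ 2 - 2 * M.2.1 * ⟪x, v⟫ + M.1 * ‖v‖ ^ 2 := by
    unfold qf at hq
    rw [norm_neg, inner_neg_right, real_inner_comm] at hq
    linarith
  unfold g
  refine ⟨by positivity, ?_⟩
  refine mul_le_of_le_one_right (by positivity) ?_
  rw [Real.exp_le_one_iff]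
  have : 0 ≤ (M.2.2 * ‖x‖ ^ 2 - 2 * M.2.1 * ⟪x, v⟫ + M.1 * ‖v‖ ^ 2) / (4 * det M) := by positivity
  linarith

/-- module R -/
theorem main (hN1 : StmtN1) : StmtR := by
  intro s t P hs hs1 ht hL d hd x v
  have hprob := hL.prob
  obtain ⟨hpos, hmom⟩ := hN1 s t P hs hs1 ht hL
  have hdi : Integrable (fun M => det M ^ (-((d : ℝ) / 2))) P := by
    refine ⟨(det_meas.pow_const _).aestronglyMeasurable, ?_⟩
    rw [hasFiniteIntegral_iff_ofReal]
    · exact hmom d hd
    · filter_upwards [hpos] with M hM
      exact Real.rpow_nonneg hM.2.le _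
  have hgi : Integrable (fun M => g d M x v) P := by
    refine (hdi.const_mul ((4 * Real.pi) ^ (-(d : ℝ)))).mono' (g_meas d x v).aestronglyMeasurable ?_
    filter_upwards [hL.supp, hpos] with M hM h0
    have := g_le ht hM h0.2 x v
    rw [Real.norm_of_nonneg this.1]
    exact this.2
  refine ⟨hgi, ?_⟩
  -- Fubini
  set F : V d × V d → Mat → ℝ := fun p M => Real.cos (⟪x, p.1⟫ + ⟪v, p.2⟫) * Real.exp (-qf M p.1 p.2)
    with hF
  have hFc : Continuous (Function.uncurry F) := by
    unfold F Function.uncurry qf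
    fun_prop
  have hFi : Integrable (Function.uncurry F) ((volume : Measure (V d × V d)).prod P) := by
    rw [integrable_prod_iff hFc.aestronglyMeasurable]
    refine ⟨Eventually.of_forall fun p => ?_, ?_⟩
    · exact (integrable_lap ht hL p.1 p.2).const_mul (Real.cos (⟪x, p.1⟫ + ⟪v, p.2⟫))
    · refine (integrable_exp_Phi hd hs ht).mono' ?_ (Eventually.of_forall fun p => ?_)
      · exact (hFc.norm.stronglyMeasurable.integral_prod_right').aestronglyMeasurable
      · rw [Real.norm_of_nonneg (integral_nonneg fun M => norm_nonneg _), ← lap_qf hL hs]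
        refine integral_mono_of_nonneg (Eventually.of_forall fun M => norm_nonneg _)
          (integrable_lap ht hL p.1 p.2) (Eventually.of_forall fun M => ?_)
        simp only [Function.uncurry, hF]
        rw [norm_mul, Real.norm_of_nonneg (Real.exp_pos _).le]
        refine mul_le_of_le_one_left (Real.exp_pos _).le ?_
        exact Real.abs_cos_le_one _
  have h1 : ∫ p : V d × V d, Real.cos (⟪x, p.1⟫ + ⟪v, p.2⟫) * Real.exp (-Phi d s t p.1 p.2) =
      ∫ M, (∫ p : V d × V d, F p M) ∂P := by
    rw [← integral_integral_swap hFi]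
    refine integral_congr_ae (Eventually.of_forall fun p => ?_)
    beta_reduce
    rw [← lap_qf hL hs, hF, integral_const_mul]
  unfold K
  rw [h1, ← integral_const_mul]
  refine integral_congr_ae ?_
  filter_upwards [hL.supp, hpos] with M hM h0
  have h2 := gauss_two_re hd ht hM h0.2 x v
  simp only [hF]
  rw [h2]
  unfold g
  have h3 : ((2 * Real.pi) ^ (2 * d))⁻¹ * Real.pi ^ (d : ℝ) = (4 * Real.pi) ^ (-(d : ℝ)) := by
    rw [Real.rpow_neg (by positivity), Real.rpow_natCast, Real.rpow_natCast, pow_mul]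
    have : (2 * Real.pi) ^ 2 = (4 * Real.pi) * Real.pi := by ring
    rw [this, mul_pow (4 * Real.pi) Real.pi d]
    field_simp
  rw [← h3]
  ring

end Pool.Agent.L0h89.FK.R
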