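import Pool.Agent.L0h93.FK.Gau

/-! # S: the mixture `pst` is the isotropic stable density -/

set_option autoImplicit false
set_option linter.unusedVariables false

open MeasureTheory Set Filter Topology
open scoped ENNReal RealInnerProductSpace

namespace Pool.Agent.L0h89.FK.S

open Pool.Agent.L0h93.FK

/-- `∫_0^t |τ - τ₀|^{2s} dτ` -/
theorem int_abs_rpow {s t τ₀ : ℝ} (hs : 0 < s) (h0 : τ₀ ∈ Icc (0 : ℝ) t) :
    ∫ τ in (0 : ℝ)..t, |τ - τ₀| ^ (2 * s) =
      (τ₀ ^ (2 * s + 1) + (t - τ₀) ^ (2 * s + 1)) / (2 * s + 1) := by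
  have hc : Continuous fun τ : ℝ => |τ - τ₀| ^ (2 * s) :=
    Continuous.rpow_const (by fun_prop) fun x => Or.inr (by linarith)
  rw [← intervalIntegral.integral_add_adjacent_intervals (hc.intervalIntegrable 0 τ₀)
    (hc.intervalIntegrable τ₀ t)]
  have h1 : ∫ τ in (0 : ℝ)..τ₀, |τ - τ₀| ^ (2 * s) = τ₀ ^ (2 * s + 1) / (2 * s + 1) := by
    have e : ∫ τ in (0 : ℝ)..τ₀, |τ - τ₀| ^ (2 * s) = ∫ τ in (0 : ℝ)..τ₀, (τ₀ - τ) ^ (2 * s) := by
      refine intervalIntegral.integral_congr fun τ hτ => ?_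
      rw [uIcc_of_le h0.1] at hτ
      rw [abs_of_nonpos (by linarith [hτ.2])]
      congr 1; ring
    rw [e, intervalIntegral.integral_comp_sub_left (fun x : ℝ => x ^ (2 * s)) τ₀, sub_self, sub_zero,
      integral_rpow (Or.inl (by linarith)), Real.zero_rpow (by linarith)]
    ring
  have h2 : ∫ τ in τ₀..t, |τ - τ₀| ^ (2 * s) = (t - τ₀) ^ (2 * s + 1) / (2 * s + 1) := by
    have e : ∫ τ in τ₀..t, |τ - τ₀| ^ (2 * s) = ∫ τ in τ₀..t, (τ - τ₀) ^ (2 * s) := by
      refine intervalIntegral.integral_congr fun τ hτ => ?_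
      rw [uIcc_of_le h0.2] at hτ
      rw [abs_of_nonneg (by linarith [hτ.1])]
    rw [e, intervalIntegral.integral_comp_sub_right (fun x : ℝ => x ^ (2 * s)) τ₀, sub_self,
      integral_rpow (Or.inl (by linarith)), Real.zero_rpow (by linarith)]
    ring
  rw [h1, h2]
  ring

theorem A_pos {s t τ₀ : ℝ} (hs : 0 < s) (ht : 0 < t) (h0 : τ₀ ∈ Icc (0 : ℝ) t) :
    0 < (τ₀ ^ (2 * s + 1) + (t - τ₀) ^ (2 * s + 1)) / (2 * s + 1) := by
  have h1 : 0 ≤ τ₀ ^ (2 * s + 1) := Real.rpow_nonneg h0.1 _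
  have h2 : 0 ≤ (t - τ₀) ^ (2 * s + 1) := Real.rpow_nonneg (by linarith [h0.2]) _
  rcases h0.1.lt_or_eq with h | h
  · have : 0 < τ₀ ^ (2 * s + 1) := Real.rpow_pos_of_pos h _
    positivity
  · have : 0 < (t - τ₀) ^ (2 * s + 1) := Real.rpow_pos_of_pos (by rw [← h]; linarith) _
    positivity

/-- Laplace transform of `Q_{τ₀}` -/
theorem lap_Q {s t : ℝ} {P : Measure Mat} (hL : Law s t P) (hs : 0 < s) {τ₀ : ℝ}
    (h0 : τ₀ ∈ Icc (0 : ℝ) t) {l : ℝ} (hl : 0 ≤ l) :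
    ∫ M, Real.exp (-(l * Q τ₀ M)) ∂P =
      Real.exp (-(l ^ s * ((τ₀ ^ (2 * s + 1) + (t - τ₀) ^ (2 * s + 1)) / (2 * s + 1)))) := by
  have h := hL.lap l (-(l * τ₀)) (l * τ₀ ^ 2) hl (by positivity) (by
    refine le_of_eq ?_; ring)
  have e1 : ∀ M : Mat, l * Q τ₀ M = l * M.1 + 2 * (-(l * τ₀)) * M.2.1 + l * τ₀ ^ 2 * M.2.2 := by
    intro M; unfold Q; ring
  simp only [e1]
  rw [h, ← int_abs_rpow hs h0, ← intervalIntegral.integral_const_mul]
  congr 2
  refine intervalIntegral.integral_congr fun τ _ => ?_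
  have e2 : l * τ ^ 2 + 2 * (-(l * τ₀)) * τ + l * τ₀ ^ 2 = l * |τ - τ₀| ^ 2 := by
    rw [sq_abs]; ring
  rw [e2, Real.mul_rpow hl (sq_nonneg _), ← Real.rpow_natCast, ← Real.rpow_mul (abs_nonneg _)]
  norm_num

theorem integrable_lapQ {s t : ℝ} (ht : 0 < t) {P : Measure Mat} (hL : Law s t P)
    (hpos : ∀ᵐ M ∂P, 0 < M.2.2 ∧ 0 < det M) (τ₀ : ℝ) {l : ℝ} (hl : 0 ≤ l) :
    Integrable (fun M => Real.exp (-(l * Q τ₀ M))) P := by
  have := hL.prob
  refine Integrable.of_bound (C := 1) ?_ ?_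
  · exact (Real.measurable_exp.comp ((Q_meas τ₀).const_mul l).neg).aestronglyMeasurable
  · filter_upwards [hL.supp, hpos] with M hM h0
    rw [Real.norm_of_nonneg (Real.exp_pos _).le, Real.exp_le_one_iff]
    have := Q_pos ht hM h0.2 τ₀
    have : 0 ≤ l * Q τ₀ M := by positivity
    linarith

/-- module S -/
theorem main (hN1 : StmtN1) : StmtS := by
  intro s t P hs hs1 ht hL d hd τ₀ h0 y
  have hprob := hL.prob
  obtain ⟨hpos, -⟩ := hN1 s t P hs hs1 ht hL
  set A : ℝ := (τ₀ ^ (2 * s + 1) + (t - τ₀) ^ (2 * s + 1)) / (2 * s + 1) with hA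
  have hA0 : 0 < A := A_pos hs ht h0
  have hne : Nonempty (Fin d) := ⟨⟨0, hd⟩⟩
  have hnt : Nontrivial (V d) := inferInstance
  have hlap : ∀ θ : V d, ∫ M, Real.exp (-(‖θ‖ ^ 2 * Q τ₀ M)) ∂P =
      Real.exp (-(A * ‖θ‖ ^ (2 * s))) := by
    intro θ
    rw [lap_Q hL hs h0 (sq_nonneg _), ← Real.rpow_natCast, ← Real.rpow_mul (norm_nonneg _), ← hA,
      mul_comm A]
    norm_num
  set F : V d → Mat → ℝ := fun θ M => Real.cos ⟪y, θ⟫ * Real.exp (-(‖θ‖ ^ 2 * Q τ₀ M)) with hF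
  have hFc : Measurable (Function.uncurry F) := by
    have h1 : Measurable fun z : V d × Mat => Q τ₀ z.2 := (Q_meas τ₀).comp measurable_snd
    have h2 : Measurable fun z : V d × Mat => Real.cos ⟪y, z.1⟫ := by
      refine Real.measurable_cos.comp ?_
      exact (by fun_prop : Continuous fun z : V d × Mat => ⟪y, z.1⟫).measurable
    have h3 : Measurable fun z : V d × Mat => ‖z.1‖ ^ 2 := by fun_prop
    exact h2.mul (Real.measurable_exp.comp (h3.mul h1).neg)
  have hFi : Integrable (Function.uncurry F) ((volume : Measure (V d)).prod P) := by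
    rw [integrable_prod_iff hFc.aestronglyMeasurable]
    refine ⟨Eventually.of_forall fun θ => ?_, ?_⟩
    · exact (integrable_lapQ ht hL hpos τ₀ (sq_nonneg ‖θ‖)).const_mul (Real.cos ⟪y, θ⟫)
    · refine (integrable_exp_norm (volume : Measure (V d)) hA0 (p := 2 * s) (by positivity)).mono' ?_
        (Eventually.of_forall fun θ => ?_)
      · exact (hFc.norm.stronglyMeasurable.integral_prod_right').aestronglyMeasurable
      · rw [Real.norm_of_nonneg (integral_nonneg fun M => norm_nonneg _), ← hlap]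
        refine integral_mono_of_nonneg (Eventually.of_forall fun M => norm_nonneg _)
          (integrable_lapQ ht hL hpos τ₀ (sq_nonneg ‖θ‖)) (Eventually.of_forall fun M => ?_)
        simp only [Function.uncurry, hF]
        rw [norm_mul, Real.norm_of_nonneg (Real.exp_pos _).le]
        refine mul_le_of_le_one_left (Real.exp_pos _).le ?_
        exact Real.abs_cos_le_one _
  have h1 : ∫ θ : V d, Real.cos ⟪y, θ⟫ * Real.exp (-(A * ‖θ‖ ^ (2 * s))) =
      ∫ M, (∫ θ : V d, F θ M) ∂P := by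
    rw [← integral_integral_swap hFi]
    refine integral_congr_ae (Eventually.of_forall fun θ => ?_)
    beta_reduce
    rw [← hlap, hF, integral_const_mul]
  unfold stab pst
  rw [h1, ← integral_const_mul]
  refine integral_congr_ae ?_
  filter_upwards [hL.supp, hpos] with M hM hM0
  have hQ := Q_pos ht hM hM0.2 τ₀
  have h2 := gauss_one_re hQ y
  simp only [hF]
  have e : ∀ θ : V d, ‖θ‖ ^ 2 * Q τ₀ M = Q τ₀ M * ‖θ‖ ^ 2 := fun θ => mul_comm _ _
  simp only [e]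
  rw [h2, ← mul_assoc]
  congr 1
  have h3 : ((2 * Real.pi) ^ d)⁻¹ * (Real.pi / Q τ₀ M) ^ ((d : ℝ) / 2) =
      (4 * Real.pi * Q τ₀ M) ^ (-((d : ℝ) / 2)) := by
    have e1 : ((2 * Real.pi) ^ d)⁻¹ = ((4 * Real.pi ^ 2)⁻¹) ^ ((d : ℝ) / 2) := by
      rw [Real.inv_rpow (by positivity)]
      congr 1
      have : 4 * Real.pi ^ 2 = (2 * Real.pi) ^ (2 : ℝ) := by rw [Real.rpow_two]; ring
      rw [this, ← Real.rpow_mul (by positivity), ← Real.rpow_natCast]
      congr 1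
      ring
    rw [e1, ← Real.mul_rpow (by positivity) (by positivity), Real.rpow_neg (by positivity),
      ← Real.inv_rpow (by positivity)]
    congr 1
    field_simp
  rw [h3]

end Pool.Agent.L0h89.FK.S
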