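import Pool.Agent.L0h89.FK.A
import Pool.Agent.L0h89.FK.B
import Pool.Agent.L0h89.FK.C
import Pool.Agent.L0h89.FK.C1
import Pool.Agent.L0h89.FK.P
import Pool.Agent.L0h89.FK.N1
import Pool.Agent.L0h89.FK.N2
import Pool.Agent.L0h89.FK.R
import Pool.Agent.L0h89.FK.S
import Pool.Agent.L0h89.FK.E
import Pool.Agent.L0h89.FK.H
import Pool.Agent.L0h89.FK.F
import Pool.Agent.L0h89.FK.I

/-! # Assembly -/

set_option autoImplicit false

open MeasureTheory Set Filter Topology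
open scoped ENNReal RealInnerProductSpace

namespace Pool.Agent.L0h89.FK.Fin

variable {s t : ℝ} {P : Measure Mat}

lemma ofReal_K (hs : 0 < s) (hs1 : s < 1) (ht : 0 < t) (hP : Law s t P) (d : ℕ) (hd : 1 ≤ d)
    (x v : V d) : ENNReal.ofReal (K d s t x v) = ∫⁻ M, ENNReal.ofReal (g d M x v) ∂P := by
  obtain ⟨hi, he⟩ := R.main N1.main s t P hs hs1 ht hP d hd x v
  rw [he, ofReal_integral_eq_lintegral_ofReal hi]
  filter_upwards [hP.supp] with M hM
  have := det_nonneg hM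
  unfold g
  simp only [Pi.zero_apply]
  positivity

lemma split3 {ρ : Measure (ℝ × ℝ)} [SFinite ρ] (fA fB fC fT : Mat → ℝ × ℝ → ℝ≥0∞)
    (hA : Measurable (Function.uncurry fA)) (hB : Measurable (Function.uncurry fB))
    (h : ∀ M p, fA M p + fB M p + fC M p = fT M p) :
    (∫⁻ M, ∫⁻ p, fA M p ∂ρ ∂P + ∫⁻ M, ∫⁻ p, fB M p ∂ρ ∂P) + ∫⁻ M, ∫⁻ p, fC M p ∂ρ ∂P =
      ∫⁻ M, ∫⁻ p, fT M p ∂ρ ∂P := by
  have hA1 : Measurable (fun M => ∫⁻ p, fA M p ∂ρ) := hA.lintegral_prod_right'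
  have hB1 : Measurable (fun M => ∫⁻ p, fB M p ∂ρ) := hB.lintegral_prod_right'
  have hA2 : ∀ M, Measurable (fA M) := fun M => hA.comp measurable_prodMk_left
  have hB2 : ∀ M, Measurable (fB M) := fun M => hB.comp measurable_prodMk_left
  have hAB1 : Measurable (fun M => ∫⁻ p, fA M p ∂ρ + ∫⁻ p, fB M p ∂ρ) := hA1.add hB1
  rw [← lintegral_add_left hA1, ← lintegral_add_left hAB1]
  apply lintegral_congr
  intro M
  have hAB2 : Measurable (fun p => fA M p + fB M p) := (hA2 M).add (hB2 M)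
  rw [← lintegral_add_left (hA2 M), ← lintegral_add_left hAB2]
  apply lintegral_congr
  intro p
  exact h M p

/-- the convergence near the cone, for the mixture -/
theorem cone_seq (hs : 0 < s) (hs1 : s < 1) (ht : 0 < t) (hP : Law s t P) (d : ℕ) (hd : 1 ≤ d)
    (x v : ℕ → V d) (τ₀ w₀ : ℝ) (χ : ℝ → ℝ)
    (hv : Tendsto (fun k => ‖v k‖) atTop atTop)
    (hτ : Tendsto (fun k => ⟪x k, v k⟫ / ‖v k‖ ^ 2) atTop (𝓝 τ₀)) (hτ₀ : τ₀ ∈ Icc (0 : ℝ) t)
    (hw : Tendsto (fun k => ‖x k - (⟪x k, v k⟫ / ‖v k‖ ^ 2) • v k‖) atTop (𝓝 w₀))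
    (hχ : ∀ᵐ σ : ℝ, Tendsto (fun k => ind (-(‖v k‖ * (⟪x k, v k⟫ / ‖v k‖ ^ 2)))
      (‖v k‖ * (t - ⟪x k, v k⟫ / ‖v k‖ ^ 2)) σ) atTop (𝓝 (χ σ))) :
    Tendsto (fun k => ENNReal.ofReal (‖v k‖ ^ (d + 1 + 2 * s) * K d s t (x k) (v k))) atTop
      (𝓝 (ENNReal.ofReal (cds d s) *
        ∫⁻ σ, ENNReal.ofReal (χ σ) * ENNReal.ofReal (pst d P τ₀ (Real.sqrt (w₀ ^ 2 + σ ^ 2))))) := by
  have hc : ∀ᵐ M ∂P, 0 < M.2.2 := by
    filter_upwards [(N1.main s t P hs hs1 ht hP).1] with M hM using hM.1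
  set τ : ℕ → ℝ := fun k => ⟪x k, v k⟫ / ‖v k‖ ^ 2 with hτdef
  set w : ℕ → ℝ := fun k => ‖x k - τ k • v k‖ with hwdef
  set R : ℕ → ℝ := fun k => ‖v k‖ with hRdef
  have hA := (A.main N1.main (N2.main N1.main) s t P hs hs1 ht hP d hd).comp
    (hv.prodMk (tendsto_top (f := τ)))
  have hB := (B.main N1.main (N2.main N1.main) s t P hs hs1 ht hP d hd).comp
    (hv.prodMk (tendsto_top (f := τ)))
  have hC := C.main N1.main (N2.main N1.main) C1.main s t P hs hs1 ht hP d hd R τ w τ₀ w₀ χ hv hτ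
    hτ₀ hw hχ
  simp only [Function.comp_def] at hA hB
  -- the three parts
  set FA : ℕ → ℝ≥0∞ := fun k => ENNReal.ofReal (R k ^ (d + 1 + 2 * s)) *
    ∫⁻ M, ∫⁻ p, (if R k ^ (2 - s / 4) < M.2.2 then
      ENNReal.ofReal (p.1 / (M.2.2 + p.1) * gr d (M + J p) (R k) (τ k) (w k)) else 0)
      ∂(rho s t) ∂P with hFA
  set FB : ℕ → ℝ≥0∞ := fun k => ENNReal.ofReal (R k ^ (d + 1 + 2 * s)) *
    ∫⁻ M, ∫⁻ p, (if M.2.2 ≤ R k ^ (2 - s / 4) ∧ p.1 ≤ R k ^ (2 - s / 4) then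
      ENNReal.ofReal (p.1 / (M.2.2 + p.1) * gr d (M + J p) (R k) (τ k) (w k)) else 0)
      ∂(rho s t) ∂P with hFB
  have hmono : ∀ k, ∀ᵐ M ∂P, ∀ᵐ p ∂(rho s t),
      ENNReal.ofReal (p.1 / (M.2.2 + p.1) * gr d (M + J p) (R k) (τ k) (w k)) ≤
      ENNReal.ofReal (p.1 / (M.2.2 + p.1) * gr d (M + J p) (R k) (τ k) 0) := by
    intro k
    filter_upwards [hP.supp, hc] with M hM hcM
    filter_upwards [I.rho_ae s t] with p hp
    apply ENNReal.ofReal_le_ofReal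
    obtain ⟨r, u⟩ := p
    have hr : 0 < r := hp.1
    have hJ : M + J (r, u) ∈ cone t := add_mem_cone ht hM (J_mem_cone hr.le hp.2.1 hp.2.2)
    exact mul_le_mul_of_nonneg_left (gr_le_gr_zero ht hJ d _ _ _) (by positivity)
  have hFA0 : Tendsto FA atTop (𝓝 0) := by
    refine tendsto_of_tendsto_of_tendsto_of_le_of_le tendsto_const_nhds hA
      (fun _ => zero_le) (fun k => ?_)
    simp only [hFA]
    gcongr ENNReal.ofReal _ * ?_
    apply lintegral_mono_ae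
    filter_upwards [hmono k] with M hM
    apply lintegral_mono_ae
    filter_upwards [hM] with p hp
    split_ifs
    · exact hp
    · exact le_rfl
  have hFB0 : Tendsto FB atTop (𝓝 0) := by
    refine tendsto_of_tendsto_of_tendsto_of_le_of_le tendsto_const_nhds hB
      (fun _ => zero_le) (fun k => ?_)
    simp only [hFB]
    gcongr ENNReal.ofReal _ * ?_
    apply lintegral_mono_ae
    filter_upwards [hmono k] with M hM
    apply lintegral_mono_ae
    filter_upwards [hM] with p hp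
    split_ifs
    · exact hp
    · exact le_rfl
  have hsum := (hFA0.add hFB0).add hC
  rw [zero_add, zero_add] at hsum
  refine hsum.congr' ?_
  have hRpos : ∀ᶠ k in atTop, 0 < R k := hv.eventually_gt_atTop 0
  filter_upwards [hRpos] with k hk
  have hvk : v k ≠ 0 := by
    intro h
    rw [hRdef] at hk
    simp [h] at hk
  have hgm := C.gr_meas d (R k) (τ k) (w k)
  have hmeas : Measurable (fun q : Mat × (ℝ × ℝ) =>
      ENNReal.ofReal (q.2.1 / (q.1.2.2 + q.2.1) * gr d (q.1 + J q.2) (R k) (τ k) (w k))) := by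
    have h2 : Measurable (fun q : Mat × (ℝ × ℝ) => q.1 + J q.2) := by
      unfold J; fun_prop
    have h3 := hgm.comp h2
    apply Measurable.ennreal_ofReal
    apply Measurable.mul _ h3
    fun_prop
  have hcm : Measurable (fun q : Mat × (ℝ × ℝ) => q.1.2.2) := by fun_prop
  have hrm : Measurable (fun q : Mat × (ℝ × ℝ) => q.2.1) := by fun_prop
  have hmA : Measurable (fun q : Mat × (ℝ × ℝ) => if R k ^ (2 - s / 4) < q.1.2.2 then
      ENNReal.ofReal (q.2.1 / (q.1.2.2 + q.2.1) * gr d (q.1 + J q.2) (R k) (τ k) (w k)) else 0) :=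
    Measurable.ite (measurableSet_lt measurable_const hcm) hmeas measurable_const
  have hmB : Measurable (fun q : Mat × (ℝ × ℝ) =>
      if q.1.2.2 ≤ R k ^ (2 - s / 4) ∧ q.2.1 ≤ R k ^ (2 - s / 4) then
      ENNReal.ofReal (q.2.1 / (q.1.2.2 + q.2.1) * gr d (q.1 + J q.2) (R k) (τ k) (w k)) else 0) :=
    Measurable.ite ((measurableSet_le hcm measurable_const).inter
      (measurableSet_le hrm measurable_const)) hmeas measurable_const
  have e1 : ENNReal.ofReal (K d s t (x k) (v k)) = ∫⁻ M, ∫⁻ p,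
      ENNReal.ofReal (p.1 / (M.2.2 + p.1) * gr d (M + J p) (R k) (τ k) (w k)) ∂(rho s t) ∂P := by
    rw [ofReal_K hs hs1 ht hP d hd]
    have e2 : ∀ M : Mat, g d M (x k) (v k) = gr d M (R k) (τ k) (w k) :=
      fun M => g_eq_gr d M (x k) (v k) hvk
    simp_rw [e2]
    rw [I.mecke1 hP hc _ hgm.ennreal_ofReal]
    apply lintegral_congr_ae
    filter_upwards [hc] with M hcM
    apply lintegral_congr_ae
    filter_upwards [I.rho_ae s t] with p hp
    have := hp.1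
    rw [← ENNReal.ofReal_mul (by positivity)]
  rw [ENNReal.ofReal_mul (by positivity), e1]
  simp only [hFA, hFB]
  rw [← mul_add, ← mul_add]
  congr 1
  refine split3 (fun M p => if R k ^ (2 - s / 4) < M.2.2 then
      ENNReal.ofReal (p.1 / (M.2.2 + p.1) * gr d (M + J p) (R k) (τ k) (w k)) else 0)
    (fun M p => if M.2.2 ≤ R k ^ (2 - s / 4) ∧ p.1 ≤ R k ^ (2 - s / 4) then
      ENNReal.ofReal (p.1 / (M.2.2 + p.1) * gr d (M + J p) (R k) (τ k) (w k)) else 0)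
    (fun M p => if M.2.2 ≤ R k ^ (2 - s / 4) ∧ R k ^ (2 - s / 4) < p.1 then
      ENNReal.ofReal (p.1 / (M.2.2 + p.1) * gr d (M + J p) (R k) (τ k) (w k)) else 0)
    _ hmA hmB (fun M p => ?_)
  by_cases h1 : R k ^ (2 - s / 4) < M.2.2
  · simp only [h1, not_le.2 h1, false_and, if_true, if_false, add_zero]
  · have h1' := not_lt.1 h1
    by_cases h2 : p.1 ≤ R k ^ (2 - s / 4)
    · simp only [h1, h1', h2, not_lt.2 h2, and_true, and_false, if_true, if_false, add_zero,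
        zero_add]
    · simp only [h1, h1', h2, not_le.1 h2, and_true, and_false, if_true, if_false, zero_add]

/-! ## The stable density -/

lemma pst_integrand_meas (d : ℕ) (τ₀ : ℝ) : Measurable (fun q : ℝ × Mat =>
    (4 * Real.pi * Q τ₀ q.2) ^ (-((d : ℝ) / 2)) * Real.exp (-(q.1 ^ 2 / (4 * Q τ₀ q.2)))) := by
  unfold Q
  fun_prop

lemma pst_meas (d : ℕ) (hP : Law s t P) (τ₀ : ℝ) : StronglyMeasurable (fun y => pst d P τ₀ y) := by
  have := hP.prob
  unfold pst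
  exact (pst_integrand_meas d τ₀).stronglyMeasurable.integral_prod_right'

lemma pst_integrable (hs : 0 < s) (hs1 : s < 1) (ht : 0 < t) (hP : Law s t P) (d : ℕ)
    (τ₀ y : ℝ) : Integrable (fun M => (4 * Real.pi * Q τ₀ M) ^ (-((d : ℝ) / 2)) *
      Real.exp (-(y ^ 2 / (4 * Q τ₀ M)))) P := by
  have hprob := hP.prob
  have hd2 : (0 : ℝ) ≤ (d : ℝ) / 2 := by positivity
  have hm2 := N2.main N1.main s t P hs hs1 ht hP ((d : ℝ) / 2) 0 hd2 le_rfl hs
  simp only [Real.rpow_zero, one_mul] at hm2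
  have hthm : Measurable th := by
    unfold th det; fun_prop
  have hB1 : Integrable (fun M => th M ^ (-((d : ℝ) / 2))) P := by
    refine ⟨(hthm.pow_const _).aestronglyMeasurable, ?_⟩
    rw [hasFiniteIntegral_iff_ofReal]
    · exact hm2
    · filter_upwards [hP.supp, (N1.main s t P hs hs1 ht hP).1] with M h1 h2
      exact Real.rpow_nonneg (th_pos ht h1 h2.2).le _
  refine Integrable.mono' (hB1.const_mul ((4 * Real.pi) ^ (-((d : ℝ) / 2)))) ?_ ?_
  · exact ((pst_integrand_meas d τ₀).comp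
      (measurable_const.prodMk measurable_id)).aestronglyMeasurable
  · filter_upwards [hP.supp, (N1.main s t P hs hs1 ht hP).1] with M h1 h2
    have hQ := Q_pos ht h1 h2.2 τ₀
    have hth := th_pos ht h1 h2.2
    have hpi := Real.pi_pos
    rw [Real.norm_of_nonneg (by positivity), Real.mul_rpow (by positivity) hQ.le]
    have h3 : Q τ₀ M ^ (-((d : ℝ) / 2)) ≤ th M ^ (-((d : ℝ) / 2)) :=
      Real.rpow_le_rpow_of_nonpos hth (th_le_Q ht h1 h2.2 τ₀) (by linarith)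
    have h4 : Real.exp (-(y ^ 2 / (4 * Q τ₀ M))) ≤ 1 := by
      apply Real.exp_le_one_iff.2
      have : 0 ≤ y ^ 2 / (4 * Q τ₀ M) := by positivity
      linarith
    calc (4 * Real.pi) ^ (-((d : ℝ) / 2)) * Q τ₀ M ^ (-((d : ℝ) / 2)) *
          Real.exp (-(y ^ 2 / (4 * Q τ₀ M)))
        ≤ (4 * Real.pi) ^ (-((d : ℝ) / 2)) * th M ^ (-((d : ℝ) / 2)) * 1 := by gcongr
      _ = _ := mul_one _

lemma pst_pos (hs : 0 < s) (hs1 : s < 1) (ht : 0 < t) (hP : Law s t P) (d : ℕ)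
    (τ₀ y : ℝ) : 0 < pst d P τ₀ y := by
  have hprob := hP.prob
  unfold pst
  have hpi := Real.pi_pos
  have hpos : ∀ᵐ M ∂P, 0 < (4 * Real.pi * Q τ₀ M) ^ (-((d : ℝ) / 2)) *
      Real.exp (-(y ^ 2 / (4 * Q τ₀ M))) := by
    filter_upwards [hP.supp, (N1.main s t P hs hs1 ht hP).1] with M h1 h2
    have hQ := Q_pos ht h1 h2.2 τ₀
    positivity
  rw [integral_pos_iff_support_of_nonneg_ae (hpos.mono fun M h => h.le)
    (pst_integrable hs hs1 ht hP d τ₀ y)]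
  have h1 : Function.support (fun M => (4 * Real.pi * Q τ₀ M) ^ (-((d : ℝ) / 2)) *
      Real.exp (-(y ^ 2 / (4 * Q τ₀ M)))) =ᵐ[P] (univ : Set Mat) := by
    filter_upwards [hpos] with M hM
    apply propext
    exact ⟨fun _ => trivial, fun _ => hM.ne'⟩
  rw [measure_congr h1, measure_univ]
  exact one_pos

lemma pst_anti (hs : 0 < s) (hs1 : s < 1) (ht : 0 < t) (hP : Law s t P) (d : ℕ)
    (τ₀ y y' : ℝ) (h : y ^ 2 ≤ y' ^ 2) : pst d P τ₀ y' ≤ pst d P τ₀ y := by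
  unfold pst
  apply integral_mono_ae (pst_integrable hs hs1 ht hP d τ₀ y')
    (pst_integrable hs hs1 ht hP d τ₀ y)
  filter_upwards [hP.supp, (N1.main s t P hs hs1 ht hP).1] with M h1 h2
  have hQ := Q_pos ht h1 h2.2 τ₀
  have hpi := Real.pi_pos
  gcongr

lemma line_integrable (hs : 0 < s) (hs1 : s < 1) (ht : 0 < t) (hP : Law s t P) (d : ℕ)
    (hd : 1 ≤ d) (τ₀ : ℝ) (hτ₀ : τ₀ ∈ Icc (0 : ℝ) t) (w₀ : ℝ) :
    Integrable (fun σ : ℝ => pst d P τ₀ (Real.sqrt (w₀ ^ 2 + σ ^ 2))) := by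
  have h0 := (E.main N1.main s t P hs hs1 ht hP d hd τ₀ hτ₀).1
  refine Integrable.mono' h0 ?_ ?_
  · exact ((pst_meas d hP τ₀).comp_measurable (by fun_prop)).aestronglyMeasurable
  · refine Eventually.of_forall fun σ => ?_
    rw [Real.norm_of_nonneg (pst_pos hs hs1 ht hP d τ₀ _).le]
    apply pst_anti hs hs1 ht hP
    rw [Real.sq_sqrt (by positivity), Real.sq_sqrt (by positivity)]
    nlinarith [sq_nonneg w₀]

/-- the set of the relevant shifts -/
def Sab (a b : EReal) : Set ℝ := {σ : ℝ | -a < (σ : EReal) ∧ (σ : EReal) < b}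

lemma Sab_open (a b : EReal) : IsOpen (Sab a b) :=
  (isOpen_Ioi.preimage continuous_coe_real_ereal).inter
    (isOpen_Iio.preimage continuous_coe_real_ereal)

lemma ind_tendsto (A B : ℕ → ℝ) (a b : EReal) (hA : Tendsto (fun k => (A k : EReal)) atTop (𝓝 a))
    (hB : Tendsto (fun k => (B k : EReal)) atTop (𝓝 b)) :
    ∀ᵐ σ : ℝ, Tendsto (fun k => ind (-(A k)) (B k) σ) atTop
      (𝓝 ((Sab a b).indicator (fun _ => (1 : ℝ)) σ)) := by
  have hA' : Tendsto (fun k => (((-(A k)) : ℝ) : EReal)) atTop (𝓝 (-a)) := by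
    have := (continuous_neg.tendsto a).comp hA
    refine this.congr fun k => ?_
    simp
  have h1 : ∀ᵐ σ : ℝ, σ ≠ (-a).toReal ∧ σ ≠ b.toReal := by
    have h2 : ∀ c : ℝ, ∀ᵐ σ : ℝ, σ ≠ c := by
      intro c
      rw [ae_iff]
      have : {σ : ℝ | ¬ σ ≠ c} = {c} := by ext; simp
      rw [this]
      exact measure_singleton _
    filter_upwards [h2 (-a).toReal, h2 b.toReal] with σ k1 k2 using ⟨k1, k2⟩
  filter_upwards [h1] with σ hσ
  have hne1 : (σ : EReal) ≠ -a := by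
    intro h
    apply hσ.1
    rw [← h, EReal.toReal_coe]
  have hne2 : (σ : EReal) ≠ b := by
    intro h
    apply hσ.2
    rw [← h, EReal.toReal_coe]
  apply tendsto_const_nhds.congr'
  rcases lt_or_gt_of_ne hne1 with h3 | h3
  · have hmem : σ ∉ Sab a b := fun h => absurd h.1 (not_lt.2 h3.le)
    rw [indicator_of_notMem hmem]
    filter_upwards [hA'.eventually (lt_mem_nhds h3)] with k hk
    have : σ < -(A k) := EReal.coe_lt_coe_iff.1 hk
    unfold ind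
    rw [if_neg (fun h => absurd h.1 (not_le.2 this))]
  · rcases lt_or_gt_of_ne hne2 with h4 | h4
    · have hmem : σ ∈ Sab a b := ⟨h3, h4⟩
      rw [indicator_of_mem hmem]
      filter_upwards [hA'.eventually (gt_mem_nhds h3), hB.eventually (lt_mem_nhds h4)] with k k1 k2
      have e1 : -(A k) < σ := EReal.coe_lt_coe_iff.1 k1
      have e2 : σ < B k := EReal.coe_lt_coe_iff.1 k2
      unfold ind
      rw [if_pos ⟨e1.le, e2.le⟩]
    · have hmem : σ ∉ Sab a b := fun h => absurd h.2 (not_lt.2 h4.le)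
      rw [indicator_of_notMem hmem]
      filter_upwards [hB.eventually (gt_mem_nhds h4)] with k hk
      have : B k < σ := EReal.coe_lt_coe_iff.1 hk
      unfold ind
      rw [if_neg (fun h => absurd h.2 (not_le.2 this))]

/-- the exponent of the stable law -/
noncomputable def Aexp (s t τ₀ : ℝ) : ℝ :=
  (τ₀ ^ (2 * s + 1) + (t - τ₀) ^ (2 * s + 1)) / (2 * s + 1)

lemma pst_eq_stab (hs : 0 < s) (hs1 : s < 1) (ht : 0 < t) (hP : Law s t P) (d : ℕ)
    (hd : 1 ≤ d) (τ₀ : ℝ) (hτ₀ : τ₀ ∈ Icc (0 : ℝ) t) (e : V d) (he : ‖e‖ = 1) (y : ℝ) (hy : 0 ≤ y) :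
    pst d P τ₀ y = stab d s (Aexp s t τ₀) (y • e) := by
  have := S.main N1.main s t P hs hs1 ht hP d hd τ₀ hτ₀ (y • e)
  rw [norm_smul, he, mul_one, Real.norm_of_nonneg hy] at this
  exact this

lemma cds_pos (hs : 0 < s) (hs1 : s < 1) (d : ℕ) : 0 < cds d s := by
  have h1 : 0 < Real.Gamma ((d : ℝ) / 2 + s) := Real.Gamma_pos_of_pos (by positivity)
  have h2 : 0 < Real.Gamma (1 - s) := Real.Gamma_pos_of_pos (by linarith)
  have hpi := Real.pi_pos
  unfold cds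
  positivity

/-- the main theorem near the cone -/
theorem cone_real (hs : 0 < s) (hs1 : s < 1) (ht : 0 < t) (d : ℕ) (hd : 1 ≤ d)
    (x v : ℕ → V d) (τ₀ w₀ : ℝ) (a b : EReal) (e : V d) (he : ‖e‖ = 1)
    (hv : Tendsto (fun k => ‖v k‖) atTop atTop)
    (hτ : Tendsto (fun k => ⟪x k, v k⟫ / ‖v k‖ ^ 2) atTop (𝓝 τ₀)) (hτ₀ : τ₀ ∈ Icc (0 : ℝ) t)
    (hw : Tendsto (fun k => ‖x k - (⟪x k, v k⟫ / ‖v k‖ ^ 2) • v k‖) atTop (𝓝 w₀))
    (ha : Tendsto (fun k => ((‖v k‖ * (⟪x k, v k⟫ / ‖v k‖ ^ 2) : ℝ) : EReal)) atTop (𝓝 a))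
    (hb : Tendsto (fun k => ((‖v k‖ * (t - ⟪x k, v k⟫ / ‖v k‖ ^ 2) : ℝ) : EReal)) atTop (𝓝 b)) :
    IntegrableOn (fun σ : ℝ => stab d s (Aexp s t τ₀) (Real.sqrt (w₀ ^ 2 + σ ^ 2) • e))
      (Sab a b) ∧
    (-a < b → 0 < ∫ σ in Sab a b, stab d s (Aexp s t τ₀) (Real.sqrt (w₀ ^ 2 + σ ^ 2) • e)) ∧
    Tendsto (fun k => ‖v k‖ ^ (d + 1 + 2 * s) * K d s t (x k) (v k)) atTop
      (𝓝 (cds d s * ∫ σ in Sab a b,
        stab d s (Aexp s t τ₀) (Real.sqrt (w₀ ^ 2 + σ ^ 2) • e))) := by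
  obtain ⟨P, hP⟩ := Pool.Agent.L0h89.FK.P.main s t hs hs1 ht
  have e1 : ∀ σ : ℝ, stab d s (Aexp s t τ₀) (Real.sqrt (w₀ ^ 2 + σ ^ 2) • e) =
      pst d P τ₀ (Real.sqrt (w₀ ^ 2 + σ ^ 2)) := fun σ =>
    (pst_eq_stab hs hs1 ht hP d hd τ₀ hτ₀ e he _ (Real.sqrt_nonneg _)).symm
  simp_rw [e1]
  have hli := line_integrable hs hs1 ht hP d hd τ₀ hτ₀ w₀
  have hSm := (Sab_open a b).measurableSet
  refine ⟨hli.integrableOn, fun hab => ?_, ?_⟩
  · have hne : (Sab a b).Nonempty := by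
      obtain ⟨c, h1, h2⟩ := EReal.lt_iff_exists_real_btwn.1 hab
      exact ⟨c, h1, h2⟩
    rw [setIntegral_pos_iff_support_of_nonneg_ae]
    · have h1 : Function.support (fun σ : ℝ => pst d P τ₀ (Real.sqrt (w₀ ^ 2 + σ ^ 2))) = univ := by
        ext σ
        simp only [Function.mem_support, mem_univ, iff_true]
        exact (pst_pos hs hs1 ht hP d τ₀ _).ne'
      rw [h1, univ_inter]
      exact (Sab_open a b).measure_pos volume hne
    · exact Eventually.of_forall fun σ => (pst_pos hs hs1 ht hP d τ₀ _).le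
    · exact hli.integrableOn
  · have hχ := ind_tendsto _ _ a b ha hb
    have hmain := cone_seq hs hs1 ht hP d hd x v τ₀ w₀ _ hv hτ hτ₀ hw hχ
    have hK : ∀ k, 0 ≤ ‖v k‖ ^ (d + 1 + 2 * s) * K d s t (x k) (v k) := fun k =>
      mul_nonneg (by positivity) ((F.main Pool.Agent.L0h89.FK.P.main N1.main (R.main N1.main) s t hs hs1 ht d hd).1
        (x k) (v k)).le
    have e2 : ENNReal.ofReal (cds d s) * ∫⁻ σ, ENNReal.ofReal
        ((Sab a b).indicator (fun _ => (1 : ℝ)) σ) *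
          ENNReal.ofReal (pst d P τ₀ (Real.sqrt (w₀ ^ 2 + σ ^ 2))) =
        ENNReal.ofReal (cds d s * ∫ σ in Sab a b, pst d P τ₀ (Real.sqrt (w₀ ^ 2 + σ ^ 2))) := by
      rw [ENNReal.ofReal_mul (cds_pos hs hs1 d).le]
      congr 1
      rw [ofReal_integral_eq_lintegral_ofReal hli.integrableOn
        (Eventually.of_forall fun σ => (pst_pos hs hs1 ht hP d τ₀ _).le),
        ← lintegral_indicator hSm]
      apply lintegral_congr
      intro σ
      by_cases h : σ ∈ Sab a b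
      · rw [indicator_of_mem h, indicator_of_mem h, ENNReal.ofReal_one, one_mul]
      · rw [indicator_of_notMem h, indicator_of_notMem h, ENNReal.ofReal_zero, zero_mul]
    rw [e2] at hmain
    have h3 := (ENNReal.tendsto_toReal ENNReal.ofReal_ne_top).comp hmain
    have hL0 : 0 ≤ cds d s * ∫ σ in Sab a b, pst d P τ₀ (Real.sqrt (w₀ ^ 2 + σ ^ 2)) :=
      mul_nonneg (cds_pos hs hs1 d).le (setIntegral_nonneg hSm fun σ _ =>
        (pst_pos hs hs1 ht hP d τ₀ _).le)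
    rw [ENNReal.toReal_ofReal hL0] at h3
    refine h3.congr fun k => ?_
    simp only [Function.comp_def]
    rw [ENNReal.toReal_ofReal (hK k)]

end Pool.Agent.L0h89.FK.Fin
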