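import Pool.Agent.L0h89.FK.Defs2
import Pool.Agent.L0h89.FK.DL

/-! # HL: the limit of the two jump profile -/

set_option autoImplicit false

open MeasureTheory Set Filter Topology
open scoped ENNReal RealInnerProductSpace

namespace Pool.Agent.L0h89.FK.HL

lemma lev_null (s c : ℝ) : lev s {c} = 0 := by
  unfold lev
  exact withDensity_absolutelyContinuous _ _
    ((Measure.restrict_apply_le _ _).trans_eq Real.volume_singleton |>.antisymm bot_le)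

lemma r_ne (s t : ℝ) : ∀ᵐ p ∂((rho s t).prod (rho s t)), p.1.1 ≠ p.2.1 := by
  have hm : MeasurableSet {p : (ℝ × ℝ) × (ℝ × ℝ) | p.1.1 = p.2.1} :=
    measurableSet_eq_fun (by fun_prop) (by fun_prop)
  rw [ae_iff]
  simp only [ne_eq, not_not]
  rw [Measure.measure_prod_null hm]
  refine Eventually.of_forall fun p₁ => ?_
  have : Prod.mk p₁ ⁻¹' {p : (ℝ × ℝ) × (ℝ × ℝ) | p.1.1 = p.2.1} = {p₁.1} ×ˢ univ := by
    ext p
    simp [eq_comm]
  show (rho s t) (Prod.mk p₁ ⁻¹' {p : (ℝ × ℝ) × (ℝ × ℝ) | p.1.1 = p.2.1}) = 0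
  rw [this]
  unfold rho
  rw [Measure.prod_prod, lev_null, zero_mul]

lemma symm_ind {s t : ℝ} (d : ℕ) (x v : V d) :
    ENNReal.ofReal (1 / 2) * ∫⁻ p₁, ∫⁻ p₂, ENNReal.ofReal (g d (J p₁ + J p₂) x v)
      ∂(rho s t) ∂(rho s t) =
    ∫⁻ p₂, (∫⁻ p₁, (if p₂.1 < p₁.1 then ENNReal.ofReal (g d (J p₂ + J p₁) x v) else 0)
      ∂(rho s t)) ∂(rho s t) := by
  have hJ := J_meas
  have hg : Measurable (fun p : (ℝ × ℝ) × (ℝ × ℝ) => ENNReal.ofReal (g d (J p.1 + J p.2) x v)) :=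
    ((I.g_meas d x v).comp ((hJ.comp measurable_fst).add (hJ.comp measurable_snd))).ennreal_ofReal
  have hm1 : Measurable (fun p : (ℝ × ℝ) × (ℝ × ℝ) =>
      if p.1.1 < p.2.1 then ENNReal.ofReal (g d (J p.1 + J p.2) x v) else 0) :=
    Measurable.ite (measurableSet_lt (by fun_prop) (by fun_prop)) hg measurable_const
  obtain ⟨L, hL⟩ : ∃ L, L = ∫⁻ p, (if p.1.1 < p.2.1 then
      ENNReal.ofReal (g d (J p.1 + J p.2) x v) else 0) ∂((rho s t).prod (rho s t)) := ⟨_, rfl⟩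
  have h1 : ∫⁻ p, (if p.2.1 < p.1.1 then ENNReal.ofReal (g d (J p.2 + J p.1) x v) else 0)
      ∂((rho s t).prod (rho s t)) = L := by
    rw [hL]
    exact lintegral_prod_swap (μ := rho s t) (ν := rho s t)
      (fun p : (ℝ × ℝ) × (ℝ × ℝ) => if p.1.1 < p.2.1 then
        ENNReal.ofReal (g d (J p.1 + J p.2) x v) else 0)
  have h2 : ∫⁻ p₁, ∫⁻ p₂, ENNReal.ofReal (g d (J p₁ + J p₂) x v) ∂(rho s t) ∂(rho s t) =
      L + L := by
    nth_rewrite 2 [← h1]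
    rw [hL, ← lintegral_add_left hm1, ← lintegral_prod _ hg.aemeasurable]
    refine lintegral_congr_ae ?_
    filter_upwards [r_ne s t] with p hp
    rw [add_comm (J p.2) (J p.1)]
    rcases lt_or_gt_of_ne hp with h | h
    · rw [if_pos h, if_neg (not_lt.2 h.le), add_zero]
    · rw [if_neg (not_lt.2 h.le), if_pos h, zero_add]
  have h3 : ∫⁻ p₂, (∫⁻ p₁, (if p₂.1 < p₁.1 then ENNReal.ofReal (g d (J p₂ + J p₁) x v) else 0)
      ∂(rho s t)) ∂(rho s t) = L := by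
    rw [hL, lintegral_prod _ hm1.aemeasurable]
  rw [h2, h3, ← two_mul, ← mul_assoc]
  have : ENNReal.ofReal (1 / 2) * 2 = 1 := by
    rw [show (2 : ℝ≥0∞) = ENNReal.ofReal 2 by simp, ← ENNReal.ofReal_mul (by norm_num)]
    norm_num
  rw [this, one_mul]

/-- the weight -/
noncomputable def PhH (R l : ℝ) (M : Mat) (q : ℝ) (p : ℝ × ℝ) : ℝ :=
  if M.2.2 + l ^ 2 * p.1 ≤ 2 * (R ^ 2 * q) ∧ l ^ 2 * p.1 < R ^ 2 * q then
    l ^ 2 * p.1 / (M.2.2 + l ^ 2 * p.1) else 0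

lemma PhH_meas (R l : ℝ) : Measurable fun a : Mat × (ℝ × (ℝ × ℝ)) => PhH R l a.1 a.2.1 a.2.2 := by
  unfold PhH
  have h1 : MeasurableSet {a : Mat × (ℝ × (ℝ × ℝ)) |
      a.1.2.2 + l ^ 2 * a.2.2.1 ≤ 2 * (R ^ 2 * a.2.1)} :=
    measurableSet_le (by fun_prop) (by fun_prop)
  have h2 : MeasurableSet {a : Mat × (ℝ × (ℝ × ℝ)) | l ^ 2 * a.2.2.1 < R ^ 2 * a.2.1} :=
    measurableSet_lt (by fun_prop) (by fun_prop)
  exact Measurable.ite (h1.inter h2) (by fun_prop) (by fun_prop)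

lemma zero_mem {t : ℝ} : (0 : Mat) ∈ cone t := by
  refine ⟨?_, ?_, ?_, ?_, ?_⟩ <;> simp

lemma H_eq {s t : ℝ} (hs : 0 < s) (hs1 : s < 1) (ht : 0 < t) (d : ℕ) (hd : 1 ≤ d) (x v : V d)
    (l : ℝ) (hl : 0 < l) (hv : v ≠ 0) (hx : ∀ τ ∈ Icc (0 : ℝ) t, x ≠ τ • v) :
    ENNReal.ofReal (‖v‖ ^ ((d : ℝ) + 1 + 2 * s) * l ^ ((d : ℝ) - 1 + 2 * s)) *
      ENNReal.ofReal (H d s t x v) =
    ∫⁻ M, (∫⁻ q, (∫⁻ σ, (∫⁻ p, DL.fk d t (PhH ‖v‖ l) x v l (M, (q, (σ, p)))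
      ∂(rho s t))) ∂(lev s)) ∂(Measure.dirac (0 : Mat)) := by
  have hR : 0 < ‖v‖ := norm_pos_iff.2 hv
  have hJ := J_meas
  have hg : Measurable (fun p : (ℝ × ℝ) × (ℝ × ℝ) => ENNReal.ofReal (g d (J p.1 + J p.2) x v)) :=
    ((I.g_meas d x v).comp ((hJ.comp measurable_fst).add (hJ.comp measurable_snd))).ennreal_ofReal
  have hm1 : Measurable (fun p : (ℝ × ℝ) × (ℝ × ℝ) =>
      if p.1.1 < p.2.1 then ENNReal.ofReal (g d (J p.1 + J p.2) x v) else 0) :=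
    Measurable.ite (measurableSet_lt (by fun_prop) (by fun_prop)) hg measurable_const
  rw [lintegral_dirac, ← (H.main s t hs hs1 ht d hd x v hx).2, symm_ind,
    DL.change s t ‖v‖ l (⟪x, v⟫ / ‖v‖ ^ 2) hR hl _ hm1, ← mul_assoc, ← ENNReal.ofReal_mul
    (by positivity), DL.pow_id d s ‖v‖ l hR hl, ← lintegral_const_mul' _ _ ENNReal.ofReal_ne_top]
  refine lintegral_congr_ae ?_
  filter_upwards [I.lev_pos s] with q hq
  rw [← lintegral_const_mul' _ _ ENNReal.ofReal_ne_top]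
  refine lintegral_congr fun σ => ?_
  rw [← lintegral_const_mul' _ _ ENNReal.ofReal_ne_top]
  refine lintegral_congr_ae ?_
  filter_upwards [I.rho_ae s t] with p hp
  have hp1 := hp.1
  unfold DL.fk
  simp only
  rw [mul_left_comm]
  congr 1
  unfold PhH Psi
  have hlp : 0 < l ^ 2 * p.1 := by positivity
  simp only [Prod.snd_zero, zero_add]
  by_cases hi : l ^ 2 * p.1 < ‖v‖ ^ 2 * q
  · rw [if_pos hi, if_pos ⟨by linarith, hi⟩, div_self hlp.ne', one_mul,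
      ← ENNReal.ofReal_mul (by positivity)]
  · rw [if_neg hi, if_neg (fun h => hi h.2)]
    simp

theorem main (hLm : StmtLm) : StmtHL := by
  intro s t hs hs1 ht d hd x v l τ₀ ω a b hN
  have hlk : ∀ k, 0 < l k := fun k => one_pos.trans_le (hN.one_le k)
  have hRk : ∀ k, 0 < ‖v k‖ := fun k => norm_pos_iff.2 (hN.v_ne k)
  have e : (fun k => ENNReal.ofReal (‖v k‖ ^ (d + 1 + 2 * s) * l k ^ (d - 1 + 2 * s)) *
      ENNReal.ofReal (H d s t (x k) (v k))) = fun k =>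
      ∫⁻ M, (∫⁻ q, (∫⁻ σ, (∫⁻ p, DL.fk d t (PhH ‖v k‖ (l k)) (x k) (v k) (l k) (M, (q, (σ, p)))
      ∂(rho s t))) ∂(lev s)) ∂(Measure.dirac (0 : Mat)) := by
    funext k
    exact H_eq hs hs1 ht d hd (x k) (v k) (l k) (hlk k) (hN.v_ne k) (DL.far_ne hN k)
  rw [e]
  have hP : ∀ᵐ M ∂(Measure.dirac (0 : Mat)), M ∈ cone t := by
    rw [ae_dirac_eq]
    exact zero_mem
  refine DL.core hLm hs hs1 ht _ hP d hd x v l τ₀ ω a b hN (fun k => PhH ‖v k‖ (l k))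
    (fun k => PhH_meas _ _) (fun k M q p hM hq hp => ?_) (fun M q p hM hq hp => ?_)
  · have hc := c_nonneg ht hM
    have h1 := hlk k
    have hw : 0 < l k ^ 2 * p.1 / (M.2.2 + l k ^ 2 * p.1) := by positivity
    unfold PhH
    split_ifs with hi
    · exact ⟨hw.le, le_rfl, fun _ => hi.1⟩
    · exact ⟨le_rfl, hw.le, fun h => absurd rfl h⟩
  · have hc := c_nonneg ht hM
    have tl2 : Tendsto (fun k => (l k ^ 2)⁻¹) atTop (𝓝 0) :=
      (tendsto_pow_atTop two_ne_zero |>.comp hN.tl).inv_tendsto_atTop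
    have tR2 : Tendsto (fun k => (‖v k‖ ^ 2)⁻¹) atTop (𝓝 0) :=
      (tendsto_pow_atTop two_ne_zero |>.comp hN.tR).inv_tendsto_atTop
    have tlR2 : Tendsto (fun k => (l k / ‖v k‖) ^ 2) atTop (𝓝 0) := by
      have := hN.tlR.pow 2
      simpa using this
    have hw : Tendsto (fun k => l k ^ 2 * p.1 / (M.2.2 + l k ^ 2 * p.1)) atTop (𝓝 1) := by
      have h1 : Tendsto (fun k => p.1 / (M.2.2 * (l k ^ 2)⁻¹ + p.1)) atTop
          (𝓝 (p.1 / (M.2.2 * 0 + p.1))) :=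
        tendsto_const_nhds.div ((tl2.const_mul _).add_const _) (by simpa using hp.ne')
      rw [mul_zero, zero_add, div_self hp.ne'] at h1
      refine h1.congr fun k => ?_
      have := hlk k
      field_simp
    have hsmall : Tendsto (fun k => (M.2.2 + l k ^ 2 * p.1) / ‖v k‖ ^ 2) atTop (𝓝 0) := by
      have h1 := (tR2.const_mul M.2.2).add (tlR2.mul_const p.1)
      rw [mul_zero, zero_mul, add_zero] at h1
      refine h1.congr fun k => ?_
      have := hRk k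
      field_simp
    refine hw.congr' ?_
    have hev : ∀ᶠ k in atTop, (M.2.2 + l k ^ 2 * p.1) / ‖v k‖ ^ 2 < q :=
      hsmall.eventually (gt_mem_nhds hq)
    filter_upwards [hev] with k hk
    have := hRk k
    rw [div_lt_iff₀ (by positivity)] at hk
    have h0 : 0 < q * ‖v k‖ ^ 2 := by positivity
    unfold PhH
    rw [if_pos ⟨by linarith, by linarith⟩]

end Pool.Agent.L0h89.FK.HL
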