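import Pool.Agent.L0h89.FK.Defs2

/-! # LF: the limit constant is finite -/

set_option autoImplicit false

open MeasureTheory Set Filter Topology
open scoped ENNReal RealInnerProductSpace

namespace Pool.Agent.L0h89.FK.LF

/-- pointwise bound of the limit -/
lemma Gl2_le (hLm : StmtLm) {t : ℝ} (ht : 0 < t) (d : ℕ) (hd : 1 ≤ d) (C : ℝ)
    (hC : ∀ (M : Mat) (q₁ σ : ℝ) (p : ℝ × ℝ) (x v : V d) (l : ℝ), M ∈ cone t → 0 < q₁ → 0 < p.1 →
      p.2 ∈ Icc (0 : ℝ) t → 0 < l → v ≠ 0 →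
      ⟪x, v⟫ / ‖v‖ ^ 2 + σ * (l / ‖v‖) ∈ Icc (0 : ℝ) t → (∀ τ ∈ Icc (0 : ℝ) t, l ≤ ‖x - τ • v‖) →
      M.2.2 + l ^ 2 * p.1 ≤ 2 * (‖v‖ ^ 2 * q₁) →
      l ^ 2 * p.1 / (M.2.2 + l ^ 2 * p.1) * Psi d M q₁ σ p x v l ≤ C * Bd d q₁ σ p)
    (x v : ℕ → V d) (l : ℕ → ℝ) (τ₀ ω : ℝ) (a b : EReal) (hN : Near d t x v l τ₀ ω a b)
    (q₁ σ : ℝ) (p : ℝ × ℝ) (hq : 0 < q₁) (hp : 0 < p.1) (hp2 : p.2 ∈ Icc (0 : ℝ) t)
    (hne : p.2 ≠ τ₀) (hσ : σ ∈ Fin.Sab a b) : Gl2 d q₁ σ p τ₀ ω ≤ C * Bd d q₁ σ p := by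
  have hlim := hLm t d x v l τ₀ ω a b ht hd hN (0 : Mat) q₁ σ p hq hp hne
  refine le_of_tendsto hlim ?_
  have h1 : ∀ᶠ k in atTop, -(‖v k‖ * (⟪x k, v k⟫ / ‖v k‖ ^ 2) / l k) < σ := by
    have h2 : Tendsto (fun k => (((-(‖v k‖ * (⟪x k, v k⟫ / ‖v k‖ ^ 2) / l k)) : ℝ) : EReal)) atTop
        (𝓝 (-a)) := by
      have := (continuous_neg.tendsto a).comp hN.ta
      refine this.congr fun k => ?_
      simp
    filter_upwards [h2.eventually (gt_mem_nhds hσ.1)] with k hk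
    exact EReal.coe_lt_coe_iff.1 hk
  have h3 : ∀ᶠ k in atTop, σ < ‖v k‖ * (t - ⟪x k, v k⟫ / ‖v k‖ ^ 2) / l k := by
    filter_upwards [hN.tb.eventually (lt_mem_nhds hσ.2)] with k hk
    exact EReal.coe_lt_coe_iff.1 hk
  have h4 : ∀ᶠ k in atTop, l k ^ 2 * p.1 ≤ 2 * (‖v k‖ ^ 2 * q₁) := by
    have h5 : Tendsto (fun k => (l k / ‖v k‖) ^ 2 * p.1) atTop (𝓝 0) := by
      have := (hN.tlR.pow 2).mul_const p.1
      simpa using this
    filter_upwards [h5.eventually (gt_mem_nhds (show (0 : ℝ) < 2 * q₁ by positivity))] with k hk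
    have hv := norm_pos_iff.2 (hN.v_ne k)
    rw [div_pow, div_mul_eq_mul_div, div_lt_iff₀ (by positivity)] at hk
    nlinarith
  filter_upwards [h1, h3, h4] with k k1 k3 k4
  have hv := norm_pos_iff.2 (hN.v_ne k)
  have hl : 0 < l k := by linarith [hN.one_le k]
  have h0 : (0 : Mat) ∈ cone t := by simp [cone]
  have hmem : ⟪x k, v k⟫ / ‖v k‖ ^ 2 + σ * (l k / ‖v k‖) ∈ Icc (0 : ℝ) t := by
    set τ := ⟪x k, v k⟫ / ‖v k‖ ^ 2 with hτ
    have e1 : τ + σ * (l k / ‖v k‖) = (‖v k‖ * τ + σ * l k) / ‖v k‖ := by field_simp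
    rw [mem_Icc, e1, le_div_iff₀ hv, div_le_iff₀ hv]
    rw [← neg_div, div_lt_iff₀ hl] at k1
    rw [lt_div_iff₀ hl] at k3
    constructor <;> nlinarith
  have hfin := hC (0 : Mat) q₁ σ p (x k) (v k) (l k) h0 hq hp hp2 hl (hN.v_ne k) hmem (hN.far k)
    (by
      change (0 : ℝ) + l k ^ 2 * p.1 ≤ _
      rw [zero_add]; exact k4)
  have e2 : l k ^ 2 * p.1 / ((0 : Mat).2.2 + l k ^ 2 * p.1) = 1 := by
    change l k ^ 2 * p.1 / ((0 : ℝ) + l k ^ 2 * p.1) = 1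
    rw [zero_add]
    exact div_self (by positivity)
  rwa [e2, one_mul] at hfin

theorem main (hDm : StmtDm) (hBi : StmtBi) (hLm : StmtLm) : StmtLF := by
  intro s t hs hs1 ht d hd x v l τ₀ ω a b hN
  obtain ⟨C, hC0, hC⟩ := hDm t ht d hd
  have hB := hBi s t hs hs1 ht d hd
  have hτne : ∀ᵐ p ∂(rho s t), p.2 ≠ τ₀ := by
    have : ∀ᵐ τ ∂(volume.restrict (Icc 0 t)), τ ≠ τ₀ := by
      apply ae_restrict_of_ae
      rw [ae_iff]
      have : {τ : ℝ | ¬ τ ≠ τ₀} = {τ₀} := by ext; simp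
      rw [this]
      exact measure_singleton _
    exact Measure.quasiMeasurePreserving_snd.ae this
  have hle : L2 d s t τ₀ ω a b ≤ ENNReal.ofReal C *
      ∫⁻ q₁, (∫⁻ σ, (∫⁻ p, ENNReal.ofReal (Bd d q₁ σ p) ∂(rho s t))) ∂(lev s) := by
    unfold L2
    rw [← lintegral_const_mul' _ _ ENNReal.ofReal_ne_top]
    apply lintegral_mono_ae
    filter_upwards [I.lev_pos s] with q₁ hq
    rw [← lintegral_const_mul' _ _ ENNReal.ofReal_ne_top]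
    apply lintegral_mono
    intro σ
    simp only
    rw [← lintegral_const_mul' _ _ ENNReal.ofReal_ne_top]
    apply lintegral_mono_ae
    filter_upwards [I.rho_ae s t, hτne] with p hp hp2
    by_cases hσ : σ ∈ Fin.Sab a b
    · rw [indicator_of_mem hσ, ENNReal.ofReal_one, one_mul, ← ENNReal.ofReal_mul hC0.le]
      exact ENNReal.ofReal_le_ofReal (Gl2_le hLm ht d hd C hC x v l τ₀ ω a b hN q₁ σ p hq hp.1
        hp.2 hp2 hσ)
    · rw [indicator_of_notMem hσ, ENNReal.ofReal_zero, zero_mul]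
      exact zero_le
  exact hle.trans_lt (ENNReal.mul_lt_top ENNReal.ofReal_lt_top hB)

end Pool.Agent.L0h89.FK.LF
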