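import Pool.Agent.L0h89.FK.Defs2

/-! # Module LP: the limit constant is positive -/

set_option autoImplicit false

open MeasureTheory Set Filter Topology
open scoped ENNReal RealInnerProductSpace

namespace Pool.Agent.L0h89.FK.LP

lemma lev_univ_ne (s : ℝ) (hs : 0 < s) (hs1 : s < 1) : lev s univ ≠ 0 := by
  intro h
  unfold lev at h
  rw [withDensity_apply _ MeasurableSet.univ, Measure.restrict_univ,
    lintegral_eq_zero_iff (by fun_prop)] at h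
  have h1 : ∀ᵐ r ∂(volume.restrict (Ioi (0 : ℝ))), False := by
    filter_upwards [h, ae_restrict_mem measurableSet_Ioi] with r hr hr0
    have h2 : 0 < kap s * r ^ (-1 - s) := mul_pos (kap_pos hs hs1) (Real.rpow_pos_of_pos hr0 _)
    simp only [Pi.zero_apply, ENNReal.ofReal_eq_zero] at hr
    linarith
  rw [ae_iff] at h1
  simp at h1

lemma lev_false {s : ℝ} (hs : 0 < s) (hs1 : s < 1) (h : ∀ᵐ _r ∂(lev s), False) : False := by
  apply lev_univ_ne s hs hs1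
  rw [ae_iff] at h
  simpa using h

lemma rho_false {s t : ℝ} (hs : 0 < s) (hs1 : s < 1) (ht : 0 < t)
    (h : ∀ᵐ _r ∂(rho s t), False) : False := by
  rw [ae_iff] at h
  simp only [not_false_eq_true, ofPred_true] at h
  unfold rho at h
  rw [← univ_prod_univ, Measure.prod_prod, mul_eq_zero] at h
  rcases h with h | h
  · exact lev_univ_ne s hs hs1 h
  · rw [Measure.restrict_apply MeasurableSet.univ, univ_inter, Real.volume_Icc, sub_zero,
      ENNReal.ofReal_eq_zero] at h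
    linarith

lemma rho_ne (s t τ₀ : ℝ) : ∀ᵐ p ∂(rho s t), p.2 ≠ τ₀ := by
  have h : ∀ᵐ u ∂(volume.restrict (Icc (0 : ℝ) t)), u ≠ τ₀ := by
    apply ae_restrict_of_ae
    rw [ae_iff]
    have : {u : ℝ | ¬ u ≠ τ₀} = {τ₀} := by ext; simp
    rw [this]
    exact measure_singleton _
  unfold rho
  exact Measure.quasiMeasurePreserving_snd.ae h

lemma Gl2_meas (d : ℕ) (τ₀ ω : ℝ) :
    Measurable (fun q : (ℝ × ℝ) × (ℝ × ℝ) => Gl2 d q.1.1 q.1.2 q.2 τ₀ ω) := by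
  unfold Gl2
  fun_prop

lemma Gl2_pos (d : ℕ) (q₁ σ : ℝ) (p : ℝ × ℝ) (τ₀ ω : ℝ) (hq : 0 < q₁) (hp : 0 < p.1)
    (hne : p.2 ≠ τ₀) : 0 < Gl2 d q₁ σ p τ₀ ω := by
  unfold Gl2
  have h1 : 0 < (p.2 - τ₀) ^ 2 := by
    have := sub_ne_zero.2 hne
    positivity
  have hpi := Real.pi_pos
  positivity

lemma full_meas (d : ℕ) (τ₀ ω : ℝ) (a b : EReal) :
    Measurable (fun q : (ℝ × ℝ) × (ℝ × ℝ) =>
      ENNReal.ofReal ((Fin.Sab a b).indicator (fun _ => (1 : ℝ)) q.1.2) *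
        ENNReal.ofReal (Gl2 d q.1.1 q.1.2 q.2 τ₀ ω)) := by
  have h1 : Measurable (fun σ : ℝ => (Fin.Sab a b).indicator (fun _ => (1 : ℝ)) σ) :=
    measurable_const.indicator (Fin.Sab_open a b).measurableSet
  exact (h1.comp (by fun_prop : Measurable (fun q : (ℝ × ℝ) × (ℝ × ℝ) => q.1.2))).ennreal_ofReal.mul
    (Gl2_meas d τ₀ ω).ennreal_ofReal

theorem main : StmtLP := by
  intro s t hs hs1 ht d hd τ₀ ω a b hab
  have hm := full_meas d τ₀ ω a b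
  have hm1 : Measurable (fun q : ℝ × ℝ => ∫⁻ p,
      ENNReal.ofReal ((Fin.Sab a b).indicator (fun _ => (1 : ℝ)) q.2) *
        ENNReal.ofReal (Gl2 d q.1 q.2 p τ₀ ω) ∂(rho s t)) := hm.lintegral_prod_right'
  have hm2 : Measurable (fun q₁ : ℝ => ∫⁻ σ, (∫⁻ p,
      ENNReal.ofReal ((Fin.Sab a b).indicator (fun _ => (1 : ℝ)) σ) *
        ENNReal.ofReal (Gl2 d q₁ σ p τ₀ ω) ∂(rho s t))) := hm1.lintegral_prod_right'
  obtain ⟨r₀, hr1, hr2⟩ := EReal.lt_iff_exists_real_btwn.1 hab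
  have hvol : volume (Fin.Sab a b) ≠ 0 :=
    ((Fin.Sab_open a b).measure_pos volume ⟨r₀, hr1, hr2⟩).ne'
  -- the inner integral
  have h3 : ∀ q₁ σ : ℝ, 0 < q₁ → σ ∈ Fin.Sab a b → ∫⁻ p,
      ENNReal.ofReal ((Fin.Sab a b).indicator (fun _ => (1 : ℝ)) σ) *
        ENNReal.ofReal (Gl2 d q₁ σ p τ₀ ω) ∂(rho s t) ≠ 0 := by
    intro q₁ σ hq hσ h0
    have hmm : Measurable (fun p : ℝ × ℝ =>
      ENNReal.ofReal ((Fin.Sab a b).indicator (fun _ => (1 : ℝ)) σ) *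
        ENNReal.ofReal (Gl2 d q₁ σ p τ₀ ω)) :=
      hm.comp (by fun_prop : Measurable (fun p : ℝ × ℝ => ((q₁, σ), p)))
    rw [lintegral_eq_zero_iff hmm] at h0
    apply rho_false hs hs1 ht
    filter_upwards [h0, I.rho_ae s t, rho_ne s t τ₀] with p h1 h2 h4
    have h5 := Gl2_pos d q₁ σ p τ₀ ω hq h2.1 h4
    rw [indicator_of_mem hσ] at h1
    simp only [ENNReal.ofReal_one, one_mul, Pi.zero_apply, ENNReal.ofReal_eq_zero] at h1
    linarith
  have h4 : ∀ q₁ : ℝ, 0 < q₁ → ∫⁻ σ, (∫⁻ p,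
      ENNReal.ofReal ((Fin.Sab a b).indicator (fun _ => (1 : ℝ)) σ) *
        ENNReal.ofReal (Gl2 d q₁ σ p τ₀ ω) ∂(rho s t)) ≠ 0 := by
    intro q₁ hq h0
    have hmm : Measurable (fun σ : ℝ => ∫⁻ p,
      ENNReal.ofReal ((Fin.Sab a b).indicator (fun _ => (1 : ℝ)) σ) *
        ENNReal.ofReal (Gl2 d q₁ σ p τ₀ ω) ∂(rho s t)) :=
      hm1.comp (by fun_prop : Measurable (fun σ : ℝ => (q₁, σ)))
    rw [lintegral_eq_zero_iff hmm] at h0
    apply hvol
    rw [← nonpos_iff_eq_zero]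
    have h1 := ae_iff.1 h0
    rw [← h1]
    apply measure_mono
    intro σ hσ
    exact h3 q₁ σ hq hσ
  unfold L2
  rw [pos_iff_ne_zero]
  intro h0
  rw [lintegral_eq_zero_iff hm2] at h0
  apply lev_false hs hs1
  filter_upwards [h0, I.lev_pos s] with q₁ h1 h2
  exact h4 q₁ h2 h1

end Pool.Agent.L0h89.FK.LP
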