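import Pool.Agent.L0h89.FK.Defs2

/-! # Module Lm: pointwise limit of the rescaled density -/

set_option autoImplicit false

open MeasureTheory Set Filter Topology
open scoped ENNReal RealInnerProductSpace

namespace Pool.Agent.L0h89.FK.Lm

theorem main : StmtLm := by
  intro t d x v l τ₀ ω a b ht hd hN M q₁ σ p hq hp hτ
  obtain ⟨q₂, τ₂⟩ := p
  simp only at hp hτ
  set T : ℕ → ℝ := fun k => ⟪x k, v k⟫ / ‖v k‖ ^ 2 with hT
  set R : ℕ → ℝ := fun k => ‖v k‖ with hR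
  set w : ℕ → ℝ := fun k => ‖x k - T k • v k‖ with hw
  have tT : Tendsto T atTop (𝓝 τ₀) := hN.tτ
  have tR : Tendsto R atTop atTop := hN.tR
  have tl := hN.tl
  have tlR : Tendsto (fun k => l k / R k) atTop (𝓝 0) := hN.tlR
  have tw : Tendsto (fun k => w k / l k) atTop (𝓝 ω) := hN.tw
  have iR : Tendsto (fun k => (R k)⁻¹) atTop (𝓝 0) := tendsto_inv_atTop_zero.comp tR
  have il : Tendsto (fun k => (l k)⁻¹) atTop (𝓝 0) := tendsto_inv_atTop_zero.comp tl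
  have tu : Tendsto (fun k => T k + σ * (l k / R k)) atTop (𝓝 τ₀) := by
    simpa using tT.add (tlR.const_mul σ)
  have tQ : Tendsto (fun k => Q (T k + σ * (l k / R k)) M) atTop (𝓝 (Q τ₀ M)) := by
    unfold Q
    exact (tendsto_const_nhds.sub ((tu.const_mul 2).mul_const _)).add ((tu.pow 2).mul_const _)
  have tQ' : Tendsto (fun k => Q (T k) M) atTop (𝓝 (Q τ₀ M)) := by
    unfold Q
    exact (tendsto_const_nhds.sub ((tT.const_mul 2).mul_const _)).add ((tT.pow 2).mul_const _)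
  have tD : Tendsto (fun k => det M * ((R k)⁻¹ * (l k)⁻¹) ^ 2 + q₂ * Q τ₂ M * (R k)⁻¹ ^ 2 +
      q₁ * Q (T k + σ * (l k / R k)) M * (l k)⁻¹ ^ 2 +
      q₁ * (q₂ * (τ₂ - (T k + σ * (l k / R k))) ^ 2)) atTop
      (𝓝 (q₁ * (q₂ * (τ₂ - τ₀) ^ 2))) := by
    have h1 := (((iR.mul il).pow 2).const_mul (det M)).add
      ((iR.pow 2).const_mul (q₂ * Q τ₂ M))
    have h2 := h1.add ((tQ.const_mul q₁).mul (il.pow 2))
    have h3 := h2.add (((((tendsto_const_nhds (x := τ₂)).sub tu).pow 2).const_mul q₂).const_mul q₁)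
    simpa using h3
  have tS : Tendsto (fun k => M.2.2 * (w k / l k) ^ 2 * (R k)⁻¹ ^ 2 +
      q₂ * (w k / l k) ^ 2 * (l k / R k) ^ 2 + q₁ * (w k / l k) ^ 2 +
      Q (T k) M * (l k)⁻¹ ^ 2 + q₂ * (τ₂ - T k) ^ 2 + q₁ * σ ^ 2) atTop
      (𝓝 (q₁ * ω ^ 2 + q₂ * (τ₂ - τ₀) ^ 2 + q₁ * σ ^ 2)) := by
    have h1 := (((tw.pow 2).const_mul M.2.2).mul (iR.pow 2)).add
      (((tw.pow 2).const_mul q₂).mul (tlR.pow 2))
    have h2 := (h1.add ((tw.pow 2).const_mul q₁)).add (tQ'.mul (il.pow 2))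
    have h3 := (h2.add (((((tendsto_const_nhds (x := τ₂)).sub tT).pow 2).const_mul q₂))).add
      (tendsto_const_nhds (x := q₁ * σ ^ 2))
    simpa using h3
  have hpos : 0 < q₁ * (q₂ * (τ₂ - τ₀) ^ 2) := by
    have : 0 < (τ₂ - τ₀) ^ 2 := by
      have := sub_ne_zero.2 hτ
      positivity
    positivity
  have tG := ((tD.rpow_const (p := -((d : ℝ) / 2)) (Or.inl hpos.ne')).const_mul
    ((4 * Real.pi) ^ (-(d : ℝ)))).mul
    ((Real.continuous_exp.tendsto _).comp ((tS.div (tD.const_mul 4) (by positivity)).neg))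
  unfold Gl2
  simp only
  have e0 : q₁ * (ω ^ 2 + σ ^ 2) + q₂ * (τ₂ - τ₀) ^ 2 =
      q₁ * ω ^ 2 + q₂ * (τ₂ - τ₀) ^ 2 + q₁ * σ ^ 2 := by ring
  rw [e0]
  refine tG.congr' ?_
  filter_upwards [tR.eventually_gt_atTop 0, tl.eventually_gt_atTop 0,
    tD.eventually (lt_mem_nhds hpos)] with k hRk hlk hDk
  have hvk := hN.v_ne k
  unfold Psi
  rw [g_eq_gr d _ (x k) (v k) hvk]
  change _ = (R k * l k) ^ (d : ℝ) * gr d (M + J (l k ^ 2 * q₂, τ₂) +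
    J (R k ^ 2 * q₁, T k + σ * (l k / R k))) (R k) (T k) (w k)
  unfold gr
  have eD : det (M + J (l k ^ 2 * q₂, τ₂) + J (R k ^ 2 * q₁, T k + σ * (l k / R k))) =
      (R k * l k) ^ 2 * (det M * ((R k)⁻¹ * (l k)⁻¹) ^ 2 + q₂ * Q τ₂ M * (R k)⁻¹ ^ 2 +
      q₁ * Q (T k + σ * (l k / R k)) M * (l k)⁻¹ ^ 2 +
      q₁ * (q₂ * (τ₂ - (T k + σ * (l k / R k))) ^ 2)) := by
    rw [det_add_J, det_add_J, Q_add_J]
    generalize Q (T k + σ * (l k / R k)) M = Z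
    field_simp
    ring
  have eS : (M + J (l k ^ 2 * q₂, τ₂) + J (R k ^ 2 * q₁, T k + σ * (l k / R k))).2.2 * w k ^ 2 +
      R k ^ 2 * Q (T k) (M + J (l k ^ 2 * q₂, τ₂) + J (R k ^ 2 * q₁, T k + σ * (l k / R k))) =
      (R k * l k) ^ 2 * (M.2.2 * (w k / l k) ^ 2 * (R k)⁻¹ ^ 2 +
      q₂ * (w k / l k) ^ 2 * (l k / R k) ^ 2 + q₁ * (w k / l k) ^ 2 +
      Q (T k) M * (l k)⁻¹ ^ 2 + q₂ * (τ₂ - T k) ^ 2 + q₁ * σ ^ 2) := by
    rw [Q_add_J, Q_add_J]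
    simp only [Prod.snd_add, J_snd_snd]
    field_simp
    ring
  rw [eD, eS]
  set D := det M * ((R k)⁻¹ * (l k)⁻¹) ^ 2 + q₂ * Q τ₂ M * (R k)⁻¹ ^ 2 +
      q₁ * Q (T k + σ * (l k / R k)) M * (l k)⁻¹ ^ 2 +
      q₁ * (q₂ * (τ₂ - (T k + σ * (l k / R k))) ^ 2) with hD
  set S := M.2.2 * (w k / l k) ^ 2 * (R k)⁻¹ ^ 2 +
      q₂ * (w k / l k) ^ 2 * (l k / R k) ^ 2 + q₁ * (w k / l k) ^ 2 +
      Q (T k) M * (l k)⁻¹ ^ 2 + q₂ * (τ₂ - T k) ^ 2 + q₁ * σ ^ 2 with hS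
  have hRl : 0 < R k * l k := mul_pos hRk hlk
  have e1 : (R k * l k) ^ 2 * S / (4 * ((R k * l k) ^ 2 * D)) = S / (4 * D) := by
    field_simp
  have e2 : (R k * l k) ^ (d : ℝ) * ((R k * l k) ^ 2 * D) ^ (-((d : ℝ) / 2)) =
      D ^ (-((d : ℝ) / 2)) := by
    rw [Real.mul_rpow (by positivity) hDk.le, ← Real.rpow_natCast (R k * l k) 2,
      ← Real.rpow_mul hRl.le, ← mul_assoc, ← Real.rpow_add hRl]
    have : (d : ℝ) + ((2 : ℕ) : ℝ) * (-((d : ℝ) / 2)) = 0 := by push_cast; ring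
    rw [this, Real.rpow_zero, one_mul]
  change (4 * Real.pi) ^ (-(d : ℝ)) * D ^ (-((d : ℝ) / 2)) * Real.exp (-(S / (4 * D))) = _
  rw [e1, ← e2]
  ring

end Pool.Agent.L0h89.FK.Lm
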