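import Pool.Agent.L0h89.FK.Defs2

/-! # NCa: iterated picks -/

set_option autoImplicit false

open MeasureTheory Set Filter Topology
open scoped ENNReal RealInnerProductSpace

namespace Pool.Agent.L0h89.FK.NCa

variable {s t : ℝ} {P : Measure Mat}

lemma addJ_meas : Measurable (fun q : Mat × (ℝ × ℝ) => q.1 + J q.2) := by
  unfold J; fun_prop

lemma kerD_meas (F : Mat → ℝ≥0∞) (hF : Measurable F) : Measurable (fun q : Mat × (ℝ × ℝ) =>
    if q.1.2.2 ≤ 2 * q.2.1 then ENNReal.ofReal (q.2.1 / (q.1.2.2 + q.2.1)) * F (q.1 + J q.2)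
    else 0) := by
  have h1 : Measurable (fun q : Mat × (ℝ × ℝ) => q.1.2.2) := by fun_prop
  have h2 : Measurable (fun q : Mat × (ℝ × ℝ) => 2 * q.2.1) := by fun_prop
  have h3 : Measurable (fun q : Mat × (ℝ × ℝ) =>
      ENNReal.ofReal (q.2.1 / (q.1.2.2 + q.2.1)) * F (q.1 + J q.2)) :=
    (by fun_prop : Measurable (fun q : Mat × (ℝ × ℝ) =>
      ENNReal.ofReal (q.2.1 / (q.1.2.2 + q.2.1)))).mul (hF.comp addJ_meas)
  exact Measurable.ite (measurableSet_le h1 h2) h3 measurable_const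

lemma kerN_meas (F : Mat → ℝ≥0∞) (hF : Measurable F) : Measurable (fun q : Mat × (ℝ × ℝ) =>
    if 2 * q.2.1 < q.1.2.2 then ENNReal.ofReal (q.2.1 / (q.1.2.2 + q.2.1)) * F (q.1 + J q.2)
    else 0) := by
  have h1 : Measurable (fun q : Mat × (ℝ × ℝ) => q.1.2.2) := by fun_prop
  have h2 : Measurable (fun q : Mat × (ℝ × ℝ) => 2 * q.2.1) := by fun_prop
  have h3 : Measurable (fun q : Mat × (ℝ × ℝ) =>
      ENNReal.ofReal (q.2.1 / (q.1.2.2 + q.2.1)) * F (q.1 + J q.2)) :=
    (by fun_prop : Measurable (fun q : Mat × (ℝ × ℝ) =>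
      ENNReal.ofReal (q.2.1 / (q.1.2.2 + q.2.1)))).mul (hF.comp addJ_meas)
  exact Measurable.ite (measurableSet_lt h2 h1) h3 measurable_const

lemma opD_meas (F : Mat → ℝ≥0∞) (hF : Measurable F) : Measurable (opD s t F) :=
  (kerD_meas F hF).lintegral_prod_right'

lemma opN_meas (F : Mat → ℝ≥0∞) (hF : Measurable F) : Measurable (opN s t F) :=
  (kerN_meas F hF).lintegral_prod_right'

lemma opN_iter_meas (F : Mat → ℝ≥0∞) (hF : Measurable F) (j : ℕ) :
    Measurable ((opN s t)^[j] F) := by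
  induction j with
  | zero => exact hF
  | succ j ih => rw [Function.iterate_succ_apply']; exact opN_meas _ ih

/-- dominant and non dominant picks -/
lemma split (hP : Law s t P) (hc : ∀ᵐ M ∂P, 0 < M.2.2) (F : Mat → ℝ≥0∞) (hF : Measurable F) :
    ∫⁻ M, F M ∂P = (∫⁻ M, opD s t F M ∂P) + ∫⁻ M, opN s t F M ∂P := by
  rw [I.mecke1 hP hc F hF, ← lintegral_add_left (opD_meas F hF)]
  apply lintegral_congr
  intro M
  have h1 : Measurable (fun p : ℝ × ℝ => if M.2.2 ≤ 2 * p.1 then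
      ENNReal.ofReal (p.1 / (M.2.2 + p.1)) * F (M + J p) else 0) :=
    (kerD_meas F hF).comp measurable_prodMk_left
  unfold opD opN
  rw [← lintegral_add_left h1]
  apply lintegral_congr
  intro p
  by_cases h : M.2.2 ≤ 2 * p.1
  · rw [if_pos h, if_neg (not_lt.2 h), add_zero]
  · rw [if_neg h, if_pos (not_le.1 h), zero_add]

lemma iterate (hP : Law s t P) (hc : ∀ᵐ M ∂P, 0 < M.2.2) (F : Mat → ℝ≥0∞) (hF : Measurable F)
    (n : ℕ) : ∫⁻ M, F M ∂P = (∑ j ∈ Finset.range n, ∫⁻ M, opD s t ((opN s t)^[j] F) M ∂P) +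
      ∫⁻ M, ((opN s t)^[n] F) M ∂P := by
  induction n with
  | zero => simp
  | succ n ih =>
    rw [ih, Finset.sum_range_succ, split hP hc _ (opN_iter_meas F hF n),
      Function.iterate_succ_apply', add_assoc]

/-- the functionals of the induction -/
noncomputable def Bj (s t : ℝ) (P : Measure Mat) (j : ℕ) (A : ℝ) (F : Mat → ℝ≥0∞) : ℝ≥0∞ :=
  ∫⁻ M, (∫⁻ p, (if M.2.2 ≤ A * p.1 then ENNReal.ofReal ((M.2.2 / p.1) ^ j) * F (M + J p)
    else 0) ∂(rho s t)) ∂P

lemma opD_le_B0 (hc : ∀ᵐ M ∂P, 0 < M.2.2) (F : Mat → ℝ≥0∞) :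
    ∫⁻ M, opD s t F M ∂P ≤ Bj s t P 0 2 F := by
  unfold opD Bj
  apply lintegral_mono_ae
  filter_upwards [hc] with M hM
  apply lintegral_mono_ae
  filter_upwards [I.rho_ae s t] with p hp
  have hp1 := hp.1
  split_ifs
  · gcongr
    rw [pow_zero, div_le_one (by positivity)]
    linarith
  · exact le_rfl

/-- the induction step -/
lemma step (hP : Law s t P) (hc : ∀ᵐ M ∂P, 0 < M.2.2) (j : ℕ) (A : ℝ) (hA : 1 ≤ A)
    (F : Mat → ℝ≥0∞) (hF : Measurable F) : Bj s t P j A (opN s t F) ≤ Bj s t P (j + 1) (2 * A) F := by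
  have hprob := hP.prob
  -- the kernel
  set G' : Mat → (ℝ × ℝ) → ℝ≥0∞ := fun M p' => if M.2.2 ≤ 2 * A * p'.1 then
    ENNReal.ofReal ((M.2.2 / p'.1) ^ j * (1 / p'.1)) * F (M + J p') else 0 with hG'
  have hG'm : Measurable (Function.uncurry G') := by
    have h1 : Measurable (fun q : Mat × (ℝ × ℝ) => q.1.2.2) := by fun_prop
    have h2 : Measurable (fun q : Mat × (ℝ × ℝ) => 2 * A * q.2.1) := by fun_prop
    have h3 : Measurable (fun q : Mat × (ℝ × ℝ) =>
        ENNReal.ofReal ((q.1.2.2 / q.2.1) ^ j * (1 / q.2.1)) * F (q.1 + J q.2)) :=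
      (by fun_prop : Measurable (fun q : Mat × (ℝ × ℝ) =>
        ENNReal.ofReal ((q.1.2.2 / q.2.1) ^ j * (1 / q.2.1)))).mul (hF.comp addJ_meas)
    exact Measurable.ite (measurableSet_le h1 h2) h3 measurable_const
  set G : Mat → ℝ≥0∞ := fun M => ∫⁻ p', G' M p' ∂(rho s t) with hG
  have hGm : Measurable G := hG'm.lintegral_prod_right'
  have hstep1 : Bj s t P j A (opN s t F) ≤
      ∫⁻ M, ∫⁻ p', ∫⁻ p, ENNReal.ofReal p.1 * G' (M + J p) p' ∂(rho s t) ∂(rho s t) ∂P := by
    unfold Bj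
    apply lintegral_mono_ae
    filter_upwards [hc] with M hM
    apply lintegral_mono_ae
    filter_upwards [I.rho_ae s t] with p' hp'
    have hp1' := hp'.1
    split_ifs with h
    · unfold opN
      rw [← lintegral_const_mul' _ _ ENNReal.ofReal_ne_top]
      apply lintegral_mono_ae
      filter_upwards [I.rho_ae s t] with p hp
      have hp1 := hp.1
      have ec : (M + J p').2.2 = M.2.2 + p'.1 := rfl
      have ec' : (M + J p).2.2 = M.2.2 + p.1 := rfl
      rw [ec]
      split_ifs with h2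
      · have h3 : (M + J p).2.2 ≤ 2 * A * p'.1 := by
          rw [ec']
          nlinarith
        rw [hG']
        simp only
        rw [if_pos h3, ec', ← mul_assoc, ← mul_assoc, ← ENNReal.ofReal_mul (by positivity),
          ← ENNReal.ofReal_mul hp1.le, add_right_comm M (J p') (J p)]
        refine mul_le_mul' (ENNReal.ofReal_le_ofReal ?_) le_rfl
        have h4 : (M.2.2 / p'.1) ^ j ≤ ((M.2.2 + p.1) / p'.1) ^ j := by
          gcongr
          linarith
        have h5 : p.1 / (M.2.2 + p'.1 + p.1) ≤ p.1 * (1 / p'.1) := by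
          rw [mul_one_div]
          apply div_le_div_of_nonneg_left hp1.le hp1'
          linarith
        calc (M.2.2 / p'.1) ^ j * (p.1 / (M.2.2 + p'.1 + p.1))
            ≤ ((M.2.2 + p.1) / p'.1) ^ j * (p.1 * (1 / p'.1)) := by gcongr
          _ = _ := by ring
      · rw [mul_zero]; exact zero_le
    · exact zero_le
  have hstep2 : ∫⁻ M, ∫⁻ p', ∫⁻ p, ENNReal.ofReal p.1 * G' (M + J p) p' ∂(rho s t) ∂(rho s t) ∂P =
      ∫⁻ M, ENNReal.ofReal M.2.2 * G M ∂P := by
    rw [hP.mecke G hGm]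
    apply lintegral_congr
    intro M
    rw [lintegral_lintegral_swap]
    · apply lintegral_congr
      intro p
      rw [lintegral_const_mul' _ _ ENNReal.ofReal_ne_top]
    · apply Measurable.aemeasurable
      have h1 : Measurable (fun q : (ℝ × ℝ) × (ℝ × ℝ) => (M + J q.2, q.1)) := by
        unfold J; fun_prop
      exact (by fun_prop : Measurable (fun q : (ℝ × ℝ) × (ℝ × ℝ) => ENNReal.ofReal q.2.1)).mul
        (hG'm.comp h1)
  have hstep3 : ∫⁻ M, ENNReal.ofReal M.2.2 * G M ∂P ≤ Bj s t P (j + 1) (2 * A) F := by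
    unfold Bj
    apply lintegral_mono_ae
    filter_upwards [hc] with M hM
    rw [hG]
    simp only
    rw [← lintegral_const_mul' _ _ ENNReal.ofReal_ne_top]
    apply lintegral_mono_ae
    filter_upwards [I.rho_ae s t] with p hp
    have hp1 := hp.1
    rw [hG']
    simp only
    split_ifs
    · rw [← mul_assoc, ← ENNReal.ofReal_mul hM.le]
      gcongr
      apply le_of_eq
      rw [pow_succ]
      field_simp
    · rw [mul_zero]
  exact hstep1.trans (hstep2.le.trans hstep3)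

lemma steps (hP : Law s t P) (hc : ∀ᵐ M ∂P, 0 < M.2.2) (j : ℕ) :
    ∀ (i : ℕ) (A : ℝ), 1 ≤ A → ∀ (F : Mat → ℝ≥0∞), Measurable F →
    Bj s t P i A ((opN s t)^[j] F) ≤ Bj s t P (i + j) (2 ^ j * A) F := by
  induction j with
  | zero => intro i A _ F _; simp
  | succ j ih =>
    intro i A hA F hF
    rw [Function.iterate_succ_apply']
    refine (step hP hc i A hA _ (opN_iter_meas F hF j)).trans ?_
    refine (ih (i + 1) (2 * A) (by linarith) F hF).trans (le_of_eq ?_)
    rw [show i + 1 + j = i + (j + 1) by ring, pow_succ, mul_assoc]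

lemma Bj_le (hc : ∀ᵐ M ∂P, 0 < M.2.2) (hs : 0 < s) (hs1 : s < 1) (j : ℕ) (hj : 1 ≤ j) (A : ℝ)
    (hA : 1 ≤ A) (A' : ℝ) (hA' : A ≤ A') (n : ℕ) (hn : j ≤ n) (F : Mat → ℝ≥0∞) :
    Bj s t P j A F ≤ ENNReal.ofReal (A' ^ n) * opB s t A' P F := by
  unfold Bj opB
  rw [← lintegral_const_mul' _ _ ENNReal.ofReal_ne_top]
  apply lintegral_mono_ae
  filter_upwards [hc] with M hM
  rw [← lintegral_const_mul' _ _ ENNReal.ofReal_ne_top]
  apply lintegral_mono_ae
  filter_upwards [I.rho_ae s t] with p hp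
  have hp1 := hp.1
  have hA1 : 1 ≤ A' := hA.trans hA'
  by_cases h : M.2.2 ≤ A * p.1
  · have h2 : M.2.2 ≤ A' * p.1 := h.trans (mul_le_mul_of_nonneg_right hA' hp1.le)
    rw [if_pos h, if_pos h2, ← mul_assoc, ← ENNReal.ofReal_mul (by positivity)]
    gcongr
    set y := M.2.2 / p.1 with hy
    have hy0 : 0 < y := by positivity
    have hyA : y ≤ A' := by rw [hy, div_le_iff₀ hp1]; exact h2
    have hAn : 1 ≤ A' ^ n := one_le_pow₀ hA1
    rcases le_total y 1 with h3 | h3
    · calc y ^ j ≤ y ^ 1 := pow_le_pow_of_le_one hy0.le h3 hj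
        _ = y ^ (1 : ℝ) := by rw [pow_one, Real.rpow_one]
        _ ≤ y ^ (s / 2) := Real.rpow_le_rpow_of_exponent_ge hy0 h3 (by linarith)
        _ ≤ A' ^ n * y ^ (s / 2) := by
            have : 0 ≤ y ^ (s / 2) := by positivity
            nlinarith
    · have h4 : 1 ≤ y ^ (s / 2) := Real.one_le_rpow h3 (by positivity)
      calc y ^ j ≤ A' ^ j := pow_le_pow_left₀ hy0.le hyA j
        _ ≤ A' ^ n := pow_le_pow_right₀ hA1 hn
        _ ≤ A' ^ n * y ^ (s / 2) := by nlinarith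
  · rw [if_neg h]
    exact zero_le

theorem main (hN1 : StmtN1) : StmtNCa := by
  intro s t P hs hs1 ht hP n
  have hc : ∀ᵐ M ∂P, 0 < M.2.2 := by
    filter_upwards [(hN1 s t P hs hs1 ht hP).1] with M hM using hM.1
  set A : ℝ := 2 ^ (n + 1) with hA
  have hA1 : 1 ≤ A := one_le_pow₀ (by norm_num)
  refine ⟨A, n * A ^ n, hA1, by positivity, fun F hF => ?_⟩
  rw [iterate hP hc F hF (n + 1), Finset.sum_range_succ']
  simp only [Function.iterate_zero, id_eq]
  have h1 : ∑ k ∈ Finset.range n, ∫⁻ M, opD s t ((opN s t)^[k + 1] F) M ∂P ≤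
      ENNReal.ofReal (n * A ^ n) * opB s t A P F := by
    have h2 : ∀ k ∈ Finset.range n, ∫⁻ M, opD s t ((opN s t)^[k + 1] F) M ∂P ≤
        ENNReal.ofReal (A ^ n) * opB s t A P F := by
      intro k hk
      have hkn := Finset.mem_range.1 hk
      refine (opD_le_B0 hc _).trans ?_
      refine (steps hP hc (k + 1) 0 2 (by norm_num) F hF).trans ?_
      refine Bj_le hc hs hs1 _ (by omega) _ ?_ A ?_ n (by omega) F
      · have : (1 : ℝ) ≤ 2 ^ (k + 1) := one_le_pow₀ (by norm_num)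
        linarith
      · rw [← pow_succ, hA]
        exact pow_le_pow_right₀ (by norm_num) (by omega)
    refine (Finset.sum_le_card_nsmul _ _ _ h2).trans (le_of_eq ?_)
    rw [Finset.card_range, nsmul_eq_mul, ← mul_assoc, ENNReal.ofReal_mul (by positivity),
      ENNReal.ofReal_natCast]
  refine add_le_add ?_ le_rfl
  rw [add_comm]
  exact add_le_add le_rfl h1

end Pool.Agent.L0h89.FK.NCa
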