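import Pool.Agent.L0h89.FK.Defs2
import Pool.Agent.L0h89.FK.Tools
import Pool.Agent.L0h89.FK.I
import Pool.Agent.L0h89.FK.C

/-! # NCb: bound of the error functional -/

set_option autoImplicit false

open MeasureTheory Set Filter Topology
open scoped ENNReal RealInnerProductSpace

namespace Pool.Agent.L0h89.FK.NCb

/-- the numerator of the exponent of `g` -/
noncomputable def SS (d : ℕ) (N : Mat) (x v : V d) : ℝ :=
  N.2.2 * ‖x‖ ^ 2 - 2 * N.2.1 * ⟪x, v⟫ + N.1 * ‖v‖ ^ 2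

lemma E1 (d : ℕ) (N : Mat) (x v : V d) : det N * ‖v‖ ^ 2 ≤ SS d N x v * N.2.2 := by
  have h : SS d N x v * N.2.2 = ‖N.2.2 • x - N.2.1 • v‖ ^ 2 + det N * ‖v‖ ^ 2 := by
    rw [norm_sub_sq_real, inner_smul_right, inner_smul_left, norm_smul, norm_smul, mul_pow,
      mul_pow, Real.norm_eq_abs, sq_abs, Real.norm_eq_abs, sq_abs]
    simp only [conj_trivial]
    unfold SS det
    ring
  rw [h]
  have : 0 ≤ ‖N.2.2 • x - N.2.1 • v‖ ^ 2 := by positivity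
  linarith

lemma E2 (d : ℕ) (N : Mat) (x v : V d) (τ : ℝ) :
    det N * ‖x - τ • v‖ ^ 2 ≤ SS d N x v * Q τ N := by
  have h : SS d N x v * Q τ N =
      ‖(N.1 - τ * N.2.1) • v - (N.2.1 - τ * N.2.2) • x‖ ^ 2 + det N * ‖x - τ • v‖ ^ 2 := by
    rw [norm_sub_sq_real, norm_sub_sq_real, inner_smul_right, inner_smul_left, inner_smul_right,
      norm_smul, norm_smul, norm_smul, mul_pow, mul_pow, mul_pow, Real.norm_eq_abs, sq_abs,
      Real.norm_eq_abs, sq_abs, Real.norm_eq_abs, sq_abs, real_inner_comm x v]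
    simp only [conj_trivial]
    unfold SS det Q
    ring
  rw [h]
  have : 0 ≤ ‖(N.1 - τ * N.2.1) • v - (N.2.1 - τ * N.2.2) • x‖ ^ 2 := by positivity
  linarith

/-- the exponent is large -/
lemma expo {t : ℝ} (ht : 0 < t) (d : ℕ) (N : Mat) (hN : N ∈ cone t) (hd : 0 < det N) (x v : V d)
    (τ : ℝ) : ‖v‖ ^ 2 / (8 * N.2.2) + ‖x - τ • v‖ ^ 2 / (8 * Q τ N) ≤
      SS d N x v / (4 * det N) := by
  have hc := c_pos ht hN hd
  have hQ := Q_pos ht hN hd τ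
  have h1 := E1 d N x v
  have h2 := E2 d N x v τ
  have h3 : ‖v‖ ^ 2 / (8 * N.2.2) ≤ SS d N x v / (8 * det N) := by
    rw [div_le_div_iff₀ (by positivity) (by positivity)]
    nlinarith
  have h4 : ‖x - τ • v‖ ^ 2 / (8 * Q τ N) ≤ SS d N x v / (8 * det N) := by
    rw [div_le_div_iff₀ (by positivity) (by positivity)]
    nlinarith
  have h5 : SS d N x v / (4 * det N) = SS d N x v / (8 * det N) + SS d N x v / (8 * det N) := by
    field_simp
    ring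
  rw [h5]
  exact add_le_add h3 h4

/-- `y^{-d/2} e^{-1/(8y)} ≤ C min(1,y)` -/
lemma gauss_min (d : ℕ) : ∃ C : ℝ, 0 < C ∧ ∀ y : ℝ, 0 < y →
    y ^ (-((d : ℝ) / 2)) * Real.exp (-(1 / (8 * y))) ≤ C * min 1 y := by
  obtain ⟨C0, hC0, h0⟩ := exp_le_rpow ((d : ℝ) / 2) (by positivity)
  obtain ⟨C1, hC1, h1⟩ := exp_le_rpow ((d : ℝ) / 2 + 1) (by positivity)
  refine ⟨C0 * 8 ^ ((d : ℝ) / 2) + C1 * 8 ^ ((d : ℝ) / 2 + 1), by positivity, fun y hy => ?_⟩
  have key : ∀ (C k : ℝ), 0 < C → (∀ x : ℝ, 0 < x → Real.exp (-x) ≤ C * x ^ (-k)) →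
      Real.exp (-(1 / (8 * y))) ≤ C * 8 ^ k * y ^ k := by
    intro C k hC h
    refine (h (1 / (8 * y)) (by positivity)).trans (le_of_eq ?_)
    rw [one_div, Real.inv_rpow (by positivity), Real.rpow_neg (by positivity), inv_inv,
      Real.mul_rpow (by norm_num) hy.le]
    ring
  have a0 := key C0 _ hC0 h0
  have a1 := key C1 _ hC1 h1
  have hyp : 0 < y ^ (-((d : ℝ) / 2)) := by positivity
  have e0 : y ^ (-((d : ℝ) / 2)) * y ^ ((d : ℝ) / 2) = 1 := by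
    rw [← Real.rpow_add hy]; simp
  have e1 : y ^ (-((d : ℝ) / 2)) * y ^ ((d : ℝ) / 2 + 1) = y := by
    rw [← Real.rpow_add hy]; simp
  rcases le_total 1 y with h | h
  · rw [min_eq_left h]
    calc _ ≤ y ^ (-((d : ℝ) / 2)) * (C0 * 8 ^ ((d : ℝ) / 2) * y ^ ((d : ℝ) / 2)) :=
          mul_le_mul_of_nonneg_left a0 hyp.le
      _ = C0 * 8 ^ ((d : ℝ) / 2) := by
          linear_combination (C0 * 8 ^ ((d : ℝ) / 2)) * e0
      _ ≤ _ := by
          have : 0 ≤ C1 * 8 ^ ((d : ℝ) / 2 + 1) := by positivity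
          linarith
  · rw [min_eq_right h]
    calc _ ≤ y ^ (-((d : ℝ) / 2)) * (C1 * 8 ^ ((d : ℝ) / 2 + 1) * y ^ ((d : ℝ) / 2 + 1)) :=
          mul_le_mul_of_nonneg_left a1 hyp.le
      _ = C1 * 8 ^ ((d : ℝ) / 2 + 1) * y := by
          linear_combination (C1 * 8 ^ ((d : ℝ) / 2 + 1)) * e1
      _ ≤ _ := by
          have : 0 ≤ C0 * 8 ^ ((d : ℝ) / 2) * y := by positivity
          linarith

/-- the pointwise bound of the integrand -/
lemma point {s t : ℝ} (ht : 0 < t) (d : ℕ) (A : ℝ) (C₀ : ℝ)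
    (hC₀ : 0 < C₀) (hmin : ∀ y : ℝ, 0 < y →
      y ^ (-((d : ℝ) / 2)) * Real.exp (-(1 / (8 * y))) ≤ C₀ * min 1 y)
    (x v : V d) (M : Mat) (hM : M ∈ cone t) (hd : 0 < det M) (p : ℝ × ℝ) (hp : 0 < p.1)
    (hτ : p.2 ∈ Icc (0 : ℝ) t) (hx : x ≠ p.2 • v) (hc : M.2.2 ≤ A * p.1) :
    (M.2.2 / p.1) ^ (s / 2) * g d (M + J p) x v ≤
      (p.1 ^ (-(((d : ℝ) + s) / 2)) * Real.exp (-(‖v‖ ^ 2 / (8 * (1 + A)) / p.1))) *
      ((4 * Real.pi) ^ (-(d : ℝ)) * C₀ * ‖x - p.2 • v‖ ^ (-(d : ℝ)) *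
        (M.2.2 ^ (s / 2) * min 1 (M.2.2 / (‖x - p.2 • v‖ ^ 2 / t ^ 2)))) := by
  obtain ⟨r, τ⟩ := p
  simp only at hp hτ hx hc ⊢
  have hc0 := c_pos ht hM hd
  have hQ := Q_pos ht hM hd τ
  have hNd : 0 < det (M + J (r, τ)) := by rw [det_add_J]; positivity
  have hN : M + J (r, τ) ∈ cone t := add_mem_cone ht hM (J_mem_cone hp.le hτ.1 hτ.2)
  have hex := expo ht d (M + J (r, τ)) hN hNd x v τ
  have hQN : Q τ (M + J (r, τ)) = Q τ M := by rw [Q_add_J]; ring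
  have hcN : (M + J (r, τ)).2.2 = M.2.2 + r := rfl
  rw [hQN, hcN] at hex
  have hX : 0 < ‖x - τ • v‖ := norm_pos_iff.2 (sub_ne_zero.2 hx)
  set X := ‖x - τ • v‖ with hXdef
  set R := ‖v‖ with hR
  have h1 : R ^ 2 / (8 * (1 + A)) / r ≤ R ^ 2 / (8 * (M.2.2 + r)) := by
    rw [div_div]
    apply div_le_div_of_nonneg_left (by positivity) (by positivity)
    nlinarith
  have h2 : Real.exp (-(SS d (M + J (r, τ)) x v / (4 * det (M + J (r, τ))))) ≤
      Real.exp (-(R ^ 2 / (8 * (1 + A)) / r)) * Real.exp (-(X ^ 2 / (8 * Q τ M))) := by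
    rw [← Real.exp_add]
    apply Real.exp_le_exp.2
    linarith
  have h3 : det (M + J (r, τ)) ^ (-((d : ℝ) / 2)) ≤
      r ^ (-((d : ℝ) / 2)) * Q τ M ^ (-((d : ℝ) / 2)) := by
    rw [← Real.mul_rpow hp.le hQ.le]
    apply Real.rpow_le_rpow_of_nonpos (by positivity)
    · rw [det_add_J]; linarith
    · have : (0 : ℝ) ≤ d := by positivity
      linarith
  have h4 : Q τ M ^ (-((d : ℝ) / 2)) * Real.exp (-(X ^ 2 / (8 * Q τ M))) ≤
      C₀ * X ^ (-(d : ℝ)) * min 1 (M.2.2 / (X ^ 2 / t ^ 2)) := by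
    have h5 := hmin (Q τ M / X ^ 2) (by positivity)
    have e1 : (Q τ M / X ^ 2) ^ (-((d : ℝ) / 2)) = Q τ M ^ (-((d : ℝ) / 2)) * X ^ (d : ℝ) := by
      rw [Real.div_rpow hQ.le (by positivity), ← Real.rpow_natCast X 2, ← Real.rpow_mul hX.le,
        div_eq_mul_inv, ← Real.rpow_neg hX.le]
      congr 2
      push_cast
      ring
    have e2 : 1 / (8 * (Q τ M / X ^ 2)) = X ^ 2 / (8 * Q τ M) := by field_simp
    rw [e1, e2] at h5
    have h6 : min 1 (Q τ M / X ^ 2) ≤ min 1 (M.2.2 / (X ^ 2 / t ^ 2)) := by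
      apply min_le_min_left
      rw [div_div_eq_mul_div]
      apply div_le_div_of_nonneg_right _ (by positivity)
      rw [mul_comm]
      exact I.Q_cone ht hτ.1 hτ.2 hM
    have e3 : X ^ (-(d : ℝ)) * X ^ (d : ℝ) = 1 := by
      rw [← Real.rpow_add hX]; simp
    have hX0 : 0 < X ^ (-(d : ℝ)) := by positivity
    calc Q τ M ^ (-((d : ℝ) / 2)) * Real.exp (-(X ^ 2 / (8 * Q τ M)))
        = X ^ (-(d : ℝ)) * (Q τ M ^ (-((d : ℝ) / 2)) * X ^ (d : ℝ) *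
          Real.exp (-(X ^ 2 / (8 * Q τ M)))) := by
          linear_combination (-(Q τ M ^ (-((d : ℝ) / 2)) * Real.exp (-(X ^ 2 / (8 * Q τ M))))) * e3
      _ ≤ X ^ (-(d : ℝ)) * (C₀ * min 1 (M.2.2 / (X ^ 2 / t ^ 2))) := by
          apply mul_le_mul_of_nonneg_left _ hX0.le
          exact h5.trans (mul_le_mul_of_nonneg_left h6 hC₀.le)
      _ = _ := by ring
  have h7 : (M.2.2 / r) ^ (s / 2) = M.2.2 ^ (s / 2) * r ^ (-(s / 2)) := by
    rw [Real.div_rpow hc0.le hp.le, Real.rpow_neg hp.le, div_eq_mul_inv]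
  have h8 : r ^ (-(((d : ℝ) + s) / 2)) = r ^ (-(s / 2)) * r ^ (-((d : ℝ) / 2)) := by
    rw [← Real.rpow_add hp]; congr 1; ring
  have hg : g d (M + J (r, τ)) x v = (4 * Real.pi) ^ (-(d : ℝ)) *
      det (M + J (r, τ)) ^ (-((d : ℝ) / 2)) *
      Real.exp (-(SS d (M + J (r, τ)) x v / (4 * det (M + J (r, τ))))) := rfl
  rw [hg, h7, h8]
  have hpi : 0 < (4 * Real.pi) ^ (-(d : ℝ)) := by positivity
  calc M.2.2 ^ (s / 2) * r ^ (-(s / 2)) * ((4 * Real.pi) ^ (-(d : ℝ)) *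
        det (M + J (r, τ)) ^ (-((d : ℝ) / 2)) *
        Real.exp (-(SS d (M + J (r, τ)) x v / (4 * det (M + J (r, τ))))))
      ≤ M.2.2 ^ (s / 2) * r ^ (-(s / 2)) * ((4 * Real.pi) ^ (-(d : ℝ)) *
        (r ^ (-((d : ℝ) / 2)) * Q τ M ^ (-((d : ℝ) / 2))) *
        (Real.exp (-(R ^ 2 / (8 * (1 + A)) / r)) * Real.exp (-(X ^ 2 / (8 * Q τ M))))) := by
        gcongr
    _ = (r ^ (-(s / 2)) * r ^ (-((d : ℝ) / 2)) * Real.exp (-(R ^ 2 / (8 * (1 + A)) / r))) *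
        ((4 * Real.pi) ^ (-(d : ℝ)) * M.2.2 ^ (s / 2) *
          (Q τ M ^ (-((d : ℝ) / 2)) * Real.exp (-(X ^ 2 / (8 * Q τ M))))) := by ring
    _ ≤ (r ^ (-(s / 2)) * r ^ (-((d : ℝ) / 2)) * Real.exp (-(R ^ 2 / (8 * (1 + A)) / r))) *
        ((4 * Real.pi) ^ (-(d : ℝ)) * M.2.2 ^ (s / 2) *
          (C₀ * X ^ (-(d : ℝ)) * min 1 (M.2.2 / (X ^ 2 / t ^ 2)))) := by
        gcongr
    _ = _ := by ring

/-- the integral over the jump size -/
lemma jump (d : ℕ) {s : ℝ} (hs : 0 < s) (hs1 : s < 1) (b : ℝ) (hb : 0 < b) :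
    ∫⁻ r, ENNReal.ofReal (r ^ (-(((d : ℝ) + s) / 2)) * Real.exp (-(b / r))) ∂(lev s) =
      ENNReal.ofReal (kap s * (b ^ (-(((d : ℝ) + 3 * s) / 2)) *
        Real.Gamma (((d : ℝ) + 3 * s) / 2))) := by
  have hk := kap_pos hs hs1
  have ha : 0 < ((d : ℝ) + 3 * s) / 2 := by positivity
  rw [lintegral_lev, ENNReal.ofReal_mul hk.le, ← C.gamma_inv _ b ha hb,
    ← lintegral_const_mul' _ _ ENNReal.ofReal_ne_top]
  apply setLIntegral_congr_fun measurableSet_Ioi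
  intro q hq
  have hq0 : 0 < q := hq
  simp only
  rw [← ENNReal.ofReal_mul (by positivity), ← ENNReal.ofReal_mul hk.le]
  congr 1
  have : q ^ (-(((d : ℝ) + 3 * s) / 2) - 1) = q ^ (-1 - s) * q ^ (-(((d : ℝ) + s) / 2)) := by
    rw [← Real.rpow_add hq0]; congr 1; ring
  rw [this]
  ring

/-- module NCb -/
theorem main (hN1 : StmtN1) (hTl : StmtTl) : StmtNCb := by
  intro s t P hs hs1 ht hL d hd A hA
  have hprob := hL.prob
  obtain ⟨hpos, -⟩ := hN1 s t P hs hs1 ht hL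
  obtain ⟨CT, hCT, hT⟩ := hTl s t P hs hs1 ht hL
  obtain ⟨C₀, hC₀, hmin⟩ := gauss_min d
  have hk := kap_pos hs hs1
  have hG : 0 < Real.Gamma (((d : ℝ) + 3 * s) / 2) := Real.Gamma_pos_of_pos (by positivity)
  have hA0 : 0 < 8 * (1 + A) := by linarith
  set K1 : ℝ := kap s * ((8 * (1 + A)) ^ (((d : ℝ) + 3 * s) / 2) *
    Real.Gamma (((d : ℝ) + 3 * s) / 2)) with hK1
  set K2 : ℝ := (4 * Real.pi) ^ (-(d : ℝ)) * C₀ * (CT * t ^ s) with hK2
  refine ⟨K1 * K2, by positivity, fun x v hv hx => ?_⟩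
  have hR : 0 < ‖v‖ := norm_pos_iff.2 hv
  -- the two factors
  set G1 : ℝ → ℝ≥0∞ := fun r => ENNReal.ofReal (r ^ (-(((d : ℝ) + s) / 2)) *
    Real.exp (-(‖v‖ ^ 2 / (8 * (1 + A)) / r))) with hG1
  set G2 : Mat → ℝ → ℝ≥0∞ := fun M τ => ENNReal.ofReal ((4 * Real.pi) ^ (-(d : ℝ)) * C₀ *
    ‖x - τ • v‖ ^ (-(d : ℝ))) * ENNReal.ofReal (M.2.2 ^ (s / 2) *
      min 1 (M.2.2 / (‖x - τ • v‖ ^ 2 / t ^ 2))) with hG2
  have hG1m : Measurable G1 := by
    rw [hG1]; fun_prop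
  have hG2m : Measurable (Function.uncurry G2) := by
    have a1 : Measurable fun z : Mat × ℝ => ‖x - z.2 • v‖ := by fun_prop
    have a2 : Measurable fun z : Mat × ℝ => z.1.2.2 := by fun_prop
    have a3 : Measurable fun z : Mat × ℝ => ENNReal.ofReal ((4 * Real.pi) ^ (-(d : ℝ)) * C₀ *
      ‖x - z.2 • v‖ ^ (-(d : ℝ))) := ((a1.pow_const _).const_mul _).ennreal_ofReal
    have a4 : Measurable fun z : Mat × ℝ => ENNReal.ofReal (z.1.2.2 ^ (s / 2) *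
      min 1 (z.1.2.2 / (‖x - z.2 • v‖ ^ 2 / t ^ 2))) :=
      ((a2.pow_const _).mul (measurable_const.min (a2.div ((a1.pow_const 2).div_const _)))).ennreal_ofReal
    exact a3.mul a4
  have hle : opB s t A P (fun M => ENNReal.ofReal (g d M x v)) ≤
      ∫⁻ M, (∫⁻ p, G1 p.1 * G2 M p.2 ∂(rho s t)) ∂P := by
    unfold opB
    apply lintegral_mono_ae
    filter_upwards [hL.supp, hpos] with M hM hM0
    apply lintegral_mono_ae
    filter_upwards [I.rho_ae s t] with p hp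
    split_ifs with hc
    · have h1 := point (s := s) ht d A C₀ hC₀ hmin x v M hM hM0.2 p hp.1 hp.2 (hx _ hp.2) hc
      have hc0 := hM0.1
      have hp0 := hp.1
      rw [hG1, hG2]
      simp only
      rw [← ENNReal.ofReal_mul (by positivity), ← ENNReal.ofReal_mul (by positivity),
        ← ENNReal.ofReal_mul (by positivity)]
      exact ENNReal.ofReal_le_ofReal h1
    · exact bot_le
  refine hle.trans ?_
  have hfac : ∀ M : Mat, ∫⁻ p, G1 p.1 * G2 M p.2 ∂(rho s t) =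
      (∫⁻ r, G1 r ∂(lev s)) * ∫⁻ τ in Icc 0 t, G2 M τ := by
    intro M
    unfold rho
    exact lintegral_prod_mul (μ := lev s) (ν := volume.restrict (Icc (0 : ℝ) t)) (f := G1)
      (g := G2 M) hG1m.aemeasurable (hG2m.comp measurable_prodMk_left).aemeasurable
  simp only [hfac]
  rw [lintegral_const_mul _ (Measurable.lintegral_prod_right hG2m),
    lintegral_lintegral_swap hG2m.aemeasurable]
  have hJ : ∫⁻ r, G1 r ∂(lev s) = ENNReal.ofReal (K1 * ‖v‖ ^ (-(d + 3 * s))) := by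
    rw [hG1, jump d hs hs1 _ (by positivity)]
    congr 1
    rw [Real.div_rpow (by positivity) hA0.le, ← Real.rpow_natCast ‖v‖ 2, ← Real.rpow_mul hR.le,
      Real.rpow_neg hA0.le, div_inv_eq_mul, hK1]
    have e : ((2 : ℕ) : ℝ) * -(((d : ℝ) + 3 * s) / 2) = -(d + 3 * s) := by push_cast; ring
    rw [e]
    ring
  have hin : ∀ τ ∈ Icc (0 : ℝ) t, ∫⁻ M, G2 M τ ∂P ≤
      ENNReal.ofReal K2 * ENNReal.ofReal (‖x - τ • v‖ ^ (-(d + s))) := by
    intro τ hτ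
    have hX : 0 < ‖x - τ • v‖ := norm_pos_iff.2 (sub_ne_zero.2 (hx τ hτ))
    rw [hG2]
    simp only
    rw [lintegral_const_mul' _ _ ENNReal.ofReal_ne_top]
    refine (mul_le_mul_right (hT (‖x - τ • v‖ ^ 2 / t ^ 2) (by positivity)) _).trans ?_
    rw [← ENNReal.ofReal_mul (by positivity), ← ENNReal.ofReal_mul (by positivity)]
    apply ENNReal.ofReal_le_ofReal
    apply le_of_eq
    have e1 : (‖x - τ • v‖ ^ 2 / t ^ 2) ^ (-(s / 2)) = ‖x - τ • v‖ ^ (-s) * t ^ s := by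
      rw [Real.div_rpow (by positivity) (by positivity), ← Real.rpow_natCast ‖x - τ • v‖ 2,
        ← Real.rpow_mul hX.le, ← Real.rpow_natCast t 2, ← Real.rpow_mul ht.le, div_eq_mul_inv,
        ← Real.rpow_neg ht.le]
      congr 2 <;> (push_cast; ring)
    have e2 : ‖x - τ • v‖ ^ (-(d + s)) = ‖x - τ • v‖ ^ (-(d : ℝ)) * ‖x - τ • v‖ ^ (-s) := by
      rw [← Real.rpow_add hX]; congr 1; ring
    rw [e1, e2, hK2]
    ring
  rw [hJ]
  have hcont : ContinuousOn (fun τ : ℝ => ‖x - τ • v‖ ^ (-(d + s))) (Icc 0 t) := by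
    apply ContinuousOn.rpow_const
    · fun_prop
    · intro τ hτ
      left
      exact (norm_pos_iff.2 (sub_ne_zero.2 (hx τ hτ))).ne'
  have hlast : ∫⁻ τ in Icc 0 t, ENNReal.ofReal (‖x - τ • v‖ ^ (-(d + s))) =
      ENNReal.ofReal (∫ τ in (0 : ℝ)..t, ‖x - τ • v‖ ^ (-(d + s))) := by
    rw [intervalIntegral.integral_of_le ht.le, ← integral_Icc_eq_integral_Ioc,
      ofReal_integral_eq_lintegral_ofReal (hcont.integrableOn_compact isCompact_Icc)]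
    exact Eventually.of_forall fun τ => by positivity
  calc ENNReal.ofReal (K1 * ‖v‖ ^ (-(d + 3 * s))) * ∫⁻ τ in Icc 0 t, (∫⁻ M, G2 M τ ∂P)
      ≤ ENNReal.ofReal (K1 * ‖v‖ ^ (-(d + 3 * s))) * ∫⁻ τ in Icc 0 t,
        ENNReal.ofReal K2 * ENNReal.ofReal (‖x - τ • v‖ ^ (-(d + s))) :=
        mul_le_mul_right (setLIntegral_mono' measurableSet_Icc hin) _
    _ = _ := by
        rw [lintegral_const_mul' _ _ ENNReal.ofReal_ne_top, hlast,
          ← ENNReal.ofReal_mul (by positivity), ← ENNReal.ofReal_mul (by positivity)]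
        congr 1
        ring

end Pool.Agent.L0h89.FK.NCb
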