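import Pool.Agent.L0h89.FK.Defs2

/-! # NCc: many non dominant picks -/

set_option autoImplicit false

open MeasureTheory Set Filter Topology
open scoped ENNReal RealInnerProductSpace

namespace Pool.Agent.L0h89.FK.NCc

variable {s t : ℝ}

/-- the numerator of the exponent -/
lemma num_ge {d : ℕ} (M : Mat) (x v : V d) :
    det M * ‖v‖ ^ 2 ≤ (M.2.2 * ‖x‖ ^ 2 - 2 * M.2.1 * ⟪x, v⟫ + M.1 * ‖v‖ ^ 2) * M.2.2 := by
  have h : (M.2.2 * ‖x‖ ^ 2 - 2 * M.2.1 * ⟪x, v⟫ + M.1 * ‖v‖ ^ 2) * M.2.2 =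
      ‖M.2.2 • x - M.2.1 • v‖ ^ 2 + det M * ‖v‖ ^ 2 := by
    rw [norm_sub_sq_real, norm_smul, norm_smul, real_inner_smul_left, real_inner_smul_right,
      mul_pow, mul_pow, Real.norm_eq_abs, Real.norm_eq_abs, sq_abs, sq_abs]
    unfold det
    ring
  rw [h]
  nlinarith [sq_nonneg ‖M.2.2 • x - M.2.1 • v‖]

lemma g_le {d : ℕ} (M : Mat) (hc : 0 < M.2.2) (hd : 0 < det M) (x v : V d) :
    g d M x v ≤ det M ^ (-((d : ℝ) / 2)) * Real.exp (-(‖v‖ ^ 2 / (4 * M.2.2))) := by
  unfold g
  have h1 : (4 * Real.pi) ^ (-(d : ℝ)) ≤ 1 := by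
    apply Real.rpow_le_one_of_one_le_of_nonpos
    · nlinarith [Real.pi_gt_three]
    · simp
  have h2 : ‖v‖ ^ 2 / (4 * M.2.2) ≤
      (M.2.2 * ‖x‖ ^ 2 - 2 * M.2.1 * ⟪x, v⟫ + M.1 * ‖v‖ ^ 2) / (4 * det M) := by
    rw [div_le_div_iff₀ (by positivity) (by positivity)]
    have := num_ge M x v
    nlinarith
  have h3 : 0 ≤ det M ^ (-((d : ℝ) / 2)) := by positivity
  have h4 : 0 ≤ (4 * Real.pi) ^ (-(d : ℝ)) := by have := Real.pi_pos; positivity
  calc (4 * Real.pi) ^ (-(d : ℝ)) * det M ^ (-((d : ℝ) / 2)) *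
        Real.exp (-((M.2.2 * ‖x‖ ^ 2 - 2 * M.2.1 * ⟪x, v⟫ + M.1 * ‖v‖ ^ 2) / (4 * det M)))
      ≤ 1 * det M ^ (-((d : ℝ) / 2)) * Real.exp (-(‖v‖ ^ 2 / (4 * M.2.2))) := by gcongr
    _ = _ := by rw [one_mul]

/-- the small jumps -/
lemma small_jumps (hs1 : s < 1) (hs : 0 < s) (c : ℝ) (hc : 0 < c) :
    ∫⁻ p, (if 2 * p.1 < c then ENNReal.ofReal (p.1 / c) else 0) ∂(rho s t) ≤
      ENNReal.ofReal (t * (kap s / (1 - s)) * c ^ (-s)) := by
  have hk := kap_pos hs hs1
  have h1s : 0 < 1 - s := by linarith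
  have hm : Measurable (fun r : ℝ => if 2 * r < c then ENNReal.ofReal (r / c) else 0) :=
    Measurable.ite (measurableSet_lt (by fun_prop) measurable_const) (by fun_prop) measurable_const
  have e1 : ∫⁻ p, (if 2 * p.1 < c then ENNReal.ofReal (p.1 / c) else 0) ∂(rho s t) =
      (∫⁻ r, (if 2 * r < c then ENNReal.ofReal (r / c) else 0) ∂(lev s)) * ENNReal.ofReal t := by
    unfold rho
    have h2 := lintegral_prod_mul (μ := lev s) (ν := volume.restrict (Icc 0 t))
      (f := fun r : ℝ => if 2 * r < c then ENNReal.ofReal (r / c) else 0)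
      (g := fun _ => (1 : ℝ≥0∞)) hm.aemeasurable measurable_const.aemeasurable
    simp only [mul_one, lintegral_const, one_mul, Measure.restrict_apply MeasurableSet.univ,
      univ_inter, Real.volume_Icc, sub_zero] at h2
    exact h2
  rw [e1, lintegral_lev]
  have h3 : ∫⁻ r in Ioi (0 : ℝ), ENNReal.ofReal (kap s * r ^ (-1 - s)) *
      (if 2 * r < c then ENNReal.ofReal (r / c) else 0) ≤
      ∫⁻ r in Ioc (0 : ℝ) c, ENNReal.ofReal (kap s / c) * ENNReal.ofReal (r ^ (-s)) := by
    rw [← lintegral_indicator measurableSet_Ioi, ← lintegral_indicator measurableSet_Ioc]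
    apply lintegral_mono
    intro r
    by_cases hr : 0 < r
    · have hr' : r ∈ Ioi (0 : ℝ) := hr
      rw [indicator_of_mem hr']
      split_ifs with h
      · have hmem : r ∈ Ioc (0 : ℝ) c := ⟨hr, by linarith⟩
        rw [indicator_of_mem hmem, ← ENNReal.ofReal_mul (by positivity),
          ← ENNReal.ofReal_mul (by positivity)]
        apply ENNReal.ofReal_le_ofReal
        have : r ^ (-1 - s) * r = r ^ (-s) := by
          nth_rewrite 2 [← Real.rpow_one r]
          rw [← Real.rpow_add hr]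
          congr 1
          ring
        apply le_of_eq
        calc kap s * r ^ (-1 - s) * (r / c) = kap s / c * (r ^ (-1 - s) * r) := by ring
          _ = _ := by rw [this]
      · rw [mul_zero]; exact zero_le
    · have hr' : r ∉ Ioi (0 : ℝ) := hr
      rw [indicator_of_notMem hr']
      exact zero_le
  have h4 : ∫⁻ r in Ioc (0 : ℝ) c, ENNReal.ofReal (kap s / c) * ENNReal.ofReal (r ^ (-s)) =
      ENNReal.ofReal (kap s / (1 - s) * c ^ (-s)) := by
    rw [lintegral_const_mul' _ _ ENNReal.ofReal_ne_top,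
      lintegral_Ioc_rpow (-s) c (by linarith) hc.le, ← ENNReal.ofReal_mul (by positivity)]
    congr 1
    have e2 : c ^ (-s + 1) = c ^ (-s) * c := by rw [Real.rpow_add hc, Real.rpow_one]
    rw [e2]
    have h5 : -s + 1 ≠ 0 := by linarith
    have h6 : (1 - s) ≠ 0 := h1s.ne'
    have h7 : -s + 1 = 1 - s := by ring
    rw [h7]
    field_simp
  calc _ ≤ ENNReal.ofReal (kap s / (1 - s) * c ^ (-s)) * ENNReal.ofReal t := by
        gcongr
        exact h3.trans h4.le
    _ = _ := by
        rw [← ENNReal.ofReal_mul (by positivity)]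
        congr 1
        ring

/-- the induction -/
lemma induct (hs : 0 < s) (hs1 : s < 1) (ht : 0 < t) (d : ℕ) (j : ℕ) : ∃ C B : ℝ, 0 < C ∧ 0 < B ∧
    ∀ (x v : V d) (M : Mat), M ∈ cone t → 0 < det M →
    ((opN s t)^[j] (fun M => ENNReal.ofReal (g d M x v))) M ≤
      ENNReal.ofReal (C * (M.2.2 ^ (-(j * s)) * det M ^ (-((d : ℝ) / 2)) *
        Real.exp (-(‖v‖ ^ 2 / (B * M.2.2))))) := by
  induction j with
  | zero =>
    refine ⟨1, 4, one_pos, by norm_num, fun x v M hM hd => ?_⟩
    have hc := c_pos ht hM hd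
    apply ENNReal.ofReal_le_ofReal
    refine (g_le M hc hd x v).trans (le_of_eq ?_)
    simp
  | succ j ih =>
    obtain ⟨C, B, hC, hB, h⟩ := ih
    have hk := kap_pos hs hs1
    have h1s : 0 < 1 - s := by linarith
    refine ⟨C * (t * (kap s / (1 - s))), 3 / 2 * B, by positivity, by positivity,
      fun x v M hM hd => ?_⟩
    have hc := c_pos ht hM hd
    rw [Function.iterate_succ_apply']
    set f : ℝ := C * (M.2.2 ^ (-(j * s)) * det M ^ (-((d : ℝ) / 2)) *
        Real.exp (-(‖v‖ ^ 2 / (3 / 2 * B * M.2.2)))) with hf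
    have hf0 : 0 ≤ f := by positivity
    have hb : opN s t ((opN s t)^[j] (fun M => ENNReal.ofReal (g d M x v))) M ≤
        ∫⁻ p, ENNReal.ofReal f * (if 2 * p.1 < M.2.2 then ENNReal.ofReal (p.1 / M.2.2) else 0)
          ∂(rho s t) := by
      unfold opN
      apply lintegral_mono_ae
      filter_upwards [I.rho_ae s t] with p hp
      obtain ⟨r, τ⟩ := p
      have hr : 0 < r := hp.1
      split_ifs with h2
      · have hJ : M + J (r, τ) ∈ cone t := add_mem_cone ht hM (J_mem_cone hr.le hp.2.1 hp.2.2)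
        have hQ := Q_pos ht hM hd τ
        have hdJ : 0 < det (M + J (r, τ)) := by
          rw [det_add_J]; positivity
        have h3 := h x v (M + J (r, τ)) hJ hdJ
        have ec : (M + J (r, τ)).2.2 = M.2.2 + r := rfl
        have hr2 : r < M.2.2 / 2 := by
          simp only at h2
          linarith
        calc _ ≤ ENNReal.ofReal (r / (M.2.2 + r)) * ENNReal.ofReal (C *
              ((M + J (r, τ)).2.2 ^ (-(j * s)) * det (M + J (r, τ)) ^ (-((d : ℝ) / 2)) *
              Real.exp (-(‖v‖ ^ 2 / (B * (M + J (r, τ)).2.2))))) := by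
              gcongr
              exact h3
          _ ≤ ENNReal.ofReal (r / M.2.2) * ENNReal.ofReal f := by
              gcongr ?_ * ?_
              · apply ENNReal.ofReal_le_ofReal
                apply div_le_div_of_nonneg_left hr.le hc
                linarith
              · apply ENNReal.ofReal_le_ofReal
                rw [hf, ec]
                have h5 : (M.2.2 + r) ^ (-(j * s)) ≤ M.2.2 ^ (-(j * s)) :=
                  Real.rpow_le_rpow_of_nonpos hc (by linarith) (by
                    have : (0 : ℝ) ≤ j * s := by positivity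
                    linarith)
                have h6 : det (M + J (r, τ)) ^ (-((d : ℝ) / 2)) ≤ det M ^ (-((d : ℝ) / 2)) :=
                  Real.rpow_le_rpow_of_nonpos hd (by
                    rw [det_add_J]
                    have : 0 ≤ r * Q τ M := by positivity
                    linarith) (by
                    have : (0 : ℝ) ≤ (d : ℝ) / 2 := by positivity
                    linarith)
                have h7 : ‖v‖ ^ 2 / (3 / 2 * B * M.2.2) ≤ ‖v‖ ^ 2 / (B * (M.2.2 + r)) := by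
                  apply div_le_div_of_nonneg_left (by positivity) (by positivity)
                  nlinarith
                gcongr
          _ = _ := mul_comm _ _
      · rw [mul_zero]
    refine hb.trans ?_
    rw [lintegral_const_mul' _ _ ENNReal.ofReal_ne_top]
    refine (mul_le_mul' le_rfl (small_jumps (t := t) hs1 hs M.2.2 hc)).trans ?_
    rw [← ENNReal.ofReal_mul hf0]
    apply ENNReal.ofReal_le_ofReal
    apply le_of_eq
    have e3 : M.2.2 ^ (-(((j + 1 : ℕ) : ℝ) * s)) = M.2.2 ^ (-(j * s)) * M.2.2 ^ (-s) := by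
      rw [← Real.rpow_add hc]
      congr 1
      push_cast
      ring
    rw [hf, e3]
    ring

theorem main (hN1 : StmtN1) (hN2 : StmtN2) : StmtNCc := by
  intro s t P hs hs1 ht hP d hd
  obtain ⟨n, hn⟩ := exists_nat_ge (((d : ℝ) + 3 * s + 1) / (2 * s))
  obtain ⟨C, B, hC, hB, h⟩ := induct hs hs1 ht d (n + 1)
  set y : ℝ := (n + 1 : ℕ) * s + d / 2 + s / 2 with hy
  have hy0 : 0 ≤ y := by positivity
  obtain ⟨C1, hC1, hexp⟩ := exp_le_rpow y hy0
  have hmom := hN2 s t P hs hs1 ht hP ((d : ℝ) / 2) (s / 2) (by positivity) (by positivity)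
    (by linarith)
  set m : ℝ≥0∞ := ∫⁻ M, ENNReal.ofReal (M.2.2 ^ (s / 2) * th M ^ (-((d : ℝ) / 2))) ∂P with hm
  set D : ℝ := C * C1 * B ^ y with hD
  have hD0 : 0 < D := by positivity
  refine ⟨n, D * m.toReal + 1, by positivity, fun x v hv => ?_⟩
  have hv0 : 0 < ‖v‖ := by linarith
  have hR : ‖v‖ ^ (-(2 * y)) ≤ ‖v‖ ^ (-(2 * d + 4 * s + 1)) := by
    apply Real.rpow_le_rpow_of_exponent_le hv
    rw [div_le_iff₀ (by positivity)] at hn
    rw [hy]
    push_cast
    nlinarith
  calc ∫⁻ M, ((opN s t)^[n + 1] (fun M => ENNReal.ofReal (g d M x v))) M ∂P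
      ≤ ∫⁻ M, ENNReal.ofReal (D * ‖v‖ ^ (-(2 * y))) *
          ENNReal.ofReal (M.2.2 ^ (s / 2) * th M ^ (-((d : ℝ) / 2))) ∂P := by
        apply lintegral_mono_ae
        filter_upwards [hP.supp, (hN1 s t P hs hs1 ht hP).1] with M hM hM2
        have hc := hM2.1
        have hdet := hM2.2
        have hth := th_pos ht hM hdet
        refine (h x v M hM hdet).trans ?_
        rw [← ENNReal.ofReal_mul (by positivity)]
        apply ENNReal.ofReal_le_ofReal
        have hz : 0 < ‖v‖ ^ 2 / (B * M.2.2) := by positivity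
        have h1 := hexp _ hz
        have h2 : (‖v‖ ^ 2 / (B * M.2.2)) ^ (-y) = ‖v‖ ^ (-(2 * y)) * (B ^ y * M.2.2 ^ y) := by
          rw [Real.div_rpow (by positivity) (by positivity), Real.mul_rpow hB.le hc.le,
            Real.rpow_neg hB.le, Real.rpow_neg hc.le, ← Real.rpow_natCast, ← Real.rpow_mul hv0.le]
          have : ((2 : ℕ) : ℝ) * -y = -(2 * y) := by push_cast; ring
          rw [this]
          field_simp
        have h3 : det M ^ (-((d : ℝ) / 2)) = M.2.2 ^ (-((d : ℝ) / 2)) * th M ^ (-((d : ℝ) / 2)) := by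
          rw [← Real.mul_rpow hc.le hth.le]
          congr 1
          unfold th
          field_simp
        have h4 : M.2.2 ^ (-(((n + 1 : ℕ) : ℝ) * s)) * M.2.2 ^ (-((d : ℝ) / 2)) * M.2.2 ^ y =
            M.2.2 ^ (s / 2) := by
          rw [← Real.rpow_add hc, ← Real.rpow_add hc]
          congr 1
          rw [hy]
          ring
        rw [h2] at h1
        calc C * (M.2.2 ^ (-(((n + 1 : ℕ) : ℝ) * s)) * det M ^ (-((d : ℝ) / 2)) *
              Real.exp (-(‖v‖ ^ 2 / (B * M.2.2))))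
            ≤ C * (M.2.2 ^ (-(((n + 1 : ℕ) : ℝ) * s)) * det M ^ (-((d : ℝ) / 2)) *
              (C1 * (‖v‖ ^ (-(2 * y)) * (B ^ y * M.2.2 ^ y)))) := by gcongr
          _ = D * ‖v‖ ^ (-(2 * y)) * ((M.2.2 ^ (-(((n + 1 : ℕ) : ℝ) * s)) *
              M.2.2 ^ (-((d : ℝ) / 2)) * M.2.2 ^ y) * th M ^ (-((d : ℝ) / 2))) := by
              rw [h3, hD]; ring
          _ = _ := by rw [h4]
    _ = ENNReal.ofReal (D * ‖v‖ ^ (-(2 * y))) * m := by
        rw [lintegral_const_mul' _ _ ENNReal.ofReal_ne_top]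
    _ = ENNReal.ofReal (D * ‖v‖ ^ (-(2 * y)) * m.toReal) := by
        rw [ENNReal.ofReal_mul (p := D * ‖v‖ ^ (-(2 * y))) (by positivity),
          ENNReal.ofReal_toReal hmom.ne]
    _ ≤ _ := by
        apply ENNReal.ofReal_le_ofReal
        have h5 : 0 ≤ m.toReal := ENNReal.toReal_nonneg
        calc D * ‖v‖ ^ (-(2 * y)) * m.toReal = (D * m.toReal) * ‖v‖ ^ (-(2 * y)) := by ring
          _ ≤ (D * m.toReal + 1) * ‖v‖ ^ (-(2 * d + 4 * s + 1)) := by
              gcongr
              linarith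

end Pool.Agent.L0h89.FK.NCc
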