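import Pool.Agent.L0h89.FK.Fin

/-! # Directions off the cone; rays on the cone -/

set_option autoImplicit false

open MeasureTheory Set Filter Topology
open scoped ENNReal RealInnerProductSpace

namespace Pool.Agent.L0h89.FK.Fin

variable {s t : ℝ}

theorem off_cone (hs : 0 < s) (hs1 : s < 1) (ht : 0 < t) (d : ℕ) (hd : 1 ≤ d) (x v : V d)
    (hxv : ∀ τ ∈ Icc (0 : ℝ) t, x ≠ τ • v) :
    0 < H d s t x v ∧
    Tendsto (fun p : ℝ × (V d × V d) => p.1 ^ (2 * d + 4 * s) *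
      K d s t (p.1 • p.2.1) (p.1 • p.2.2)) (atTop ×ˢ 𝓝 (x, v)) (𝓝 (H d s t x v)) := by
  obtain ⟨P, hP⟩ := Pool.Agent.L0h89.FK.P.main s t hs hs1 ht
  obtain ⟨hH, hHe⟩ := Pool.Agent.L0h89.FK.H.main s t hs hs1 ht d hd x v hxv
  refine ⟨hH, ?_⟩
  have h1 := Pool.Agent.L0h89.FK.I.main N1.main s t P hs hs1 ht hP d hd x v hxv
  rw [hHe] at h1
  have h2 := (ENNReal.tendsto_toReal ENNReal.ofReal_ne_top).comp h1
  rw [ENNReal.toReal_ofReal hH.le] at h2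
  refine h2.congr' ?_
  have hev : ∀ᶠ p : ℝ × (V d × V d) in atTop ×ˢ 𝓝 (x, v), 0 < p.1 :=
    tendsto_fst.eventually (eventually_gt_atTop 0)
  filter_upwards [hev] with p hp
  simp only [Function.comp_def]
  rw [← ofReal_K hs hs1 ht hP d hd, ← ENNReal.ofReal_mul (by positivity), ENNReal.toReal_ofReal]
  exact mul_nonneg (by positivity) ((F.main Pool.Agent.L0h89.FK.P.main N1.main (R.main N1.main) s t
    hs hs1 ht d hd).1 _ _).le

/-- the integral of the stable density over a line through the origin -/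
noncomputable def Jd (d : ℕ) (s t τ₀ : ℝ) : ℝ :=
  (4 * Real.pi) ^ (-(((d : ℝ) - 1) / 2)) *
    (Real.Gamma (((d : ℝ) - 1) / (2 * s) + 1) / Real.Gamma (((d : ℝ) - 1) / 2 + 1)) *
    Aexp s t τ₀ ^ (-(((d : ℝ) - 1) / (2 * s)))

lemma line_val (hs : 0 < s) (hs1 : s < 1) (ht : 0 < t) (d : ℕ) (hd : 1 ≤ d) (τ₀ : ℝ)
    (hτ₀ : τ₀ ∈ Icc (0 : ℝ) t) (e : V d) (he : ‖e‖ = 1) :
    Integrable (fun σ : ℝ => stab d s (Aexp s t τ₀) (Real.sqrt (0 ^ 2 + σ ^ 2) • e)) ∧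
    ∫ σ : ℝ, stab d s (Aexp s t τ₀) (Real.sqrt (0 ^ 2 + σ ^ 2) • e) = Jd d s t τ₀ := by
  obtain ⟨P, hP⟩ := Pool.Agent.L0h89.FK.P.main s t hs hs1 ht
  have e1 : ∀ σ : ℝ, stab d s (Aexp s t τ₀) (Real.sqrt (0 ^ 2 + σ ^ 2) • e) =
      pst d P τ₀ (Real.sqrt (0 ^ 2 + σ ^ 2)) := fun σ =>
    (pst_eq_stab hs hs1 ht hP d hd τ₀ hτ₀ e he _ (Real.sqrt_nonneg _)).symm
  simp_rw [e1]
  exact E.main N1.main s t P hs hs1 ht hP d hd τ₀ hτ₀

lemma half_line (f : ℝ → ℝ) (hf : ∀ σ, f (-σ) = f σ) (hfi : Integrable f) :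
    ∫ σ in Ioi (0 : ℝ), f σ = 1 / 2 * ∫ σ, f σ ∧ ∫ σ in Iio (0 : ℝ), f σ = 1 / 2 * ∫ σ, f σ := by
  have h1 : ∫ σ in Iio (0 : ℝ), f σ = ∫ σ in Ioi (0 : ℝ), f σ := by
    rw [← integral_Iic_eq_integral_Iio]
    have := integral_comp_neg_Ioi (0 : ℝ) f
    rw [neg_zero] at this
    rw [← this]
    simp_rw [hf]
  have h2 : ∫ σ, f σ = (∫ σ in Iio (0 : ℝ), f σ) + ∫ σ in Ioi (0 : ℝ), f σ := by
    have := integral_add_compl (measurableSet_Iio (a := (0 : ℝ))) hfi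
    rw [← this, compl_Iio, integral_Ici_eq_integral_Ioi]
  rw [h1] at h2
  rw [h1, h2]
  constructor <;> ring

/-- rays on the cone -/
theorem ray (hs : 0 < s) (hs1 : s < 1) (ht : 0 < t) (d : ℕ) (hd : 1 ≤ d) (τ₀ : ℝ)
    (hτ₀ : τ₀ ∈ Icc (0 : ℝ) t) (v : V d) (hv : v ≠ 0) :
    Tendsto (fun l : ℝ => l ^ (d + 1 + 2 * s) * K d s t (l • (τ₀ • v)) (l • v)) atTop
      (𝓝 (‖v‖ ^ (-(d + 1 + 2 * s)) * ((if τ₀ = 0 ∨ τ₀ = t then 1 / 2 else 1) *
        (cds d s * Jd d s t τ₀)))) := by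
  have hv0 : 0 < ‖v‖ := norm_pos_iff.2 hv
  obtain ⟨e, he⟩ : ∃ e : V d, ‖e‖ = 1 := ⟨‖v‖⁻¹ • v, by
    rw [norm_smul, norm_inv, norm_norm, inv_mul_cancel₀ hv0.ne']⟩
  obtain ⟨hli, hlv⟩ := line_val hs hs1 ht d hd τ₀ hτ₀ e he
  have heven : ∀ σ : ℝ, stab d s (Aexp s t τ₀) (Real.sqrt (0 ^ 2 + (-σ) ^ 2) • e) =
      stab d s (Aexp s t τ₀) (Real.sqrt (0 ^ 2 + σ ^ 2) • e) := fun σ => by rw [neg_sq]
  obtain ⟨hh1, hh2⟩ := half_line _ heven hli
  rw [hlv] at hh1 hh2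
  -- the set
  obtain ⟨a, b, ha, hb, hab⟩ : ∃ a b : EReal,
      (∀ l : ℕ → ℝ, Tendsto l atTop atTop →
        Tendsto (fun k => ((l k * ‖v‖ * τ₀ : ℝ) : EReal)) atTop (𝓝 a)) ∧
      (∀ l : ℕ → ℝ, Tendsto l atTop atTop →
        Tendsto (fun k => ((l k * ‖v‖ * (t - τ₀) : ℝ) : EReal)) atTop (𝓝 b)) ∧
      ∫ σ in Sab a b, stab d s (Aexp s t τ₀) (Real.sqrt (0 ^ 2 + σ ^ 2) • e) =
        (if τ₀ = 0 ∨ τ₀ = t then 1 / 2 else 1) * Jd d s t τ₀ := by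
    have htop : ∀ c : ℝ, 0 < c → ∀ l : ℕ → ℝ, Tendsto l atTop atTop →
        Tendsto (fun k => ((l k * ‖v‖ * c : ℝ) : EReal)) atTop (𝓝 ⊤) := by
      intro c hc l hl
      exact EReal.tendsto_coe_nhds_top_iff.2 ((hl.atTop_mul_const hv0).atTop_mul_const hc)
    have hzero : ∀ l : ℕ → ℝ, Tendsto l atTop atTop →
        Tendsto (fun k => ((l k * ‖v‖ * 0 : ℝ) : EReal)) atTop (𝓝 0) := by
      intro l _
      simp only [mul_zero, EReal.coe_zero]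
      exact tendsto_const_nhds
    rcases hτ₀.1.lt_or_eq with h0 | h0
    · rcases hτ₀.2.lt_or_eq with h1 | h1
      · refine ⟨⊤, ⊤, htop τ₀ h0, htop (t - τ₀) (by linarith), ?_⟩
        have hS : Sab ⊤ ⊤ = univ := by
          ext σ
          simp only [Sab, mem_ofPred_eq, EReal.neg_top, EReal.bot_lt_coe, EReal.coe_lt_top, true_and,
            mem_univ]
        rw [hS, setIntegral_univ, hlv, if_neg (by rintro (h | h) <;> linarith), one_mul]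
      · refine ⟨⊤, 0, htop τ₀ h0, ?_, ?_⟩
        · rw [h1, sub_self]; exact hzero
        · have hS : Sab ⊤ 0 = Iio (0 : ℝ) := by
            ext σ
            simp only [Sab, mem_ofPred_eq, EReal.neg_top, EReal.bot_lt_coe, true_and, mem_Iio]
            exact EReal.coe_neg'
          rw [hS, hh2, if_pos (Or.inr h1)]
    · refine ⟨0, ⊤, ?_, ?_, ?_⟩
      · rw [← h0]; exact hzero
      · rw [← h0, sub_zero]; exact htop t ht
      · have hS : Sab 0 ⊤ = Ioi (0 : ℝ) := by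
          ext σ
          simp only [Sab, mem_ofPred_eq, neg_zero, EReal.coe_lt_top, and_true, mem_Ioi]
          exact EReal.coe_pos
        rw [hS, hh1, if_pos (Or.inl h0.symm)]
  apply tendsto_of_seq_tendsto
  intro l hl
  have hlpos : ∀ᶠ k in atTop, 0 < l k := hl.eventually_gt_atTop 0
  have ht0 : ∀ᶠ k in atTop, ⟪l k • (τ₀ • v), l k • v⟫ / ‖l k • v‖ ^ 2 = τ₀ := by
    filter_upwards [hlpos] with k hk
    rw [real_inner_smul_left, real_inner_smul_left, real_inner_smul_right,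
      real_inner_self_eq_norm_sq, norm_smul, Real.norm_of_nonneg hk.le, mul_pow]
    field_simp
  have hn : ∀ᶠ k in atTop, ‖l k • v‖ = l k * ‖v‖ := by
    filter_upwards [hlpos] with k hk
    rw [norm_smul, Real.norm_of_nonneg hk.le]
  obtain ⟨-, -, hmain⟩ := cone_real hs hs1 ht d hd (fun k => l k • (τ₀ • v)) (fun k => l k • v)
    τ₀ 0 a b e he
    ((hl.atTop_mul_const hv0).congr' (hn.mono fun k hk => hk.symm))
    (tendsto_const_nhds.congr' (ht0.mono fun k hk => hk.symm)) hτ₀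
    (tendsto_const_nhds.congr' (by
      filter_upwards [ht0] with k hk
      rw [hk, smul_smul, smul_smul, mul_comm, sub_self, norm_zero]))
    ((ha l hl).congr' (by
      filter_upwards [ht0, hn] with k k1 k2
      rw [k1, k2]))
    ((hb l hl).congr' (by
      filter_upwards [ht0, hn] with k k1 k2
      rw [k1, k2]))
  rw [hab] at hmain
  have h3 := hmain.const_mul (‖v‖ ^ (-(d + 1 + 2 * s)))
  have e4 : ‖v‖ ^ (-(d + 1 + 2 * s)) * (cds d s * ((if τ₀ = 0 ∨ τ₀ = t then 1 / 2 else 1) *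
      Jd d s t τ₀)) = ‖v‖ ^ (-(d + 1 + 2 * s)) * ((if τ₀ = 0 ∨ τ₀ = t then 1 / 2 else 1) *
        (cds d s * Jd d s t τ₀)) := by ring
  rw [e4] at h3
  refine h3.congr' ?_
  filter_upwards [hn, hlpos] with k k1 k2
  simp only [Function.comp_def]
  rw [k1, Real.mul_rpow k2.le hv0.le, Real.rpow_neg hv0.le]
  have : ‖v‖ ^ (d + 1 + 2 * s) ≠ 0 := by positivity
  field_simp

end Pool.Agent.L0h89.FK.Fin
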