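import Pool.Agent.L0h89.FK.Defs2
import Pool.Agent.L0h89.FK.Tools

/-! # Tl: tail moments of `c` -/

set_option autoImplicit false

open MeasureTheory Set Filter Topology
open scoped ENNReal RealInnerProductSpace

namespace Pool.Agent.L0h89.FK.Tl

/-- `E[1 - e^{-l c}] ≤ t l^s` -/
lemma one_sub {s t : ℝ} (ht : 0 < t) {P : Measure Mat} (hL : Law s t P) {l : ℝ} (hl : 0 < l) :
    ∫⁻ M, ENNReal.ofReal (1 - Real.exp (-(l * M.2.2))) ∂P ≤ ENNReal.ofReal (t * l ^ s) := by
  have hprob := hL.prob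
  have hnn : ∀ᵐ M ∂P, 0 ≤ M.2.2 := by
    filter_upwards [hL.supp] with M hM using c_nonneg ht hM
  have hmeas : Measurable fun M : Mat => Real.exp (-(l * M.2.2)) := by fun_prop
  have hint : Integrable (fun M : Mat => Real.exp (-(l * M.2.2))) P := by
    refine Integrable.of_bound hmeas.aestronglyMeasurable 1 ?_
    filter_upwards [hnn] with M hM
    rw [Real.norm_of_nonneg (Real.exp_pos _).le]
    apply Real.exp_le_one_iff.2
    have : 0 ≤ l * M.2.2 := by positivity
    linarith
  have hlap : ∫ M, Real.exp (-(l * M.2.2)) ∂P = Real.exp (-(t * l ^ s)) := by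
    have h := hL.lap 0 0 l le_rfl hl.le (by simp)
    simpa using h
  rw [← ofReal_integral_eq_lintegral_ofReal (f := fun M : Mat =>
    1 - Real.exp (-(l * M.2.2))) ((integrable_const _).sub hint), integral_sub
    (integrable_const _) hint, hlap]
  · apply ENNReal.ofReal_le_ofReal
    have := Real.one_sub_le_exp_neg (t * l ^ s)
    simp only [integral_const, probReal_univ, smul_eq_mul, mul_one]
    linarith
  · filter_upwards [hnn] with M hM
    have : Real.exp (-(l * M.2.2)) ≤ 1 := by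
      apply Real.exp_le_one_iff.2
      have : 0 ≤ l * M.2.2 := by positivity
      linarith
    simpa using this

lemma exp_aux {u : ℝ} (h0 : 0 ≤ u) (h1 : u ≤ 1) : u / 2 ≤ 1 - Real.exp (-u) := by
  have h2 := Real.add_one_le_exp u
  have h3 : Real.exp (-u) * Real.exp u = 1 := by
    rw [← Real.exp_add]; simp
  have h4 := Real.exp_pos (-u)
  have h5 : Real.exp (-u) * (u + 1) ≤ 1 :=
    (mul_le_mul_of_nonneg_left h2 h4.le).trans h3.le
  nlinarith

/-- the pointwise bound -/
lemma point {s : ℝ} (hs : 0 < s) (hs1 : s < 1) {c Y : ℝ} (hc : 0 ≤ c) (hY : 0 < Y) :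
    ENNReal.ofReal (c ^ (s / 2) * min 1 (c / Y)) ≤
      ENNReal.ofReal (2 - s) * ∫⁻ l in Ioc 0 Y⁻¹,
        ENNReal.ofReal (1 - Real.exp (-(l * c))) * ENNReal.ofReal (l ^ (-1 - s / 2)) := by
  rcases hc.eq_or_lt with h | hc
  · rw [← h, Real.zero_rpow (by positivity), zero_mul, ENNReal.ofReal_zero]
    exact bot_le
  set m : ℝ := (max c Y)⁻¹ with hm
  have hM : 0 < max c Y := lt_max_of_lt_left hc
  have hm0 : 0 < m := inv_pos.2 hM
  have hmY : m ≤ Y⁻¹ := inv_anti₀ hY (le_max_right _ _)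
  have hmc : m * c ≤ 1 := by
    rw [hm, inv_mul_le_iff₀ hM, mul_one]; exact le_max_left _ _
  have h1 : ENNReal.ofReal (c / 2 * (m ^ (-(s / 2) + 1) / (-(s / 2) + 1))) ≤
      ∫⁻ l in Ioc 0 Y⁻¹,
        ENNReal.ofReal (1 - Real.exp (-(l * c))) * ENNReal.ofReal (l ^ (-1 - s / 2)) := by
    calc ENNReal.ofReal (c / 2 * (m ^ (-(s / 2) + 1) / (-(s / 2) + 1)))
        = ∫⁻ l in Ioc 0 m, ENNReal.ofReal (c / 2) * ENNReal.ofReal (l ^ (-(s / 2))) := by
          rw [lintegral_const_mul' _ _ ENNReal.ofReal_ne_top,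
            lintegral_Ioc_rpow _ _ (by linarith) hm0.le, ENNReal.ofReal_mul (by positivity)]
      _ ≤ ∫⁻ l in Ioc 0 m,
        ENNReal.ofReal (1 - Real.exp (-(l * c))) * ENNReal.ofReal (l ^ (-1 - s / 2)) := by
          apply setLIntegral_mono' measurableSet_Ioc
          intro l hl
          have hl0 : 0 < l := hl.1
          rw [← ENNReal.ofReal_mul (by positivity), ← ENNReal.ofReal_mul' (by positivity)]
          apply ENNReal.ofReal_le_ofReal
          have h2 : l * c ≤ 1 := (mul_le_mul_of_nonneg_right hl.2 hc.le).trans hmc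
          have h3 := exp_aux (by positivity) h2
          have h4 : l ^ (-(s / 2)) = l * l ^ (-1 - s / 2) := by
            nth_rewrite 2 [← Real.rpow_one l]
            rw [← Real.rpow_add hl0]; congr 1; ring
          rw [h4]
          calc c / 2 * (l * l ^ (-1 - s / 2)) = (l * c / 2) * l ^ (-1 - s / 2) := by ring
            _ ≤ _ := mul_le_mul_of_nonneg_right h3 (by positivity)
      _ ≤ _ := lintegral_mono_set (Ioc_subset_Ioc_right hmY)
  refine le_trans ?_ (mul_le_mul_right h1 _)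
  rw [← ENNReal.ofReal_mul (by linarith)]
  apply ENNReal.ofReal_le_ofReal
  have h5 : (2 - s) * (c / 2 * (m ^ (-(s / 2) + 1) / (-(s / 2) + 1))) = c * m ^ (-(s / 2) + 1) := by
    have key : ∀ X Z : ℝ, Z ≠ 0 → 2 * Z * (c / 2 * (X / Z)) = c * X := fun X Z hZ => by
      field_simp
    have h8 : -(s / 2) + 1 ≠ 0 := by linarith
    have h9 : 2 - s = 2 * (-(s / 2) + 1) := by ring
    rw [h9]
    exact key _ _ h8
  rw [h5]
  have h6 : c ^ (s / 2) * min 1 (c / Y) ≤ c ^ (s / 2) * (c * m) := by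
    apply mul_le_mul_of_nonneg_left _ (by positivity)
    rw [hm]
    rcases le_total c Y with h | h
    · rw [max_eq_right h]
      exact (min_le_right _ _).trans (le_of_eq (div_eq_mul_inv _ _))
    · rw [max_eq_left h, mul_inv_cancel₀ hc.ne']
      exact min_le_left _ _
  refine h6.trans ?_
  have h7 : c ^ (s / 2) ≤ m ^ (-(s / 2)) := by
    rw [Real.rpow_neg hm0.le, ← Real.inv_rpow hm0.le, hm, inv_inv]
    exact Real.rpow_le_rpow hc.le (le_max_left _ _) (by positivity)
  calc c ^ (s / 2) * (c * m) ≤ m ^ (-(s / 2)) * (c * m) :=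
        mul_le_mul_of_nonneg_right h7 (by positivity)
    _ = c * (m ^ (-(s / 2)) * m ^ (1 : ℝ)) := by rw [Real.rpow_one]; ring
    _ = _ := by rw [← Real.rpow_add hm0]

/-- module Tl -/
theorem main : StmtTl := by
  intro s t P hs hs1 ht hL
  have hprob := hL.prob
  refine ⟨(2 - s) * (t / (s / 2)), by
    have : 0 < 2 - s := by linarith
    positivity, fun Y hY => ?_⟩
  have hnn : ∀ᵐ M ∂P, 0 ≤ M.2.2 := by
    filter_upwards [hL.supp] with M hM using c_nonneg ht hM
  have hmeas : Measurable (Function.uncurry fun (M : Mat) (l : ℝ) =>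
      ENNReal.ofReal (1 - Real.exp (-(l * M.2.2))) * ENNReal.ofReal (l ^ (-1 - s / 2))) := by
    have h1 : Measurable fun z : Mat × ℝ => ENNReal.ofReal (1 - Real.exp (-(z.2 * z.1.2.2))) := by
      fun_prop
    have h2 : Measurable fun z : Mat × ℝ => ENNReal.ofReal (z.2 ^ (-1 - s / 2)) := by
      fun_prop
    exact h1.mul h2
  calc ∫⁻ M, ENNReal.ofReal (M.2.2 ^ (s / 2) * min 1 (M.2.2 / Y)) ∂P
      ≤ ∫⁻ M, ENNReal.ofReal (2 - s) * (∫⁻ l in Ioc 0 Y⁻¹,
        ENNReal.ofReal (1 - Real.exp (-(l * M.2.2))) * ENNReal.ofReal (l ^ (-1 - s / 2))) ∂P := by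
        apply lintegral_mono_ae
        filter_upwards [hnn] with M hM
        exact point hs hs1 hM hY
    _ = ENNReal.ofReal (2 - s) * ∫⁻ l in Ioc 0 Y⁻¹, (∫⁻ M,
        ENNReal.ofReal (1 - Real.exp (-(l * M.2.2))) * ENNReal.ofReal (l ^ (-1 - s / 2)) ∂P) := by
        rw [lintegral_const_mul' _ _ ENNReal.ofReal_ne_top,
          lintegral_lintegral_swap hmeas.aemeasurable]
    _ ≤ ENNReal.ofReal (2 - s) * ∫⁻ l in Ioc 0 Y⁻¹,
        ENNReal.ofReal t * ENNReal.ofReal (l ^ (s / 2 - 1)) := by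
        apply mul_le_mul_right
        apply setLIntegral_mono' measurableSet_Ioc
        intro l hl
        have hl0 : 0 < l := hl.1
        rw [lintegral_mul_const _ (by fun_prop)]
        calc _ ≤ ENNReal.ofReal (t * l ^ s) * ENNReal.ofReal (l ^ (-1 - s / 2)) :=
              mul_le_mul_left (one_sub ht hL hl0) _
          _ = _ := by
              rw [← ENNReal.ofReal_mul (by positivity), ← ENNReal.ofReal_mul ht.le, mul_assoc,
                ← Real.rpow_add hl0]
              congr 3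
              ring
    _ = ENNReal.ofReal ((2 - s) * (t / (s / 2)) * Y ^ (-(s / 2))) := by
        rw [lintegral_const_mul' _ _ ENNReal.ofReal_ne_top,
          lintegral_Ioc_rpow _ _ (by linarith) (by positivity), ← ENNReal.ofReal_mul ht.le,
          ← ENNReal.ofReal_mul (by linarith)]
        congr 1
        have e : s / 2 - 1 + 1 = s / 2 := by ring
        rw [e, Real.inv_rpow hY.le, Real.rpow_neg hY.le]
        field_simp

end Pool.Agent.L0h89.FK.Tl
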