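import Pool.Agent.L0h89.FK.Ray
import Pool.Agent.L0h89.FK.Defs2

/-! # U: uniform two jump asymptotics -/

set_option autoImplicit false

open MeasureTheory Set Filter Topology
open scoped ENNReal RealInnerProductSpace

namespace Pool.Agent.L0h89.FK.U

variable {s t : ℝ}

lemma K_pos (hs : 0 < s) (hs1 : s < 1) (ht : 0 < t) (d : ℕ) (hd : 1 ≤ d) (x v : V d) :
    0 < K d s t x v :=
  (F.main Pool.Agent.L0h89.FK.P.main N1.main (R.main N1.main) s t hs hs1 ht d hd).1 x v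

lemma opD_le {P : Measure Mat} (hP : Law s t P) (hc : ∀ᵐ M ∂P, 0 < M.2.2) (h : Mat → ℝ≥0∞)
    (hh : Measurable h) : ∫⁻ M, opD s t h M ∂P ≤ ∫⁻ M, h M ∂P := by
  rw [I.mecke1 hP hc h hh]
  apply lintegral_mono
  intro M
  unfold opD
  apply lintegral_mono
  intro p
  simp only
  split_ifs
  · exact le_rfl
  · exact zero_le

/-- the upper bound -/
lemma upper (hNCa : StmtNCa) (hNCb : StmtNCb) (hNCc : StmtNCc) (hs : 0 < s) (hs1 : s < 1)
    (ht : 0 < t) {P : Measure Mat} (hP : Law s t P) (d : ℕ) (hd : 1 ≤ d) : ∃ C : ℝ, 0 ≤ C ∧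
    ∀ x v : V d, 1 ≤ ‖v‖ → (∀ τ ∈ Icc (0 : ℝ) t, x ≠ τ • v) →
    ∫⁻ M, ENNReal.ofReal (g d M x v) ∂P ≤
      (∫⁻ M, opD s t (fun M => ENNReal.ofReal (g d M x v)) M ∂P) + ENNReal.ofReal (C *
      (‖v‖ ^ (-(d + 3 * s)) * (∫ τ in (0 : ℝ)..t, ‖x - τ • v‖ ^ (-(d + s))) +
        ‖v‖ ^ (-(2 * d + 4 * s + 1)))) := by
  obtain ⟨n, C1, hC1, h1⟩ := hNCc s t P hs hs1 ht hP d hd
  obtain ⟨A, C0, hA, hC0, h0⟩ := hNCa s t P hs hs1 ht hP n
  obtain ⟨C2, hC2, h2⟩ := hNCb s t P hs hs1 ht hP d hd A hA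
  refine ⟨C0 * C2 + C1, by positivity, fun x v hv hxv => ?_⟩
  have hv0 : v ≠ 0 := by
    rintro rfl
    rw [norm_zero] at hv
    linarith
  have e0 := h0 (fun M => ENNReal.ofReal (g d M x v)) (I.g_meas d x v).ennreal_ofReal
  refine e0.trans ?_
  rw [add_assoc]
  refine add_le_add le_rfl ?_
  set I1 : ℝ := ‖v‖ ^ (-(d + 3 * s)) * (∫ τ in (0 : ℝ)..t, ‖x - τ • v‖ ^ (-(d + s))) with hI1
  set I2 : ℝ := ‖v‖ ^ (-(2 * d + 4 * s + 1)) with hI2
  have hI1p : 0 ≤ I1 := by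
    apply mul_nonneg (by positivity)
    apply intervalIntegral.integral_nonneg ht.le
    intro τ _
    positivity
  have hI2p : 0 ≤ I2 := by positivity
  calc ENNReal.ofReal C0 * opB s t A P (fun M => ENNReal.ofReal (g d M x v)) +
        ∫⁻ M, ((opN s t)^[n + 1] (fun M => ENNReal.ofReal (g d M x v))) M ∂P
      ≤ ENNReal.ofReal C0 * ENNReal.ofReal (C2 * I1) + ENNReal.ofReal (C1 * I2) := by
        gcongr
        · exact h2 x v hv0 hxv
        · exact h1 x v hv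
    _ = ENNReal.ofReal (C0 * (C2 * I1) + C1 * I2) := by
        rw [← ENNReal.ofReal_mul hC0, ← ENNReal.ofReal_add (by positivity) (by positivity)]
    _ ≤ _ := by
        apply ENNReal.ofReal_le_ofReal
        have h3 : 0 ≤ C1 * I1 := by positivity
        have h4 : 0 ≤ C0 * C2 * I2 := by positivity
        nlinarith

/-- near the cone -/
lemma near_ratio (hNCa : StmtNCa) (hNCb : StmtNCb) (hNCc : StmtNCc) (hDL : StmtDL)
    (hHL : StmtHL) (hLP : StmtLP) (hLF : StmtLF) (hER : StmtER) (hs : 0 < s) (hs1 : s < 1)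
    (ht : 0 < t) (d : ℕ) (hd : 1 ≤ d) (x v : ℕ → V d) (l : ℕ → ℝ) (τ₀ ω : ℝ) (a b : EReal)
    (hN : Near d t x v l τ₀ ω a b) (hab : -a < b) :
    Tendsto (fun k => K d s t (x k) (v k) / H d s t (x k) (v k)) atTop (𝓝 1) := by
  obtain ⟨P, hP⟩ := Pool.Agent.L0h89.FK.P.main s t hs hs1 ht
  have hc : ∀ᵐ M ∂P, 0 < M.2.2 := by
    filter_upwards [(N1.main s t P hs hs1 ht hP).1] with M hM using hM.1
  have hL0 := hLP s t hs hs1 ht d hd τ₀ ω a b hab
  have hL1 := hLF s t hs hs1 ht d hd x v l τ₀ ω a b hN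
  have hxv : ∀ k, ∀ τ ∈ Icc (0 : ℝ) t, x k ≠ τ • v k := by
    intro k τ hτ h
    have h1 := hN.far k τ hτ
    have h2 := hN.one_le k
    rw [h, sub_self, norm_zero] at h1
    linarith
  have hHp : ∀ k, 0 < H d s t (x k) (v k) := fun k =>
    (Pool.Agent.L0h89.FK.H.main s t hs hs1 ht d hd (x k) (v k) (hxv k)).1
  set sc : ℕ → ℝ := fun k => ‖v k‖ ^ (d + 1 + 2 * s) * l k ^ (d - 1 + 2 * s) with hsc
  have hscp : ∀ k, 0 < sc k := by
    intro k
    have h1 : 0 < ‖v k‖ := norm_pos_iff.2 (hN.v_ne k)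
    have h2 : 0 < l k := by linarith [hN.one_le k]
    simp only [hsc]
    positivity
  obtain ⟨C, hC, hup⟩ := upper hNCa hNCb hNCc hs hs1 ht hP d hd
  have hD := hDL s t P hs hs1 ht hP d hd x v l τ₀ ω a b hN
  have hH := hHL s t hs hs1 ht d hd x v l τ₀ ω a b hN
  have hE := hER s t hs hs1 ht d hd x v l τ₀ ω a b hN
  have hKe : ∀ k, ENNReal.ofReal (K d s t (x k) (v k)) =
      ∫⁻ M, ENNReal.ofReal (g d M (x k) (v k)) ∂P := fun k =>
    Fin.ofReal_K hs hs1 ht hP d hd (x k) (v k)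
  have hK : Tendsto (fun k => ENNReal.ofReal (sc k) * ENNReal.ofReal (K d s t (x k) (v k))) atTop
      (𝓝 (L2 d s t τ₀ ω a b)) := by
    have hE2 : Tendsto (fun k => ENNReal.ofReal (C * (sc k *
        (‖v k‖ ^ (-(d + 3 * s)) * (∫ τ in (0 : ℝ)..t, ‖x k - τ • v k‖ ^ (-(d + s))) +
        ‖v k‖ ^ (-(2 * d + 4 * s + 1)))))) atTop (𝓝 0) := by
      have := hE.const_mul C
      rw [mul_zero] at this
      rw [← ENNReal.ofReal_zero]
      exact ENNReal.tendsto_ofReal this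
    have hU := hD.add hE2
    rw [add_zero] at hU
    refine tendsto_of_tendsto_of_tendsto_of_le_of_le' hD hU ?_ ?_
    · refine Eventually.of_forall fun k => ?_
      rw [hKe]
      exact mul_le_mul' le_rfl (opD_le hP hc _ (I.g_meas d (x k) (v k)).ennreal_ofReal)
    · have hv1 : ∀ᶠ k in atTop, 1 ≤ ‖v k‖ := hN.tR.eventually_ge_atTop 1
      filter_upwards [hv1] with k hk
      rw [hKe]
      calc ENNReal.ofReal (sc k) * ∫⁻ M, ENNReal.ofReal (g d M (x k) (v k)) ∂P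
          ≤ ENNReal.ofReal (sc k) * ((∫⁻ M, opD s t
            (fun M => ENNReal.ofReal (g d M (x k) (v k))) M ∂P) + ENNReal.ofReal (C *
            (‖v k‖ ^ (-(d + 3 * s)) * (∫ τ in (0 : ℝ)..t, ‖x k - τ • v k‖ ^ (-(d + s))) +
            ‖v k‖ ^ (-(2 * d + 4 * s + 1))))) := by
            gcongr
            exact hup (x k) (v k) hk (hxv k)
        _ = _ := by
            rw [mul_add, ← ENNReal.ofReal_mul (hscp k).le]
            congr 2
            ring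
  -- to real numbers
  have hK' := (ENNReal.tendsto_toReal hL1.ne).comp hK
  have hH' := (ENNReal.tendsto_toReal hL1.ne).comp hH
  have hLr : (L2 d s t τ₀ ω a b).toReal ≠ 0 := (ENNReal.toReal_pos hL0.ne' hL1.ne).ne'
  have hR := hK'.div hH' hLr
  rw [div_self hLr] at hR
  refine hR.congr fun k => ?_
  simp only [Function.comp_def, Pi.div_apply]
  rw [ENNReal.toReal_mul, ENNReal.toReal_mul, ENNReal.toReal_ofReal (hscp k).le,
    ENNReal.toReal_ofReal (K_pos hs hs1 ht d hd _ _).le, ENNReal.toReal_ofReal (hHp k).le]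
  exact mul_div_mul_left _ _ (hscp k).ne'

/-- homogeneity of the profile -/
lemma H_homog (d : ℕ) (s t : ℝ) (r : ℝ) (hr : 0 < r) (x v : V d) :
    H d s t (r • x) (r • v) = r ^ (-(2 * d + 4 * s)) * H d s t x v := by
  unfold H
  have e1 : ∀ τ : ℝ, ‖r • x - τ • r • v‖ ^ (-(d + 2 * s)) =
      r ^ (-(d + 2 * s)) * ‖x - τ • v‖ ^ (-(d + 2 * s)) := by
    intro τ
    rw [smul_comm τ r v, ← smul_sub, norm_smul, Real.norm_of_nonneg hr.le,
      Real.mul_rpow hr.le (norm_nonneg _)]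
  have e2 : r ^ (-(2 * d + 4 * s)) = r ^ (-(d + 2 * s)) * r ^ (-(d + 2 * s)) := by
    rw [← Real.rpow_add hr]; congr 1; ring
  simp_rw [e1]
  rw [e2]
  have e3 : ∀ τ₁ τ₂ : ℝ, |τ₁ - τ₂| ^ (d + 4 * s) * (r ^ (-(d + 2 * s)) *
      ‖x - τ₁ • v‖ ^ (-(d + 2 * s))) * (r ^ (-(d + 2 * s)) * ‖x - τ₂ • v‖ ^ (-(d + 2 * s))) =
      (r ^ (-(d + 2 * s)) * r ^ (-(d + 2 * s))) * (|τ₁ - τ₂| ^ (d + 4 * s) *
        ‖x - τ₁ • v‖ ^ (-(d + 2 * s)) * ‖x - τ₂ • v‖ ^ (-(d + 2 * s))) := by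
    intro τ₁ τ₂; ring
  simp_rw [e3, intervalIntegral.integral_const_mul]
  ring

/-- continuity of the profile off the cone -/
lemma H_cont (hs : 0 < s) (hs1 : s < 1) (ht : 0 < t) (d : ℕ) (hd : 1 ≤ d) (x v : V d)
    (hxv : ∀ τ ∈ Icc (0 : ℝ) t, x ≠ τ • v) :
    Tendsto (fun z : V d × V d => H d s t z.1 z.2) (𝓝 (x, v)) (𝓝 (H d s t x v)) := by
  have h1 := (Fin.off_cone hs hs1 ht d hd x v hxv).2
  obtain ⟨m, hm, hfar⟩ := I.far ht d x v hxv
  rw [Metric.tendsto_nhds]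
  intro ε hε
  have h2 := (Metric.tendsto_nhds.1 h1) (ε / 2) (by positivity)
  have h3 : ∀ᶠ z in 𝓝 (x, v), ∀ᶠ r : ℝ in atTop, dist (r ^ (2 * d + 4 * s) *
      K d s t (r • z.1) (r • z.2)) (H d s t x v) < ε / 2 := by
    have h4 : ∀ᶠ q : (V d × V d) × ℝ in 𝓝 (x, v) ×ˢ atTop, dist (q.2 ^ (2 * d + 4 * s) *
      K d s t (q.2 • q.1.1) (q.2 • q.1.2)) (H d s t x v) < ε / 2 := by
      exact Filter.eventually_swap_iff.1 h2
    exact h4.curry
  filter_upwards [h3, hfar] with z hz hz2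
  have hoff : ∀ τ ∈ Icc (0 : ℝ) t, z.1 ≠ τ • z.2 := by
    intro τ hτ h
    have := hz2 τ hτ
    rw [h, sub_self, norm_zero] at this
    norm_num at this
    linarith
  have h5 := (Fin.off_cone hs hs1 ht d hd z.1 z.2 hoff).2
  have h6 : Tendsto (fun r : ℝ => r ^ (2 * d + 4 * s) * K d s t (r • z.1) (r • z.2)) atTop
      (𝓝 (H d s t z.1 z.2)) := by
    have h7 : Tendsto (fun r : ℝ => (r, (z.1, z.2))) atTop (atTop ×ˢ 𝓝 (z.1, z.2)) :=
      tendsto_id.prodMk tendsto_const_nhds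
    exact h5.comp h7
  have h8 : dist (H d s t z.1 z.2) (H d s t x v) ≤ ε / 2 :=
    le_of_tendsto (h6.dist tendsto_const_nhds) (hz.mono fun r hr => hr.le)
  linarith

/-- off the cone -/
lemma off_ratio (hs : 0 < s) (hs1 : s < 1) (ht : 0 < t) (d : ℕ) (hd : 1 ≤ d)
    (ρ : ℕ → ℝ) (u : ℕ → V d × V d) (x' v' : V d) (hρ : Tendsto ρ atTop atTop)
    (hu : Tendsto u atTop (𝓝 (x', v'))) (hxv : ∀ τ ∈ Icc (0 : ℝ) t, x' ≠ τ • v') :
    Tendsto (fun k => K d s t (ρ k • (u k).1) (ρ k • (u k).2) /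
      H d s t (ρ k • (u k).1) (ρ k • (u k).2)) atTop (𝓝 1) := by
  obtain ⟨hHp, h1⟩ := Fin.off_cone hs hs1 ht d hd x' v' hxv
  have h2 := h1.comp (hρ.prodMk hu)
  have h3 := (H_cont hs hs1 ht d hd x' v' hxv).comp hu
  have h4 := h2.div h3 hHp.ne'
  rw [div_self hHp.ne'] at h4
  refine h4.congr' ?_
  filter_upwards [hρ.eventually_gt_atTop 0] with k hk
  simp only [Function.comp_def, Pi.div_apply]
  rw [H_homog d s t (ρ k) hk, Real.rpow_neg hk.le]
  have h5 : ρ k ^ (2 * d + 4 * s) ≠ 0 := by positivity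
  field_simp

lemma norm_decomp {d : ℕ} (x v : V d) (hv : v ≠ 0) (τ : ℝ) :
    ‖x - τ • v‖ ^ 2 = ‖x - (⟪x, v⟫ / ‖v‖ ^ 2) • v‖ ^ 2 + ‖v‖ ^ 2 * (τ - ⟪x, v⟫ / ‖v‖ ^ 2) ^ 2 := by
  have hv' : ‖v‖ ≠ 0 := norm_ne_zero_iff.2 hv
  rw [norm_sub_sq_real, norm_sub_sq_real, inner_smul_right, inner_smul_right, norm_smul, norm_smul,
    mul_pow, mul_pow, Real.norm_eq_abs, Real.norm_eq_abs, sq_abs, sq_abs]
  field_simp
  ring

/-- the assembled uniform statement -/
theorem main (hNCa : StmtNCa) (hNCb : StmtNCb) (hNCc : StmtNCc) (hDL : StmtDL)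
    (hHL : StmtHL) (hLP : StmtLP) (hLF : StmtLF) (hER : StmtER) : StmtU := by
  intro s t hs hs1 ht d hd ε hε
  by_contra hcon
  push Not at hcon
  have hseq : ∀ k : ℕ, ∃ z : V d × V d, (∀ τ ∈ Icc (0 : ℝ) t, (k + 1 : ℝ) ≤ ‖z.1 - τ • z.2‖) ∧
      ε < |K d s t z.1 z.2 / H d s t z.1 z.2 - 1| := by
    intro k
    obtain ⟨x, v, h1, h2⟩ := hcon (k + 1)
    exact ⟨(x, v), h1, h2⟩
  choose z hz1 hz2 using hseq
  set ρ : ℕ → ℝ := fun k => ‖z k‖ with hρdef
  have h0t : (0 : ℝ) ∈ Icc (0 : ℝ) t := ⟨le_rfl, ht.le⟩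
  have hρk : ∀ k : ℕ, (k + 1 : ℝ) ≤ ρ k := by
    intro k
    have h1 := hz1 k 0 h0t
    rw [zero_smul, sub_zero] at h1
    exact h1.trans (norm_fst_le (z k))
  have hρpos : ∀ k, 0 < ρ k := fun k => by
    have : (0 : ℝ) < k + 1 := by positivity
    exact this.trans_le (hρk k)
  have hkt : Tendsto (fun k : ℕ => (k + 1 : ℝ)) atTop atTop :=
    tendsto_atTop_add_const_right _ _ tendsto_natCast_atTop_atTop
  have hρ : Tendsto ρ atTop atTop := tendsto_atTop_mono hρk hkt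
  set u : ℕ → V d × V d := fun k => (ρ k)⁻¹ • z k with hudef
  have hun : ∀ k, u k ∈ Metric.sphere (0 : V d × V d) 1 := by
    intro k
    rw [mem_sphere_zero_iff_norm, hudef]
    simp only
    rw [norm_smul, norm_inv, Real.norm_of_nonneg (hρpos k).le]
    exact inv_mul_cancel₀ (hρpos k).ne'
  obtain ⟨u', hu', φ, hφ, hlim⟩ := (isCompact_sphere (0 : V d × V d) 1).tendsto_subseq hun
  have hzu : ∀ k, z k = ρ k • u k := by
    intro k
    rw [hudef]
    simp only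
    rw [smul_smul, mul_inv_cancel₀ (hρpos k).ne', one_smul]
  have hcontra : ∀ ψ : ℕ → ℕ, ¬ Tendsto (fun k => K d s t (z (ψ k)).1 (z (ψ k)).2 /
      H d s t (z (ψ k)).1 (z (ψ k)).2) atTop (𝓝 1) := by
    intro ψ h
    obtain ⟨k, hk⟩ := ((Metric.tendsto_nhds.1 h) ε hε).exists
    have := hz2 (ψ k)
    rw [Real.dist_eq] at hk
    linarith
  by_cases hcase : ∀ τ ∈ Icc (0 : ℝ) t, u'.1 ≠ τ • u'.2
  · apply hcontra φ
    have h1 := off_ratio hs hs1 ht d hd (ρ ∘ φ) (u ∘ φ) u'.1 u'.2 (hρ.comp hφ.tendsto_atTop) hlim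
      hcase
    refine h1.congr fun k => ?_
    simp only [Function.comp_def]
    have e1 : (z (φ k)).1 = ρ (φ k) • (u (φ k)).1 := by rw [hzu (φ k)]; rfl
    have e2 : (z (φ k)).2 = ρ (φ k) • (u (φ k)).2 := by rw [hzu (φ k)]; rfl
    rw [← e1, ← e2]
  · push Not at hcase
    obtain ⟨τ', hτ', hcone⟩ := hcase
    have hu2 : u'.2 ≠ 0 := by
      intro h
      have h1 : u' = 0 := by
        apply Prod.ext
        · rw [hcone, h, smul_zero]; rfl
        · rw [h]; rfl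
      rw [h1, mem_sphere_zero_iff_norm, norm_zero] at hu'
      norm_num at hu'
    have hu2n : 0 < ‖u'.2‖ := norm_pos_iff.2 hu2
    have hl1 : Tendsto (fun k => (u (φ k)).1) atTop (𝓝 u'.1) :=
      (continuous_fst.tendsto _).comp hlim
    have hl2 : Tendsto (fun k => (u (φ k)).2) atTop (𝓝 u'.2) :=
      (continuous_snd.tendsto _).comp hlim
    have hl2n : Tendsto (fun k => ‖(u (φ k)).2‖) atTop (𝓝 ‖u'.2‖) := hl2.norm
    -- drop finitely many terms
    obtain ⟨N, hN⟩ := eventually_atTop.1 (hl2n.eventually (lt_mem_nhds hu2n))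
    set φ1 : ℕ → ℕ := fun k => φ (k + N) with hφ1
    have hφ1t : Tendsto φ1 atTop atTop := hφ.tendsto_atTop.comp (tendsto_add_atTop_nat N)
    have hshift : Tendsto (fun k : ℕ => k + N) atTop atTop := tendsto_add_atTop_nat N
    set x : ℕ → V d := fun k => (z (φ1 k)).1 with hx
    set v : ℕ → V d := fun k => (z (φ1 k)).2 with hv
    set a1 : ℕ → V d := fun k => (u (φ1 k)).1 with ha1
    set a2 : ℕ → V d := fun k => (u (φ1 k)).2 with ha2
    set r : ℕ → ℝ := fun k => ρ (φ1 k) with hr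
    have hrpos : ∀ k, 0 < r k := fun k => hρpos _
    have hrt : Tendsto r atTop atTop := hρ.comp hφ1t
    have hxa : ∀ k, x k = r k • a1 k := by
      intro k
      simp only [hx, ha1, hr]
      rw [hzu (φ1 k)]; rfl
    have hva : ∀ k, v k = r k • a2 k := by
      intro k
      simp only [hv, ha2, hr]
      rw [hzu (φ1 k)]; rfl
    have ht1 : Tendsto a1 atTop (𝓝 u'.1) := hl1.comp hshift
    have ht2 : Tendsto a2 atTop (𝓝 u'.2) := hl2.comp hshift
    have ht2n : Tendsto (fun k => ‖a2 k‖) atTop (𝓝 ‖u'.2‖) := ht2.norm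
    have ha2n : ∀ k, 0 < ‖a2 k‖ := fun k => hN (k + N) (Nat.le_add_left _ _)
    have hvn : ∀ k, ‖v k‖ = r k * ‖a2 k‖ := by
      intro k
      rw [hva, norm_smul, Real.norm_of_nonneg (hrpos k).le]
    have hv0 : ∀ k, v k ≠ 0 := by
      intro k
      rw [← norm_pos_iff, hvn]
      exact mul_pos (hrpos k) (ha2n k)
    have hvt : Tendsto (fun k => ‖v k‖) atTop atTop := by
      simp_rw [hvn]
      exact hrt.atTop_mul_pos hu2n ht2n
    have hτe : ∀ k, ⟪x k, v k⟫ / ‖v k‖ ^ 2 = ⟪a1 k, a2 k⟫ / ‖a2 k‖ ^ 2 := by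
      intro k
      rw [hvn, hxa, hva, real_inner_smul_left, real_inner_smul_right]
      have h1 := (hrpos k).ne'
      have h2 := (ha2n k).ne'
      field_simp
    have hτt : Tendsto (fun k => ⟪x k, v k⟫ / ‖v k‖ ^ 2) atTop (𝓝 τ') := by
      simp_rw [hτe]
      have h1 : Tendsto (fun k => ⟪a1 k, a2 k⟫ / ‖a2 k‖ ^ 2) atTop
          (𝓝 (⟪u'.1, u'.2⟫ / ‖u'.2‖ ^ 2)) :=
        (ht1.inner ht2).div (ht2n.pow 2) (by positivity)
      have h2 : ⟪u'.1, u'.2⟫ / ‖u'.2‖ ^ 2 = τ' := by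
        rw [hcone, real_inner_smul_left, real_inner_self_eq_norm_sq]
        field_simp
      rwa [h2] at h1
    -- the distance
    have hmin : ∀ k, ∃ τs ∈ Icc (0 : ℝ) t, IsMinOn (fun τ : ℝ => ‖x k - τ • v k‖) (Icc 0 t) τs :=
      fun k => isCompact_Icc.exists_isMinOn (nonempty_Icc.2 ht.le) (by fun_prop)
    choose τs hτs hτsmin using hmin
    set l : ℕ → ℝ := fun k => ‖x k - τs k • v k‖ with hl
    have hlfar : ∀ k, ∀ τ ∈ Icc (0 : ℝ) t, l k ≤ ‖x k - τ • v k‖ := fun k τ hτ => hτsmin k hτ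
    have hlk : ∀ k, ((φ1 k : ℕ) + 1 : ℝ) ≤ l k := fun k => hz1 (φ1 k) (τs k) (hτs k)
    have hl1' : ∀ k, 1 ≤ l k := fun k => by
      have h1 := hlk k
      have h2 : (0 : ℝ) ≤ ((φ1 k : ℕ) : ℝ) := Nat.cast_nonneg _
      linarith
    have hlt : Tendsto l atTop atTop := tendsto_atTop_mono hlk (hkt.comp hφ1t)
    have hlR : Tendsto (fun k => l k / ‖v k‖) atTop (𝓝 0) := by
      have h1 : Tendsto (fun k => ‖a1 k - τ' • a2 k‖ / ‖a2 k‖) atTop
          (𝓝 (‖u'.1 - τ' • u'.2‖ / ‖u'.2‖)) :=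
        ((ht1.sub (ht2.const_smul τ')).norm).div ht2n hu2n.ne'
      rw [hcone, sub_self, norm_zero, zero_div] at h1
      refine squeeze_zero (fun k => by
        have := hl1' k
        positivity) (fun k => ?_) h1
      have h2 : l k ≤ r k * ‖a1 k - τ' • a2 k‖ := by
        refine (hlfar k τ' hτ').trans (le_of_eq ?_)
        rw [hxa, hva, smul_comm τ' (r k) (a2 k), ← smul_sub, norm_smul,
          Real.norm_of_nonneg (hrpos k).le]
      rw [hvn, div_le_div_iff₀ (mul_pos (hrpos k) (ha2n k)) (ha2n k)]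
      calc l k * ‖a2 k‖ ≤ (r k * ‖a1 k - τ' • a2 k‖) * ‖a2 k‖ :=
            mul_le_mul_of_nonneg_right h2 (norm_nonneg _)
        _ = _ := by ring
    -- the parameters
    set τk : ℕ → ℝ := fun k => ⟪x k, v k⟫ / ‖v k‖ ^ 2 with hτk
    have hdec : ∀ k τ, ‖x k - τ • v k‖ ^ 2 = ‖x k - τk k • v k‖ ^ 2 +
        ‖v k‖ ^ 2 * (τ - τk k) ^ 2 := fun k τ => norm_decomp (x k) (v k) (hv0 k) τ
    have hw : ∀ k, ‖x k - τk k • v k‖ ≤ l k := by
      intro k
      have h1 := hdec k (τs k)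
      have h2 : 0 ≤ ‖v k‖ ^ 2 * (τs k - τk k) ^ 2 := by positivity
      have h3 : 0 ≤ l k := by linarith [hl1' k]
      apply le_of_sq_le_sq _ h3
      rw [hl] at *
      simp only at *
      linarith
    have hRτ : ∀ k, ‖v k‖ * |τs k - τk k| ≤ l k := by
      intro k
      have h1 := hdec k (τs k)
      have h2 : 0 ≤ ‖x k - τk k • v k‖ ^ 2 := by positivity
      have h3 : 0 ≤ l k := by linarith [hl1' k]
      apply le_of_sq_le_sq _ h3
      rw [mul_pow, sq_abs]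
      rw [hl] at *
      simp only at *
      linarith
    set A : ℕ → ℝ := fun k => ‖v k‖ * τk k / l k with hA
    set B : ℕ → ℝ := fun k => ‖v k‖ * (t - τk k) / l k with hB
    have hlpos : ∀ k, 0 < l k := fun k => by linarith [hl1' k]
    have hvpos : ∀ k, 0 < ‖v k‖ := fun k => norm_pos_iff.2 (hv0 k)
    have hA1 : ∀ k, -1 ≤ A k := by
      intro k
      simp only [hA]
      rw [le_div_iff₀ (hlpos k)]
      have h1 := hRτ k
      have h2 := (abs_le.1 (le_of_eq (rfl : |τs k - τk k| = |τs k - τk k|))).2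
      have h3 : ‖v k‖ * (τs k - τk k) ≤ l k :=
        (mul_le_mul_of_nonneg_left h2 (hvpos k).le).trans h1
      have h4 : 0 ≤ ‖v k‖ * τs k := mul_nonneg (hvpos k).le (hτs k).1
      nlinarith
    have hB1 : ∀ k, -1 ≤ B k := by
      intro k
      simp only [hB]
      rw [le_div_iff₀ (hlpos k)]
      have h1 := hRτ k
      have h2 := (abs_le.1 (le_of_eq (rfl : |τs k - τk k| = |τs k - τk k|))).1
      have h3 : ‖v k‖ * (-(τs k - τk k)) ≤ l k :=
        (mul_le_mul_of_nonneg_left (by linarith) (hvpos k).le).trans h1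
      have h4 : 0 ≤ ‖v k‖ * (t - τs k) := mul_nonneg (hvpos k).le (by linarith [(hτs k).2])
      nlinarith
    have hmem : ∀ k, (‖x k - τk k • v k‖ / l k, ((A k : EReal), (B k : EReal))) ∈
        (Icc (0 : ℝ) 1) ×ˢ ((univ : Set EReal) ×ˢ (univ : Set EReal)) := by
      intro k
      refine ⟨⟨by have := hlpos k; positivity, ?_⟩, trivial, trivial⟩
      exact (div_le_one (hlpos k)).2 (hw k)
    obtain ⟨⟨ω, a, b⟩, -, φ2, hφ2, hlim2⟩ := (isCompact_Icc.prod
      (isCompact_univ.prod isCompact_univ)).tendsto_subseq hmem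
    have hω : Tendsto (fun k => ‖x (φ2 k) - τk (φ2 k) • v (φ2 k)‖ / l (φ2 k)) atTop (𝓝 ω) :=
      (continuous_fst.tendsto _).comp hlim2
    have ha : Tendsto (fun k => ((A (φ2 k) : ℝ) : EReal)) atTop (𝓝 a) :=
      ((continuous_fst.comp continuous_snd).tendsto _).comp hlim2
    have hb : Tendsto (fun k => ((B (φ2 k) : ℝ) : EReal)) atTop (𝓝 b) :=
      ((continuous_snd.comp continuous_snd).tendsto _).comp hlim2
    have hφ2t := hφ2.tendsto_atTop
    have hnear : Near d t (fun k => x (φ2 k)) (fun k => v (φ2 k)) (fun k => l (φ2 k)) τ' ω a b :=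
      ⟨fun k => hl1' _, fun k => hv0 _, hvt.comp hφ2t, hlt.comp hφ2t, hlR.comp hφ2t,
        hτt.comp hφ2t, hτ', hω, fun k => hlfar _, ha, hb⟩
    -- the limits
    have ha1' : ((-1 : ℝ) : EReal) ≤ a := ge_of_tendsto' ha fun k => EReal.coe_le_coe_iff.2 (hA1 _)
    have hb1' : ((-1 : ℝ) : EReal) ≤ b := ge_of_tendsto' hb fun k => EReal.coe_le_coe_iff.2 (hB1 _)
    have hsum : Tendsto (fun k => A (φ2 k) + B (φ2 k)) atTop atTop := by
      have e1 : ∀ k, A k + B k = t * (l k / ‖v k‖)⁻¹ := by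
        intro k
        simp only [hA, hB]
        have h1 := (hlpos k).ne'
        have h2 := (hvpos k).ne'
        field_simp
        ring
      have h1 : Tendsto (fun k => l k / ‖v k‖) atTop (𝓝[>] 0) := by
        rw [tendsto_nhdsWithin_iff]
        exact ⟨hlR, Eventually.of_forall fun k => div_pos (hlpos k) (hvpos k)⟩
      have h2 : Tendsto (fun k => A k + B k) atTop atTop := by
        simp_rw [e1]
        exact (tendsto_inv_nhdsGT_zero.comp h1).const_mul_atTop ht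
      exact h2.comp hφ2t
    have htop : a = ⊤ ∨ b = ⊤ := by
      by_contra hno
      push Not at hno
      obtain ⟨hna, hnb⟩ := hno
      have hab1 : a ≠ ⊥ := fun h => by
        rw [h] at ha1'
        exact absurd ha1' (not_le.2 (EReal.bot_lt_coe _))
      have hbb1 : b ≠ ⊥ := fun h => by
        rw [h] at hb1'
        exact absurd hb1' (not_le.2 (EReal.bot_lt_coe _))
      lift a to ℝ using ⟨hna, hab1⟩
      lift b to ℝ using ⟨hnb, hbb1⟩
      have h1 : Tendsto (fun k => A (φ2 k)) atTop (𝓝 a) := EReal.tendsto_coe.1 ha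
      have h2 : Tendsto (fun k => B (φ2 k)) atTop (𝓝 b) := EReal.tendsto_coe.1 hb
      exact not_tendsto_nhds_of_tendsto_atTop hsum _ (h1.add h2)
    have hab : -a < b := by
      rcases htop with h | h
      · rw [h, EReal.neg_top]
        exact lt_of_lt_of_le (EReal.bot_lt_coe _) hb1'
      · rw [h, lt_top_iff_ne_top]
        intro h1
        rw [EReal.neg_eq_top_iff] at h1
        rw [h1] at ha1'
        exact absurd ha1' (not_le.2 (EReal.bot_lt_coe _))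
    have hfin := near_ratio hNCa hNCb hNCc hDL hHL hLP hLF hER hs hs1 ht d hd _ _ _ τ' ω a b hnear
      hab
    exact hcontra (fun k => φ1 (φ2 k)) hfin

end Pool.Agent.L0h89.FK.U
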